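import Pool.Agent.Lib.MP_bf69bb_co.Defs

set_option autoImplicit false

namespace Pool.Agent.Lib.MP_bf69bb_co

open Finset

abbrev E := Sym2 ℕ

def gr (F : Finset E) : SimpleGraph ℕ := SimpleGraph.fromEdgeSet (F : Set E)

lemma gr_adj {F : Finset E} {x y : ℕ} : (gr F).Adj x y ↔ s(x, y) ∈ F ∧ x ≠ y := by
  simp [gr, SimpleGraph.fromEdgeSet_adj]

lemma gr_mono {F G : Finset E} (h : F ⊆ G) : gr F ≤ gr G := fun _ _ hxy =>
  gr_adj.2 ⟨h (gr_adj.1 hxy).1, (gr_adj.1 hxy).2⟩

def A (q : ℕ) (F : Finset E) : Prop := ¬ (gr F).CliqueFree q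

lemma A.mono {q : ℕ} {F G : Finset E} (h : A q F) (hFG : F ⊆ G) : A q G :=
  fun hG => h (hG.anti (gr_mono hFG))

lemma not_A_empty {q : ℕ} (hq : 2 ≤ q) : ¬ A q ∅ := by
  have : gr ∅ = ⊥ := by
    ext x y
    simp [gr_adj]
  rw [A, not_not, this]
  exact SimpleGraph.cliqueFree_bot hq

def Free (F S : Finset E) (x : E) : Prop := ¬ x.IsDiag ∧ x ∉ F ∧ x ∉ S

lemma Free.symm {F S : Finset E} {x : E} (h : Free F S x) : Free S F x := ⟨h.1, h.2.2, h.2.1⟩

lemma exists_free (F S : Finset E) : ∃ x, Free F S x := by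
  have hinj : Function.Injective (fun n : ℕ => (s(0, n + 1) : E)) := by
    intro a b hab
    simp only [Sym2.eq_iff] at hab
    omega
  obtain ⟨x, ⟨n, rfl⟩, hx⟩ := (Set.infinite_range_of_injective hinj).exists_notMem_finset (F ∪ S)
  refine ⟨_, ?_, fun h => hx (mem_union_left _ h), fun h => hx (mem_union_right _ h)⟩
  simp

/-- player `p`, owning `F`, wins within `t` steps from step `i` -/
def W (q : ℕ) (s : ℕ → Bool) (p : Bool) : ℕ → ℕ → Finset E → Finset E → Prop
  | 0, _, _, _ => False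
  | t + 1, i, F, S =>
    (s i = p → ∃ x, Free F S x ∧ (A q (insert x F) ∨ W q s p t (i + 1) (insert x F) S)) ∧
    (s i ≠ p → ∀ x, Free F S x → ¬ A q (insert x S) ∧ W q s p t (i + 1) F (insert x S))

variable {q : ℕ} {s : ℕ → Bool} {p : Bool}

lemma W.succ : ∀ {t i : ℕ} {F S : Finset E}, W q s p t i F S → W q s p (t + 1) i F S := by
  intro t
  induction t with
  | zero => intro i F S h; exact h.elim
  | succ t ih =>
    intro i F S h
    refine ⟨fun hs => ?_, fun hs x hx => ⟨(h.2 hs x hx).1, ih (h.2 hs x hx).2⟩⟩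
    obtain ⟨x, hx, h⟩ := h.1 hs
    exact ⟨x, hx, h.imp id ih⟩

lemma W.le {t t' i : ℕ} {F S : Finset E} (h : W q s p t i F S) (ht : t ≤ t') :
    W q s p t' i F S := by
  induction ht with
  | refl => exact h
  | step _ ih => exact ih.succ

lemma W.mono : ∀ {t i : ℕ} {F S F' S' : Finset E}, W q s p t i F S → F ⊆ F' → S' ⊆ S →
    W q s p t i F' S' := by
  intro t
  induction t with
  | zero => intro i F S F' S' h; exact h.elim
  | succ t ih =>
    intro i F S F' S' h hF hS
    refine ⟨fun hs => ?_, fun hs x hx => ?_⟩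
    · obtain ⟨x, hx, h⟩ := h.1 hs
      obtain ⟨y, hy, hxy⟩ : ∃ y, Free F' S' y ∧ insert x F ⊆ insert y F' := by
        by_cases hxF : x ∈ F'
        · obtain ⟨y, hy⟩ := exists_free F' S'
          exact ⟨y, hy, (insert_subset hxF hF).trans (subset_insert _ _)⟩
        · exact ⟨x, ⟨hx.1, hxF, fun hh => hx.2.2 (hS hh)⟩, insert_subset_insert _ hF⟩
      exact ⟨y, hy, h.imp (fun hA => hA.mono hxy) (fun hw => ih hw hxy hS)⟩
    · obtain ⟨y, hy, hxy⟩ : ∃ y, Free F S y ∧ insert x S' ⊆ insert y S := by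
        by_cases hxS : x ∈ S
        · obtain ⟨y, hy⟩ := exists_free F S
          exact ⟨y, hy, (insert_subset hxS hS).trans (subset_insert _ _)⟩
        · exact ⟨x, ⟨hx.1, fun hh => hx.2.1 (hF hh), hxS⟩, insert_subset_insert _ hS⟩
      obtain ⟨h1, h2⟩ := h.2 hs y hy
      exact ⟨fun hA => h1 (hA.mono hxy), ih h2 hF hxy⟩

lemma W.shift {s' : ℕ → Bool} {p' : Bool} : ∀ {t i i' : ℕ} {F S : Finset E},
    (∀ k < t, (s (i + k) = p ↔ s' (i' + k) = p')) → W q s p t i F S → W q s' p' t i' F S := by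
  intro t
  induction t with
  | zero => intro i i' F S _ h; exact h.elim
  | succ t ih =>
    intro i i' F S hk h
    have h0 : s i = p ↔ s' i' = p' := hk 0 (by omega)
    have hk' : ∀ k < t, (s (i + 1 + k) = p ↔ s' (i' + 1 + k) = p') := fun k hkt => by
      have := hk (k + 1) (by omega)
      rwa [show i + (k + 1) = i + 1 + k by omega, show i' + (k + 1) = i' + 1 + k by omega] at this
    refine ⟨fun hs => ?_, fun hs x hx => ?_⟩
    · obtain ⟨x, hx, h⟩ := h.1 (h0.2 hs)
      exact ⟨x, hx, h.imp id (ih hk')⟩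
    · obtain ⟨h1, h2⟩ := h.2 (fun hh => hs (h0.1 hh)) x hx
      exact ⟨h1, ih hk' h2⟩

lemma W.not_both : ∀ {t t' i : ℕ} {F S : Finset E}, W q s p t i F S → W q s (!p) t' i S F →
    False := by
  intro t
  induction t with
  | zero => intro t' i F S h; exact h.elim
  | succ t ih =>
    intro t' i F S h h'
    cases t' with
    | zero => exact h'.elim
    | succ t' =>
      by_cases hs : s i = p
      · obtain ⟨x, hx, h⟩ := h.1 hs
        obtain ⟨h1, h2⟩ := h'.2 (by simp [hs]) x hx.symm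
        exact h.elim h1 (fun h => ih h h2)
      · obtain ⟨x, hx, h'⟩ := h'.1 (Bool.eq_not.2 hs)
        obtain ⟨h1, h2⟩ := h.2 hs x hx.symm
        exact h'.elim h1 (fun h' => ih h2 h')

/-- strategy stealing, finite horizon -/
lemma steal (q t : ℕ) : ¬ W q (fun i => decide (i % 2 = 0)) false t 0 ∅ ∅ := by
  intro h
  cases t with
  | zero => exact h.elim
  | succ t =>
    obtain ⟨x, hx⟩ := exists_free ∅ ∅
    have h1 := (h.2 (by simp) x hx).2
    have h2 : W q (fun i => decide (i % 2 = 0)) true t 0 ∅ (insert x ∅) :=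
      h1.shift (fun k _ => by
        simp only [decide_eq_false_iff_not, decide_eq_true_eq]
        omega)
    exact (h2.mono (Subset.refl _) (empty_subset _)).not_both h

lemma gr_image (π : Equiv.Perm ℕ) (F : Finset E) :
    gr (F.image (Sym2.map π)) = (gr F).map π.toEmbedding := by
  ext x y
  rw [gr_adj, SimpleGraph.map_adj]
  constructor
  · rintro ⟨h, hne⟩
    obtain ⟨z, hz, hzz⟩ := mem_image.1 h
    refine ⟨π.symm x, π.symm y, gr_adj.2 ⟨?_, fun hh => hne (π.symm.injective hh)⟩, by simp, by simp⟩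
    have : z = s(π.symm x, π.symm y) := by
      apply Sym2.map.injective π.injective
      rw [hzz]
      simp
    exact this ▸ hz
  · rintro ⟨a, b, hab, rfl, rfl⟩
    rw [gr_adj] at hab
    exact ⟨mem_image.2 ⟨_, hab.1, by simp⟩, fun hh => hab.2 (π.injective hh)⟩

lemma A_image (π : Equiv.Perm ℕ) (F : Finset E) :
    A q (F.image (Sym2.map π)) ↔ A q F := by
  rw [A, A, gr_image, SimpleGraph.cliqueFree_map_iff]

lemma free_image (π : Equiv.Perm ℕ) (F S : Finset E) (x : E) :
    Free (F.image (Sym2.map π)) (S.image (Sym2.map π)) (Sym2.map π x) ↔ Free F S x := by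
  have hinj : Function.Injective (Sym2.map π) := Sym2.map.injective π.injective
  simp only [Free, Sym2.isDiag_map π.injective, hinj.mem_finset_image]

lemma W.image (π : Equiv.Perm ℕ) : ∀ {t i : ℕ} {F S : Finset E}, W q s p t i F S →
    W q s p t i (F.image (Sym2.map π)) (S.image (Sym2.map π)) := by
  intro t
  induction t with
  | zero => intro i F S h; exact h.elim
  | succ t ih =>
    intro i F S h
    refine ⟨fun hs => ?_, fun hs y hy => ?_⟩
    · obtain ⟨x, hx, h⟩ := h.1 hs
      refine ⟨Sym2.map π x, (free_image π F S x).2 hx, ?_⟩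
      rw [← image_insert]
      exact h.imp (A_image π _).2 ih
    · obtain ⟨x, rfl⟩ : ∃ x, Sym2.map π x = y := ⟨Sym2.map π.symm y, by simp [Sym2.map_map]⟩
      obtain ⟨h1, h2⟩ := h.2 hs x ((free_image π F S x).1 hy)
      rw [← image_insert]
      exact ⟨fun hA => h1 ((A_image π _).1 hA), ih h2⟩

lemma exists_perm (n a b : ℕ) (hab : a ≠ b) :
    ∃ π : Equiv.Perm ℕ, (∀ c < n, π c = c) ∧ π a < n + 2 ∧ π b < n + 2 := by
  have key : ∀ a b : ℕ, a ≠ b → a ≤ n →
      ∃ π : Equiv.Perm ℕ, (∀ c < n, π c = c) ∧ π a < n + 2 ∧ π b < n + 2 := by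
    intro a b hab ha
    by_cases hb : b ≤ n
    · exact ⟨1, fun _ _ => rfl, by simp; omega, by simp; omega⟩
    · refine ⟨Equiv.swap b (n + 1), fun c hc => Equiv.swap_apply_of_ne_of_ne (by omega) (by omega),
        ?_, by simp⟩
      rw [Equiv.swap_apply_of_ne_of_ne hab (by omega)]
      omega
  by_cases ha : a ≤ n
  · exact key a b hab ha
  · obtain ⟨π, h1, h2, h3⟩ := key (Equiv.swap a n a) (Equiv.swap a n b)
      (fun hh => hab ((Equiv.swap a n).injective hh)) (by simp)
    refine ⟨π * Equiv.swap a n, fun c hc => ?_, h2, h3⟩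
    rw [Equiv.Perm.mul_apply, Equiv.swap_apply_of_ne_of_ne (by omega) (by omega), h1 c hc]

lemma image_eq_self {n : ℕ} {π : Equiv.Perm ℕ} (hπ : ∀ c < n, π c = c) {F : Finset E}
    (hF : ∀ x ∈ F, ∀ c ∈ x, c < n) : F.image (Sym2.map π) = F := by
  rw [image_congr (g := id), image_id]
  intro x hx
  have := hF x hx
  induction x using Sym2.ind with
  | h a b => simp [hπ a (this a (by simp)), hπ b (this b (by simp))]

/-- compactness step -/
lemma compact_step {i : ℕ} {F S : Finset E}
    (h : ∀ x, Free F S x → ∃ t, W q s p t i F (insert x S)) :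
    ∃ t, ∀ x, Free F S x → W q s p t i F (insert x S) := by
  classical
  obtain ⟨n, hn⟩ : ∃ n, ∀ x ∈ F ∪ S, ∀ c ∈ x, c < n := by
    obtain ⟨n, hn⟩ := ((F ∪ S).biUnion Sym2.toFinset).exists_le
    refine ⟨n + 1, fun x hx c hc => Nat.lt_succ_of_le (hn c (mem_biUnion.2 ⟨x, hx, ?_⟩))⟩
    simpa using hc
  choose! τ hτ using h
  refine ⟨((range (n + 2)).sym2).sup τ, fun x hx => ?_⟩
  induction x using Sym2.ind with
  | h a b =>
    obtain ⟨π, h1, h2, h3⟩ := exists_perm n a b (by simpa using hx.1)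
    have hF := image_eq_self h1 (F := F) (fun x hx => hn x (mem_union_left _ hx))
    have hS := image_eq_self h1 (F := S) (fun x hx => hn x (mem_union_right _ hx))
    have hfree : Free F S (Sym2.map π s(a, b)) := by
      have := (free_image π F S _).2 hx
      rwa [hF, hS] at this
    have hw := (hτ _ hfree).le (le_sup (f := τ) (s := (range (n + 2)).sym2) (by simp [h2, h3]))
    have h1' : ∀ c < n, π.symm c = c := fun c hc => by
      rw [Equiv.symm_apply_eq, h1 c hc]
    have := hw.image π.symm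
    rw [image_insert, image_eq_self h1' (F := F) (fun x hx => hn x (mem_union_left _ hx)),
      image_eq_self h1' (F := S) (fun x hx => hn x (mem_union_right _ hx))] at this
    simpa using this

end Pool.Agent.Lib.MP_bf69bb_co
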