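import Mathlib

set_option autoImplicit false

namespace Pool.Agent.Lib.MP_bf69bb_co

/-- Step `i` of the play `e` claims an edge that was not claimed before. -/
def Legal (e : ℕ → Sym2 ℕ) (i : ℕ) : Prop := ¬ (e i).IsDiag ∧ ∀ j < i, e j ≠ e i

/-- The edges claimed by player `p` in the first `m` steps contain a `K_q`;
`s i` is the player who makes step `i`. -/
def Owns (q : ℕ) (s : ℕ → Bool) (p : Bool) (e : ℕ → Sym2 ℕ) (m : ℕ) : Prop :=
  ¬ (SimpleGraph.fromEdgeSet {x | ∃ i < m, s i = p ∧ e i = x}).CliqueFree q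

/-- Player `p` has a strategy that, against all legal moves of the other player, completes a `K_q`
first, after a number `m` of steps with `m ≤ T`. -/
def Wins (q : ℕ) (s : ℕ → Bool) (p : Bool) (T : ℕ∞) : Prop :=
  ∃ σ : List (Sym2 ℕ) → Sym2 ℕ, ∀ e : ℕ → Sym2 ℕ,
    (∀ i, s i = p → e i = σ ((List.range i).map e)) → (∀ i, s i ≠ p → Legal e i) →
      ∃ m : ℕ, (m : ℕ∞) ≤ T ∧ (∀ i < m, Legal e i) ∧ Owns q s p e m ∧ ¬ Owns q s (!p) e m

end Pool.Agent.Lib.MP_bf69bb_co
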