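import Pool.Agent.Lib.MP_4a944d_co.NPar
import Pool.Agent.Lib.MP_bf69bb_co.Defs

/-! The second player follows the potential. -/

set_option autoImplicit false

namespace Pool.Agent.Lib.MP_bf69bb_co.Ex

open Finset Pool.Agent.Lib.MP_4a944d_co.Hc

/-- The pairs claimed in the first `i` steps at the steps of parity `p`, smaller end first. -/
def ep (p : ℕ) (e : ℕ → Sym2 ℕ) (i : ℕ) : Finset (ℕ × ℕ) :=
  ((range i).filter fun j => j % 2 = p).image fun j => ((e j).inf, (e j).sup)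

variable {p i : ℕ} {e : ℕ → Sym2 ℕ}

lemma mem_ep {x : ℕ × ℕ} : x ∈ ep p e i ↔ ∃ j < i, j % 2 = p ∧ ((e j).inf, (e j).sup) = x := by
  simp only [ep, mem_image, mem_filter, mem_range, and_assoc]

lemma ep_list : ep p (fun j => ((List.range i).map e).getD j s(0, 0))
    ((List.range i).map e).length = ep p e i := by
  unfold ep
  rw [List.length_map, List.length_range]
  refine image_congr fun j hj => ?_
  have : j < i := mem_range.1 (mem_filter.1 (mem_coe.1 hj)).1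
  simp [this]

lemma ep_yes (h : i % 2 = p) : ep p e (i + 1) = insert ((e i).inf, (e i).sup) (ep p e i) := by
  unfold ep
  rw [range_add_one, filter_insert, if_pos h, image_insert]

lemma ep_no (h : i % 2 ≠ p) : ep p e (i + 1) = ep p e i := by
  unfold ep
  rw [range_add_one, filter_insert, if_neg h]

lemma mk_eq (z : Sym2 ℕ) : s(z.inf, z.sup) = z := by
  induction z using Sym2.ind with
  | _ a b => rcases le_total a b with h | h <;> simp [h]

lemma od_inj {z w : Sym2 ℕ} (h : (z.inf, z.sup) = (w.inf, w.sup)) : z = w := by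
  rw [← mk_eq z, ← mk_eq w, (Prod.mk.inj h).1, (Prod.mk.inj h).2]

lemma od_lt {z : Sym2 ℕ} : z.inf < z.sup ↔ ¬ z.IsDiag := by
  induction z using Sym2.ind with
  | _ a b => simp only [Sym2.inf_mk, Sym2.sup_mk, Sym2.mk_isDiag_iff, inf_lt_sup, ne_eq]

/-- an unclaimed pair -/
def Fr (F S : Finset (ℕ × ℕ)) (z : Sym2 ℕ) : Prop :=
  z.inf < z.sup ∧ (z.inf, z.sup) ∉ F ∧ (z.inf, z.sup) ∉ S

lemma legal_iff : Legal e i ↔ Fr (ep 1 e i) (ep 0 e i) (e i) := by
  refine ⟨fun h => ⟨od_lt.2 h.1, fun hh => ?_, fun hh => ?_⟩,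
    fun h => ⟨od_lt.1 h.1, fun j hj hh => ?_⟩⟩
  · obtain ⟨j, h1, -, h2⟩ := mem_ep.1 hh
    exact h.2 j h1 (od_inj h2)
  · obtain ⟨j, h1, -, h2⟩ := mem_ep.1 hh
    exact h.2 j h1 (od_inj h2)
  · rcases Nat.mod_two_eq_zero_or_one j with h0 | h0
    · exact h.2.2 (mem_ep.2 ⟨j, hj, h0, by rw [hh]⟩)
    · exact h.2.1 (mem_ep.2 ⟨j, hj, h0, by rw [hh]⟩)

lemma exists_fr (F S : Finset (ℕ × ℕ)) : ∃ z, Fr F S z := by
  obtain ⟨n, hn⟩ := Infinite.exists_notMem_finset (((F ∪ S).image Prod.snd).image (· - 1))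
  have : (0, n + 1) ∉ F ∪ S := fun h =>
    hn (mem_image.2 ⟨n + 1, mem_image_of_mem Prod.snd h, rfl⟩)
  exact ⟨s(0, n + 1), by simpa [Fr] using this⟩

variable {τ G : ℝ} {N r : ℕ} {psi : Finset (ℕ × ℕ) → Finset (ℕ × ℕ) → ℝ}
  {psx : ℕ × ℕ → Finset (ℕ × ℕ) → Finset (ℕ × ℕ) → ℝ}

lemma best (P : Pot 2 τ G N r psi psx) (h0 : 0 < τ) (F S : Finset (ℕ × ℕ)) : ∃ z, Fr F S z ∧
    ∀ w, Fr F S w → psx (w.inf, w.sup) F S ≤ psx (z.inf, z.sup) F S + 14 * τ := by
  have bd : BddAbove ((fun z : Sym2 ℕ => psx (z.inf, z.sup) F S) '' {z | Fr F S z}) :=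
    ⟨psi F S, by
      rintro _ ⟨z, -, rfl⟩
      linarith [P.psiF (z.inf, z.sup) F S, P.nonneg (insert (z.inf, z.sup) F) S]⟩
  obtain ⟨_, ⟨z, hz, rfl⟩, h⟩ := exists_lt_of_lt_csSup
    (Set.Nonempty.image (s := {z | Fr F S z}) (fun z : Sym2 ℕ => psx (z.inf, z.sup) F S)
      (exists_fr F S))
    (sub_lt_self _ (show 0 < 14 * τ by positivity))
  exact ⟨z, hz, fun w hw => (le_csSup bd ⟨w, hw, rfl⟩).trans (sub_lt_iff_lt_add.1 h).le⟩

theorem strategy (P : Pot 2 τ G N r psi psx) (h0 : 0 < τ) (h1 : τ ≤ 1) (hN : 14 * τ * N ≤ 1)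
    (hG : 51 ≤ G) : ∃ σ : List (Sym2 ℕ) → Sym2 ℕ, ∀ e : ℕ → Sym2 ℕ,
      (∀ i, i % 2 = 1 → e i = σ ((List.range i).map e)) → (∀ i, i % 2 = 0 → Legal e i) →
        (∀ i, Legal e i) ∧ ∀ n ≤ N, 1 ≤ n → ∀ Q, Cl (ep 0 e (2 * n)) Q → Q.card ≠ r := by
  classical
  choose B hB using best P h0
  refine ⟨fun l => B (ep 1 (fun j => l.getD j s(0, 0)) l.length)
    (ep 0 (fun j => l.getD j s(0, 0)) l.length), fun e h1 h2 => ?_⟩
  have h1' : ∀ i, i % 2 = 1 → e i = B (ep 1 e i) (ep 0 e i) := fun i hi => by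
    rw [h1 i hi]
    simp only [ep_list]
  have hL : ∀ i, Legal e i := fun i => by
    rcases Nat.mod_two_eq_zero_or_one i with hi | hi
    · exact h2 i hi
    · rw [legal_iff, h1' i hi]
      exact (hB _ _).1
  have hU : ∀ p i, Up (ep p e i) := fun p i x hx => by
    obtain ⟨j, -, -, rfl⟩ := mem_ep.1 hx
    exact od_lt.2 (hL j).1
  have hD : ∀ i, Disjoint (ep 1 e i) (ep 0 e i) := fun i => disjoint_left.2 fun x a b => by
    obtain ⟨j, -, hj, rfl⟩ := mem_ep.1 a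
    obtain ⟨k, -, hk, c⟩ := mem_ep.1 b
    rcases lt_trichotomy j k with h | h | h
    · exact (hL k).2 j h (od_inj c).symm
    · omega
    · exact (hL j).2 k h (od_inj c)
  have bd : ∀ {n : ℕ} {x : ℝ}, n ≤ N → x + 1 ≤ 17 * (1 + 14 * τ) ^ n → x ≤ G := fun {n x} hn hx => by
    have : (1 + 14 * τ) ^ n ≤ 3 :=
      calc _ ≤ Real.exp (14 * τ) ^ n := by gcongr; linarith [Real.add_one_le_exp (14 * τ)]
        _ ≤ Real.exp 1 := by
          rw [← Real.exp_nat_mul]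
          exact Real.exp_le_exp.2 (by nlinarith [(Nat.cast_le (α := ℝ)).2 hn])
        _ ≤ 3 := Real.exp_one_lt_d9.le.trans (by norm_num)
    linarith
  have hI : ∀ n, n < N → (ep 0 e (2 * n + 1)).card ≤ n + 1 ∧
      psi (ep 1 e (2 * n + 1)) (ep 0 e (2 * n + 1)) + 1 ≤ 17 * (1 + 14 * τ) ^ n := by
    intro n
    induction n with
    | zero =>
      intro hn
      have e0 : ∀ p, ep p e 0 = ∅ := fun p => rfl
      have a := legal_iff.1 (hL 0)
      rw [mul_zero, ep_yes (p := 0) (i := 0) rfl, ep_no (p := 1) (i := 0) (by omega), e0, e0]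
      have b := P.psiS ((e 0).inf, (e 0).sup) ∅ ∅ (fun _ h => absurd h (notMem_empty _)) a.1
        (notMem_empty _) hn
        (P.empty.trans (by linarith))
      refine ⟨by simp, ?_⟩
      nlinarith [P.empty, P.psiF ((e 0).inf, (e 0).sup) ∅ ∅, P.nonneg ∅ ∅,
        P.nonneg (insert ((e 0).inf, (e 0).sup) ∅) ∅]
    | succ n ih =>
      intro hn
      obtain ⟨c1, c2⟩ := ih (by omega)
      have a := legal_iff.1 (hL (2 * n + 1 + 1))
      have y1 := ep_yes (p := 1) (i := 2 * n + 1) (e := e) (by omega)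
      have y0 := ep_no (p := 0) (i := 2 * n + 1) (e := e) (by omega)
      rw [y1, y0] at a
      rw [show 2 * (n + 1) + 1 = 2 * n + 1 + 1 + 1 by ring,
        ep_yes (p := 0) (i := 2 * n + 1 + 1) (by omega),
        ep_no (p := 1) (i := 2 * n + 1 + 1) (by omega), y1, y0]
      have b := (hB _ _).2 _ ⟨a.1, fun k => a.2.1 (mem_insert_of_mem k), a.2.2⟩
      rw [← h1' (2 * n + 1) (by omega)] at b
      generalize ((e (2 * n + 1)).inf, (e (2 * n + 1)).sup) = x at *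
      have d1 := P.psiF x (ep 1 e (2 * n + 1)) (ep 0 e (2 * n + 1))
      have d2 := P.xnonneg x (ep 1 e (2 * n + 1)) (ep 0 e (2 * n + 1))
      have d3 := P.psiS ((e (2 * n + 1 + 1)).inf, (e (2 * n + 1 + 1)).sup)
        (insert x (ep 1 e (2 * n + 1))) _ (hU 0 _) a.1 a.2.2 (by omega)
        (bd (n := n) (by omega) (by linarith))
      have d4 := P.psxF x ((e (2 * n + 1 + 1)).inf, (e (2 * n + 1 + 1)).sup) (ep 1 e (2 * n + 1))
        (ep 0 e (2 * n + 1))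
      refine ⟨(card_insert_le _ _).trans (by omega), ?_⟩
      rw [pow_succ]
      nlinarith [mul_le_mul_of_nonneg_left c2 h0.le, mul_nonneg h0.le d2]
  refine ⟨hL, fun n hn n1 Q hQ => ?_⟩
  obtain ⟨m, rfl⟩ : ∃ m, n = m + 1 := ⟨n - 1, by omega⟩
  rw [show 2 * (m + 1) = 2 * m + 1 + 1 by ring, ep_no (i := 2 * m + 1) (by omega)] at hQ
  exact P.clique _ _ Q (hU 1 _) (hD _) (bd (by omega) (hI m hn).2) hQ

end Pool.Agent.Lib.MP_bf69bb_co.Ex
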