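import Pool.Agent.Lib.MP_bf69bb_co.HPlay

set_option autoImplicit false

namespace Pool.Agent.Lib.MP_bf69bb_co.Hyp

open Finset

abbrev Pos := Finset (Finset ℕ)

/-- The data of the attack: size of edges, winning sets, dead edges, paired edges. -/
structure Att where
  k : ℕ
  Win : Pos → Prop
  Dead : Pos → Finset ℕ → Prop
  Pi : Finset ℕ → Prop
  hk : 0 < k
  winm : ∀ A A', A ⊆ A' → Win A → Win A'
  deadm : ∀ A A' e, A ⊆ A' → Dead A e → Dead A' e

namespace Att

variable (a : Att)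

def Mv (Z : ℕ → Pos → Pos → Prop) (R : ℕ) (A B : Pos) : Prop :=
  ∃ f, f.card = a.k ∧ f ∉ B ∧ Z R (insert f A) B

def Step (Z : ℕ → Pos → Pos → Prop) (R : ℕ) (A B : Pos) : Prop :=
  a.Win A ∨ ∀ e, (a.Dead A e ∧ a.Mv Z R A (insert e B)) ∨
    ((∃ R', R = R' + 1 ∧ a.Mv Z R' A (insert e B)) ∧ (a.Pi e → Z R A (insert e B)))

def Good (R : ℕ) (A B : Pos) : Prop :=
  ∃ Z : ℕ → Pos → Pos → Prop, (∀ R A B, Z R A B → a.Step Z R A B) ∧ Z R A B

variable {a}

lemma Mv.mono {Z Z' : ℕ → Pos → Pos → Prop} (h : ∀ R A B, Z R A B → Z' R A B) {R : ℕ} {A B : Pos}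
    (hm : a.Mv Z R A B) : a.Mv Z' R A B := by
  obtain ⟨f, h1, h2, h3⟩ := hm
  exact ⟨f, h1, h2, h _ _ _ h3⟩

lemma Step.mono {Z Z' : ℕ → Pos → Pos → Prop} (h : ∀ R A B, Z R A B → Z' R A B) {R : ℕ}
    {A B : Pos} (hs : a.Step Z R A B) : a.Step Z' R A B := by
  rcases hs with hs | hs
  · exact Or.inl hs
  refine Or.inr fun e => ?_
  rcases hs e with ⟨h1, h2⟩ | ⟨⟨R', h1, h2⟩, h3⟩
  · exact Or.inl ⟨h1, h2.mono h⟩
  · exact Or.inr ⟨⟨R', h1, h2.mono h⟩, fun hp => h _ _ _ (h3 hp)⟩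

lemma Good.step {R : ℕ} {A B : Pos} (h : a.Good R A B) : a.Step a.Good R A B := by
  obtain ⟨Z, hZ, h⟩ := h
  exact (hZ _ _ _ h).mono fun R A B h' => ⟨Z, hZ, h'⟩

lemma coind (Z : ℕ → Pos → Pos → Prop)
    (hZ : ∀ R A B, Z R A B → a.Step (fun R A B => Z R A B ∨ a.Good R A B) R A B)
    {R : ℕ} {A B : Pos} (h : Z R A B) : a.Good R A B := by
  refine ⟨fun R A B => Z R A B ∨ a.Good R A B, ?_, Or.inl h⟩
  rintro R A B (h | h)
  · exact hZ _ _ _ h
  · exact h.step.mono fun _ _ _ h' => Or.inr h'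

lemma good_win {R : ℕ} {A B : Pos} (h : a.Win A) : a.Good R A B :=
  coind (fun _ A _ => a.Win A) (fun _ _ _ h => Or.inl h) h

lemma Good.mono {R : ℕ} {A A' B : Pos} (h : a.Good R A B) (hA : A ⊆ A') : a.Good R A' B := by
  refine coind (fun R A' B => ∃ A, A ⊆ A' ∧ a.Good R A B) ?_ ⟨A, hA, h⟩
  rintro R A' B ⟨A, hA, h⟩
  rcases h.step with hs | hs
  · exact Or.inl (a.winm _ _ hA hs)
  refine Or.inr fun e => ?_
  have hm : ∀ R B, a.Mv a.Good R A B →
      a.Mv (fun R A B => (∃ A0, A0 ⊆ A ∧ a.Good R A0 B) ∨ a.Good R A B) R A' B := by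
    rintro R B ⟨f, h1, h2, h3⟩
    exact ⟨f, h1, h2, Or.inl ⟨_, insert_subset_insert _ hA, h3⟩⟩
  rcases hs e with ⟨h1, h2⟩ | ⟨⟨R', h1, h2⟩, h3⟩
  · exact Or.inl ⟨a.deadm _ _ _ hA h1, hm _ _ h2⟩
  · exact Or.inr ⟨⟨R', h1, hm _ _ h2⟩, fun hp => Or.inl ⟨A, hA, h3 hp⟩⟩

open Classical in
/-- The number of unpaired edges of the first player through `x`. -/
noncomputable def cnt (a : Att) (B : Pos) (x : ℕ) : ℕ := (B.filter (fun e => x ∈ e ∧ ¬ a.Pi e)).card

lemma cnt_insert_le (B : Pos) (x : ℕ) (e : Finset ℕ) : a.cnt (insert e B) x ≤ a.cnt B x + 1 := by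
  classical
  unfold cnt
  rw [filter_insert]
  split_ifs
  · exact card_insert_le _ _
  · omega

lemma cnt_insert_pi (B : Pos) (x : ℕ) {e : Finset ℕ} (he : a.Pi e) :
    a.cnt (insert e B) x = a.cnt B x := by
  classical
  unfold cnt
  rw [filter_insert, if_neg (fun h => h.2 he)]

lemma cnt_fresh {B : Pos} {x : ℕ} (h : ∀ e ∈ B, x ∉ e) : a.cnt B x = 0 := by
  classical
  unfold cnt
  rw [card_eq_zero, filter_eq_empty_iff]
  exact fun e he hh => h e he hh.1

/-- One pair: the first edge is free, the second can only be denied by a dead edge. -/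
lemma pair_task {R : ℕ} {A0 : Pos} (ok : ℕ → Prop) (hok : ∀ M, ∃ x, M ≤ x ∧ ok x)
    (f g : ℕ → Finset ℕ) (hf : ∀ x, ok x → (f x).card = a.k ∧ x ∈ f x)
    (hg : ∀ x, ok x → (g x).card = a.k ∧ x ∈ g x)
    (hd : ∀ x, ok x → ∀ A, f x ∈ A → a.Dead A (g x))
    (hc : ∀ A, A0 ⊆ A → ∀ B x, ok x → f x ∈ A → g x ∈ A → a.cnt B x ≤ 1 → a.Good R A B)
    (B : Pos) : a.Good (R + 2) A0 B := by
  let Z : ℕ → Pos → Pos → Prop := fun r A B => A0 ⊆ A ∧ (r = R + 2 ∨
    (r = R + 1 ∧ ∃ x, ok x ∧ f x ∈ A ∧ g x ∉ B ∧ a.cnt B x = 0))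
  have hnew : ∀ A B, A0 ⊆ A → a.Mv (fun R A B => Z R A B ∨ a.Good R A B) (R + 1) A B := by
    intro A B hA
    obtain ⟨M, hM, -⟩ := exists_bound B ∅
    obtain ⟨x, hx1, hx2⟩ := hok M
    have hx : ∀ e ∈ B, x ∉ e := fun e he h => by have := hM e he x h; omega
    exact ⟨f x, (hf x hx2).1, fun h => hx _ h (hf x hx2).2, Or.inl ⟨hA.trans (subset_insert _ _),
      Or.inr ⟨rfl, x, hx2, mem_insert_self _ _, fun h => hx _ h (hg x hx2).2, cnt_fresh hx⟩⟩⟩
  refine coind Z ?_ (show Z (R + 2) A0 B from ⟨Subset.rfl, Or.inl rfl⟩)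
  rintro r A B ⟨hA, rfl | ⟨rfl, x, h1, h2, h3, h4⟩⟩
  · exact Or.inr fun e => Or.inr ⟨⟨R + 1, rfl, hnew _ _ hA⟩, fun _ => Or.inl ⟨hA, Or.inl rfl⟩⟩
  · refine Or.inr fun e => ?_
    by_cases he : e = g x
    · exact Or.inl ⟨he ▸ hd x h1 A h2, hnew _ _ hA⟩
    · have h5 : g x ∉ insert e B := by
        rw [mem_insert]
        rintro (h | h)
        · exact he h.symm
        · exact h3 h
      refine Or.inr ⟨⟨R, rfl, g x, (hg x h1).1, h5, Or.inr ?_⟩, fun hp => Or.inl ⟨hA, Or.inr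
        ⟨rfl, x, h1, h2, h5, by rw [cnt_insert_pi _ _ hp, h4]⟩⟩⟩
      refine hc _ (hA.trans (subset_insert _ _)) _ x h1 (mem_insert_of_mem h2)
        (mem_insert_self _ _) ?_
      have := cnt_insert_le (a := a) B x e
      omega

/-- One edge out of many through the vertex `x`. -/
lemma one_task {R c x : ℕ} {A : Pos} (W : Finset ℕ) (f : ℕ → Finset ℕ) (hW : c + 2 ≤ W.card)
    (hinj : Set.InjOn f W) (hf : ∀ w ∈ W, (f w).card = a.k ∧ x ∈ f w ∧ ¬ a.Pi (f w))
    (hc : ∀ w ∈ W, ∀ B, a.cnt B x ≤ c + 1 → a.Good R (insert (f w) A) B)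
    (B : Pos) (hB : a.cnt B x ≤ c) : a.Good (R + 1) A B := by
  classical
  refine coind (fun r A' B => r = R + 1 ∧ A' = A ∧ a.cnt B x ≤ c) ?_ ⟨rfl, rfl, hB⟩
  rintro r A' B ⟨rfl, rfl, hB⟩
  refine Or.inr fun e => Or.inr ⟨⟨R, rfl, ?_⟩, fun hp => Or.inl ⟨rfl, rfl, by
    rw [cnt_insert_pi _ _ hp]; exact hB⟩⟩
  have h1 : a.cnt (insert e B) x ≤ c + 1 := by
    have := cnt_insert_le (a := a) B x e
    omega
  have : ∃ w ∈ W, f w ∉ insert e B := by
    by_contra hcon
    push Not at hcon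
    have : W.card ≤ a.cnt (insert e B) x := by
      unfold cnt
      exact card_le_card_of_injOn f (fun w hw => mem_coe.2 (mem_filter.2
        ⟨hcon w hw, (hf w hw).2.1, (hf w hw).2.2⟩)) hinj
    omega
  obtain ⟨w, hw, hw'⟩ := this
  exact ⟨f w, (hf w hw).1, hw', Or.inr (hc w hw _ h1)⟩

/-- A star from `x` to prescribed numbers of candidates in each class. -/
lemma star_task {T : Type} [Fintype T] [DecidableEq T] {R x : ℕ} (f : T → ℕ → Finset ℕ) (t : ℕ) :
    ∀ (μ : T → ℕ) (c : ℕ) (W : T → Finset ℕ) (A : Pos), ∑ b, μ b = t →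
      (∀ b, μ b + c + t ≤ (W b).card) → (∀ b, Set.InjOn (f b) (W b)) →
      (∀ b, ∀ w ∈ W b, (f b w).card = a.k ∧ x ∈ f b w ∧ ¬ a.Pi (f b w)) →
      (∀ A', A ⊆ A' → ∀ W' : T → Finset ℕ, (∀ b, W' b ⊆ W b ∧ (W' b).card = μ b ∧
        ∀ w ∈ W' b, f b w ∈ A') → ∀ B, a.Good R A' B) →
      ∀ B, a.cnt B x ≤ c → a.Good (R + t) A B := by
  induction t with
  | zero =>
    intro μ c W A hμ _ _ _ hc B _
    refine hc A Subset.rfl (fun _ => ∅) (fun b => ⟨empty_subset _, ?_, by simp⟩) B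
    have := (sum_eq_zero_iff.1 hμ) b (mem_univ _)
    simp [this]
  | succ t ih =>
    intro μ c W A hμ hW hinj hf hc B hB
    obtain ⟨b, hb⟩ : ∃ b, 0 < μ b := by
      by_contra h
      push Not at h
      have : ∑ b, μ b = 0 := sum_eq_zero fun b _ => by have := h b; omega
      omega
    refine one_task (R := R + t) (W b) (f b) (by have := hW b; omega) (hinj b) (hf b) ?_ B hB
    intro w hw
    have hsub : ∀ b', Function.update W b ((W b).erase w) b' ⊆ W b' := by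
      intro b'
      by_cases h : b' = b
      · subst h
        rw [Function.update_self]
        exact erase_subset _ _
      · rw [Function.update_of_ne h]
    refine ih (Function.update μ b (μ b - 1)) (c + 1) (Function.update W b ((W b).erase w)) _
      ?_ ?_ (fun b' => (hinj b').mono (hsub b')) (fun b' w' hw' => hf b' w' (hsub b' hw')) ?_
    · rw [sum_update_of_mem (mem_univ _)]
      rw [← add_sum_erase _ _ (mem_univ b)] at hμ
      rw [sdiff_singleton_eq_erase]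
      omega
    · intro b'
      by_cases h : b' = b
      · subst h
        rw [Function.update_self, Function.update_self, card_erase_of_mem hw]
        have := hW b'
        omega
      · rw [Function.update_of_ne h, Function.update_of_ne h]
        have := hW b'
        omega
    · intro A' hA' W' hW'
      refine hc A' ((subset_insert _ _).trans hA') (Function.update W' b (insert w (W' b))) ?_
      intro b'
      obtain ⟨h1, h2, h3⟩ := hW' b'
      by_cases h : b' = b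
      · subst h
        rw [Function.update_self] at h1 h2 ⊢
        have h4 : w ∉ W' b' := fun hh => notMem_erase _ _ (h1 hh)
        refine ⟨insert_subset hw (h1.trans (erase_subset _ _)), ?_, ?_⟩
        · rw [card_insert_of_notMem h4]
          omega
        · intro w' hw'
          rcases mem_insert.1 hw' with rfl | hw'
          · exact hA' (mem_insert_self _ _)
          · exact h3 w' hw'
      · rw [Function.update_of_ne h] at h1 h2 ⊢
        exact ⟨h1, h2, h3⟩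

/-- Prescribed numbers of completed pairs of each kind. -/
lemma pairs_task {T : Type} [Fintype T] [DecidableEq T] (ok : T → ℕ → Prop)
    (hok : ∀ j M, ∃ x, M ≤ x ∧ ok j x) (f g : T → ℕ → Finset ℕ)
    (hf : ∀ j x, ok j x → (f j x).card = a.k ∧ x ∈ f j x)
    (hg : ∀ j x, ok j x → (g j x).card = a.k ∧ x ∈ g j x)
    (hd : ∀ j x, ok j x → ∀ A, f j x ∈ A → a.Dead A (g j x)) (t : ℕ) :
    ∀ (μ : T → ℕ) (R : ℕ) (A : Pos), ∑ j, μ j = t →
      (∀ A', A ⊆ A' → ∀ Y : T → Finset ℕ, (∀ j, (Y j).card = μ j ∧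
        ∀ x ∈ Y j, ok j x ∧ f j x ∈ A' ∧ g j x ∈ A') → ∀ B, a.Good R A' B) →
      ∀ B, a.Good (R + 2 * t) A B := by
  induction t with
  | zero =>
    intro μ R A hμ hc B
    refine hc A Subset.rfl (fun _ => ∅) (fun b => ⟨?_, by simp⟩) B
    have := (sum_eq_zero_iff.1 hμ) b (mem_univ _)
    simp [this]
  | succ t ih =>
    intro μ R A hμ hc B
    obtain ⟨b, hb⟩ : ∃ b, 0 < μ b := by
      by_contra h
      push Not at h
      have : ∑ b, μ b = 0 := sum_eq_zero fun b _ => by have := h b; omega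
      omega
    rw [show R + 2 * (t + 1) = (R + 2) + 2 * t by ring]
    refine ih (Function.update μ b (μ b - 1)) (R + 2) A ?_ ?_ B
    · rw [sum_update_of_mem (mem_univ _)]
      rw [← add_sum_erase _ _ (mem_univ b)] at hμ
      rw [sdiff_singleton_eq_erase]
      omega
    intro A' hA' Y hY
    refine pair_task (fun x => ok b x ∧ x ∉ Y b) ?_ (f b) (g b) (fun x hx => hf b x hx.1)
      (fun x hx => hg b x hx.1) (fun x hx => hd b x hx.1) ?_
    · intro M
      obtain ⟨M', -, hM'⟩ := exists_bound ∅ (Y b)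
      obtain ⟨x, h1, h2⟩ := hok b (max M M')
      refine ⟨x, le_of_max_le_left h1, h2, fun h => ?_⟩
      have := hM' x h
      have := le_of_max_le_right h1
      omega
    · intro A'' hA'' B' x hx h1 h2 _
      refine hc A'' (hA'.trans hA'') (Function.update Y b (insert x (Y b))) (fun j => ?_) B'
      obtain ⟨h3, h4⟩ := hY j
      have h5 : ∀ y ∈ Y j, ok j y ∧ f j y ∈ A'' ∧ g j y ∈ A'' := fun y hy =>
        ⟨(h4 y hy).1, hA'' (h4 y hy).2.1, hA'' (h4 y hy).2.2⟩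
      by_cases h : j = b
      · subst h
        rw [Function.update_self] at h3 ⊢
        refine ⟨by rw [card_insert_of_notMem hx.2]; omega, fun y hy => ?_⟩
        rcases mem_insert.1 hy with rfl | hy
        · exact ⟨hx.1, h1, h2⟩
        · exact h5 y hy
      · rw [Function.update_of_ne h] at h3 ⊢
        exact ⟨h3, h5⟩

end Att

end Pool.Agent.Lib.MP_bf69bb_co.Hyp
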