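import Pool.Agent.Lib.MP_bf69bb_co.HMain

set_option autoImplicit false
set_option linter.unusedSectionVars false
set_option synthInstance.maxSize 4096

namespace Pool.Agent.Lib.MP_bf69bb_co.Hyp

open Finset Function

lemma blk_count {E : Type} [Fintype E] [DecidableEq E] {m : ℕ} (e : Fin m → E) (he : Injective e)
    (Q : E → Prop) [DecidablePred Q] (o1 o2 : Option E)
    (h : ∀ t, some (e t) ≠ o1 → some (e t) ≠ o2 → Q (e t)) : m ≤ (univ.filter Q).card + 2 := by
  have h1 : univ.image e ⊆ univ.filter Q ∪ o1.toFinset ∪ o2.toFinset := by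
    intro x hx
    obtain ⟨t, -, rfl⟩ := mem_image.1 hx
    simp only [mem_union, mem_filter, mem_univ, true_and, Option.mem_toFinset, Option.mem_def]
    by_cases a : some (e t) = o1
    · exact Or.inl (Or.inr a.symm)
    by_cases b : some (e t) = o2
    · exact Or.inr b.symm
    · exact Or.inl (Or.inl (h t a b))
  have h2 := (card_le_card h1).trans ((card_union_le _ _).trans
    (Nat.add_le_add_right (card_union_le _ _) _))
  rw [card_image_of_injective _ he, card_univ, Fintype.card_fin] at h2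
  have h3 : ∀ o : Option E, o.toFinset.card ≤ 1 := fun o => by cases o <;> simp
  have := h3 o1
  have := h3 o2
  omega

lemma par_xor : ∀ a1 a2 a3 a4 b1 b2 b3 b4 : Bool, (a1 = a2 ↔ a3 = a4) → (b1 = b2 ↔ b3 = b4) →
    (xor a1 b1 = xor a2 b2 ↔ xor a3 b3 = xor a4 b4) := by decide

lemma par_cancel : ∀ a1 a2 a3 a4 b1 b2 b3 b4 : Bool, (a1 = a2 ↔ a3 = a4) →
    (xor a1 b1 = xor a2 b2 ↔ xor a3 b3 = xor a4 b4) → (b1 = b2 ↔ b3 = b4) := by decide

section

variable (a1 a2 m1 m2 s : ℕ)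

abbrev BS := (Bool ⊕ (Bool × Fin a1)) × Fin m1
abbrev DM := (Bool ⊕ (Fin 3 × Fin a2)) × Fin m2
abbrev EE := BS a1 m1 ⊕ (PI (DM a2 m2) s × Bool) ⊕ (Fin s × Fin s)
abbrev RT := Option (Bool × Fin a1) ⊕ EE a1 a2 m1 m2 s

noncomputable def wt (r : RT a1 a2 m1 m2 s) : ℕ :=
  (Fintype.card (BS a1 m1 ⊕ PI (DM a2 m2) s) + 1) * 2 ^ (Fintype.equivFin _ r).val

abbrev LR := (r : RT a1 a2 m1 m2 s) × Fin (wt a1 a2 m1 m2 s r)
abbrev II := LR a1 a2 m1 m2 s ⊕ BS a1 m1 ⊕ PI (DM a2 m2) s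

noncomputable instance decII : DecidableEq (II a1 a2 m1 m2 s) := Classical.decEq _

variable {a1 a2 m1 m2 s} (f1 : EE a1 a2 m1 m2 s ↪ (Bool → Fin a1)) (f2 : BS a1 m1 ↪ (Fin 3 → Fin a2))

def val1 (r : RT a1 a2 m1 m2 s) : Bool ⊕ (Bool × Fin a1) → Bool
  | .inl b => b
  | .inr z => match r with
    | .inl o => decide (o = some z)
    | .inr h => decide (f1 h z.1 = z.2)

def bl : EE a1 a2 m1 m2 s → Bool ⊕ (Bool × Fin a1)
  | .inl x => x.1
  | .inr _ => .inl false

def chiR (r : RT a1 a2 m1 m2 s) (h : EE a1 a2 m1 m2 s) : Bool :=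
  xor (val1 f1 r (bl h)) (decide (r = .inr h))

def val2 (i : BS a1 m1) : Bool ⊕ (Fin 3 × Fin a2) → Bool
  | .inl b => b
  | .inr z => decide (f2 i z.1 = z.2)

def chi : II a1 a2 m1 m2 s → EE a1 a2 m1 m2 s → Bool
  | .inl r, h => chiR f1 r.1 h
  | .inr (.inl i), .inl i' => decide (i = i')
  | .inr (.inl i), .inr (.inl (.inl j, _)) => val2 f2 i j.1
  | .inr (.inl _), .inr (.inl (.inr _, _)) => false
  | .inr (.inl _), .inr (.inr _) => false
  | .inr (.inr _), .inl _ => false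
  | .inr (.inr j), .inr (.inl (j', _)) => decide (j = j')
  | .inr (.inr (.inl _)), .inr (.inr _) => true
  | .inr (.inr (.inr (.inl a))), .inr (.inr t) => decide (a = t.1)
  | .inr (.inr (.inr (.inr b))), .inr (.inr t) => decide (b = t.2)

noncomputable def LL : Finset (II a1 a2 m1 m2 s) := univ.map Embedding.inl

lemma inl_mem_LL (r : LR a1 a2 m1 m2 s) : (Sum.inl r : II a1 a2 m1 m2 s) ∈ LL :=
  mem_map.2 ⟨r, mem_univ _, rfl⟩

lemma inr_notMem_LL (x : BS a1 m1 ⊕ PI (DM a2 m2) s) : (Sum.inr x : II a1 a2 m1 m2 s) ∉ LL := by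
  intro h
  obtain ⟨r, -, hr⟩ := mem_map.1 h
  exact Sum.inl_ne_inr hr

lemma card_LL_compl : (LL : Finset (II a1 a2 m1 m2 s))ᶜ.card =
    Fintype.card (BS a1 m1 ⊕ PI (DM a2 m2) s) := by
  rw [card_compl, LL, card_map, card_univ, Fintype.card_sum]
  omega

lemma val1_inj {r r' : RT a1 a2 m1 m2 s} (h : ∀ z, val1 f1 r (.inr z) = val1 f1 r' (.inr z)) :
    r = r' := by
  have k : ∀ (o : Option (Bool × Fin a1)) (g : EE a1 a2 m1 m2 s),
      ¬ ∀ z, val1 f1 (.inl o) (.inr z) = val1 f1 (.inr g) (.inr z) := by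
    intro o g h
    have h1 := h (false, f1 g false)
    have h2 := h (true, f1 g true)
    simp only [val1, decide_true, decide_eq_true_eq] at h1 h2
    rw [h1] at h2
    simp at h2
  rcases r with o | g <;> rcases r' with o' | g'
  · congr 1
    simp only [val1, decide_eq_decide] at h
    rcases o with _ | z
    · rcases o' with _ | z'
      · rfl
      · simpa using h z'
    · exact ((h z).1 rfl).symm
  · exact absurd h (k _ _)
  · exact absurd (fun z => (h z).symm) (k _ _)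
  · congr 1
    refine f1.injective (funext fun c => ?_)
    have := h (c, f1 g c)
    simp only [val1, decide_true] at this
    exact (of_decide_eq_true this.symm).symm

lemma val1_flip (g : EE a1 a2 m1 m2 s) (k : Bool ⊕ (Bool × Fin a1)) : val1 f1 (.inr g) k =
    xor (xor (val1 f1 (.inl (some (false, f1 g false))) k)
      (val1 f1 (.inl (some (true, f1 g true))) k)) (val1 f1 (.inl none) k) := by
  rcases k with b | ⟨c, x⟩
  · cases b <;> rfl
  · cases c <;> simp [val1]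

lemma ag_LL (h h' : EE a1 a2 m1 m2 s) : ag (chi f1 f2) LL h h' =
    (Fintype.card (BS a1 m1 ⊕ PI (DM a2 m2) s) + 1) *
      ∑ i ∈ (univ.filter (fun r => chiR f1 r h = chiR f1 r h')).image
        (fun r => (Fintype.equivFin _ r).val), 2 ^ i := by
  rw [sum_image fun r _ r' _ hh => (Fintype.equivFin _).injective (Fin.ext hh), mul_sum, ag, LL,
    filter_map, card_map]
  have : (univ.filter ((fun ι => chi f1 f2 ι h = chi f1 f2 ι h') ∘ (Embedding.inl :
      LR a1 a2 m1 m2 s ↪ II a1 a2 m1 m2 s))) =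
      (univ.filter (fun r => chiR f1 r h = chiR f1 r h')).sigma (fun _ => univ) := by
    ext x
    simp only [mem_filter, mem_univ, true_and, mem_sigma, and_true, comp_apply]
    rfl
  rw [this, card_sigma]
  exact sum_congr rfl fun r _ => by rw [card_univ, Fintype.card_fin, wt]

lemma gap_chi : Gap (chi f1 f2) LL := by
  intro h1 h2 h3 h4 hne k1 k2
  rw [ag_LL, ag_LL, card_LL_compl] at k1 k2
  generalize Fintype.card (BS a1 m1 ⊕ PI (DM a2 m2) s) = σ at k1 k2
  have k3 : ∀ X Y : ℕ, (σ + 1) * X ≤ (σ + 1) * Y + σ → X ≤ Y := fun X Y h => by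
    by_contra hc
    have : Y + 1 ≤ X := by omega
    nlinarith
  have k4 := Finset.geomSum_injective (le_refl 2) (le_antisymm (k3 _ _ k1) (k3 _ _ k2))
  have k5 := image_injective (f := fun r : RT a1 a2 m1 m2 s => (Fintype.equivFin _ r).val)
    (fun r r' hh => (Fintype.equivFin _).injective (Fin.ext hh)) k4
  have k6 : ∀ r, chiR f1 r h1 = chiR f1 r h2 ↔ chiR f1 r h3 = chiR f1 r h4 := fun r => by
    simpa using Finset.ext_iff.1 k5 r
  have k7 : ∀ o, val1 f1 (.inl o) (bl h1) = val1 f1 (.inl o) (bl h2) ↔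
      val1 f1 (.inl o) (bl h3) = val1 f1 (.inl o) (bl h4) := fun o => by
    simpa [chiR] using k6 (.inl o)
  have k8 : ∀ g, decide (g = h1) = decide (g = h2) ↔ decide (g = h3) = decide (g = h4) := by
    intro g
    refine par_cancel (val1 f1 (.inr g) (bl h1)) (val1 f1 (.inr g) (bl h2))
      (val1 f1 (.inr g) (bl h3)) (val1 f1 (.inr g) (bl h4)) _ _ _ _ ?_ ?_
    · simp only [val1_flip]
      exact par_xor _ _ _ _ _ _ _ _ (par_xor _ _ _ _ _ _ _ _ (k7 _) (k7 _)) (k7 _)
    · simpa only [chiR, Sum.inr.injEq] using k6 (.inr g)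
  have k9 := k8 h1
  have k10 := k8 h2
  simp only [decide_eq_decide, hne, hne.symm, iff_false, not_true, false_iff, true_iff] at k9 k10
  by_cases c1 : h1 = h3
  · subst c1
    left
    refine ⟨rfl, ?_⟩
    by_contra c2
    exact k10 ⟨fun h => absurd h hne.symm, fun h => absurd h c2⟩
  · right
    have c2 : h1 = h4 := by
      by_contra c2
      exact k9 ⟨fun h => absurd h c1, fun h => absurd h c2⟩
    subst c2
    refine ⟨rfl, ?_⟩
    by_contra c3
    exact k10 ⟨fun h => absurd h c3, fun h => absurd h hne.symm⟩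

def vb : II a1 a2 m1 m2 s → Bool ⊕ (Bool × Fin a1) → Bool
  | .inl r => val1 f1 r.1
  | .inr _ => fun _ => false

def fb : II a1 a2 m1 m2 s → Option (EE a1 a2 m1 m2 s)
  | .inl ⟨.inl _, _⟩ => none
  | .inl ⟨.inr h, _⟩ => some h
  | .inr (.inl i) => some (.inl i)
  | .inr (.inr _) => none

lemma chi_base (ι : II a1 a2 m1 m2 s) (x : BS a1 m1) (h : some (.inl x) ≠ fb ι) :
    chi f1 f2 ι (.inl x) = vb f1 ι x.1 := by
  rcases ι with ⟨o | g, t⟩ | i | j
  · simp [chi, chiR, vb, bl]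
  · have : g ≠ .inl x := fun hh => h (by rw [fb, hh])
    simp [chi, chiR, vb, bl, this]
  · have : i ≠ x := fun hh => h (by rw [fb, hh])
    simp [chi, vb, this]
  · rfl

lemma far_chi {δ : ℕ} (hm : δ + 3 ≤ m1) : Far (chi f1 f2) LL δ := by
  intro ι hι b
  obtain ⟨r, -, rfl⟩ := mem_map.1 hι
  change _ ∧ ∀ ι' b', _ → _ ∧ ∀ h, (chi f1 f2 (.inl r) h = b ↔ _)
  have hinj : ∀ k : Bool ⊕ (Bool × Fin a1),
      Injective (fun t : Fin m1 => (Sum.inl (k, t) : EE a1 a2 m1 m2 s)) :=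
    fun k t t' h => (Prod.mk.inj (Sum.inl.inj h)).2
  constructor
  · exact lt_of_lt_of_le (show δ < m1 - 2 by omega) (Nat.sub_le_of_le_add
      (blk_count _ (hinj (.inl b)) _ (fb (.inl r)) none fun t h _ => chi_base f1 f2 (.inl r) _ h))
  intro ι' b' hc
  have k : ∀ k, (vb f1 (.inl r) k = b ↔ vb f1 ι' k = b') := by
    intro k
    by_contra hk
    refine absurd ((blk_count _ (hinj k) _ (fb (.inl r)) (fb ι') fun t h h' => ?_).trans
      (Nat.add_le_add_right hc 2)) (by omega)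
    change ¬ (chi f1 f2 (.inl r) _ = b ↔ _)
    rwa [chi_base f1 f2 _ _ h, chi_base f1 f2 _ _ h']
  have k1 := (k (.inl b)).1 rfl
  have k2 : vb f1 ι' (.inl (!b)) ≠ b' := fun hh => by
    have := (k (.inl (!b))).2 hh
    cases b <;> exact Bool.noConfusion this
  rcases ι' with r' | x
  · obtain rfl : b = b' := k1
    have k3 : r.1 = r'.1 := val1_inj f1 fun z => by
      have := k (.inr z)
      simp only [vb] at this
      revert this
      cases val1 f1 r.1 (.inr z) <;> cases val1 f1 r'.1 (.inr z) <;> cases b <;> simp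
    exact ⟨inl_mem_LL _, fun h => by simp only [chi, k3]⟩
  · exact absurd k1 k2

def vd : BS a1 m1 ⊕ PI (DM a2 m2) s → Bool ⊕ (Fin 3 × Fin a2) → Bool
  | .inl i => val2 f2 i
  | .inr _ => fun _ => false

def fd : BS a1 m1 ⊕ PI (DM a2 m2) s → Option (DM a2 m2)
  | .inr (.inl j) => some j
  | _ => none

lemma chi_dum (x : BS a1 m1 ⊕ PI (DM a2 m2) s) (j : DM a2 m2) (β : Bool) (h : some j ≠ fd x) :
    chi f1 f2 (.inr x) (.inr (.inl (.inl j, β))) = vd f2 x j.1 := by
  rcases x with i | j' | a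
  · rfl
  · have : j' ≠ j := fun hh => h (by rw [fd, hh])
    simp [chi, vd, this]
  · simp [chi, vd]

lemma code_chi {D : ℕ} (hm : D + 3 ≤ m2) (i : BS a1 m1) : ∀ ι ∉ (LL : Finset (II a1 a2 m1 m2 s)),
    D < (univ.filter (fun j : DM a2 m2 => chi f1 f2 ι (.inr (.inl (.inl j, true))) =
      chi f1 f2 ι (.inl i))).card ∧
    ∀ ι' ∉ (LL : Finset (II a1 a2 m1 m2 s)), ∀ b', (univ.filter (fun j : DM a2 m2 =>
      ¬ (chi f1 f2 ι (.inr (.inl (.inl j, true))) = chi f1 f2 ι (.inl i) ↔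
        chi f1 f2 ι' (.inr (.inl (.inl j, true))) = b'))).card ≤ D → chi f1 f2 ι' (.inl i) = b' := by
  rintro (r | x) hι
  · exact absurd (inl_mem_LL r) hι
  have hinj : ∀ k : Bool ⊕ (Fin 3 × Fin a2), Injective (fun t : Fin m2 => ((k, t) : DM a2 m2)) :=
    fun k t t' h => (Prod.mk.inj h).2
  set b := chi f1 f2 (.inr x) (.inl i) with hb
  have k0 : vd f2 x (.inl b) = b := by
    rcases x with i' | j
    · rfl
    · rfl
  constructor
  · exact lt_of_lt_of_le (show D < m2 - 2 by omega) (Nat.sub_le_of_le_add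
      (blk_count _ (hinj (.inl b)) _ (fd x) none fun t h _ => (chi_dum f1 f2 x _ _ h).trans k0))
  rintro (r' | x') hι' b' hc
  · exact absurd (inl_mem_LL r') hι'
  have k : ∀ k, (vd f2 x k = b ↔ vd f2 x' k = b') := by
    intro k
    by_contra hk
    refine absurd ((blk_count _ (hinj k) _ (fd x) (fd x') fun t h h' => ?_).trans
      (Nat.add_le_add_right hc 2)) (by omega)
    rwa [chi_dum f1 f2 _ _ _ h, chi_dum f1 f2 _ _ _ h']
  have k1 := (k (.inl b)).1 k0
  rcases x with i1 | j <;> rcases x' with i2 | j'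
  · obtain rfl : b = b' := k1
    have k3 : i1 = i2 := f2.injective (funext fun c => by
      have := k (.inr (c, f2 i1 c))
      simp only [vd, val2, decide_true] at this
      by_contra hne
      rw [decide_eq_false fun hh => hne hh.symm] at this
      revert this
      cases b <;> simp)
    rw [← k3]
  · have := (k (.inl (!b))).2 k1
    revert this
    cases b <;> simp [vd, val2]
  · have k2 := (k (.inl (!b))).1 rfl
    rw [← k1] at k2
    revert k2
    cases b <;> simp [vd, val2]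
  · exact k1

lemma deg_chi {δ : ℕ} (hm : δ + 3 ≤ m1) (h1 : s ≤ δ) (h2 : s + 2 ≤ m2) (ι : II a1 a2 m1 m2 s)
    (b : Bool) : s ≤ (univ.filter (fun h => chi f1 f2 ι h = b)).card := by
  have k : ∀ e : Fin s → EE a1 a2 m1 m2 s, Injective e → (∀ t, chi f1 f2 ι (e t) = b) →
      s ≤ (univ.filter (fun h => chi f1 f2 ι h = b)).card := by
    intro e he hb
    have := card_le_card_of_injOn (s := univ) (t := univ.filter (fun h => chi f1 f2 ι h = b)) e
      (fun t _ => mem_coe.2 (mem_filter.2 ⟨mem_univ _, hb t⟩)) he.injOn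
    simpa using this
  rcases ι with r | i | j
  · exact h1.trans (far_chi f1 f2 hm _ (inl_mem_LL r) b).1.le
  · refine k (fun t => .inr (.inl (.inl (.inl b, Fin.castLE (by omega) t), true))) ?_ fun t => rfl
    intro t t' h
    simpa using h
  · cases b
    · refine k (fun t => .inl (.inl false, Fin.castLE (by omega) t)) ?_ fun t => rfl
      intro t t' h
      simpa using h
    · rcases j with j | a | c
      · exact k (fun t => .inr (.inr (t, t))) (fun t t' h => by simpa using h) fun t => rfl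
      · exact k (fun t => .inr (.inr (a, t))) (fun t t' h => by simpa using h)
          fun t => by simp [chi]
      · exact k (fun t => .inr (.inr (t, c))) (fun t t' h => by simpa using h)
          fun t => by simp [chi]

/-- The design built from the two codes. -/
noncomputable def mkDes {δ D : ℕ} (hs : 0 < s) (h1 : δ + 3 ≤ m1) (h2 : D + 3 ≤ m2)
    (hδ : 2 * (Tr s s + 2 * (Fintype.card (DM a2 m2) + s * Mr s s)) +
      8 * Fintype.card (PI (DM a2 m2) s) + 3 ≤ δ)
    (hD : s * s + 2 * (Tr s s + 2 * (s * Mr s s) + 2) ≤ D) :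
    Des (II a1 a2 m1 m2 s) (EE a1 a2 m1 m2 s) (BS a1 m1) (DM a2 m2) s where
  χ := chi f1 f2
  L := LL
  g := Sum.inl
  u := fun i => .inr (.inl i)
  p := fun j b => .inr (.inl (j, b))
  y := fun j => .inr (.inr j)
  c := fun a b => .inr (.inr (a, b))
  δ := δ
  D := D
  cases := by
    rintro (i | ⟨j, b⟩ | ⟨a, b⟩)
    · exact Or.inl ⟨i, rfl⟩
    · exact Or.inr (Or.inl ⟨j, b, rfl⟩)
    · exact Or.inr (Or.inr ⟨a, b, rfl⟩)
  g_inj := Sum.inl_injective
  p_inj := fun _ _ _ _ h => Prod.mk.inj (Sum.inl.inj (Sum.inr.inj h))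
  gp := fun _ _ _ => Sum.inl_ne_inr
  cardE := by
    rw [Fintype.card_sum, Fintype.card_sum, Fintype.card_prod (PI (DM a2 m2) s),
      Fintype.card_prod (Fin s), Fintype.card_bool, Fintype.card_fin]
    omega
  y_inj := fun _ _ h => Sum.inr.inj (Sum.inr.inj h)
  yL := fun _ => inr_notMem_LL _
  yg := fun _ _ => rfl
  yp := fun j j' b => by simp [chi]
  yc := by
    rintro (j | a' | b') a b <;> simp [chi]
  ug := fun i i' => by simp [chi]
  pr := by
    rintro j (r | i | j') hι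
    · exact absurd (inl_mem_LL r) hι
    · rcases j with j | j <;> rfl
    · rfl
  gap := gap_chi f1 f2
  far := far_chi f1 f2 h1
  code := code_chi f1 f2 h2
  hs := hs
  hn := by
    have : m1 ≤ Fintype.card (BS a1 m1) := by
      rw [Fintype.card_prod, Fintype.card_fin, Fintype.card_sum, Fintype.card_bool]
      nlinarith
    omega
  hδ := hδ
  hD := hD
  hρ := by
    have : m2 ≤ Fintype.card (DM a2 m2) := by
      rw [Fintype.card_prod, Fintype.card_fin, Fintype.card_sum, Fintype.card_bool]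
      nlinarith
    omega

end

theorem exists_des {s : ℕ} (hs : 0 < s) : ∃ a1 a2 m1 m2 : ℕ,
    ∃ d : Des (II a1 a2 m1 m2 s) (EE a1 a2 m1 m2 s) (BS a1 m1) (DM a2 m2) s,
      2 ≤ Fintype.card (II a1 a2 m1 m2 s) ∧
      ∀ ι b, s ≤ (univ.filter (fun h => d.χ ι h = b)).card := by
  obtain ⟨D, hD⟩ : ∃ D, D = s * s + 2 * (Tr s s + 2 * (s * Mr s s) + 2) + s := ⟨_, rfl⟩
  obtain ⟨K, hK⟩ : ∃ K, K = 2 * Tr s s + 4 * (s * Mr s s) + 21 * s + s * s + 6 := ⟨_, rfl⟩
  obtain ⟨c, hc⟩ : ∃ c, c = 70 * (D + 3) + K := ⟨_, rfl⟩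
  obtain ⟨a2, ha2⟩ : ∃ a, a = 8 * (c * c) := ⟨_, rfl⟩
  obtain ⟨ρ, hρ⟩ : ∃ r, r = (2 + 3 * a2) * (D + 3) := ⟨_, rfl⟩
  obtain ⟨δ, hδ⟩ : ∃ x, x = 2 * (Tr s s + 2 * (ρ + s * Mr s s)) + 8 * (ρ + 2 * s) + 3 + s :=
    ⟨_, rfl⟩
  obtain ⟨Z, hZ⟩ : ∃ x, x = 14 * ρ + K := ⟨_, rfl⟩
  have c1 : Fintype.card (DM a2 (D + 3)) = ρ := by simp [hρ]
  have c2 : Fintype.card (PI (DM a2 (D + 3)) s) = ρ + 2 * s := by
    rw [Fintype.card_sum, Fintype.card_sum, c1, Fintype.card_fin]
    omega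
  have c3 : Fintype.card (BS (3 * Z) (δ + 3)) = (2 + 6 * Z) * (δ + 3) := by
    simp only [Fintype.card_prod, Fintype.card_sum, Fintype.card_bool, Fintype.card_fin]
    ring
  have c4 : Fintype.card (EE (3 * Z) a2 (δ + 3) (D + 3) s) =
      (2 + 6 * Z) * (δ + 3) + ((ρ + 2 * s) * 2 + s * s) := by
    rw [Fintype.card_sum, Fintype.card_sum, Fintype.card_prod (PI _ s), Fintype.card_prod (Fin s),
      c2, c3, Fintype.card_bool, Fintype.card_fin]
  have z1 : δ + 3 + ((ρ + 2 * s) * 2 + s * s) = Z := by omega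
  have z2 : 1 ≤ Z := by omega
  have z3 : 1 ≤ c := by omega
  have z4 : 1 ≤ a2 := by nlinarith
  have z5 : Z ≤ c * a2 := by
    have : ρ ≤ 5 * a2 * (D + 3) := by rw [hρ]; exact Nat.mul_le_mul_right _ (by omega)
    nlinarith
  have z6 : (2 + 6 * Z) * (δ + 3) ≤ (2 + 6 * Z) * Z := Nat.mul_le_mul_left _ (by omega)
  obtain ⟨f1⟩ : Nonempty (EE (3 * Z) a2 (δ + 3) (D + 3) s ↪ (Bool → Fin (3 * Z))) := by
    refine Embedding.nonempty_of_card_le ?_
    rw [c4, Fintype.card_fun, Fintype.card_bool, Fintype.card_fin]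
    nlinarith
  obtain ⟨f2⟩ : Nonempty (BS (3 * Z) (δ + 3) ↪ (Fin 3 → Fin a2)) := by
    refine Embedding.nonempty_of_card_le ?_
    rw [c3, Fintype.card_fun, Fintype.card_fin, Fintype.card_fin]
    have z7 : Z * Z ≤ (c * a2) * (c * a2) := Nat.mul_le_mul z5 z5
    have z8 : a2 ^ 3 = 8 * ((c * a2) * (c * a2)) := by
      calc a2 ^ 3 = a2 * (a2 * a2) := by ring
        _ = 8 * (c * c) * (a2 * a2) := by rw [← ha2]
        _ = _ := by ring
    nlinarith
  refine ⟨3 * Z, a2, δ + 3, D + 3, mkDes f1 f2 (δ := δ) (D := D) hs le_rfl le_rfl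
    (by rw [c1, c2]; omega) (by omega), ?_, deg_chi f1 f2 le_rfl (by omega) (by omega)⟩
  rw [Fintype.card_sum, Fintype.card_sum, c2]
  omega

end Pool.Agent.Lib.MP_bf69bb_co.Hyp
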