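import Mathlib

set_option autoImplicit false

namespace Pool.Agent.Lib.MP_bf69bb_co.Hyp

/-- Step `i` of the play `e` claims a `k`-subset of `ℕ` that was not claimed before. -/
def Legal (k : ℕ) (e : ℕ → Finset ℕ) (i : ℕ) : Prop := (e i).card = k ∧ ∀ j < i, e j ≠ e i

/-- The edges claimed in the first `m` steps by player `p` (who makes the steps `i` with
`i % 2 = p`; the first player is `0`, the second player is `1`) contain a copy of `H`. -/
def Owns {v : ℕ} (H : Finset (Finset (Fin v))) (p : ℕ) (e : ℕ → Finset ℕ) (m : ℕ) : Prop :=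
  ∃ φ : Fin v ↪ ℕ, ∀ h ∈ H, ∃ i < m, i % 2 = p ∧ e i = h.map φ

/-- Player `p` has a strategy that, against all legal moves of the other player, completes a copy
of `H` first, after finitely many steps. -/
def Wins {v : ℕ} (k : ℕ) (H : Finset (Finset (Fin v))) (p : ℕ) : Prop :=
  ∃ σ : List (Finset ℕ) → Finset ℕ, ∀ e : ℕ → Finset ℕ,
    (∀ i, i % 2 = p → e i = σ ((List.range i).map e)) → (∀ i, i % 2 ≠ p → Legal k e i) →
      ∃ m : ℕ, (∀ i < m, Legal k e i) ∧ Owns H p e m ∧ ¬ Owns H (1 - p) e m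

end Pool.Agent.Lib.MP_bf69bb_co.Hyp
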