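import Pool.Agent.Lib.MP_bf69bb_co.HRig

set_option autoImplicit false
set_option linter.unusedSectionVars false

namespace Pool.Agent.Lib.MP_bf69bb_co.Hyp

open Finset Function

abbrev PI (Dm : Type) (s : ℕ) := Dm ⊕ Fin s ⊕ Fin s

def Mr (s : ℕ) : ℕ → ℕ
  | 0 => 1
  | t + 1 => (s + 1) * Mr s t + 1

def Tr (s : ℕ) : ℕ → ℕ
  | 0 => 0
  | t + 1 => Tr s t + s * Mr s t + 2

/-- The design of the hypergraph. -/
structure Des (I E Bs Dm : Type) [Fintype I] [Fintype E] [DecidableEq I] [DecidableEq E]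
    [Fintype Bs] [Fintype Dm] [DecidableEq Bs] [DecidableEq Dm] (s : ℕ) where
  χ : I → E → Bool
  L : Finset I
  g : Bs → E
  u : Bs → I
  p : PI Dm s → Bool → E
  y : PI Dm s → I
  c : Fin s → Fin s → E
  δ : ℕ
  D : ℕ
  cases : ∀ h, (∃ i, h = g i) ∨ (∃ j b, h = p j b) ∨ (∃ a b, h = c a b)
  g_inj : Injective g
  p_inj : ∀ j b j' b', p j b = p j' b' → j = j' ∧ b = b'
  gp : ∀ i j b, g i ≠ p j b
  cardE : Fintype.card E = Fintype.card Bs + 2 * Fintype.card (PI Dm s) + s * s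
  y_inj : Injective y
  yL : ∀ j, y j ∉ L
  yg : ∀ j i, χ (y j) (g i) = false
  yp : ∀ j j' b, χ (y j) (p j' b) = true ↔ j = j'
  yc : ∀ j a b, χ (y j) (c a b) = true ↔
    (∃ d, j = Sum.inl d) ∨ j = Sum.inr (Sum.inl a) ∨ j = Sum.inr (Sum.inr b)
  ug : ∀ i i', χ (u i) (g i') = true ↔ i = i'
  pr : ∀ j, ∀ ι ∉ L, χ ι (p j true) = χ ι (p j false)
  gap : Gap χ L
  far : Far χ L δ
  code : ∀ i, ∀ ι ∉ L,
    D < (univ.filter (fun j : Dm => χ ι (p (Sum.inl j) true) = χ ι (g i))).card ∧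
      ∀ ι' ∉ L, ∀ b', (univ.filter (fun j : Dm => ¬ (χ ι (p (Sum.inl j) true) = χ ι (g i) ↔
        χ ι' (p (Sum.inl j) true) = b'))).card ≤ D → χ ι' (g i) = b'
  hs : 0 < s
  hn : 2 * (Tr s s + 2 * (Fintype.card Dm + s * Mr s s)) + 8 * Fintype.card (PI Dm s) + 6 ≤
    Fintype.card Bs
  hδ : 2 * (Tr s s + 2 * (Fintype.card Dm + s * Mr s s)) + 8 * Fintype.card (PI Dm s) + 3 ≤ δ
  hD : s * s + 2 * (Tr s s + 2 * (s * Mr s s) + 2) ≤ D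
  hρ : s * s < Fintype.card Dm

namespace Des

variable {I E Bs Dm : Type} [Fintype I] [Fintype E] [DecidableEq I] [DecidableEq E]
  [Fintype Bs] [Fintype Dm] [DecidableEq Bs] [DecidableEq Dm] {s : ℕ} (d : Des I E Bs Dm s)

def ed (φ : I × Bool → ℕ) (h : E) : Finset ℕ := edS d.χ φ univ h

def Win (A : Pos) : Prop := ∃ φ : I × Bool → ℕ, Injective φ ∧ ∀ h, d.ed φ h ∈ A

def ker (ψ : I × Bool → ℕ) (j : PI Dm s) (b : Bool) : Finset ℕ :=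
  edS d.χ ψ (univ.erase (d.y j)) (d.p j b)

noncomputable def emb (ψ : I × Bool → ℕ) (ξ : PI Dm s → ℕ) : I × Bool → ℕ :=
  Function.extend (fun j => (d.y j, true)) ξ ψ

lemma yt_inj : Injective (fun j => (d.y j, true)) := fun _ _ h => d.y_inj (Prod.mk.inj h).1

lemma emb_y (ψ : I × Bool → ℕ) (ξ : PI Dm s → ℕ) (j : PI Dm s) : d.emb ψ ξ (d.y j, true) = ξ j :=
  d.yt_inj.extend_apply ξ ψ j

lemma emb_ne (ψ : I × Bool → ℕ) (ξ : PI Dm s → ℕ) {v : I × Bool} (hv : ∀ j, (d.y j, true) ≠ v) :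
    d.emb ψ ξ v = ψ v :=
  Function.extend_apply' _ _ _ fun ⟨j, hj⟩ => hv j hj

lemma emb_cases (ψ : I × Bool → ℕ) (v : I × Bool) :
    (∃ j, v = (d.y j, true) ∧ ∀ ξ, d.emb ψ ξ v = ξ j) ∨
      ((∀ j, (d.y j, true) ≠ v) ∧ ∀ ξ, d.emb ψ ξ v = ψ v) := by
  by_cases h : ∃ j, (d.y j, true) = v
  · obtain ⟨j, rfl⟩ := h
    exact Or.inl ⟨j, rfl, fun ξ => d.emb_y ψ ξ j⟩
  · push Not at h
    exact Or.inr ⟨h, fun ξ => d.emb_ne ψ ξ h⟩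

lemma ed_emb_congr (ψ : I × Bool → ℕ) {ξ ξ' : PI Dm s → ℕ} {h : E}
    (hh : ∀ j, d.χ (d.y j) h = true → ξ j = ξ' j) : d.ed (d.emb ψ ξ) h = d.ed (d.emb ψ ξ') h := by
  refine image_congr fun ι _ => ?_
  rcases d.emb_cases ψ (ι, d.χ ι h) with ⟨j, h1, h2⟩ | ⟨-, h2⟩
  · obtain ⟨rfl, h3⟩ := Prod.mk.inj h1
    simp only [h2, hh j h3]
  · simp only [h2]

lemma ed_emb_g (ψ : I × Bool → ℕ) (ξ : PI Dm s → ℕ) (i : Bs) :
    d.ed (d.emb ψ ξ) (d.g i) = d.ed ψ (d.g i) := by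
  refine image_congr fun ι _ => d.emb_ne ψ ξ fun j hj => ?_
  obtain ⟨rfl, h3⟩ := Prod.mk.inj hj
  rw [d.yg] at h3
  exact Bool.noConfusion h3

lemma ed_emb_p (ψ : I × Bool → ℕ) (ξ : PI Dm s → ℕ) (j : PI Dm s) (b : Bool) :
    d.ed (d.emb ψ ξ) (d.p j b) = insert (ξ j) (d.ker ψ j b) := by
  have h1 : (univ : Finset I) = insert (d.y j) (univ.erase (d.y j)) :=
    (insert_erase (mem_univ _)).symm
  unfold ed ker edS
  conv_lhs => rw [h1, image_insert]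
  rw [(d.yp j j b).2 rfl, d.emb_y]
  congr 1
  refine image_congr fun ι hι => d.emb_ne ψ ξ fun j' hj => ?_
  obtain ⟨rfl, h3⟩ := Prod.mk.inj hj
  obtain rfl := (d.yp j' j b).1 h3.symm
  exact notMem_erase _ _ (mem_coe.1 hι)

/-- The fixed data of the second phase. -/
structure Ph (d : Des I E Bs Dm s) where
  ψ : I × Bool → ℕ
  φ0 : I × Bool → ℕ
  tg : ℕ → PI Dm s
  hψ : Injective ψ
  hφ0 : Injective φ0
  htg : ∀ j M, ∃ x, M ≤ x ∧ tg x = j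

variable {d}

def Ph.ok (h : d.Ph) (j : PI Dm s) (x : ℕ) : Prop :=
  h.tg x = j ∧ (∀ v, h.ψ v ≠ x) ∧ ∀ v, h.φ0 v ≠ x

lemma Ph.exists_ok (h : d.Ph) (j : PI Dm s) (M : ℕ) : ∃ x, M ≤ x ∧ h.ok j x := by
  obtain ⟨M', -, hM'⟩ := exists_bound ∅ (univ.image h.ψ ∪ univ.image h.φ0)
  obtain ⟨x, h1, h2⟩ := h.htg j (max M M')
  have h3 := le_of_max_le_right h1
  refine ⟨x, le_of_max_le_left h1, h2, fun v hv => ?_, fun v hv => ?_⟩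
  · have := hM' x (mem_union_left _ (mem_image.2 ⟨v, mem_univ _, hv⟩))
    omega
  · have := hM' x (mem_union_right _ (mem_image.2 ⟨v, mem_univ _, hv⟩))
    omega

lemma Ph.ok.notMem {h : d.Ph} {j : PI Dm s} {x : ℕ} (hx : h.ok j x) : x ∉ imL d.L h.φ0 := by
  intro hh
  obtain ⟨ι, -, b, h2⟩ := mem_imL'.1 hh
  exact hx.2.2 _ h2

lemma Ph.emb_inj (h : d.Ph) {ξ : PI Dm s → ℕ} (hξ : ∀ j, h.ok j (ξ j)) :
    Injective (d.emb h.ψ ξ) := by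
  intro v v' hv
  rcases d.emb_cases h.ψ v with ⟨j, rfl, h2⟩ | ⟨-, h2⟩ <;>
    rcases d.emb_cases h.ψ v' with ⟨j', rfl, h4⟩ | ⟨-, h4⟩ <;> rw [h2, h4] at hv
  · rw [← (hξ j).1, hv, (hξ j').1]
  · exact absurd hv.symm ((hξ j).2.1 _)
  · exact absurd hv ((hξ j').2.1 _)
  · exact h.hψ hv

lemma Ph.ok_update (h : d.Ph) {ξ : PI Dm s → ℕ} (hξ : ∀ j, h.ok j (ξ j)) {j : PI Dm s} {x : ℕ}
    (hx : h.ok j x) : ∀ j', h.ok j' (update ξ j x j') := by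
  intro j'
  by_cases hj : j' = j
  · subst hj
    rwa [update_self]
  · rw [update_of_ne hj]
    exact hξ j'

lemma Ph.role_emb (h : d.Ph) {ξ ξ' : PI Dm s → ℕ} (hξ : ∀ j, h.ok j (ξ j))
    (hξ' : ∀ j, h.ok j (ξ' j)) (r : E) :
    d.ed (d.emb h.ψ ξ) r ∩ imL d.L h.φ0 = d.ed (d.emb h.ψ ξ') r ∩ imL d.L h.φ0 := by
  have key : ∀ {ξ ξ' : PI Dm s → ℕ}, (∀ j, h.ok j (ξ j)) →
      d.ed (d.emb h.ψ ξ) r ∩ imL d.L h.φ0 ⊆ d.ed (d.emb h.ψ ξ') r ∩ imL d.L h.φ0 := by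
    intro ξ ξ' hξ x hx
    obtain ⟨h1, h2⟩ := mem_inter.1 hx
    refine mem_inter.2 ⟨?_, h2⟩
    obtain ⟨ι, -, rfl⟩ := mem_edS'.1 h1
    rcases d.emb_cases h.ψ (ι, d.χ ι r) with ⟨j, -, h4⟩ | ⟨-, h4⟩
    · rw [h4] at h2
      exact absurd h2 (hξ j).notMem
    · exact mem_edS'.2 ⟨ι, mem_univ _, by rw [h4, h4]⟩
  exact Subset.antisymm (key hξ) (key hξ')

def Ph.Spec (h : d.Ph) (e : Finset ℕ) : Prop :=
  ∃ j b, d.ker h.ψ j b ⊆ e ∨ edS d.χ h.φ0 d.L (d.p j b) ⊆ e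

def Ph.Dead (h : d.Ph) (A : Pos) (e : Finset ℕ) : Prop :=
  h.Spec e ∧ ∀ φ, Injective φ → Fr d.χ d.L h.φ0 φ → (∃ r, d.ed φ r = e) → ∃ r, d.ed φ r ∈ A

def Ph.Pi (h : d.Ph) (Js : Finset Dm) (e : Finset ℕ) : Prop :=
  ∃ j ∈ Js, ∃ b, Role d.χ d.L h.φ0 e (d.p (Sum.inl j) b)

lemma card_pos (d : Des I E Bs Dm s) : 0 < Fintype.card I :=
  Fintype.card_pos_iff.2 ⟨d.y (Sum.inr (Sum.inl ⟨0, d.hs⟩))⟩

def Ph.att (h : d.Ph) (Js : Finset Dm) : Att where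
  k := Fintype.card I
  Win := d.Win
  Dead := h.Dead
  Pi := h.Pi Js
  hk := d.card_pos
  winm := fun _ _ hA ⟨φ, h1, h2⟩ => ⟨φ, h1, fun r => hA (h2 r)⟩
  deadm := fun _ _ _ hA hd => ⟨hd.1, fun φ h1 h2 h3 =>
    (hd.2 φ h1 h2 h3).imp fun _ hr => hA hr⟩

lemma Ph.card_pe (h : d.Ph) {j : PI Dm s} {x : ℕ} (hx : h.ok j x) (b : Bool) :
    (insert x (d.ker h.ψ j b)).card = Fintype.card I := by
  rw [card_insert_of_notMem, ker, card_edS h.hψ, card_erase_add_one (mem_univ _), card_univ]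
  intro hh
  obtain ⟨ι, -, h2⟩ := mem_edS'.1 hh
  exact hx.2.1 _ h2

lemma Ph.order (h : d.Ph) (j : PI Dm s) : ∃ b, ∀ x, h.ok j x → ∀ A,
    insert x (d.ker h.ψ j b) ∈ A → h.Dead A (insert x (d.ker h.ψ j (!b))) := by
  obtain ⟨b, hb⟩ := d.gap.order h.hφ0 h.hψ (d.p j)
    (fun hh => Bool.noConfusion (d.p_inj _ _ _ _ hh).2) (d.pr j) (d.yL j)
  refine ⟨b, fun x hx A hA => ⟨⟨j, !b, Or.inl (subset_insert _ _)⟩, ?_⟩⟩
  rintro φ h1 h2 ⟨r, hr⟩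
  obtain ⟨r', hr'⟩ := hb x hx.notMem φ h1 h2 r hr
  exact ⟨r', by rw [ed, hr']; exact hA⟩

end Des

end Pool.Agent.Lib.MP_bf69bb_co.Hyp
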