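import Pool.Agent.Lib.MP_bf69bb_co.HCon

set_option autoImplicit false
set_option linter.unusedSectionVars false
set_option synthInstance.maxSize 4096

namespace Pool.Agent.Lib.MP_bf69bb_co.Hyp

open Finset Function

theorem Des.draw {I E Bs Dm : Type} [Fintype I] [Fintype E] [DecidableEq I] [DecidableEq E]
    [Fintype Bs] [Fintype Dm] [DecidableEq Bs] [DecidableEq Dm] {s : ℕ} (d : Des I E Bs Dm s)
    (hdeg : ∀ ι b, s ≤ (univ.filter (fun h => d.χ ι h = b)).card) :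
    ∃ (v : ℕ) (H : Finset (Finset (Fin v))), H.Nonempty ∧ (∀ h ∈ H, h.card = Fintype.card I) ∧
      (∀ x : Fin v, s ≤ (H.filter (fun h => x ∈ h)).card) ∧
      ¬ Wins (Fintype.card I) H 0 ∧ ¬ Wins (Fintype.card I) H 1 := by
  let ε := Fintype.equivFin (I × Bool)
  let eh : E → Finset (Fin (Fintype.card (I × Bool))) := fun h =>
    univ.image (fun ι => ε (ι, d.χ ι h))
  have hmap : ∀ (φ : Fin (Fintype.card (I × Bool)) ↪ ℕ) h, (eh h).map φ = d.ed (φ ∘ ε) h := by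
    intro φ h
    rw [map_eq_image, image_image]
    rfl
  have hinj : Injective eh := fun h h' hh =>
    d.gap.ed_inj (φ := Fin.valEmbedding ∘ ε) (Fin.valEmbedding.injective.comp ε.injective)
      ((hmap _ h).symm.trans (hh ▸ hmap _ h'))
  have hne : (univ.image eh).Nonempty :=
    ⟨_, mem_image.2 ⟨d.c ⟨0, d.hs⟩ ⟨0, d.hs⟩, mem_univ _, rfl⟩⟩
  have hW : ∀ A, d.Win A ↔ ∃ φ : Fin (Fintype.card (I × Bool)) ↪ ℕ,
      ∀ h ∈ univ.image eh, h.map φ ∈ A := by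
    intro A
    constructor
    · rintro ⟨φ, h1, h2⟩
      refine ⟨⟨φ ∘ ε.symm, h1.comp ε.symm.injective⟩, fun h hh => ?_⟩
      obtain ⟨r, -, rfl⟩ := mem_image.1 hh
      rw [hmap]
      convert h2 r
      ext v
      simp
    · rintro ⟨φ, h2⟩
      exact ⟨φ ∘ ε, φ.injective.comp ε.injective, fun r =>
        hmap φ r ▸ h2 _ (mem_image.2 ⟨r, mem_univ _, rfl⟩)⟩
  have hnw := not_wins d.card_pos _ hne d.Win hW d.Inv d.inv_empty (fun _ _ _ => Des.Inv.mono)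
    (fun A B e h1 h2 h3 h4 _ => h1.step h2 h3 h4)
  refine ⟨_, univ.image eh, hne, fun h hh => ?_, fun x => ?_, hnw 0 (by omega), hnw 1 (by omega)⟩
  · obtain ⟨r, -, rfl⟩ := mem_image.1 hh
    rw [card_image_of_injective _ fun ι ι' h => (Prod.mk.inj (ε.injective h)).1, card_univ]
  · obtain ⟨⟨ι, b⟩, rfl⟩ := ε.surjective x
    refine (hdeg ι b).trans (card_le_card_of_injOn eh (fun h hh => ?_) hinj.injOn)
    refine mem_coe.2 (mem_filter.2 ⟨mem_image.2 ⟨h, mem_univ _, rfl⟩, ?_⟩)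
    exact mem_image.2 ⟨ι, mem_univ _, by rw [(mem_filter.1 (mem_coe.1 hh)).2]⟩

theorem exists_draw (d : ℕ) : ∃ (k v : ℕ) (H : Finset (Finset (Fin v))),
    2 ≤ k ∧ H.Nonempty ∧ (∀ h ∈ H, h.card = k) ∧
      (∀ x : Fin v, d ≤ (H.filter (fun h => x ∈ h)).card) ∧ ¬ Wins k H 0 ∧ ¬ Wins k H 1 := by
  obtain ⟨a1, a2, m1, m2, D, h1, h2⟩ := exists_des (Nat.succ_pos d)
  obtain ⟨v, H, k1, k2, k3, k4⟩ := D.draw h2
  exact ⟨_, v, H, h1, k1, k2, fun x => (Nat.le_succ d).trans (k3 x), k4⟩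

end Pool.Agent.Lib.MP_bf69bb_co.Hyp
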