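import Pool.Agent.Lib.MP_bf69bb_co.HRound

set_option autoImplicit false
set_option linter.unusedSectionVars false

namespace Pool.Agent.Lib.MP_bf69bb_co.Hyp

open Finset Function

namespace Des

variable {I E Bs Dm : Type} [Fintype I] [Fintype E] [DecidableEq I] [DecidableEq E]
  [Fintype Bs] [Fintype Dm] [DecidableEq Bs] [DecidableEq Dm] {s : ℕ} {d : Des I E Bs Dm s}

lemma Ph.card_spec (h : d.Ph) {φ : I × Bool → ℕ} (hφ : Injective φ)
    [DecidablePred fun r => h.Spec (d.ed φ r)] :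
    (univ.filter (fun r => h.Spec (d.ed φ r))).card ≤ 4 * Fintype.card (PI Dm s) := by
  let K : PI Dm s × Bool × Bool → Finset ℕ := fun t =>
    if t.2.2 then d.ker h.ψ t.1 t.2.1 else edS d.χ h.φ0 d.L (d.p t.1 t.2.1)
  have hK : ∀ t, d.L.card ≤ (K t).card := by
    rintro ⟨j, b, o⟩
    cases o
    · exact (card_edS h.hφ0 _ _).ge
    · change _ ≤ (d.ker h.ψ j b).card
      rw [ker, card_edS h.hψ]
      exact card_le_card fun ι hι => mem_erase.2 ⟨fun hh => d.yL j (hh ▸ hι), mem_univ _⟩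
  have h1 : univ.filter (fun r => h.Spec (d.ed φ r)) ⊆
      univ.biUnion (fun t => univ.filter (fun r => K t ⊆ d.ed φ r)) := by
    intro r hr
    obtain ⟨j, b, h2 | h2⟩ := (mem_filter.1 hr).2
    · exact mem_biUnion.2 ⟨(j, b, true), mem_univ _, mem_filter.2 ⟨mem_univ _, h2⟩⟩
    · exact mem_biUnion.2 ⟨(j, b, false), mem_univ _, mem_filter.2 ⟨mem_univ _, h2⟩⟩
  refine (card_le_card h1).trans ((card_biUnion_le_card_mul _ _ 1 fun t _ => ?_).trans ?_)
  · exact card_le_one.2 fun r hr r' hr' =>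
      d.gap.eq_of_big hφ (hK t) (mem_filter.1 hr).2 (mem_filter.1 hr').2
  · simp only [card_univ, Fintype.card_prod, Fintype.card_bool]
    omega

lemma card_cover (d : Des I E Bs Dm s) {φ : I × Bool → ℕ} (hφ : Injective φ) (F C : Pos)
    (e : Finset ℕ) (X : Finset E)
    (hX : ∀ r, d.ed φ r ∈ F ∨ d.ed φ r ∈ C ∨ d.ed φ r = e ∨ r ∈ X) :
    Fintype.card E ≤ cov d.χ φ F + C.card + 1 + X.card := by
  have h1 : (univ : Finset E) ⊆ univ.filter (fun r => d.ed φ r ∈ F) ∪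
      univ.filter (fun r => d.ed φ r ∈ insert e C) ∪ X := by
    intro r _
    simp only [mem_union, mem_filter, mem_univ, true_and, mem_insert]
    have := hX r
    tauto
  have h2 : (univ.filter (fun r => d.ed φ r ∈ insert e C)).card ≤ (insert e C).card :=
    card_le_card_of_injOn (d.ed φ) (fun r hr => mem_coe.2 (mem_filter.1 (mem_coe.1 hr)).2)
      (d.gap.ed_inj hφ).injOn
  have h3 := card_insert_le e C
  have h4 := (card_le_card h1).trans ((card_union_le _ _).trans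
    (Nat.add_le_add_right (card_union_le _ _) _))
  rw [card_univ] at h4
  change _ ≤ cov d.χ φ F + _ + _ at h4
  omega

/-- The invariant of the second phase. -/
def Inv2 (d : Des I E Bs Dm s) (A B : Pos) : Prop :=
  ∃ (h : d.Ph) (Js : Finset Dm) (F : Pos), F.card ≤ Fintype.card Bs + 1 ∧
    (∀ φ, Injective φ → cov d.χ φ F ≤ cov d.χ h.φ0 F) ∧
    (∀ φ, Injective φ → Fr d.χ d.L h.φ0 φ → Fintype.card E ≤ cov d.χ φ F + SS Dm s + 1 →
      Js.Nonempty ∨ ∃ r, d.ed φ r ∈ A) ∧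
    ∃ (R : ℕ) (C : Pos), (h.att Js).Good R A B ∧ C.card + R ≤ SS Dm s ∧
      (∀ e ∈ B, e ∈ F ∨ e ∈ C ∨ h.Dead A e) ∧ ∀ e ∈ B, h.Pi Js e → h.Dead A e

lemma Inv2.mono {A A' B : Pos} (hI : d.Inv2 A B) (hA : A ⊆ A') : d.Inv2 A' B := by
  obtain ⟨h, Js, F, h1, h2, h3, R, C, h4, h5, h6, h7⟩ := hI
  refine ⟨h, Js, F, h1, h2, fun φ a b c => (h3 φ a b c).imp id fun ⟨r, hr⟩ => ⟨r, hA hr⟩, R, C,
    h4.mono hA, h5, fun e he => ?_, fun e he hp => (h.att Js).deadm _ _ _ hA (h7 e he hp)⟩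
  exact (h6 e he).imp id (Or.imp id ((h.att Js).deadm _ _ _ hA))

lemma fr_of_weak (d : Des I E Bs Dm s) {φ φ0 : I × Bool → ℕ} (hφ : Injective φ)
    (hφ0 : Injective φ0) {F : Pos} (hF : F.card ≤ Fintype.card Bs + 1)
    (h0 : cov d.χ φ F ≤ cov d.χ φ0 F)
    (h1 : Fintype.card E ≤ cov d.χ φ F + SS Dm s + 1 + 4 * Fintype.card (PI Dm s)) :
    Fr d.χ d.L φ0 φ := by
  have hn := d.hn
  have hδ := d.hδ
  have hE := d.cardE
  unfold SS at h1
  obtain ⟨J, k1, k2⟩ := d.gap.common hφ hφ0 F (by omega)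
  refine d.far.fr hφ hφ0 (fun r hr => (k2 r hr).1) ?_
  have := card_add_card_compl J
  omega

lemma Inv2.not_win {A B : Pos} (hI : d.Inv2 A B) {e : Finset ℕ} (hd : Disjoint A (insert e B)) :
    ¬ d.Win (insert e B) := by
  classical
  obtain ⟨h, Js, F, h1, h2, h3, R, C, -, h5, h6, h7⟩ := hI
  rintro ⟨φ, hφ, hw⟩
  have hA : ∀ r, d.ed φ r ∉ A := fun r hr => disjoint_left.1 hd hr (hw r)
  have k1 := d.card_cover hφ F C e (univ.filter (fun r => h.Spec (d.ed φ r))) (by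
    intro r
    rcases mem_insert.1 (hw r) with k | k
    · exact Or.inr (Or.inr (Or.inl k))
    · rcases h6 _ k with k | k | k
      · exact Or.inl k
      · exact Or.inr (Or.inl k)
      · exact Or.inr (Or.inr (Or.inr (mem_filter.2 ⟨mem_univ _, k.1⟩))))
  have k2 := h.card_spec hφ
  have hF := d.fr_of_weak hφ h.hφ0 h1 (h2 φ hφ) (by omega)
  have hnd : ∀ r, ¬ h.Dead A (d.ed φ r) := fun r hr =>
    (hr.2 φ hφ hF ⟨r, rfl⟩).elim fun r' hr' => hA r' hr'
  have k3 := d.card_cover hφ F C e ∅ (by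
    intro r
    rcases mem_insert.1 (hw r) with k | k
    · exact Or.inr (Or.inr (Or.inl k))
    · rcases h6 _ k with k | k | k
      · exact Or.inl k
      · exact Or.inr (Or.inl k)
      · exact absurd k (hnd r))
  rw [card_empty] at k3
  rcases h3 φ hφ hF (by omega) with ⟨j, hj⟩ | ⟨r, hr⟩
  · have k4 : ∀ b, d.ed φ (d.p (Sum.inl j) b) = e := by
      intro b
      rcases mem_insert.1 (hw (d.p (Sum.inl j) b)) with k | k
      · exact k
      · exact absurd (h7 _ k ⟨j, hj, b, hF.role hφ _⟩) (hnd _)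
    exact Bool.noConfusion
      (d.p_inj _ _ _ _ (d.gap.ed_inj hφ ((k4 true).trans (k4 false).symm))).2
  · exact hA r hr

lemma Ph.partner (h : d.Ph) {Js : Finset Dm} {e : Finset ℕ} (he : h.Pi Js e) :
    h.Spec e ∧ ∃ e', e'.card = e.card ∧ e' ≠ e ∧ h.Pi Js e' ∧
      ∀ φ, Injective φ → Fr d.χ d.L h.φ0 φ → (∃ r, d.ed φ r = e) → ∃ r, d.ed φ r = e' := by
  obtain ⟨j, hj, b, hr⟩ := he
  obtain ⟨k1, k2⟩ := hr.partner h.hφ0 (d.p (Sum.inl j) (!b))
  refine ⟨⟨_, b, Or.inr (hr ▸ inter_subset_left)⟩, _, k1, fun hh => ?_, ⟨j, hj, _, k2⟩, ?_⟩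
  · rw [hh] at k2
    have := (d.p_inj _ _ _ _ (hr.uniq d.gap h.hφ0 k2)).2
    cases b <;> exact Bool.noConfusion this
  · rintro φ hφ hF ⟨r, rfl⟩
    obtain rfl := (hF.role hφ r).uniq d.gap h.hφ0 hr
    refine ⟨d.p (Sum.inl j) (!b), hF.partner hφ fun ι hι => ?_⟩
    cases b
    · exact (d.pr _ ι hι).symm
    · exact d.pr _ ι hι

lemma Inv2.step {A B : Pos} (hI : d.Inv2 A B) {e : Finset ℕ} (he : e.card = Fintype.card I) :
    d.Win A ∨ ∃ f, f.card = Fintype.card I ∧ f ∉ insert e B ∧ d.Inv2 (insert f A) (insert e B) := by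
  obtain ⟨h, Js, F, h1, h2, h3, R, C, h4, h5, h6, h7⟩ := hI
  rcases h4.step with hs | hs
  · exact Or.inl hs
  right
  have fin : ∀ f R' C', f.card = Fintype.card I → f ∉ insert e B →
      (h.att Js).Good R' (insert f A) (insert e B) → C ⊆ C' → C'.card + R' ≤ SS Dm s →
      ((e ∈ C' ∧ ¬ h.Pi Js e) ∨ h.Dead (insert f A) e) →
      ∃ f, f.card = Fintype.card I ∧ f ∉ insert e B ∧ d.Inv2 (insert f A) (insert e B) := by
    intro f R' C' a1 a2 a3 a4 a5 a6
    refine ⟨f, a1, a2, h, Js, F, h1, h2, fun φ a b c => (h3 φ a b c).imp id fun ⟨r, hr⟩ =>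
      ⟨r, mem_insert_of_mem hr⟩, R', C', a3, a5, fun x hx => ?_, fun x hx hp => ?_⟩
    · rcases mem_insert.1 hx with rfl | hx
      · exact Or.inr (a6.imp And.left id)
      · exact (h6 x hx).imp id (Or.imp (fun k => a4 k)
          ((h.att Js).deadm _ _ _ (subset_insert _ _)))
    · rcases mem_insert.1 hx with rfl | hx
      · exact a6.elim (fun k => absurd hp k.2) id
      · exact (h.att Js).deadm _ _ _ (subset_insert _ _) (h7 x hx hp)
  rcases hs e with ⟨k1, f, k2, k3, k4⟩ | ⟨⟨R', rfl, f, k2, k3, k4⟩, k5⟩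
  · exact fin f R C k2 k3 k4 Subset.rfl h5
      (Or.inr ((h.att Js).deadm _ _ _ (subset_insert _ _) k1))
  by_cases hp : h.Pi Js e
  · obtain ⟨m0, e', m1, m2, m3, m4⟩ := h.partner hp
    by_cases hB : e' ∈ insert e B
    · have m5 := h7 e' ((mem_insert.1 hB).resolve_left m2) m3
      obtain ⟨g, g1, g2⟩ := exists_new d.card_pos (insert e B)
      refine fin g _ C g1 g2 ((k5 hp).mono (subset_insert _ _)) Subset.rfl h5 (Or.inr ⟨m0, ?_⟩)
      intro φ a b c
      exact (m5.2 φ a b (m4 φ a b c)).imp fun _ hr => mem_insert_of_mem hr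
    · refine fin e' _ C (m1.trans he) hB ((k5 hp).mono (subset_insert _ _)) Subset.rfl h5
        (Or.inr ⟨m0, ?_⟩)
      intro φ a b c
      exact (m4 φ a b c).imp fun _ hr => by rw [hr]; exact mem_insert_self _ _
  · refine fin f R' (insert e C) k2 k3 k4 (subset_insert _ _) ?_ (Or.inl ⟨mem_insert_self _ _, hp⟩)
    have := card_insert_le e C
    omega

lemma exists_tag (T : Type) [Fintype T] [Nonempty T] : ∃ tg : ℕ → T, ∀ j M, ∃ x, M ≤ x ∧ tg x = j := by
  have hc : 0 < Fintype.card T := Fintype.card_pos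
  refine ⟨fun x => (Fintype.equivFin T).symm ⟨x % Fintype.card T, Nat.mod_lt _ hc⟩, fun j M => ?_⟩
  refine ⟨Fintype.card T * M + (Fintype.equivFin T j).val, by nlinarith, ?_⟩
  rw [Equiv.symm_apply_eq]
  ext
  simp [Nat.mod_eq_of_lt (Fintype.equivFin T j).isLt]

lemma exists_max (d : Des I E Bs Dm s) {ψ : I × Bool → ℕ} (hψ : Injective ψ) (F : Pos) :
    ∃ φ0, Injective φ0 ∧ ∀ φ, Injective φ → cov d.χ φ F ≤ cov d.χ φ0 F := by
  classical
  have hex : ∃ t, ∃ φ, Injective φ ∧ Fintype.card E - cov d.χ φ F = t := ⟨_, ψ, hψ, rfl⟩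
  obtain ⟨φ0, h1, h2⟩ := Nat.find_spec hex
  refine ⟨φ0, h1, fun φ hφ => ?_⟩
  have h3 := Nat.find_min' hex ⟨φ, hφ, rfl⟩
  have h4 : cov d.χ φ F ≤ Fintype.card E := card_le_univ _
  omega

/-- If almost all pairs are already occupied, a missing base edge is determined. -/
lemma base_det (d : Des I E Bs Dm s) {φ φ0 : I × Bool → ℕ} (hφ : Injective φ)
    (hφ0 : Injective φ0) (hfr : Fr d.χ d.L φ0 φ) {F : Pos} (hF : F.card ≤ Fintype.card Bs + 1)
    (h0 : cov d.χ φ F ≤ cov d.χ φ0 F) (h1 : Fintype.card E ≤ cov d.χ φ F + SS Dm s + 1)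
    (X : Finset Dm) (hX : X.card ≤ s * s)
    (hocc : ∀ j ∉ X, ∃ e ∈ F, ∃ b, Role d.χ d.L φ0 e (d.p (Sum.inl j) b)) (i : Bs) :
    d.ed φ (d.g i) = d.ed φ0 (d.g i) := by
  classical
  have hn := d.hn
  have hD := d.hD
  have hE := d.cardE
  have hP : Fintype.card Dm ≤ Fintype.card (PI Dm s) := by simp
  unfold SS at h1
  obtain ⟨J, k1, k2⟩ := d.gap.common hφ hφ0 F (by omega)
  set Y : Finset Dm := univ.filter (fun j => ∀ b, d.p (Sum.inl j) b ∉ J) with hY
  have hJF : J.image (d.ed φ0) ⊆ F := by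
    intro e he
    obtain ⟨r, hr, rfl⟩ := mem_image.1 he
    rw [ed, ← (k2 r hr).1]
    exact (k2 r hr).2
  have cY : Y.card ≤ d.D := by
    choose! ee m1 bb m2 using hocc
    have c1 : (Y \ X).card ≤ (F \ J.image (d.ed φ0)).card := by
      refine card_le_card_of_injOn ee (fun j hj => ?_) (fun j hj j' hj' hh => ?_)
      · obtain ⟨a1, a2⟩ := mem_sdiff.1 (mem_coe.1 hj)
        refine mem_coe.2 (mem_sdiff.2 ⟨m1 j a2, fun a3 => ?_⟩)
        obtain ⟨r, hr, a4⟩ := mem_image.1 a3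
        have a5 := m2 j a2
        rw [← a4] at a5
        obtain rfl := (Fr.refl.role hφ0 r).uniq d.gap hφ0 a5
        exact (mem_filter.1 a1).2 _ hr
      · have a1 := m2 j (mem_sdiff.1 (mem_coe.1 hj)).2
        have a2 := m2 j' (mem_sdiff.1 (mem_coe.1 hj')).2
        rw [hh] at a1
        exact Sum.inl.inj (d.p_inj _ _ _ _ (a1.uniq d.gap hφ0 a2)).1
    rw [card_sdiff_of_subset hJF, card_image_of_injective (f := d.ed φ0) _ (d.gap.ed_inj hφ0)] at c1
    have c2 := le_card_sdiff X Y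
    omega
  have hb : ∀ j b, ∀ ι ∉ d.L, d.χ ι (d.p j b) = d.χ ι (d.p j true) := by
    intro j b ι hι
    cases b
    · exact (d.pr j ι hι).symm
    · rfl
  refine eq_of_subset_of_card_le (fun x hx => ?_) (by rw [ed, ed, card_edS hφ, card_edS hφ0])
  obtain ⟨ι, -, rfl⟩ := mem_edS'.1 hx
  by_cases hι : ι ∈ d.L
  · exact edS_mono (subset_univ _) _ (hfr.1 _ ▸ (mem_edS hφ).2 ⟨hι, rfl⟩)
  obtain ⟨c1, c2⟩ := d.code i ι hι
  have : ∃ j b, d.p (Sum.inl j) b ∈ J ∧ d.χ ι (d.p (Sum.inl j) true) = d.χ ι (d.g i) := by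
    by_contra hcon
    push Not at hcon
    have : (univ.filter (fun j : Dm => d.χ ι (d.p (Sum.inl j) true) = d.χ ι (d.g i))).card ≤
        Y.card := card_le_card fun j hj =>
      mem_filter.2 ⟨mem_univ _, fun b hb' => hcon j b hb' (mem_filter.1 hj).2⟩
    omega
  obtain ⟨j, b, a1, a2⟩ := this
  obtain ⟨ι', b', a3, a4⟩ := transfer hφ hφ0 (fun r hr => (k2 r hr).1) a1
    ((hb _ b ι hι).trans a2)
  have hι' : ι' ∉ d.L := fun hh => hι ((mem_imL hφ).1 (hfr.2 ▸ a3 ▸ (mem_imL hφ0).2 hh))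
  rw [a3]
  refine (mem_edS hφ0).2 ⟨mem_univ _, c2 ι' hι' b' (le_trans (card_le_card fun j' hj' => ?_) cY)⟩
  refine mem_filter.2 ⟨mem_univ _, fun β hβ => (mem_filter.1 hj').2 ?_⟩
  rw [← hb _ β ι hι, ← hb _ β ι' hι']
  exact a4 _ hβ

/-- The start of the second phase. -/
lemma setup (d : Des I E Bs Dm s) {ψ : I × Bool → ℕ} (hψ : Injective ψ) {A F : Pos}
    (hg : ∀ i, d.ed ψ (d.g i) ∈ A) (hF : F.card ≤ Fintype.card Bs + 1)
    (hk : ∀ e ∈ F, e.card = Fintype.card I) :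
    ∃ f, f.card = Fintype.card I ∧ f ∉ F ∧ d.Inv2 (insert f A) F := by
  classical
  obtain ⟨φ0, hφ0, hmax⟩ := d.exists_max hψ F
  haveI : Nonempty (PI Dm s) := ⟨Sum.inr (Sum.inl ⟨0, d.hs⟩)⟩
  obtain ⟨tg, htg⟩ := exists_tag (PI Dm s)
  let h : d.Ph := ⟨ψ, φ0, tg, hψ, hφ0, htg⟩
  choose ξ0 _ hξ0 using fun j => h.exists_ok j 0
  set X : Finset Dm := univ.filter (fun j => ∃ a b β,
    Role d.χ d.L φ0 (d.ed (d.emb ψ ξ0) (d.c a b)) (d.p (Sum.inl j) β)) with hXdef
  have hX : X.card ≤ s * s := by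
    have h1 : X ⊆ univ.biUnion (fun t : Fin s × Fin s => univ.filter (fun j => ∃ β,
        Role d.χ d.L φ0 (d.ed (d.emb ψ ξ0) (d.c t.1 t.2)) (d.p (Sum.inl j) β))) := by
      intro j hj
      obtain ⟨a, b, hh⟩ := (mem_filter.1 hj).2
      exact mem_biUnion.2 ⟨(a, b), mem_univ _, mem_filter.2 ⟨mem_univ _, hh⟩⟩
    refine (card_le_card h1).trans ((card_biUnion_le_card_mul _ _ 1 fun t _ => ?_).trans ?_)
    · refine card_le_one.2 fun j hj j' hj' => ?_
      obtain ⟨β, a1⟩ := (mem_filter.1 hj).2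
      obtain ⟨β', a2⟩ := (mem_filter.1 hj').2
      exact Sum.inl.inj (d.p_inj _ _ _ _ (a1.uniq d.gap hφ0 a2)).1
    · simp
  have fin : ∀ (Js : Finset Dm) f, f.card = Fintype.card I → f ∉ F → h.Free Js →
      (∀ φ, Injective φ → Fr d.χ d.L φ0 φ → Fintype.card E ≤ cov d.χ φ F + SS Dm s + 1 →
        Js.Nonempty ∨ ∃ r, d.ed φ r ∈ insert f A) →
      (∀ e ∈ F, h.Pi Js e → h.Dead (insert f A) e) →
      ∃ f, f.card = Fintype.card I ∧ f ∉ F ∧ d.Inv2 (insert f A) F :=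
    fun Js f a1 a2 a3 a4 a5 => ⟨f, a1, a2, h, Js, F, hF, hmax, a4, SS Dm s, ∅,
      h.attack a3 (fun i => mem_insert_of_mem (hg i)) F, by simp, fun e he => Or.inl he, a5⟩
  by_cases hc : ∃ j ∉ X, (F.filter (h.Pi {j})).card ≤ 1
  · obtain ⟨j, hj, hc⟩ := hc
    have hfree : h.Free {j} := by
      rintro ξ hξ a b ⟨j', h1, β, h2⟩
      obtain rfl := mem_singleton.1 h1
      refine hj (mem_filter.2 ⟨mem_univ _, a, b, β, ?_⟩)
      exact (h.role_emb hξ0 hξ _).trans h2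
    by_cases he : ∃ e ∈ F, h.Pi {j} e
    · obtain ⟨e, he1, he2⟩ := he
      obtain ⟨m0, e', m1, m2, m3, m4⟩ := h.partner he2
      have hu : ∀ x ∈ F, h.Pi {j} x → x = e := fun x a b =>
        card_le_one.1 hc x (mem_filter.2 ⟨a, b⟩) e (mem_filter.2 ⟨he1, he2⟩)
      refine fin {j} e' (m1.trans (hk e he1)) (fun hh => m2 (hu e' hh m3)) hfree
        (fun _ _ _ _ => Or.inl (singleton_nonempty _)) fun x a b => ?_
      obtain rfl := hu x a b
      exact ⟨m0, fun φ a b c => (m4 φ a b c).imp fun _ hr => by rw [hr]; exact mem_insert_self _ _⟩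
    · obtain ⟨f, f1, f2⟩ := exists_new d.card_pos F
      exact fin {j} f f1 f2 hfree (fun _ _ _ _ => Or.inl (singleton_nonempty _))
        fun x a b => absurd ⟨x, a, b⟩ he
  push Not at hc
  have hocc : ∀ j ∉ X, ∃ e ∈ F, ∃ b, Role d.χ d.L φ0 e (d.p (Sum.inl j) b) := by
    intro j hj
    obtain ⟨e, he⟩ := Finset.card_pos.1 (lt_trans Nat.one_pos (hc j hj))
    obtain ⟨he1, j', h1, b, h2⟩ := mem_filter.1 he
    obtain rfl := mem_singleton.1 h1
    exact ⟨e, he1, b, h2⟩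
  have hmiss : ∃ i, ∀ e ∈ F, ¬ Role d.χ d.L φ0 e (d.g i) := by
    by_contra hcon
    push Not at hcon
    choose ee m1 m2 using hcon
    obtain ⟨j, hj⟩ : ∃ j, j ∉ X := by
      by_contra hh
      push Not at hh
      have : Fintype.card Dm ≤ X.card := card_le_card (s := univ) fun j _ => hh j
      have := d.hρ
      omega
    have c1 : Fintype.card Bs ≤ (F.filter (fun e => ¬ h.Pi {j} e)).card := by
      refine card_le_card_of_injOn (s := univ) ee (fun i _ => ?_) (fun i _ i' _ hh => ?_)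
      · refine mem_coe.2 (mem_filter.2 ⟨m1 i, ?_⟩)
        rintro ⟨j', -, b, h2⟩
        exact d.gp _ _ _ ((m2 i).uniq d.gap hφ0 h2)
      · have a1 := m2 i
        rw [hh] at a1
        exact d.g_inj (a1.uniq d.gap hφ0 (m2 i'))
    have c2 := card_filter_add_card_filter_not (s := F) (h.Pi {j})
    have := hc j hj
    omega
  obtain ⟨i, hi⟩ := hmiss
  refine fin ∅ (d.ed φ0 (d.g i)) (by rw [ed, card_edS hφ0, card_univ])
    (fun hh => hi _ hh (Fr.refl.role hφ0 _)) (fun _ _ _ _ ⟨_, h1, _⟩ => notMem_empty _ h1)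
    (fun φ a b c => Or.inr ⟨d.g i, ?_⟩) (fun _ _ ⟨_, h1, _⟩ => absurd h1 (notMem_empty _))
  rw [d.base_det a hφ0 b hF (hmax φ a) c X hX hocc i]
  exact mem_insert_self _ _

/-- The invariant of the first phase. -/
def Inv1 (d : Des I E Bs Dm s) (A B : Pos) : Prop :=
  ∃ (ψ : I × Bool → ℕ) (T : Finset Bs), Injective ψ ∧ (∀ i ∈ T, d.ed ψ (d.g i) ∈ A) ∧
    B.card ≤ T.card ∧ ∀ e ∈ B, e.card = Fintype.card I

def Inv (d : Des I E Bs Dm s) (A B : Pos) : Prop := d.Win A ∨ d.Inv1 A B ∨ d.Inv2 A B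

lemma inv_empty (d : Des I E Bs Dm s) : d.Inv ∅ ∅ :=
  Or.inr (Or.inl ⟨fun v => (Fintype.equivFin (I × Bool) v).val, ∅,
    fun _ _ h => (Fintype.equivFin _).injective (Fin.ext h), by simp, by simp, by simp⟩)

lemma Inv.mono {A A' B : Pos} (hI : d.Inv A B) (hA : A ⊆ A') : d.Inv A' B := by
  rcases hI with ⟨φ, h1, h2⟩ | ⟨ψ, T, h1, h2, h3⟩ | h
  · exact Or.inl ⟨φ, h1, fun r => hA (h2 r)⟩
  · exact Or.inr (Or.inl ⟨ψ, T, h1, fun i hi => hA (h2 i hi), h3⟩)
  · exact Or.inr (Or.inr (h.mono hA))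

theorem Inv.step {A B : Pos} {e : Finset ℕ} (hI : d.Inv A B) (hd : Disjoint A B)
    (he : e.card = Fintype.card I) (heA : e ∉ A) :
    (d.Win A ∨ ¬ d.Win (insert e B)) ∧
      ∃ f, f.card = Fintype.card I ∧ f ∉ insert e B ∧ d.Inv (insert f A) (insert e B) := by
  have hw : d.Win A →
      ∃ f, f.card = Fintype.card I ∧ f ∉ insert e B ∧ d.Inv (insert f A) (insert e B) := by
    intro hW
    obtain ⟨f, f1, f2⟩ := exists_new d.card_pos (insert e B)
    exact ⟨f, f1, f2, Inv.mono (Or.inl hW) (subset_insert _ _)⟩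
  rcases hI with hW | ⟨ψ, T, h1, h2, h3, h4⟩ | h
  · exact ⟨Or.inl hW, hw hW⟩
  · have c1 := card_insert_le e B
    have c2 : T.card ≤ Fintype.card Bs := card_le_univ _
    have hk : ∀ x ∈ insert e B, x.card = Fintype.card I := by
      intro x hx
      rcases mem_insert.1 hx with rfl | hx
      · exact he
      · exact h4 x hx
    refine ⟨Or.inr ?_, ?_⟩
    · rintro ⟨φ, hφ, hw⟩
      have c3 : Fintype.card E ≤ (insert e B).card :=
        card_le_card_of_injOn (s := univ) (d.ed φ) (fun r _ => mem_coe.2 (hw r))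
          (d.gap.ed_inj hφ).injOn
      have c4 := d.cardE
      have c5 : 0 < Fintype.card (PI Dm s) :=
        Fintype.card_pos_iff.2 ⟨Sum.inr (Sum.inl ⟨0, d.hs⟩)⟩
      omega
    by_cases hT : ∀ i, i ∈ T
    · obtain ⟨f, f1, f2, f3⟩ := d.setup h1 (fun i => h2 i (hT i)) (F := insert e B) (by omega) hk
      exact ⟨f, f1, f2, Or.inr (Or.inr f3)⟩
    push Not at hT
    obtain ⟨i, hi⟩ := hT
    obtain ⟨M, hM1, hM2⟩ := exists_bound (insert e B) (univ.image ψ)
    have hψ' : Injective (update ψ (d.u i, true) M) := by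
      have hM : ∀ v, ψ v ≠ M := fun v hv => by
        have := hM2 _ (mem_image.2 ⟨v, mem_univ _, hv⟩)
        omega
      intro v v' hv
      by_cases a : v = (d.u i, true) <;> by_cases b : v' = (d.u i, true)
      · rw [a, b]
      · rw [a, update_self, update_of_ne b] at hv
        exact absurd hv.symm (hM _)
      · rw [b, update_self, update_of_ne a] at hv
        exact absurd hv (hM _)
      · rw [update_of_ne a, update_of_ne b] at hv
        exact h1 hv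
    refine ⟨d.ed (update ψ (d.u i, true) M) (d.g i), by rw [ed, card_edS hψ', card_univ],
      fun hh => ?_, Or.inr (Or.inl ⟨_, insert i T, hψ', fun i' hi' => ?_, ?_, hk⟩)⟩
    · have := hM1 _ hh M (mem_edS'.2 ⟨d.u i, mem_univ _, by rw [(d.ug i i).2 rfl, update_self]⟩)
      omega
    · rcases mem_insert.1 hi' with rfl | hi'
      · exact mem_insert_self _ _
      · refine mem_insert_of_mem ?_
        have : d.ed (update ψ (d.u i, true) M) (d.g i') = d.ed ψ (d.g i') := by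
          refine image_congr fun ι _ => update_of_ne (fun hh => ?_) _ _
          obtain ⟨rfl, h5⟩ := Prod.mk.inj hh
          exact hi (((d.ug i i').1 h5) ▸ hi')
        rw [this]
        exact h2 i' hi'
    · rw [card_insert_of_notMem hi]
      omega
  · refine ⟨Or.inr (h.not_win (disjoint_insert_right.2 ⟨heA, hd⟩)), ?_⟩
    rcases h.step he with hW | ⟨f, f1, f2, f3⟩
    · exact hw hW
    · exact ⟨f, f1, f2, Or.inr (Or.inr f3)⟩

end Des

end Pool.Agent.Lib.MP_bf69bb_co.Hyp
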