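import Pool.Agent.Lib.MP_bf69bb_co.HDefs

set_option autoImplicit false

namespace Pool.Agent.Lib.MP_bf69bb_co.Hyp

open Finset

/-- A number above all vertices of the edges in `A` and above the set `F`. -/
lemma exists_bound (A : Finset (Finset ℕ)) (F : Finset ℕ) :
    ∃ M : ℕ, (∀ e ∈ A, ∀ x ∈ e, x < M) ∧ ∀ x ∈ F, x < M := by
  refine ⟨(A.biUnion id ∪ F).sup id + 1, fun e he x hx => ?_, fun x hx => ?_⟩
  · exact Nat.lt_succ_of_le (le_sup (f := id) (mem_union_left _ (mem_biUnion.2 ⟨e, he, hx⟩)))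
  · exact Nat.lt_succ_of_le (le_sup (f := id) (mem_union_right _ hx))

lemma exists_new {k : ℕ} (hk : 0 < k) (A : Finset (Finset ℕ)) : ∃ f : Finset ℕ, f.card = k ∧ f ∉ A := by
  obtain ⟨M, hM, -⟩ := exists_bound A ∅
  refine ⟨Ico M (M + k), by simp, fun h => ?_⟩
  have := hM _ h M (by simp [hk])
  omega

def own (p : ℕ) (e : ℕ → Finset ℕ) (m : ℕ) : Finset (Finset ℕ) :=
  ((range m).filter (fun i => i % 2 = p)).image e

lemma mem_own {p : ℕ} {e : ℕ → Finset ℕ} {m : ℕ} {x : Finset ℕ} :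
    x ∈ own p e m ↔ ∃ i < m, i % 2 = p ∧ e i = x := by
  simp [own, and_assoc]

lemma own_succ_pos {p : ℕ} {e : ℕ → Finset ℕ} {m : ℕ} (h : m % 2 = p) :
    own p e (m + 1) = insert (e m) (own p e m) := by
  ext x
  simp only [mem_own, mem_insert]
  constructor
  · rintro ⟨i, hi, h1, h2⟩
    rcases Nat.lt_succ_iff_lt_or_eq.1 hi with h3 | rfl
    · exact Or.inr ⟨i, h3, h1, h2⟩
    · exact Or.inl h2.symm
  · rintro (rfl | ⟨i, hi, h1, h2⟩)
    · exact ⟨m, by omega, h, rfl⟩
    · exact ⟨i, by omega, h1, h2⟩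

lemma own_succ_neg {p : ℕ} {e : ℕ → Finset ℕ} {m : ℕ} (h : m % 2 ≠ p) :
    own p e (m + 1) = own p e m := by
  ext x
  simp only [mem_own]
  constructor
  · rintro ⟨i, hi, h1, h2⟩
    rcases Nat.lt_succ_iff_lt_or_eq.1 hi with h3 | rfl
    · exact ⟨i, h3, h1, h2⟩
    · exact absurd h1 h
  · rintro ⟨i, hi, h1, h2⟩
    exact ⟨i, by omega, h1, h2⟩

/-- The edges of a history that belong to player `p`. -/
def ownL (p : ℕ) (l : List (Finset ℕ)) : Finset (Finset ℕ) := own p (fun i => l.getD i ∅) l.length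

lemma ownL_map (p : ℕ) (e : ℕ → Finset ℕ) (m : ℕ) : ownL p ((List.range m).map e) = own p e m := by
  ext x
  simp only [ownL, mem_own, List.length_map, List.length_range]
  constructor
  · rintro ⟨i, hi, h1, h2⟩
    refine ⟨i, hi, h1, ?_⟩
    rw [← h2]
    simp [List.getD_eq_getElem?_getD, hi]
  · rintro ⟨i, hi, h1, h2⟩
    refine ⟨i, hi, h1, ?_⟩
    rw [← h2]
    simp [List.getD_eq_getElem?_getD, hi]

lemma exists_play (F : List (Finset ℕ) → Finset ℕ) :
    ∃ e : ℕ → Finset ℕ, ∀ i, e i = F ((List.range i).map e) := by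
  let L : ℕ → List (Finset ℕ) := fun n => Nat.rec [] (fun _ l => l ++ [F l]) n
  have hL : ∀ n, L (n + 1) = L n ++ [F (L n)] := fun n => rfl
  have h : ∀ i, L i = (List.range i).map (fun i => F (L i)) := by
    intro i
    induction i with
    | zero => rfl
    | succ i ih => rw [hL, List.range_succ, List.map_append, ← ih]; rfl
  exact ⟨fun i => F (L i), fun i => congrArg F (h i)⟩

/-- An invariant that the other player can keep shows that player `p` has no winning strategy. -/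
theorem not_wins {v k : ℕ} (hk : 0 < k) (H : Finset (Finset (Fin v))) (hH : H.Nonempty)
    (Win : Finset (Finset ℕ) → Prop) (hW : ∀ A, Win A ↔ ∃ φ : Fin v ↪ ℕ, ∀ h ∈ H, h.map φ ∈ A)
    (Inv : Finset (Finset ℕ) → Finset (Finset ℕ) → Prop)
    (h0 : Inv ∅ ∅) (hmono : ∀ A A' B, Inv A B → A ⊆ A' → Inv A' B)
    (hstep : ∀ A B e, Inv A B → Disjoint A B → e.card = k → e ∉ A → e ∉ B →
      (Win A ∨ ¬ Win (insert e B)) ∧
        ∃ f, f.card = k ∧ f ∉ insert e B ∧ Inv (insert f A) (insert e B))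
    (p : ℕ) (hp : p < 2) : ¬ Wins k H p := by
  classical
  rintro ⟨σ, hσ⟩
  have hO : ∀ q e m, Owns H q e m ↔ Win (own q e m) := by
    intro q e m
    rw [hW]
    simp only [Owns, mem_own]
  let Pre : Finset (Finset ℕ) → Finset (Finset ℕ) → Prop := fun A B =>
    ∃ f, f.card = k ∧ f ∉ A ∪ B ∧ Inv (insert f A) B
  have hτ : ∀ A B, ∃ f : Finset ℕ, f.card = k ∧ f ∉ A ∪ B ∧ (Pre A B → Inv (insert f A) B) := by
    intro A B
    by_cases h : Pre A B
    · obtain ⟨f, h1, h2, h3⟩ := h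
      exact ⟨f, h1, h2, fun _ => h3⟩
    · obtain ⟨f, h1, h2⟩ := exists_new hk (A ∪ B)
      exact ⟨f, h1, h2, fun h' => absurd h' h⟩
  choose τ hτ1 hτ2 hτ3 using hτ
  obtain ⟨e, he⟩ := exists_play
    (fun l => if l.length % 2 = p then σ l else τ (ownL (1 - p) l) (ownL p l))
  have he1 : ∀ i, i % 2 = p → e i = σ ((List.range i).map e) := by
    intro i hi
    rw [he i]
    simp [hi]
  have he2 : ∀ i, i % 2 ≠ p → e i = τ (own (1 - p) e i) (own p e i) := by
    intro i hi
    rw [he i]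
    simp [hi, ownL_map]
  have hall : ∀ i j, j < i → e j ∈ own (1 - p) e i ∪ own p e i := by
    intro i j hj
    rw [mem_union, mem_own, mem_own]
    by_cases h : j % 2 = p
    · exact Or.inr ⟨j, hj, h, rfl⟩
    · exact Or.inl ⟨j, hj, by omega, rfl⟩
  have hleg : ∀ i, i % 2 ≠ p → Legal k e i := by
    intro i hi
    refine ⟨by rw [he2 i hi]; exact hτ1 _ _, fun j hj h => ?_⟩
    have := hall i j hj
    rw [h, he2 i hi] at this
    exact hτ2 _ _ this
  have hdis : ∀ i, (∀ j < i, Legal k e j) → Disjoint (own (1 - p) e i) (own p e i) := by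
    intro i hi
    rw [disjoint_left]
    intro x h1 h2
    obtain ⟨a, ha, ha1, ha2⟩ := mem_own.1 h1
    obtain ⟨b, hb, hb1, hb2⟩ := mem_own.1 h2
    rcases lt_trichotomy a b with h | h | h
    · exact (hi b hb).2 a h (by rw [ha2, hb2])
    · omega
    · exact (hi a ha).2 b h (by rw [ha2, hb2])
  have hnot : ∀ i, Legal k e i → ∀ q, e i ∉ own q e i := by
    intro i hi q h
    obtain ⟨a, ha, -, ha2⟩ := mem_own.1 h
    exact hi.2 a ha ha2
  have key : ∀ i, (∀ j < i, Legal k e j) →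
      (i % 2 = p → Inv (own (1 - p) e i) (own p e i)) ∧
        (i % 2 ≠ p → Pre (own (1 - p) e i) (own p e i)) := by
    intro i
    induction i with
    | zero =>
      intro _
      have : ∀ q, own q e 0 = ∅ := fun q => by simp [own]
      rw [this, this]
      refine ⟨fun _ => h0, fun _ => ?_⟩
      obtain ⟨f, h1, h2⟩ := exists_new hk (∅ ∪ ∅)
      exact ⟨f, h1, h2, hmono _ _ _ h0 (empty_subset _)⟩
    | succ i ih =>
      intro hl
      have hl' : ∀ j < i, Legal k e j := fun j hj => hl j (by omega)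
      obtain ⟨ih1, ih2⟩ := ih hl'
      by_cases hi : i % 2 = p
      · refine ⟨fun h => by omega, fun _ => ?_⟩
        rw [own_succ_pos hi, own_succ_neg (by omega)]
        have hli := hl i (by omega)
        obtain ⟨-, f, h1, h2, h3⟩ := hstep _ _ (e i) (ih1 hi) (hdis i hl') hli.1 (hnot i hli _)
          (hnot i hli _)
        by_cases hf : f ∈ own (1 - p) e i
        · obtain ⟨g, g1, g2⟩ := exists_new hk (own (1 - p) e i ∪ insert (e i) (own p e i))
          refine ⟨g, g1, g2, hmono _ _ _ h3 ?_⟩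
          rw [insert_eq_of_mem hf]
          exact subset_insert _ _
        · exact ⟨f, h1, by rw [mem_union]; tauto, h3⟩
      · refine ⟨fun _ => ?_, fun h => by omega⟩
        rw [own_succ_neg hi, own_succ_pos (by omega), he2 i hi]
        exact hτ3 _ _ (ih2 hi)
  obtain ⟨m, hm1, hm2, hm3⟩ := hσ e he1 hleg
  rw [hO] at hm2 hm3
  have hWm : ∀ A A', A ⊆ A' → Win A → Win A' := by
    intro A A' hA h
    rw [hW] at h ⊢
    obtain ⟨φ, hφ⟩ := h
    exact ⟨φ, fun h hh => hA (hφ h hh)⟩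
  induction m with
  | zero =>
    rw [hW] at hm2
    obtain ⟨φ, hφ⟩ := hm2
    obtain ⟨h, hh⟩ := hH
    simpa [own] using hφ h hh
  | succ m ih =>
    have hl' : ∀ j < m, Legal k e j := fun j hj => hm1 j (by omega)
    by_cases hi : m % 2 = p
    · rw [own_succ_pos hi] at hm2
      rw [own_succ_neg (by omega)] at hm3
      have hli := hm1 m (by omega)
      rcases (hstep _ _ (e m) ((key m hl').1 hi) (hdis m hl') hli.1 (hnot m hli _)
        (hnot m hli _)).1 with h | h
      · exact hm3 h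
      · exact h hm2
    · rw [own_succ_neg hi] at hm2
      rw [own_succ_pos (by omega)] at hm3
      exact ih hl' hm2 fun h => hm3 (hWm _ _ (subset_insert _ _) h)

end Pool.Agent.Lib.MP_bf69bb_co.Hyp
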