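import Pool.Agent.Lib.MP_bf69bb_co.HAtt

set_option autoImplicit false
set_option linter.unusedSectionVars false

namespace Pool.Agent.Lib.MP_bf69bb_co.Hyp

open Finset Function

variable {I E : Type} [Fintype I] [Fintype E] [DecidableEq I] [DecidableEq E]

/-- The part of the image of the edge `h` in the rows `S`. -/
def edS (χ : I → E → Bool) (φ : I × Bool → ℕ) (S : Finset I) (h : E) : Finset ℕ :=
  S.image (fun ι => φ (ι, χ ι h))

def imL (L : Finset I) (φ : I × Bool → ℕ) : Finset ℕ := (L ×ˢ univ).image φ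

def ag (χ : I → E → Bool) (S : Finset I) (h h' : E) : ℕ := (S.filter (fun ι => χ ι h = χ ι h')).card

def Gap (χ : I → E → Bool) (L : Finset I) : Prop :=
  ∀ h1 h2 h3 h4, h1 ≠ h2 → ag χ L h1 h2 ≤ ag χ L h3 h4 + Lᶜ.card →
    ag χ L h3 h4 ≤ ag χ L h1 h2 + Lᶜ.card → (h1 = h3 ∧ h2 = h4) ∨ (h1 = h4 ∧ h2 = h3)

def Far (χ : I → E → Bool) (L : Finset I) (δ : ℕ) : Prop :=
  ∀ ι ∈ L, ∀ b, δ < (univ.filter (fun h => χ ι h = b)).card ∧ ∀ ι' b',
    (univ.filter (fun h => ¬ (χ ι h = b ↔ χ ι' h = b'))).card ≤ δ →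
      ι' ∈ L ∧ ∀ h, (χ ι h = b ↔ χ ι' h = b')

/-- `φ` has the same frame as `φ0`. -/
def Fr (χ : I → E → Bool) (L : Finset I) (φ0 φ : I × Bool → ℕ) : Prop :=
  (∀ h, edS χ φ L h = edS χ φ0 L h) ∧ imL L φ = imL L φ0

def Role (χ : I → E → Bool) (L : Finset I) (φ0 : I × Bool → ℕ) (K : Finset ℕ) (h : E) : Prop :=
  K ∩ imL L φ0 = edS χ φ0 L h

variable {χ : I → E → Bool} {L : Finset I} {φ φ' φ0 : I × Bool → ℕ}

lemma mem_edS (hφ : Injective φ) {S : Finset I} {h : E} {ι : I} {b : Bool} :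
    φ (ι, b) ∈ edS χ φ S h ↔ ι ∈ S ∧ χ ι h = b := by
  simp only [edS, mem_image]
  constructor
  · rintro ⟨ι', h1, h2⟩
    obtain ⟨rfl, h3⟩ := Prod.mk.inj (hφ h2)
    exact ⟨h1, h3⟩
  · rintro ⟨h1, rfl⟩
    exact ⟨ι, h1, rfl⟩

lemma mem_edS' {S : Finset I} {h : E} {x : ℕ} :
    x ∈ edS χ φ S h ↔ ∃ ι ∈ S, φ (ι, χ ι h) = x := by
  simp only [edS, mem_image]

lemma mem_imL (hφ : Injective φ) {ι : I} {b : Bool} : φ (ι, b) ∈ imL L φ ↔ ι ∈ L := by
  simp only [imL, mem_image]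
  constructor
  · rintro ⟨v, h1, h2⟩
    obtain rfl := hφ h2
    exact (mem_product.1 h1).1
  · intro h
    exact ⟨(ι, b), mem_product.2 ⟨h, mem_univ _⟩, rfl⟩

lemma mem_imL' {x : ℕ} : x ∈ imL L φ ↔ ∃ ι ∈ L, ∃ b, φ (ι, b) = x := by
  simp only [imL, mem_image, mem_product, mem_univ, and_true, Prod.exists]
  constructor
  · rintro ⟨ι, b, h1, h2⟩
    exact ⟨ι, h1, b, h2⟩
  · rintro ⟨ι, h1, b, h2⟩
    exact ⟨ι, b, h1, h2⟩

lemma card_edS (hφ : Injective φ) (S : Finset I) (h : E) : (edS χ φ S h).card = S.card :=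
  card_image_of_injOn fun _ _ _ _ hh => (Prod.mk.inj (hφ hh)).1

lemma edS_mono {S S' : Finset I} (hS : S ⊆ S') (h : E) : edS χ φ S h ⊆ edS χ φ S' h :=
  image_subset_image hS

lemma edS_congr {S : Finset I} {h h' : E} (hh : ∀ ι ∈ S, χ ι h = χ ι h') :
    edS χ φ S h = edS χ φ S h' :=
  image_congr fun ι hι => by simp only [hh ι hι]

lemma card_edS_inter (hφ : Injective φ) (S : Finset I) (h h' : E) :
    (edS χ φ S h ∩ edS χ φ S h').card = ag χ S h h' := by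
  rw [ag, ← card_edS (χ := χ) hφ _ h]
  congr 1
  ext x
  simp only [mem_inter]
  constructor
  · rintro ⟨h1, h2⟩
    obtain ⟨ι, hι, rfl⟩ := mem_edS'.1 h1
    exact (mem_edS hφ).2 ⟨mem_filter.2 ⟨hι, ((mem_edS hφ).1 h2).2.symm⟩, rfl⟩
  · intro h1
    obtain ⟨ι, hι, rfl⟩ := mem_edS'.1 h1
    rw [mem_filter] at hι
    exact ⟨(mem_edS hφ).2 ⟨hι.1, rfl⟩, (mem_edS hφ).2 ⟨hι.1, hι.2.symm⟩⟩

lemma ed_inter_imL (hφ : Injective φ) (h : E) : edS χ φ univ h ∩ imL L φ = edS χ φ L h := by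
  ext x
  simp only [mem_inter]
  constructor
  · rintro ⟨h1, h2⟩
    obtain ⟨ι, -, rfl⟩ := mem_edS'.1 h1
    exact (mem_edS hφ).2 ⟨(mem_imL hφ).1 h2, rfl⟩
  · intro h1
    obtain ⟨ι, hι, rfl⟩ := mem_edS'.1 h1
    exact ⟨(mem_edS hφ).2 ⟨mem_univ _, rfl⟩, (mem_imL hφ).2 hι⟩

lemma ed_sdiff_imL (hφ : Injective φ) (h : E) : edS χ φ univ h \ imL L φ = edS χ φ Lᶜ h := by
  ext x
  simp only [mem_sdiff]
  constructor
  · rintro ⟨h1, h2⟩
    obtain ⟨ι, -, rfl⟩ := mem_edS'.1 h1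
    exact (mem_edS hφ).2 ⟨mem_compl.2 fun hh => h2 ((mem_imL hφ).2 hh), rfl⟩
  · intro h1
    obtain ⟨ι, hι, rfl⟩ := mem_edS'.1 h1
    exact ⟨(mem_edS hφ).2 ⟨mem_univ _, rfl⟩, fun hh => mem_compl.1 hι ((mem_imL hφ).1 hh)⟩

lemma ag_univ (L : Finset I) (h h' : E) : ag χ univ h h' = ag χ L h h' + ag χ Lᶜ h h' := by
  unfold ag
  rw [← card_union_of_disjoint (disjoint_filter_filter disjoint_compl_right), ← filter_union,
    union_compl]

lemma ag_le (S : Finset I) (h h' : E) : ag χ S h h' ≤ S.card := card_filter_le _ _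

lemma ag_self (S : Finset I) (h : E) : ag χ S h h = S.card := by simp [ag]

lemma Gap.eq_of_big (hG : Gap χ L) (hφ : Injective φ) {h h' : E} {K : Finset ℕ}
    (hK : L.card ≤ K.card) (h1 : K ⊆ edS χ φ univ h) (h2 : K ⊆ edS χ φ univ h') : h = h' := by
  by_contra hne
  have h3 := card_le_card (subset_inter h1 h2)
  rw [card_edS_inter hφ, ag_univ L] at h3
  have h4 := ag_le (χ := χ) L h h'
  have h5 := ag_le (χ := χ) Lᶜ h h'
  rcases hG h h' h h hne (by rw [ag_self]; omega) (by rw [ag_self]; omega) with h6 | h6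
  · exact hne h6.2.symm
  · exact hne h6.2.symm

lemma Gap.edL_inj (hG : Gap χ L) (hφ : Injective φ) {h h' : E}
    (hh : edS χ φ L h = edS χ φ L h') : h = h' :=
  hG.eq_of_big hφ (card_edS hφ L h).ge (edS_mono (subset_univ _) h)
    (hh ▸ edS_mono (subset_univ _) h')

lemma Gap.ed_inj (hG : Gap χ L) (hφ : Injective φ) : Injective (edS χ φ univ) := fun h h' hh =>
  hG.eq_of_big hφ (card_edS hφ L h).ge (edS_mono (subset_univ _) h)
    (hh ▸ edS_mono (subset_univ _) h)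

lemma Role.uniq (hG : Gap χ L) (hφ : Injective φ0) {K : Finset ℕ} {h h' : E}
    (h1 : Role χ L φ0 K h) (h2 : Role χ L φ0 K h') : h = h' :=
  hG.edL_inj hφ (h1.symm.trans h2)

lemma Fr.role (hF : Fr χ L φ0 φ) (hφ : Injective φ) (h : E) : Role χ L φ0 (edS χ φ univ h) h := by
  rw [Role, ← hF.2, ← hF.1, ed_inter_imL hφ]

lemma Fr.refl : Fr χ L φ0 φ0 := ⟨fun _ => rfl, rfl⟩

lemma Gap.swap (hG : Gap χ L) (hφ : Injective φ) (hφ' : Injective φ') {h1 h2 h3 h4 : E}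
    (hne : h1 ≠ h2) (e1 : edS χ φ univ h1 = edS χ φ' univ h3)
    (e2 : edS χ φ univ h2 = edS χ φ' univ h4) : (h1 = h3 ∧ h2 = h4) ∨ (h1 = h4 ∧ h2 = h3) := by
  have h := card_edS_inter (χ := χ) hφ univ h1 h2
  rw [e1, e2, card_edS_inter hφ', ag_univ L, ag_univ L] at h
  have h5 := ag_le (χ := χ) Lᶜ h1 h2
  have h6 := ag_le (χ := χ) Lᶜ h3 h4
  exact hG h1 h2 h3 h4 hne (by omega) (by omega)

/-- The number of edges of the copy `φ` in `F`. -/
def cov (χ : I → E → Bool) (φ : I × Bool → ℕ) (F : Pos) : ℕ :=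
  (univ.filter (fun h => edS χ φ univ h ∈ F)).card

lemma Gap.common (hG : Gap χ L) (hφ : Injective φ) (hφ' : Injective φ') (F : Pos)
    (h3 : F.card + 3 ≤ cov χ φ F + cov χ φ' F) :
    ∃ J : Finset E, cov χ φ F + cov χ φ' F ≤ F.card + J.card ∧
      ∀ h ∈ J, edS χ φ univ h = edS χ φ' univ h ∧ edS χ φ univ h ∈ F := by
  set X := (univ.filter (fun h => edS χ φ univ h ∈ F)).image (edS χ φ univ) with hX
  set X' := (univ.filter (fun h => edS χ φ' univ h ∈ F)).image (edS χ φ' univ) with hX'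
  have c1 : X.card = cov χ φ F := card_image_of_injective _ (hG.ed_inj hφ)
  have c2 : X'.card = cov χ φ' F := card_image_of_injective _ (hG.ed_inj hφ')
  have s1 : X ∪ X' ⊆ F := by
    intro e he
    rcases mem_union.1 he with he | he
    · obtain ⟨h, hh, rfl⟩ := mem_image.1 he
      exact (mem_filter.1 hh).2
    · obtain ⟨h, hh, rfl⟩ := mem_image.1 he
      exact (mem_filter.1 hh).2
  have c3 := card_union_add_card_inter X X'
  have c4 := card_le_card s1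
  have hm : ∀ e ∈ X ∩ X', ∃ h h', e = edS χ φ univ h ∧ e = edS χ φ' univ h' := by
    intro e he
    obtain ⟨h, -, h1⟩ := mem_image.1 (mem_inter.1 he).1
    obtain ⟨h', -, h2⟩ := mem_image.1 (mem_inter.1 he).2
    exact ⟨h, h', h1.symm, h2.symm⟩
  refine ⟨univ.filter (fun h => edS χ φ univ h ∈ X ∩ X'), ?_, fun h hh => ?_⟩
  · have : (X ∩ X').card ≤ (univ.filter (fun h => edS χ φ univ h ∈ X ∩ X')).card := by
      refine le_trans (card_le_card ?_) (card_image_le (f := edS χ φ univ))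
      intro e he
      obtain ⟨h, -, h1, -⟩ := hm e he
      exact mem_image.2 ⟨h, mem_filter.2 ⟨mem_univ _, h1 ▸ he⟩, h1.symm⟩
    omega
  · have he := (mem_filter.1 hh).2
    refine ⟨?_, s1 (mem_union_left _ (mem_inter.1 he).1)⟩
    have c5 : 1 < ((X ∩ X').erase (edS χ φ univ h)).card := by
      rw [card_erase_of_mem he]
      omega
    obtain ⟨e2, m2, e3, m3, hne⟩ := one_lt_card.1 c5
    obtain ⟨h0, h', a0, a1⟩ := hm _ he
    obtain ⟨h2, h2', b0, b1⟩ := hm _ (mem_of_mem_erase m2)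
    obtain ⟨h3, h3', d0, d1⟩ := hm _ (mem_of_mem_erase m3)
    have n2 : h ≠ h2 := fun hh => ne_of_mem_erase m2 (by rw [b0, hh])
    have n3 : h ≠ h3 := fun hh => ne_of_mem_erase m3 (by rw [d0, hh])
    rcases hG.swap hφ hφ' n2 a1 (b0.symm.trans b1) with ⟨r1, -⟩ | ⟨r1, -⟩
    · rw [a1, ← r1]
    rcases hG.swap hφ hφ' n3 a1 (d0.symm.trans d1) with ⟨r2, -⟩ | ⟨r2, -⟩
    · rw [a1, ← r2]
    exact absurd (by rw [b1, d1, ← r1, ← r2]) hne

lemma transfer (hφ : Injective φ) (hφ' : Injective φ') {J : Finset E}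
    (hJ : ∀ h ∈ J, edS χ φ univ h = edS χ φ' univ h) {ι : I} {b : Bool} {h : E} (hh : h ∈ J)
    (hb : χ ι h = b) : ∃ ι' b', φ (ι, b) = φ' (ι', b') ∧ ∀ h ∈ J, (χ ι h = b ↔ χ ι' h = b') := by
  have h1 : φ (ι, b) ∈ edS χ φ' univ h := hJ h hh ▸ (mem_edS hφ).2 ⟨mem_univ _, hb⟩
  obtain ⟨ι', -, h2⟩ := mem_edS'.1 h1
  refine ⟨ι', _, h2.symm, fun g hg => ?_⟩
  have h3 : φ (ι, b) ∈ edS χ φ univ g ↔ φ' (ι', χ ι' h) ∈ edS χ φ' univ g := by rw [hJ g hg, h2]
  rw [mem_edS hφ, mem_edS hφ'] at h3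
  simpa using h3

lemma Far.sub {δ : ℕ} (hF : Far χ L δ) (hφ : Injective φ) (hφ' : Injective φ') {J : Finset E}
    (hJ : ∀ h ∈ J, edS χ φ univ h = edS χ φ' univ h) (hc : Jᶜ.card ≤ δ) {ι : I} (hι : ι ∈ L)
    (b : Bool) : ∃ ι' ∈ L, ∃ b', φ (ι, b) = φ' (ι', b') ∧ ∀ h, (χ ι h = b ↔ χ ι' h = b') := by
  obtain ⟨h1, h2⟩ := hF ι hι b
  have : ∃ h ∈ J, χ ι h = b := by
    by_contra hcon
    push Not at hcon
    have : (univ.filter (fun h => χ ι h = b)).card ≤ Jᶜ.card :=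
      card_le_card fun h hh => mem_compl.2 fun hJ => hcon h hJ (mem_filter.1 hh).2
    omega
  obtain ⟨h, hh, hb⟩ := this
  obtain ⟨ι', b', h3, h4⟩ := transfer hφ hφ' hJ hh hb
  obtain ⟨h5, h6⟩ := h2 ι' b' (le_trans (card_le_card fun h hh => mem_compl.2 fun hJ =>
    (mem_filter.1 hh).2 (h4 h hJ)) hc)
  exact ⟨ι', h5, b', h3, h6⟩

lemma Far.fr {δ : ℕ} (hF : Far χ L δ) (hφ : Injective φ) (hφ' : Injective φ') {J : Finset E}
    (hJ : ∀ h ∈ J, edS χ φ univ h = edS χ φ' univ h) (hc : Jᶜ.card ≤ δ) : Fr χ L φ' φ := by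
  have k1 : ∀ {φ φ' : I × Bool → ℕ}, Injective φ → Injective φ' →
      (∀ h ∈ J, edS χ φ univ h = edS χ φ' univ h) →
      (∀ h, edS χ φ L h ⊆ edS χ φ' L h) ∧ imL L φ ⊆ imL L φ' := by
    intro φ φ' hφ hφ' hJ
    refine ⟨fun h x hx => ?_, fun x hx => ?_⟩
    · obtain ⟨ι, hι, rfl⟩ := mem_edS'.1 hx
      obtain ⟨ι', h1, b', h2, h3⟩ := hF.sub hφ hφ' hJ hc hι (χ ι h)
      rw [h2]
      exact (mem_edS hφ').2 ⟨h1, (h3 h).1 rfl⟩
    · obtain ⟨ι, hι, b, rfl⟩ := mem_imL'.1 hx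
      obtain ⟨ι', h1, b', h2, -⟩ := hF.sub hφ hφ' hJ hc hι b
      rw [h2]
      exact (mem_imL hφ').2 h1
  have a := k1 hφ hφ' hJ
  have b := k1 hφ' hφ fun h hh => (hJ h hh).symm
  exact ⟨fun h => Subset.antisymm (a.1 h) (b.1 h), Subset.antisymm a.2 b.2⟩

lemma Role.insert {K : Finset ℕ} {h : E} {x : ℕ} (hx : x ∉ imL L φ0) :
    Role χ L φ0 (insert x K) h ↔ Role χ L φ0 K h := by
  rw [Role, Role, insert_inter_of_notMem hx]

/-- An edge of a copy on the frame determines the edge of a role with the same small rows. -/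
lemma Fr.partner (hF : Fr χ L φ0 φ) (hφ : Injective φ) {p p' : E}
    (hp : ∀ ι ∉ L, χ ι p = χ ι p') :
    edS χ φ univ p' = (edS χ φ univ p \ imL L φ0) ∪ edS χ φ0 L p' := by
  rw [← hF.1, ← hF.2, ed_sdiff_imL hφ, edS_congr (h' := p') fun ι hι => hp ι (mem_compl.1 hι),
    ← ed_sdiff_imL hφ, ← ed_inter_imL (L := L) hφ, sdiff_union_inter]

lemma edS_sub_imL (h : E) : edS χ φ L h ⊆ imL L φ := by
  intro x hx
  obtain ⟨ι, hι, rfl⟩ := mem_edS'.1 hx
  exact mem_imL'.2 ⟨ι, hι, _, rfl⟩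

lemma Role.partner (hφ : Injective φ0) {e : Finset ℕ} {p : E} (he : Role χ L φ0 e p) (p' : E) :
    ((e \ imL L φ0) ∪ edS χ φ0 L p').card = e.card ∧
      Role χ L φ0 ((e \ imL L φ0) ∪ edS χ φ0 L p') p' := by
  constructor
  · rw [card_union_of_disjoint (disjoint_of_subset_right (edS_sub_imL p') sdiff_disjoint),
      card_edS hφ, ← card_edS (χ := χ) hφ L p, ← he, card_sdiff_add_card_inter]
  · rw [Role, union_inter_distrib_right, sdiff_inter_self, empty_union,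
      inter_eq_left.2 (edS_sub_imL p')]

/-- The rule that makes the denied edge of a pair useless. -/
lemma Gap.order (hG : Gap χ L) (hφ0 : Injective φ0) {ψ : I × Bool → ℕ} (hψ : Injective ψ)
    (p : Bool → E) (hne : p true ≠ p false) (hp : ∀ ι ∉ L, χ ι (p true) = χ ι (p false))
    {y : I} (hy : y ∉ L) :
    ∃ b, ∀ x ∉ imL L φ0, ∀ φ, Injective φ → Fr χ L φ0 φ → ∀ h',
      edS χ φ univ h' = insert x (edS χ ψ (univ.erase y) (p (!b))) →
        ∃ h, edS χ φ univ h = insert x (edS χ ψ (univ.erase y) (p b)) := by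
  set K : Bool → Finset ℕ := fun b => edS χ ψ (univ.erase y) (p b) with hK
  by_cases hr : ∃ b, ∀ h, ¬ Role χ L φ0 (K b) h
  · obtain ⟨b, hb⟩ := hr
    refine ⟨!b, fun x hx φ hφ hF h' hh => absurd ?_ (hb h')⟩
    rw [Bool.not_not] at hh
    have := hF.role hφ h'
    rwa [hh, Role.insert hx] at this
  push Not at hr
  choose r hr using hr
  have hyc : y ∈ Lᶜ := mem_compl.2 hy
  have cK : ∀ b, (K b \ imL L φ0).card + 1 = Lᶜ.card := by
    intro b
    have h1 := card_sdiff_add_card_inter (K b) (imL L φ0)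
    have h4 : (K b).card = Fintype.card I - 1 := by
      simp only [hK]
      rw [card_edS hψ, card_erase_of_mem (mem_univ _), card_univ]
    rw [hr b, card_edS hφ0, h4] at h1
    have h2 := card_add_card_compl L
    have h3 := card_pos.2 ⟨y, hyc⟩
    omega
  have c1 : (K true ∩ K false).card + 1 = ag χ L (p true) (p false) + Lᶜ.card := by
    have h1 : ag χ Lᶜ (p true) (p false) = Lᶜ.card := by
      unfold ag
      rw [filter_true_of_mem fun ι hι => hp ι (mem_compl.1 hι)]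
    rw [← h1, ← ag_univ, hK, card_edS_inter hψ]
    unfold ag
    rw [filter_erase]
    exact card_erase_add_one (mem_filter.2 ⟨mem_univ _, hp y hy⟩)
  have c2 : ((K true ∩ K false) ∩ imL L φ0).card = ag χ L (r true) (r false) := by
    rw [← card_edS_inter hφ0, ← hr true, ← hr false]
    congr 1
    ext x
    simp only [mem_inter]
    tauto
  have c3 := card_sdiff_add_card_inter (K true ∩ K false) (imL L φ0)
  have s1 : ∀ b, (K true ∩ K false) \ imL L φ0 ⊆ K b \ imL L φ0 := by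
    intro b
    refine sdiff_subset_sdiff ?_ Subset.rfl
    cases b
    · exact inter_subset_right
    · exact inter_subset_left
  have c4 := card_le_card (s1 true)
  have c5 := cK true
  have hg := hG (p true) (p false) (r true) (r false) hne (by omega) (by omega)
  have c6 : ag χ L (r true) (r false) = ag χ L (p true) (p false) := by
    rcases hg with ⟨h1, h2⟩ | ⟨h1, h2⟩
    · rw [h1, h2]
    · rw [← h1, ← h2]
      unfold ag
      simp only [eq_comm]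
  have e1 : ∀ b, (K true ∩ K false) \ imL L φ0 = K b \ imL L φ0 := fun b =>
    eq_of_subset_of_card_le (s1 b) (by have := cK b; omega)
  have hq : ∀ ι ∉ L, χ ι (r false) = χ ι (r true) := by
    intro ι hι
    rcases hg with ⟨h1, h2⟩ | ⟨h1, h2⟩
    · rw [← h1, ← h2, hp ι hι]
    · rw [← h1, ← h2, hp ι hι]
  refine ⟨true, fun x hx φ hφ hF h' hh => ⟨r true, ?_⟩⟩
  change edS χ φ univ h' = insert x (K false) at hh
  have h1 := hF.role hφ h'
  rw [hh, Role.insert hx] at h1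
  obtain rfl := h1.uniq hG hφ0 (hr false)
  rw [hF.partner hφ hq, hh, ← hr true, insert_sdiff_of_notMem _ hx, ← e1 false, e1 true,
    insert_union, sdiff_union_inter]

end Pool.Agent.Lib.MP_bf69bb_co.Hyp
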