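import Pool.Agent.Lib.MP_bf69bb_co.HDes

set_option autoImplicit false
set_option linter.unusedSectionVars false

namespace Pool.Agent.Lib.MP_bf69bb_co.Hyp

open Finset Function

namespace Des

variable {I E Bs Dm : Type} [Fintype I] [Fintype E] [DecidableEq I] [DecidableEq E]
  [Fintype Bs] [Fintype Dm] [DecidableEq Bs] [DecidableEq Dm] {s : ℕ} {d : Des I E Bs Dm s}

/-- The connector edges are not paired. -/
def Ph.Free (h : d.Ph) (Js : Finset Dm) : Prop :=
  ∀ ξ, (∀ j, h.ok j (ξ j)) → ∀ a b, ¬ h.Pi Js (d.ed (d.emb h.ψ ξ) (d.c a b))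

lemma Ph.round (h : d.Ph) {Js : Finset Dm} (hF : h.Free Js) (T : Finset (Fin s)) :
    ∀ (ξ : PI Dm s → ℕ) (W : Fin s → Finset ℕ) (A : Pos), (∀ j, h.ok j (ξ j)) →
      (∀ i, d.ed h.ψ (d.g i) ∈ A) →
      (∀ j β, insert (ξ (Sum.inl j)) (d.ker h.ψ (Sum.inl j) β) ∈ A) →
      (∀ a ∉ T, ∀ β, insert (ξ (Sum.inr (Sum.inl a))) (d.ker h.ψ (Sum.inr (Sum.inl a)) β) ∈ A) →
      (∀ b, Mr s T.card ≤ (W b).card ∧ ∀ w ∈ W b, h.ok (Sum.inr (Sum.inr b)) w ∧
        (∀ β, insert w (d.ker h.ψ (Sum.inr (Sum.inr b)) β) ∈ A) ∧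
        ∀ a ∉ T, d.ed (d.emb h.ψ (update ξ (Sum.inr (Sum.inr b)) w)) (d.c a b) ∈ A) →
      ∀ B, (h.att Js).Good (Tr s T.card) A B := by
  induction T using Finset.induction_on with
  | empty =>
    intro ξ W A hξ hg hd hl hW B
    have : ∀ b, ∃ w, w ∈ W b := fun b => Finset.card_pos.1 (lt_of_lt_of_le Nat.one_pos (hW b).1)
    choose w hw using this
    let ξ' : PI Dm s → ℕ := Sum.elim (fun j => ξ (Sum.inl j))
      (Sum.elim (fun a => ξ (Sum.inr (Sum.inl a))) w)
    have hξ' : ∀ j, h.ok j (ξ' j) := by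
      rintro (j | a | b)
      · exact hξ _
      · exact hξ _
      · exact ((hW b).2 _ (hw b)).1
    refine Att.good_win ⟨d.emb h.ψ ξ', h.emb_inj hξ', fun r => ?_⟩
    rcases d.cases r with ⟨i, rfl⟩ | ⟨j, β, rfl⟩ | ⟨a, b, rfl⟩
    · rw [d.ed_emb_g]
      exact hg i
    · rw [d.ed_emb_p]
      rcases j with j | a | b
      · exact hd j β
      · exact hl a (notMem_empty _) β
      · exact ((hW b).2 _ (hw b)).2.1 β
    · rw [d.ed_emb_congr h.ψ (ξ' := update ξ (Sum.inr (Sum.inr b)) (w b))]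
      · exact ((hW b).2 _ (hw b)).2.2 a (notMem_empty _)
      · intro j hj
        rcases (d.yc j a b).1 hj with ⟨x, rfl⟩ | rfl | rfl
        · rw [update_of_ne (by simp)]
          rfl
        · rw [update_of_ne (by simp)]
          rfl
        · rw [update_self]
          rfl
  | insert a T ha ih =>
    intro ξ W A hξ hg hd hl hW
    rw [card_insert_of_notMem ha] at hW ⊢
    obtain ⟨o, ho⟩ := h.order (Sum.inr (Sum.inl a))
    refine Att.pair_task (a := h.att Js) (R := Tr s T.card + s * Mr s T.card)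
      (h.ok (Sum.inr (Sum.inl a))) (h.exists_ok _)
      (fun x => insert x (d.ker h.ψ _ o)) (fun x => insert x (d.ker h.ψ _ (!o)))
      (fun x hx => ⟨h.card_pe hx _, mem_insert_self _ _⟩)
      (fun x hx => ⟨h.card_pe hx _, mem_insert_self _ _⟩) ho ?_
    intro A1 hA1 B x hx p1 p2 hB
    have hξ1 := h.ok_update hξ hx
    set ξ1 := update ξ (Sum.inr (Sum.inl a)) x with hξ1def
    refine Att.star_task (a := h.att Js) (x := x)
      (fun b w => d.ed (d.emb h.ψ (update ξ1 (Sum.inr (Sum.inr b)) w)) (d.c a b))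
      (s * Mr s T.card) (fun _ => Mr s T.card) 1 W A1 (by simp) ?_ ?_ ?_ ?_ B hB
    · intro b
      have := (hW b).1
      rw [Mr] at this
      nlinarith
    · intro b w hw w' hw' hww
      have k1 := ((hW b).2 w hw).1
      have k2 := ((hW b).2 w' hw').1
      have m1 : w ∈ d.ed (d.emb h.ψ (update ξ1 (Sum.inr (Sum.inr b)) w)) (d.c a b) :=
        mem_edS'.2 ⟨d.y (Sum.inr (Sum.inr b)), mem_univ _, by
          rw [(d.yc _ a b).2 (Or.inr (Or.inr rfl)), d.emb_y, update_self]⟩
      simp only at hww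
      rw [hww] at m1
      obtain ⟨ι, -, m2⟩ := mem_edS'.1 m1
      rcases d.emb_cases h.ψ (ι, d.χ ι (d.c a b)) with ⟨j, -, h4⟩ | ⟨-, h4⟩
      · rw [h4] at m2
        have m3 := (h.ok_update hξ1 k2 j).1
        rw [m2, k1.1] at m3
        rw [← m3, update_self] at m2
        exact m2.symm
      · rw [h4] at m2
        exact absurd m2 (k1.2.1 _)
    · intro b w hw
      have k1 := h.ok_update hξ1 ((hW b).2 w hw).1
      refine ⟨by rw [ed, card_edS (h.emb_inj k1)]; rfl, ?_, hF _ k1 a b⟩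
      refine mem_edS'.2 ⟨d.y (Sum.inr (Sum.inl a)), mem_univ _, ?_⟩
      rw [(d.yc _ a b).2 (Or.inr (Or.inl rfl)), d.emb_y, update_of_ne (by simp), hξ1def,
        update_self]
    · intro A2 hA2 W' hW'
      have hA : A ⊆ A2 := hA1.trans hA2
      refine ih ξ1 W' A2 hξ1 (fun i => hA (hg i)) ?_ ?_ ?_
      · intro j β
        rw [hξ1def, update_of_ne (by simp)]
        exact hA (hd j β)
      · intro a' ha' β
        by_cases h1 : a' = a
        · subst h1
          rw [hξ1def, update_self]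
          cases o <;> cases β
          · exact hA2 p1
          · exact hA2 p2
          · exact hA2 p2
          · exact hA2 p1
        · rw [hξ1def, update_of_ne (by simpa using h1)]
          exact hA (hl a' (by simp [h1, ha']) β)
      · intro b
        obtain ⟨k1, k2, k3⟩ := hW' b
        refine ⟨k2.ge, fun w hw => ?_⟩
        obtain ⟨k4, k5, k6⟩ := (hW b).2 w (k1 hw)
        refine ⟨k4, fun β => hA (k5 β), fun a' ha' => ?_⟩
        by_cases h1 : a' = a
        · subst h1
          exact k3 w hw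
        · rw [d.ed_emb_congr h.ψ (ξ' := update ξ (Sum.inr (Sum.inr b)) w)]
          · exact hA (k6 a' (by simp [h1, ha']))
          · intro j hj
            rcases (d.yc j a' b).1 hj with ⟨z, rfl⟩ | rfl | rfl
            · rw [update_of_ne (by simp), update_of_ne (by simp), hξ1def, update_of_ne (by simp)]
            · rw [update_of_ne (by simp), update_of_ne (by simp), hξ1def,
                update_of_ne (by simpa using h1)]
            · rw [update_self, update_self]

/-- The number of steps of the attack. -/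
def SS (Dm : Type) [Fintype Dm] (s : ℕ) : ℕ := Tr s s + 2 * (Fintype.card Dm + s * Mr s s)

lemma Ph.attack (h : d.Ph) {Js : Finset Dm} (hF : h.Free Js) {A : Pos}
    (hg : ∀ i, d.ed h.ψ (d.g i) ∈ A) (B : Pos) : (h.att Js).Good (SS Dm s) A B := by
  choose o ho using h.order
  refine Att.pairs_task (a := h.att Js) h.ok h.exists_ok
    (fun j x => insert x (d.ker h.ψ j (o j))) (fun j x => insert x (d.ker h.ψ j (!o j)))
    (fun j x hx => ⟨h.card_pe hx _, mem_insert_self _ _⟩)
    (fun j x hx => ⟨h.card_pe hx _, mem_insert_self _ _⟩) ho _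
    (Sum.elim (fun _ => 1) (Sum.elim (fun _ => 0) (fun _ => Mr s s))) (Tr s s) A (by simp) ?_ B
  intro A' hA Y hY
  have hY' : ∀ j, ∀ x ∈ Y j, ∀ β, insert x (d.ker h.ψ j β) ∈ A' := by
    intro j x hx β
    obtain ⟨-, k1, k2⟩ := (hY j).2 x hx
    cases hj : o j <;> rw [hj] at k1 k2 <;> cases β
    · exact k1
    · exact k2
    · exact k2
    · exact k1
  have : ∀ j, ∃ x, h.ok j x ∧ ((Y j).Nonempty → x ∈ Y j) := by
    intro j
    by_cases hj : (Y j).Nonempty
    · obtain ⟨x, hx⟩ := hj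
      exact ⟨x, ((hY j).2 x hx).1, fun _ => hx⟩
    · obtain ⟨x, -, hx⟩ := h.exists_ok j 0
      exact ⟨x, hx, fun hh => absurd hh hj⟩
  choose ξ hξ1 hξ2 using this
  have := h.round hF univ ξ (fun b => Y (Sum.inr (Sum.inr b))) A' hξ1 (fun i => hA (hg i))
    (fun j β => hY' _ _ (hξ2 _ (Finset.card_pos.1 (by rw [(hY _).1]; simp))) β)
    (fun a ha => absurd (mem_univ a) ha)
    (fun b => ⟨by rw [(hY _).1]; simp, fun w hw => ⟨((hY _).2 w hw).1, hY' _ w hw,
      fun a ha => absurd (mem_univ a) ha⟩⟩)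
  simpa using this

end Des

end Pool.Agent.Lib.MP_bf69bb_co.Hyp
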