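import Pool.Agent.Lib.MP_bf69bb_co.Basic

set_option autoImplicit false

namespace Pool.Agent.Lib.MP_bf69bb_co

open Finset

variable {q : ℕ} {s : ℕ → Bool} {p : Bool}

def own (s : ℕ → Bool) (p : Bool) (e : ℕ → E) (i : ℕ) : Finset E :=
  ((range i).filter (fun j => s j = p)).image e

lemma mem_own {e : ℕ → E} {i : ℕ} {x : E} : x ∈ own s p e i ↔ ∃ j < i, s j = p ∧ e j = x := by
  simp [own, and_assoc]

lemma own_zero (e : ℕ → E) : own s p e 0 = ∅ := by simp [own]

lemma own_self {e : ℕ → E} {i : ℕ} (h : s i = p) : own s p e (i + 1) = insert (e i) (own s p e i) := by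
  rw [own, range_add_one, filter_insert, if_pos h, image_insert, own]

lemma own_other {e : ℕ → E} {i : ℕ} (h : s i ≠ p) : own s p e (i + 1) = own s p e i := by
  rw [own, range_add_one, filter_insert, if_neg h, own]

lemma own_mono {e : ℕ → E} {i j : ℕ} (h : i ≤ j) : own s p e i ⊆ own s p e j := by
  intro x hx
  obtain ⟨k, hk, hx⟩ := mem_own.1 hx
  exact mem_own.2 ⟨k, by omega, hx⟩

lemma owns_iff {e : ℕ → E} {m : ℕ} : Owns q s p e m ↔ A q (own s p e m) := by
  have : {x | ∃ i < m, s i = p ∧ e i = x} = ((own s p e m : Finset E) : Set E) := by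
    ext x
    simp [mem_own]
  rw [Owns, A, gr, this]

lemma legal_iff {e : ℕ → E} {i : ℕ} : Legal e i ↔ Free (own s p e i) (own s (!p) e i) (e i) := by
  simp only [Legal, Free, mem_own, not_exists, not_and]
  refine and_congr_right fun _ => ⟨fun h => ⟨fun j hj _ => h j hj, fun j hj _ => h j hj⟩,
    fun h j hj => ?_⟩
  by_cases hs : s j = p
  · exact h.1 j hj hs
  · exact h.2 j hj (Bool.eq_not.2 hs)

/-- a list strategy from a move function on positions -/
def lstrat (s : ℕ → Bool) (p : Bool) (mv : ℕ → Finset E → Finset E → E) (l : List E) : E :=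
  mv l.length (own s p (fun j => l.getD j s(0, 0)) l.length)
    (own s (!p) (fun j => l.getD j s(0, 0)) l.length)

lemma lstrat_map (mv : ℕ → Finset E → Finset E → E) (e : ℕ → E) (i : ℕ) :
    lstrat s p mv ((List.range i).map e) = mv i (own s p e i) (own s (!p) e i) := by
  have key : ∀ p', own s p' (fun j => ((List.range i).map e).getD j s(0, 0)) i = own s p' e i := by
    intro p'
    refine image_congr fun j hj => ?_
    have hj' : j < i := mem_range.1 (mem_filter.1 hj).1
    simp [List.getD_eq_getElem?_getD, hj']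
  simp only [lstrat, List.length_map, List.length_range, key]

lemma W.wins (hq : 2 ≤ q) {T : ℕ} (h : W q s p T 0 ∅ ∅) : Wins q s p T := by
  classical
  have hch : ∀ (i : ℕ) (F S : Finset E), ∃ x, s i = p → W q s p (T - i - 1 + 1) i F S →
      Free F S x ∧ (A q (insert x F) ∨ W q s p (T - i - 1) (i + 1) (insert x F) S) := by
    intro i F S
    by_cases h : s i = p ∧ W q s p (T - i - 1 + 1) i F S
    · obtain ⟨x, hx⟩ := h.2.1 h.1
      exact ⟨x, fun _ _ => hx⟩
    · exact ⟨s(0, 0), fun h1 h2 => absurd ⟨h1, h2⟩ h⟩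
  choose mv hmv using hch
  refine ⟨lstrat s p mv, fun e he hleg => ?_⟩
  simp only [lstrat_map] at he
  have key : ∀ t i, i + t = T → W q s p t i (own s p e i) (own s (!p) e i) →
      (∀ j < i, Legal e j) → ¬ A q (own s (!p) e i) →
      ∃ m : ℕ, (m : ℕ∞) ≤ T ∧ (∀ i < m, Legal e i) ∧ Owns q s p e m ∧ ¬ Owns q s (!p) e m := by
    intro t
    induction t with
    | zero => intro i _ hw; exact hw.elim
    | succ t ih =>
      intro i hi hw hl hA
      have ht : T - i - 1 = t := by omega
      by_cases hs : s i = p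
      · have h1 := hmv i (own s p e i) (own s (!p) e i) hs (by rw [ht]; exact hw)
        rw [← he i hs, ht] at h1
        have hs' : s i ≠ !p := by simp [hs]
        have hl' : ∀ j < i + 1, Legal e j := fun j hj => by
          rcases Nat.lt_succ_iff_lt_or_eq.1 hj with hj | rfl
          · exact hl j hj
          · exact legal_iff.2 h1.1
        rcases h1.2 with h2 | h2
        · refine ⟨i + 1, by exact_mod_cast (by omega : i + 1 ≤ T), hl', ?_, ?_⟩
          · rw [owns_iff, own_self hs]
            exact h2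
          · rw [owns_iff, own_other hs']
            exact hA
        · refine ih (i + 1) (by omega) ?_ hl' ?_
          · rw [own_self hs, own_other hs']
            exact h2
          · rw [own_other hs']
            exact hA
      · have hs' : s i = !p := Bool.eq_not.2 hs
        obtain ⟨h1, h2⟩ := hw.2 hs (e i) (legal_iff.1 (hleg i hs))
        refine ih (i + 1) (by omega) ?_ (fun j hj => ?_) ?_
        · rw [own_other hs, own_self hs']
          exact h2
        · rcases Nat.lt_succ_iff_lt_or_eq.1 hj with hj | rfl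
          · exact hl j hj
          · exact hleg j hs
        · rw [own_self hs']
          exact h1
  refine key T 0 (by omega) (by simpa [own_zero] using h) (fun _ h => absurd h (by omega)) ?_
  rw [own_zero]
  exact not_A_empty hq

/-- a safety invariant for `p` excludes a winning strategy of the other player -/
lemma not_wins_of_inv (hq : 2 ≤ q) (I : ℕ → Finset E → Finset E → Prop) (h0 : I 0 ∅ ∅)
    (h1 : ∀ i F S, I i F S → s i = p →
      ∃ x, Free F S x ∧ (A q (insert x F) ∨ I (i + 1) (insert x F) S))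
    (h2 : ∀ i F S, I i F S → s i ≠ p →
      ∀ x, Free F S x → ¬ A q (insert x S) ∧ I (i + 1) F (insert x S)) (T : ℕ∞) :
    ¬ Wins q s (!p) T := by
  classical
  rintro ⟨σ, hσ⟩
  have hch : ∀ (i : ℕ) (F S : Finset E), ∃ x, Free F S x ∧ (s i = p → I i F S →
      A q (insert x F) ∨ I (i + 1) (insert x F) S) := by
    intro i F S
    by_cases h : s i = p ∧ I i F S
    · obtain ⟨x, hx, hx'⟩ := h1 i F S h.2 h.1
      exact ⟨x, hx, fun _ _ => hx'⟩
    · obtain ⟨x, hx⟩ := exists_free F S
      exact ⟨x, hx, fun h1 h2 => absurd ⟨h1, h2⟩ h⟩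
  choose mv hfree hmv using hch
  let nxt : List E → E := fun l => if s l.length = p then lstrat s p mv l else σ l
  let L : ℕ → List E := fun n => Nat.rec [] (fun _ l => l ++ [nxt l]) n
  let e : ℕ → E := fun i => nxt (L i)
  have hL : ∀ i, L i = (List.range i).map e := by
    intro i
    induction i with
    | zero => rfl
    | succ i ih =>
      rw [List.range_succ, List.map_append, ← ih]
      rfl
  have he : ∀ i, e i = if s i = p then mv i (own s p e i) (own s (!p) e i)
      else σ ((List.range i).map e) := by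
    intro i
    conv_lhs => simp only [e, nxt]
    rw [hL, lstrat_map]
    simp
  obtain ⟨m, -, hl, hA, hnA⟩ := hσ e (fun i hi => by
      rw [he i, if_neg (by simp [hi])]) (fun i hi => by
      have hs : s i = p := by simpa using hi
      rw [legal_iff (s := s) (p := p)]
      have := hfree i (own s p e i) (own s (!p) e i)
      rwa [he i, if_pos hs])
  rw [Bool.not_not, owns_iff] at hnA
  rw [owns_iff] at hA
  have key : ∀ i ≤ m, I i (own s p e i) (own s (!p) e i) ∧ ¬ A q (own s (!p) e i) := by
    intro i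
    induction i with
    | zero =>
      intro _
      rw [own_zero, own_zero]
      exact ⟨h0, not_A_empty hq⟩
    | succ i ih =>
      intro hi
      obtain ⟨hI, hA'⟩ := ih (by omega)
      by_cases hs : s i = p
      · have hs' : s i ≠ !p := by simp [hs]
        have h3 := hmv i _ _ hs hI
        have h4 : e i = mv i (own s p e i) (own s (!p) e i) := by rw [he i, if_pos hs]
        rw [← h4, ← own_self hs] at h3
        rw [own_other hs']
        refine ⟨h3.resolve_left fun hh => hnA (hh.mono (own_mono hi)), hA'⟩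
      · have hs' : s i = !p := Bool.eq_not.2 hs
        have h3 := h2 i _ _ hI hs (e i) (legal_iff.1 (hl i (by omega)))
        rw [own_other hs, own_self hs']
        exact ⟨h3.2, h3.1⟩
  exact (key m le_rfl).2 hA

lemma W.not_wins (hq : 2 ≤ q) {T : ℕ} (h : W q s p T 0 ∅ ∅) (T' : ℕ∞) : ¬ Wins q s (!p) T' := by
  refine not_wins_of_inv hq (fun i F S => ∃ t, W q s p t i F S) ⟨T, h⟩ ?_ ?_ T'
  · rintro i F S ⟨t, ht⟩ hs
    obtain ⟨x, hx, h⟩ := ht.succ.1 hs
    exact ⟨x, hx, h.imp id fun h => ⟨t, h⟩⟩
  · rintro i F S ⟨t, ht⟩ hs x hx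
    obtain ⟨h1, h2⟩ := ht.succ.2 hs x hx
    exact ⟨h1, t, h2⟩

/-- compactness: a winning strategy on the infinite board wins in bounded time -/
lemma Wins.bounded (hq : 2 ≤ q) {T : ℕ∞} (h : Wins q s p T) : ∃ t, W q s p t 0 ∅ ∅ := by
  by_contra hcon
  push Not at hcon
  refine not_wins_of_inv (p := !p) hq (fun i S F => ∀ t, ¬ W q s p t i F S) hcon ?_ ?_ T
    (by rwa [Bool.not_not])
  · intro i S F hI hs
    have hs' : s i ≠ p := by simp [hs]
    by_contra hc
    push Not at hc
    obtain ⟨t, ht⟩ := compact_step (q := q) (s := s) (p := p) (i := i + 1) (F := F) (S := S)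
      (fun x hx => (hc x hx.symm).2)
    exact hI (t + 1) ⟨fun hh => absurd hh hs', fun _ x hx => ⟨(hc x hx.symm).1, ht x hx⟩⟩
  · intro i S F hI hs x hx
    have hs' : s i = p := by simpa using hs
    exact ⟨fun hA => hI 1 ⟨fun _ => ⟨x, hx.symm, Or.inl hA⟩, fun hh => absurd hs' hh⟩,
      fun t ht => hI (t + 1) ⟨fun _ => ⟨x, hx.symm, Or.inr ht⟩, fun hh => absurd hs' hh⟩⟩

end Pool.Agent.Lib.MP_bf69bb_co
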