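import Pool.Agent.Lib.MP_bf69bb_co.TPot
import Pool.Agent.Lib.MP_bf69bb_co.Defs

set_option autoImplicit false

namespace Pool.Agent.Lib.MP_bf69bb_co.Slow

open Finset

variable {K : ℝ} {c : ℕ} {A B : Finset (Sym2 ℕ)}

/-- The vertices met by `A`. -/
def vs (A : Finset (Sym2 ℕ)) : Finset ℕ := A.biUnion Sym2.toFinset

lemma mem_vs {x : ℕ} : x ∈ vs A ↔ ∃ y ∈ A, x ∈ y := by simp [vs]

lemma vs_insert (u v : ℕ) : vs (insert s(u, v) A) = insert u (insert v (vs A)) := by
  ext x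
  simp [mem_vs, or_assoc]

/-- An unclaimed edge. -/
def Fr (A B : Finset (Sym2 ℕ)) (x : Sym2 ℕ) : Prop := ¬ x.IsDiag ∧ x ∉ A ∧ x ∉ B

lemma exists_fr (A B : Finset (Sym2 ℕ)) : ∃ x, Fr A B x := by
  have hinj : Function.Injective (fun n : ℕ => (s(0, n + 1) : Sym2 ℕ)) := by
    intro a b hab
    simp only [Sym2.eq_iff] at hab
    omega
  obtain ⟨x, ⟨n, rfl⟩, hx⟩ := (Set.infinite_range_of_injective hinj).exists_notMem_finset (A ∪ B)
  refine ⟨_, ?_, fun h => hx (mem_union_left _ h), fun h => hx (mem_union_right _ h)⟩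
  simp

lemma exists_best (K : ℝ) (c : ℕ) (A B : Finset (Sym2 ℕ)) : ∃ f, Fr A B f ∧
    ∀ x, Fr A B x → In (vs A) x → om K c (vs A) A B x ≤ om K c (vs A) A B f := by
  classical
  by_cases h : ((vs A).sym2.filter (Fr A B)).Nonempty
  · obtain ⟨f, hf, hm⟩ := exists_max_image _ (om K c (vs A) A B) h
    exact ⟨f, (mem_filter.1 hf).2, fun x hx hI => hm x (mem_filter.2 ⟨mem_sym2_iff.2 hI, hx⟩)⟩
  · obtain ⟨f, hf⟩ := exists_fr A B
    exact ⟨f, hf, fun x hx hI => (h ⟨x, mem_filter.2 ⟨mem_sym2_iff.2 hI, hx⟩⟩).elim⟩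

/-- The invariant when the first player is to move. -/
def Iv (K : ℝ) (c : ℕ) (r : ℝ) (A B : Finset (Sym2 ℕ)) : Prop :=
  Ph K c (vs A) A B ≤ r ∧
    ∀ x, Fr A B x → In (vs A) x → Ph K c (vs A) A B + om K c (vs A) A B x ≤ r

lemma iv_zero : Iv K c 1 ∅ ∅ := by
  have h0 : vs ∅ = ∅ := rfl
  refine ⟨?_, fun x _ hI => ?_⟩
  · rw [h0]
    unfold Ph ps wt
    rw [powerset_empty, sum_singleton, if_neg (by simp), sum_range_succ', sum_eq_zero]
    · simp [tm, Mt, ec]
    · intro k _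
      exact if_neg (by simp [Mt])
  · induction x using Sym2.ind with
    | _ a b => exact absurd (in_mk.1 hI).1 (by simp [h0])

lemma breaker (hK : 0 < K) {r : ℝ} {f : Sym2 ℕ} (h : Ph K c (vs A) A B ≤ r)
    (hf : ∀ x, Fr A B x → In (vs A) x → om K c (vs A) A B x ≤ om K c (vs A) A B f) :
    Iv K c r A (insert f B) := by
  have h1 := Ph_block (K := K) (c := c) (V := vs A) (A := A) (B := B) f
  have h2 := om_nonneg (c := c) (V := vs A) (A := A) (B := B) hK f
  refine ⟨by linarith, fun x hx hI => ?_⟩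
  have h3 := hf x ⟨hx.1, hx.2.1, fun hh => hx.2.2 (mem_insert_of_mem hh)⟩ hI
  have h4 := om_block (c := c) (V := vs A) (A := A) (B := B) hK f x
  linarith

lemma maker_fresh (hK : 0 < K) {r : ℝ} {u v : ℕ} (hA : ∀ x ∈ A, ¬ x.IsDiag) (huv : u ≠ v)
    (he : s(u, v) ∉ A) (hu : u ∉ vs A) (h : Ph K c (vs A) A B ≤ r) :
    Ph K c (vs (insert s(u, v) A)) (insert s(u, v) A) B ≤ (1 + 2 / K) * (1 + 1 / K) ^ 2 * r := by
  have hfr : ∀ x, x ∉ vs A → ∀ y ∈ A, x ∉ y := fun x hx y hy hxy => hx (mem_vs.2 ⟨y, hy, hxy⟩)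
  have h1 := Ph_vertex (c := c) (V := vs A) (A := A) (B := B) hK (hfr v)
  have h2 := Ph_vertex (c := c) (V := insert v (vs A)) (A := A) (B := B) hK (x := u)
    fun _ => hfr u hu
  have h3 := om_vertex (c := c) (V := insert v (vs A)) (A := A) (B := B) (e := s(u, v)) hK
    (hfr u hu) (by simp [huv, hu]) (by simp)
  have h4 := Ph_edge (c := c) (V := insert u (insert v (vs A))) (B := B) hK hA he huv
  rw [vs_insert]
  have hp : 0 ≤ 1 + 1 / K := by positivity
  calc _ ≤ (1 + 2 / K) * Ph K c (insert u (insert v (vs A))) A B := by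
        refine h4.trans ((add_le_add le_rfl h3).trans (le_of_eq ?_))
        ring
    _ ≤ (1 + 2 / K) * ((1 + 1 / K) * ((1 + 1 / K) * r)) := by
        gcongr
        exact h2.trans (by gcongr; exact h1.trans (by gcongr))
    _ = _ := by ring

lemma maker (hK : 0 < K) {r : ℝ} {e : Sym2 ℕ} (hA : ∀ x ∈ A, ¬ x.IsDiag) (he : Fr A B e)
    (h : Iv K c r A B) :
    Ph K c (vs (insert e A)) (insert e A) B ≤ (1 + 2 / K) * (1 + 1 / K) ^ 2 * r := by
  induction e using Sym2.ind with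
  | _ u v =>
    have huv : u ≠ v := fun hh => he.1 (by simp [hh])
    by_cases hu : u ∈ vs A
    · by_cases hv : v ∈ vs A
      · have h1 := h.2 _ he (in_mk.2 ⟨hu, hv⟩)
        have h2 := Ph_edge (c := c) (V := vs A) (B := B) hK hA he.2.1 huv
        have h3 := Ph_nonneg (c := c) (V := vs A) (A := A) (B := B) hK
        rw [vs_insert, insert_eq_of_mem hv, insert_eq_of_mem hu]
        have h4 : 1 / K * Ph K c (vs A) A B ≤ 1 / K * r := by
          have := h.1
          gcongr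
        have hr : 0 ≤ r := h3.trans h.1
        have h5 : (1 + 1 / K) * r ≤ (1 + 2 / K) * (1 + 1 / K) ^ 2 * r := by
          gcongr
          have : 0 ≤ 1 / K := by positivity
          rw [show 2 / K = 2 * (1 / K) by ring]
          nlinarith [mul_nonneg this this, mul_nonneg (mul_nonneg this this) this]
        linarith
      · have he' : s(v, u) ∉ A := by
          rw [Sym2.eq_swap]
          exact he.2.1
        rw [Sym2.eq_swap]
        exact maker_fresh hK hA huv.symm he' hv h.1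
    · exact maker_fresh hK hA huv he.2.1 hu h.1

lemma rho_le (hK : 0 < K) : (1 + 2 / K) * (1 + 1 / K) ^ 2 ≤ Real.exp (4 / K) := by
  have h1 := Real.add_one_le_exp (2 / K)
  have h2 := Real.add_one_le_exp (1 / K)
  rw [show 4 / K = 2 / K + (1 / K + 1 / K) by ring, Real.exp_add, Real.exp_add, ← sq, add_comm 1,
    add_comm 1]
  gcongr

/-- The edges claimed in the first `i` steps at the steps of parity `p`. -/
def ed (p : ℕ) (e : ℕ → Sym2 ℕ) (i : ℕ) : Finset (Sym2 ℕ) :=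
  ((range i).filter fun j => j % 2 = p).image e

lemma mem_ed {p i : ℕ} {e : ℕ → Sym2 ℕ} {x : Sym2 ℕ} :
    x ∈ ed p e i ↔ ∃ j < i, j % 2 = p ∧ e j = x := by
  simp [ed, and_assoc]

lemma ed_list (p i : ℕ) (e : ℕ → Sym2 ℕ) :
    ed p (fun j => ((List.range i).map e).getD j s(0, 0)) ((List.range i).map e).length =
      ed p e i := by
  unfold ed
  rw [List.length_map, List.length_range]
  refine image_congr fun j hj => ?_
  have : j < i := mem_range.1 (mem_filter.1 (mem_coe.1 hj)).1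
  simp [this]

lemma ed_yes {p i : ℕ} (e : ℕ → Sym2 ℕ) (h : i % 2 = p) :
    ed p e (i + 1) = insert (e i) (ed p e i) := by
  unfold ed
  rw [range_add_one, filter_insert, if_pos h, image_insert]

lemma ed_no {p i : ℕ} (e : ℕ → Sym2 ℕ) (h : i % 2 ≠ p) : ed p e (i + 1) = ed p e i := by
  unfold ed
  rw [range_add_one, filter_insert, if_neg h]

lemma legal_iff {e : ℕ → Sym2 ℕ} {i : ℕ} : Legal e i ↔ Fr (ed 0 e i) (ed 1 e i) (e i) := by
  refine ⟨fun h => ⟨h.1, fun hh => ?_, fun hh => ?_⟩, fun h => ⟨h.1, fun j hj hh => ?_⟩⟩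
  · obtain ⟨j, h1, -, h2⟩ := mem_ed.1 hh
    exact h.2 j h1 h2
  · obtain ⟨j, h1, -, h2⟩ := mem_ed.1 hh
    exact h.2 j h1 h2
  · rcases Nat.mod_two_eq_zero_or_one j with h0 | h0
    · exact h.2.1 (mem_ed.2 ⟨j, hj, h0, hh⟩)
    · exact h.2.2 (mem_ed.2 ⟨j, hj, h0, hh⟩)

/-- The second player's strategy and the bound on the potential. -/
theorem strategy (hK : 0 < K) (c : ℕ) : ∃ σ : List (Sym2 ℕ) → Sym2 ℕ, ∀ e : ℕ → Sym2 ℕ,
    (∀ i, i % 2 = 1 → e i = σ ((List.range i).map e)) → (∀ i, i % 2 = 0 → Legal e i) →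
      (∀ i, Legal e i) ∧ ∀ (N : ℕ) (U : Finset ℕ), 2 ≤ U.card → 2 * c ≤ U.card →
        (∀ a ∈ U, ∀ b ∈ U, a ≠ b → s(a, b) ∈ ed 0 e (2 * N)) →
        2 ^ U.card.choose 2 * K ^ c / (2 ^ (c ^ 2) * K ^ U.card) ≤ Real.exp (4 * N / K) := by
  classical
  choose F hF using exists_best K c
  refine ⟨fun l => F (ed 0 (fun j => l.getD j s(0, 0)) l.length)
    (ed 1 (fun j => l.getD j s(0, 0)) l.length), fun e h1 h0 => ?_⟩
  have h1' : ∀ i, i % 2 = 1 → e i = F (ed 0 e i) (ed 1 e i) := fun i hi => by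
    rw [h1 i hi]
    simp only [ed_list]
  have hL : ∀ i, Legal e i := fun i => by
    rcases Nat.mod_two_eq_zero_or_one i with hi | hi
    · exact h0 i hi
    · rw [legal_iff, h1' i hi]
      exact (hF _ _).1
  have hD : ∀ p i, ∀ x ∈ ed p e i, ¬ x.IsDiag := fun p i x hx => by
    obtain ⟨j, -, -, rfl⟩ := mem_ed.1 hx
    exact (hL j).1
  have hI : ∀ N : ℕ, Iv K c (Real.exp (4 * N / K)) (ed 0 e (2 * N)) (ed 1 e (2 * N)) := by
    intro N
    induction N with
    | zero => simpa [ed] using iv_zero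
    | succ N ih =>
      have h2 := maker hK (hD 0 _) (legal_iff.1 (hL (2 * N))) ih
      rw [← ed_yes e (by omega), ← ed_no (p := 1) (i := 2 * N) e (by omega)] at h2
      have h3 : (1 + 2 / K) * (1 + 1 / K) ^ 2 * Real.exp (4 * N / K) ≤
          Real.exp (4 * ((N + 1 : ℕ) : ℝ) / K) := by
        rw [show 4 * ((N + 1 : ℕ) : ℝ) / K = 4 / K + 4 * N / K by push_cast; ring, Real.exp_add]
        have := rho_le hK
        gcongr
      have h4 := breaker hK (h2.trans h3) (hF _ _).2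
      rw [← h1' _ (by omega), ← ed_yes e (by omega),
        ← ed_no (p := 0) (i := 2 * N + 1) e (by omega)] at h4
      exact h4
  refine ⟨hL, fun N U h2 hc hU => le_trans ?_ (hI N).1⟩
  have hsub : U ⊆ vs (ed 0 e (2 * N)) := fun a ha => by
    obtain ⟨b, hb, hab⟩ := exists_mem_ne (show 1 < U.card by omega) a
    exact mem_vs.2 ⟨_, hU a ha b hb hab.symm, by simp⟩
  have hB : ¬ ∃ x ∈ ed 1 e (2 * N), In U x := by
    rintro ⟨x, hx, hx'⟩
    induction x using Sym2.ind with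
    | _ a b =>
      have hab : a ≠ b := fun hh => hD _ _ _ hx (by simp [hh])
      obtain ⟨i, -, hi, hi'⟩ := mem_ed.1 hx
      obtain ⟨j, -, hj, hj'⟩ := mem_ed.1 (hU a (in_mk.1 hx').1 b (in_mk.1 hx').2 hab)
      rcases lt_trichotomy i j with h | h | h
      · exact (hL j).2 i h (hi'.trans hj'.symm)
      · omega
      · exact (hL i).2 j h (hj'.trans hi'.symm)
  calc _ ≤ tm K (ed 0 e (2 * N)) U c := by
        unfold tm
        rw [if_pos (mt_of_clique hc hU)]
        have := two_pow_le (ec_clique hU)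
        gcongr
    _ ≤ wt K c (ed 0 e (2 * N)) U :=
        single_le_sum (fun k _ => tm_nonneg hK _ U k) (mem_range.2 (Nat.lt_succ_self c))
    _ = ps K c (ed 0 e (2 * N)) (ed 1 e (2 * N)) U := (if_neg hB).symm
    _ ≤ _ := single_le_sum (fun W _ => ps_nonneg hK W) (mem_powerset.2 hsub)

end Pool.Agent.Lib.MP_bf69bb_co.Slow
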