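import Mathlib

set_option autoImplicit false

namespace Pool.Agent.Lib.MP_bf69bb_co.Slow

open Finset

/-- Both ends of `x` lie in `U`. -/
def In (U : Finset ℕ) (x : Sym2 ℕ) : Prop := ∀ v ∈ x, v ∈ U

lemma in_mk {U : Finset ℕ} {a b : ℕ} : In U s(a, b) ↔ a ∈ U ∧ b ∈ U := by
  simp [In]

lemma In.mono {U U' : Finset ℕ} {x : Sym2 ℕ} (h : In U x) (hU : U ⊆ U') : In U' x :=
  fun v hv => hU (h v hv)

/-- `A` has a matching with `k` edges inside `U`. -/
def Mt (A : Finset (Sym2 ℕ)) : ℕ → Finset ℕ → Prop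
  | 0, _ => True
  | k + 1, U => ∃ a ∈ U, ∃ b ∈ U, a ≠ b ∧ s(a, b) ∈ A ∧ Mt A k ((U.erase a).erase b)

lemma Mt.imp {A A' : Finset (Sym2 ℕ)} : ∀ {k : ℕ} {U U' : Finset ℕ},
    (∀ a b, a ∈ U → b ∈ U → a ≠ b → s(a, b) ∈ A → a ∈ U' ∧ b ∈ U' ∧ s(a, b) ∈ A') →
    Mt A k U → Mt A' k U' := by
  intro k
  induction k with
  | zero => intro U U' _ _; trivial
  | succ k ih =>
    rintro U U' h ⟨a, ha, b, hb, hab, hA, hM⟩
    obtain ⟨h1, h2, h3⟩ := h a b ha hb hab hA
    refine ⟨a, h1, b, h2, hab, h3, ih ?_ hM⟩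
    intro x y hx hy hxy hxA
    simp only [mem_erase] at hx hy ⊢
    obtain ⟨h4, h5, h6⟩ := h x y hx.2.2 hy.2.2 hxy hxA
    exact ⟨⟨hx.1, hx.2.1, h4⟩, ⟨hy.1, hy.2.1, h5⟩, h6⟩

lemma Mt.mono {A : Finset (Sym2 ℕ)} {k : ℕ} {U U' : Finset ℕ} (h : Mt A k U) (hU : U ⊆ U') :
    Mt A k U' :=
  Mt.imp (fun _ _ ha hb _ hA => ⟨hU ha, hU hb, hA⟩) h

open Classical in
/-- The number of neighbours of `u` in `W`. -/
noncomputable def nb (A : Finset (Sym2 ℕ)) (u : ℕ) (W : Finset ℕ) : ℕ :=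
  (W.filter fun w => s(u, w) ∈ A).card

open Classical in
lemma nb_erase (A : Finset (Sym2 ℕ)) (u a : ℕ) (W : Finset ℕ) :
    nb A u W ≤ nb A u (W.erase a) + if s(u, a) ∈ A then 1 else 0 := by
  unfold nb
  split_ifs with h
  · calc _ ≤ (insert a ((W.erase a).filter fun w => s(u, w) ∈ A)).card := by
          refine card_le_card fun x hx => ?_
          simp only [mem_filter, mem_insert, mem_erase] at hx ⊢
          by_cases hxa : x = a
          · exact Or.inl hxa
          · exact Or.inr ⟨⟨hxa, hx.1⟩, hx.2⟩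
      _ ≤ _ := card_insert_le _ _
  · refine card_le_card fun x hx => ?_
    simp only [mem_filter, mem_erase] at hx ⊢
    exact ⟨⟨fun hxa => h (hxa ▸ hx.2), hx.1⟩, hx.2⟩

lemma two_step {A : Finset (Sym2 ℕ)} {k u v a b : ℕ} {W : Finset ℕ} (hu : u ∉ W) (hv : v ∉ W)
    (huv : u ≠ v) (ha : a ∈ W) (hb : b ∈ W) (hab : a ≠ b) (h1 : s(u, a) ∈ A) (h2 : s(v, b) ∈ A)
    (hM : Mt A k ((W.erase a).erase b)) : Mt A (k + 2) (insert u (insert v W)) := by
  have hua : u ≠ a := fun h => hu (h ▸ ha)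
  have hub : u ≠ b := fun h => hu (h ▸ hb)
  have hva : v ≠ a := fun h => hv (h ▸ ha)
  have hvb : v ≠ b := fun h => hv (h ▸ hb)
  refine ⟨u, by simp, a, by simp [ha], hua, h1, v, ?_, b, ?_, hvb, h2, hM.mono ?_⟩
  · simp [hva, huv.symm]
  · simp [hab.symm, hub.symm, hb]
  · intro x hx
    simp only [mem_erase, mem_insert] at hx ⊢
    exact ⟨hx.1, fun h => hv (h ▸ hx.2.2), hx.2.1, fun h => hu (h ▸ hx.2.2),
      Or.inr (Or.inr hx.2.2)⟩

/-- Two new vertices with more than `2 k` edges into a set with a `k`-matching enlarge it. -/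
lemma aug {A : Finset (Sym2 ℕ)} {u v : ℕ} (huv : u ≠ v) : ∀ {k : ℕ} {W : Finset ℕ}, u ∉ W →
    v ∉ W → Mt A k W → 2 * k < nb A u W + nb A v W → Mt A (k + 1) (insert u (insert v W)) := by
  classical
  intro k
  induction k with
  | zero =>
    intro W hu hv _ h
    by_cases h1 : 0 < nb A u W
    · obtain ⟨w, hw⟩ := card_pos.1 h1
      rw [mem_filter] at hw
      exact ⟨u, by simp, w, by simp [hw.1], fun h => hu (h ▸ hw.1), hw.2, trivial⟩
    · obtain ⟨w, hw⟩ := card_pos.1 (show 0 < nb A v W by omega)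
      rw [mem_filter] at hw
      exact ⟨v, by simp, w, by simp [hw.1], fun h => hv (h ▸ hw.1), hw.2, trivial⟩
  | succ k ih =>
    rintro W hu hv ⟨a, ha, b, hb, hab, hA, hM⟩ h
    by_cases h1 : 2 * k < nb A u ((W.erase a).erase b) + nb A v ((W.erase a).erase b)
    · have h2 := ih (fun hh => hu (mem_of_mem_erase (mem_of_mem_erase hh)))
        (fun hh => hv (mem_of_mem_erase (mem_of_mem_erase hh))) hM h1
      refine ⟨a, by simp [ha], b, by simp [hb], hab, hA, h2.mono ?_⟩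
      intro x hx
      simp only [mem_erase, mem_insert] at hx ⊢
      rcases hx with rfl | rfl | hx
      · exact ⟨fun h => hu (h ▸ hb), fun h => hu (h ▸ ha), Or.inl rfl⟩
      · exact ⟨fun h => hv (h ▸ hb), fun h => hv (h ▸ ha), Or.inr (Or.inl rfl)⟩
      · exact ⟨hx.1, hx.2.1, Or.inr (Or.inr hx.2.2)⟩
    · have e1 := nb_erase A u a W
      have e2 := nb_erase A u b (W.erase a)
      have e3 := nb_erase A v a W
      have e4 := nb_erase A v b (W.erase a)
      by_cases c1 : s(u, a) ∈ A ∧ s(v, b) ∈ A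
      · exact two_step hu hv huv ha hb hab c1.1 c1.2 hM
      · have c2 : s(u, b) ∈ A ∧ s(v, a) ∈ A := by
          by_contra c2
          split_ifs at e1 e2 e3 e4 <;> first | omega | tauto
        exact two_step hu hv huv hb ha hab.symm c2.1 c2.2 (by rwa [erase_right_comm])

/-- A new edge that creates a `(k+1)`-matching is part of it. -/
lemma new_mt {A : Finset (Sym2 ℕ)} {u v : ℕ} : ∀ {k : ℕ} {U : Finset ℕ},
    Mt (insert s(u, v) A) (k + 1) U → ¬ Mt A (k + 1) U → Mt A k ((U.erase u).erase v) := by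
  intro k
  induction k with
  | zero => intro U _ _; trivial
  | succ k ih =>
    rintro U ⟨a, ha, b, hb, hab, hA, hM⟩ hn
    by_cases he : s(a, b) = s(u, v)
    · have hs : (U.erase a).erase b = (U.erase u).erase v := by
        rcases Sym2.eq_iff.1 he with ⟨rfl, rfl⟩ | ⟨rfl, rfl⟩
        · rfl
        · rw [erase_right_comm]
      rw [hs] at hM
      refine Mt.imp ?_ hM
      intro x y hx hy _ hxA
      refine ⟨hx, hy, (mem_insert.1 hxA).resolve_left fun h => ?_⟩
      simp only [mem_erase] at hx hy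
      rcases Sym2.eq_iff.1 h with ⟨rfl, rfl⟩ | ⟨rfl, rfl⟩
      · exact hx.2.1 rfl
      · exact hx.1 rfl
    · have hA' : s(a, b) ∈ A := (mem_insert.1 hA).resolve_left he
      have h1 : ¬ Mt A (k + 1) ((U.erase a).erase b) := fun h => hn ⟨a, ha, b, hb, hab, hA', h⟩
      have h2 := ih hM h1
      have h3 : u ∈ (U.erase a).erase b ∧ v ∈ (U.erase a).erase b := by
        by_contra h3
        refine h1 (Mt.imp ?_ hM)
        intro x y hx hy _ hxA
        refine ⟨hx, hy, (mem_insert.1 hxA).resolve_left fun h => h3 ?_⟩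
        rcases Sym2.eq_iff.1 h with ⟨rfl, rfl⟩ | ⟨rfl, rfl⟩
        · exact ⟨hx, hy⟩
        · exact ⟨hy, hx⟩
      simp only [mem_erase] at h3
      refine ⟨a, ?_, b, ?_, hab, hA', h2.mono ?_⟩
      · simp only [mem_erase]
        exact ⟨h3.2.2.1.symm, h3.1.2.1.symm, ha⟩
      · simp only [mem_erase]
        exact ⟨h3.2.1.symm, h3.1.1.symm, hb⟩
      · intro x hx
        simp only [mem_erase] at hx ⊢
        tauto

/-- A complete set with at least `2 k` vertices has a `k`-matching. -/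
lemma mt_of_clique {A : Finset (Sym2 ℕ)} : ∀ {k : ℕ} {U : Finset ℕ}, 2 * k ≤ U.card →
    (∀ a ∈ U, ∀ b ∈ U, a ≠ b → s(a, b) ∈ A) → Mt A k U := by
  intro k
  induction k with
  | zero => intro U _ _; trivial
  | succ k ih =>
    intro U hU h
    obtain ⟨a, ha, b, hb, hab⟩ := one_lt_card.1 (show 1 < U.card by omega)
    refine ⟨a, ha, b, hb, hab, h a ha b hb hab, ih ?_ fun x hx y hy hxy =>
      h x (mem_of_mem_erase (mem_of_mem_erase hx)) y (mem_of_mem_erase (mem_of_mem_erase hy)) hxy⟩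
    rw [card_erase_of_mem (mem_erase.2 ⟨hab.symm, hb⟩), card_erase_of_mem ha]
    omega

open Classical in
/-- The number of edges of `A` inside `U`. -/
noncomputable def ec (A : Finset (Sym2 ℕ)) (U : Finset ℕ) : ℕ := (A.filter (In U)).card

lemma ec_le {A : Finset (Sym2 ℕ)} {u v : ℕ} {U : Finset ℕ} (hA : ∀ x ∈ A, ¬ x.IsDiag)
    (he : s(u, v) ∉ A) :
    ec A U ≤ ec A ((U.erase u).erase v) +
      (nb A u ((U.erase u).erase v) + nb A v ((U.erase u).erase v)) := by
  classical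
  unfold ec nb
  set W := (U.erase u).erase v with hW
  calc _ ≤ (A.filter (In W) ∪ ((W.filter fun w => s(u, w) ∈ A).image (fun w => s(u, w)) ∪
        (W.filter fun w => s(v, w) ∈ A).image (fun w => s(v, w)))).card := by
        refine card_le_card fun x hx => ?_
        induction x using Sym2.ind with
        | _ a b =>
          simp only [mem_filter, in_mk] at hx
          obtain ⟨hxA, ha, hb⟩ := hx
          have hab : a ≠ b := fun h => hA _ hxA (by simp [h])
          have hsw : s(b, a) ∈ A := by rwa [Sym2.eq_swap]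
          simp only [mem_union, mem_filter, in_mk, mem_image, hW, mem_erase]
          by_cases h1 : a = u
          · subst h1
            exact Or.inr (Or.inl ⟨b, ⟨⟨fun h => he (h ▸ hxA), hab.symm, hb⟩, hxA⟩, rfl⟩)
          by_cases h2 : b = u
          · subst h2
            exact Or.inr (Or.inl ⟨a, ⟨⟨fun h => he (h ▸ hsw), hab, ha⟩, hsw⟩, Sym2.eq_swap⟩)
          by_cases h3 : a = v
          · subst h3
            exact Or.inr (Or.inr ⟨b, ⟨⟨hab.symm, h2, hb⟩, hxA⟩, rfl⟩)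
          by_cases h4 : b = v
          · subst h4
            exact Or.inr (Or.inr ⟨a, ⟨⟨hab, h1, ha⟩, hsw⟩, Sym2.eq_swap⟩)
          exact Or.inl ⟨hxA, ⟨h3, h1, ha⟩, h4, h2, hb⟩
    _ ≤ _ := by
        refine (card_union_le _ _).trans (Nat.add_le_add_left ?_ _)
        exact (card_union_le _ _).trans (Nat.add_le_add card_image_le card_image_le)

lemma ec_insert_in {A : Finset (Sym2 ℕ)} {x : Sym2 ℕ} {U : Finset ℕ} :
    ec (insert x A) U ≤ ec A U + 1 := by
  classical
  unfold ec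
  calc _ ≤ (insert x (A.filter (In U))).card := by
        refine card_le_card fun y hy => ?_
        simp only [mem_filter, mem_insert] at hy ⊢
        tauto
    _ ≤ _ := card_insert_le _ _

lemma ec_insert_out {A : Finset (Sym2 ℕ)} {x : Sym2 ℕ} {U : Finset ℕ} (h : ¬ In U x) :
    ec (insert x A) U ≤ ec A U := by
  classical
  unfold ec
  refine card_le_card fun y hy => ?_
  simp only [mem_filter, mem_insert] at hy ⊢
  exact ⟨hy.1.resolve_left fun e => h (e ▸ hy.2), hy.2⟩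

lemma ec_vertex {A : Finset (Sym2 ℕ)} {x : ℕ} {U : Finset ℕ} (h : ∀ y ∈ A, x ∉ y) :
    ec A (insert x U) ≤ ec A U := by
  classical
  unfold ec
  refine card_le_card fun y hy => ?_
  simp only [mem_filter] at hy ⊢
  exact ⟨hy.1, fun w hw => (mem_insert.1 (hy.2 w hw)).resolve_left fun e => h y hy.1 (e ▸ hw)⟩

lemma ec_clique {A : Finset (Sym2 ℕ)} {U : Finset ℕ}
    (h : ∀ a ∈ U, ∀ b ∈ U, a ≠ b → s(a, b) ∈ A) : U.card.choose 2 ≤ ec A U := by
  classical
  unfold ec
  rw [← Sym2.card_image_offDiag]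
  refine card_le_card fun y hy => ?_
  obtain ⟨⟨a, b⟩, hab, rfl⟩ := mem_image.1 hy
  rw [mem_offDiag] at hab
  exact mem_filter.2 ⟨h a hab.1 b hab.2.1 hab.2.2, in_mk.2 ⟨hab.1, hab.2.1⟩⟩

end Pool.Agent.Lib.MP_bf69bb_co.Slow
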