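import Pool.Agent.Lib.MP_bf69bb_co.TMat

set_option autoImplicit false

namespace Pool.Agent.Lib.MP_bf69bb_co.Slow

open Finset

variable {K : ℝ} {c : ℕ}

open Classical in
/-- The contribution of the matchings with `k` edges. -/
noncomputable def tm (K : ℝ) (A : Finset (Sym2 ℕ)) (U : Finset ℕ) (k : ℕ) : ℝ :=
  if Mt A k U then 2 ^ ec A U * K ^ k / (2 ^ (k ^ 2) * K ^ U.card) else 0

/-- The weight of a vertex set. -/
noncomputable def wt (K : ℝ) (c : ℕ) (A : Finset (Sym2 ℕ)) (U : Finset ℕ) : ℝ :=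
  ∑ k ∈ range (c + 1), tm K A U k

lemma tm_nonneg (hK : 0 < K) (A : Finset (Sym2 ℕ)) (U : Finset ℕ) (k : ℕ) : 0 ≤ tm K A U k := by
  unfold tm
  split_ifs
  · positivity
  · exact le_rfl

lemma wt_nonneg (hK : 0 < K) (A : Finset (Sym2 ℕ)) (U : Finset ℕ) : 0 ≤ wt K c A U :=
  sum_nonneg fun k _ => tm_nonneg hK A U k

lemma two_pow_le {a b : ℕ} (h : a ≤ b) : (2 : ℝ) ^ a ≤ 2 ^ b := pow_le_pow_right₀ (by norm_num) h

lemma wt_vertex (hK : 0 < K) {A : Finset (Sym2 ℕ)} {x : ℕ} {U : Finset ℕ} (h : ∀ y ∈ A, x ∉ y)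
    (hx : x ∉ U) : wt K c A (insert x U) ≤ wt K c A U / K := by
  unfold wt
  rw [sum_div]
  refine sum_le_sum fun k _ => ?_
  by_cases hM : Mt A k (insert x U)
  · have hM' : Mt A k U := by
      refine Mt.imp ?_ hM
      intro a b ha hb _ hA
      exact ⟨(mem_insert.1 ha).resolve_left fun e => h _ hA (by simp [e]),
        (mem_insert.1 hb).resolve_left fun e => h _ hA (by simp [e]), hA⟩
    unfold tm
    rw [if_pos hM, if_pos hM', card_insert_of_notMem hx, div_div, pow_succ K, mul_assoc (2 ^ (k ^ 2))]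
    have := two_pow_le (ec_vertex (U := U) h)
    gcongr
  · have := div_nonneg (tm_nonneg hK A U k) hK.le
    unfold tm at this ⊢
    rwa [if_neg hM]

lemma wt_out (hK : 0 < K) {A : Finset (Sym2 ℕ)} {x : Sym2 ℕ} {U : Finset ℕ} (h : ¬ In U x) :
    wt K c (insert x A) U ≤ wt K c A U := by
  refine sum_le_sum fun k _ => ?_
  by_cases hM : Mt (insert x A) k U
  · have hM' : Mt A k U := by
      refine Mt.imp ?_ hM
      intro a b ha hb _ hA
      exact ⟨ha, hb, (mem_insert.1 hA).resolve_left fun e => h (e ▸ in_mk.2 ⟨ha, hb⟩)⟩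
    unfold tm
    rw [if_pos hM, if_pos hM']
    have := two_pow_le (ec_insert_out (A := A) h)
    gcongr
  · have := tm_nonneg hK A U k
    unfold tm at this ⊢
    rwa [if_neg hM]

lemma tm_keep (hK : 0 < K) {A : Finset (Sym2 ℕ)} {x : Sym2 ℕ} {U : Finset ℕ} {k : ℕ}
    (hM : Mt A k U) : tm K (insert x A) U k ≤ 2 * tm K A U k := by
  unfold tm
  rw [if_pos hM]
  split_ifs
  · have := two_pow_le (ec_insert_in (A := A) (x := x) (U := U))
    rw [pow_succ, mul_comm] at this
    rw [← mul_div_assoc, ← mul_assoc]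
    gcongr
  · positivity

lemma tm_new (hK : 0 < K) {A : Finset (Sym2 ℕ)} {u v : ℕ} {U : Finset ℕ} {k : ℕ}
    (hA : ∀ x ∈ A, ¬ x.IsDiag) (he : s(u, v) ∉ A) (huv : u ≠ v) (hu : u ∈ U) (hv : v ∈ U) :
    tm K (insert s(u, v) A) U (k + 1) ≤
      2 * tm K A U (k + 1) + tm K A ((U.erase u).erase v) k / K := by
  have n1 := tm_nonneg hK A U (k + 1)
  have n2 := div_nonneg (tm_nonneg hK A ((U.erase u).erase v) k) hK.le
  by_cases hM : Mt A (k + 1) U
  · have := tm_keep hK (x := s(u, v)) hM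
    linarith
  by_cases hN : Mt (insert s(u, v) A) (k + 1) U
  · have h1 := new_mt hN hM
    have hU : insert u (insert v ((U.erase u).erase v)) = U := by
      rw [insert_erase (mem_erase.2 ⟨huv.symm, hv⟩), insert_erase hu]
    have h2 : nb A u ((U.erase u).erase v) + nb A v ((U.erase u).erase v) ≤ 2 * k := by
      by_contra h2
      exact hM (hU ▸ aug huv (by simp) (by simp) h1 (by omega))
    have h3 := ec_le (U := U) hA he
    have h4 := ec_insert_in (A := A) (x := s(u, v)) (U := U)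
    have h5 : U.card = ((U.erase u).erase v).card + 2 := by
      have := card_pos.2 ⟨v, mem_erase.2 ⟨huv.symm, hv⟩⟩
      rw [card_erase_of_mem (mem_erase.2 ⟨huv.symm, hv⟩)]
      rw [card_erase_of_mem hu] at this ⊢
      omega
    have h6 := two_pow_le
      (show ec (insert s(u, v) A) U ≤ ec A ((U.erase u).erase v) + (2 * k + 1) by omega)
    have h7 : tm K (insert s(u, v) A) U (k + 1) ≤ tm K A ((U.erase u).erase v) k / K := by
      unfold tm
      rw [if_pos hN, if_pos h1, h5]
      calc _ ≤ 2 ^ (ec A ((U.erase u).erase v) + (2 * k + 1)) * K ^ (k + 1) /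
            (2 ^ ((k + 1) ^ 2) * K ^ (((U.erase u).erase v).card + 2)) := by gcongr
        _ = _ := by
          rw [show (k + 1) ^ 2 = k ^ 2 + (2 * k + 1) by ring]
          simp only [pow_add]
          field_simp
    linarith
  · have : tm K (insert s(u, v) A) U (k + 1) = 0 := by
      unfold tm
      rw [if_neg hN]
    linarith

lemma wt_in (hK : 0 < K) {A : Finset (Sym2 ℕ)} {u v : ℕ} {U : Finset ℕ}
    (hA : ∀ x ∈ A, ¬ x.IsDiag) (he : s(u, v) ∉ A) (huv : u ≠ v) (hu : u ∈ U) (hv : v ∈ U) :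
    wt K c (insert s(u, v) A) U ≤ 2 * wt K c A U + wt K c A ((U.erase u).erase v) / K := by
  unfold wt
  rw [sum_range_succ', sum_range_succ' (tm K A U), sum_range_succ, add_div, sum_div, mul_add,
    mul_sum]
  have h0 := tm_keep hK (A := A) (x := s(u, v)) (U := U) (k := 0) trivial
  have h1 := sum_le_sum (s := range c) fun k _ => tm_new hK (k := k) hA he huv hu hv
  have h2 := div_nonneg (tm_nonneg hK A ((U.erase u).erase v) c) hK.le
  rw [sum_add_distrib] at h1
  linarith

open Classical in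
/-- The weight of a vertex set, zero when it contains an edge of `B`. -/
noncomputable def ps (K : ℝ) (c : ℕ) (A B : Finset (Sym2 ℕ)) (U : Finset ℕ) : ℝ :=
  if ∃ x ∈ B, In U x then 0 else wt K c A U

/-- The potential. -/
noncomputable def Ph (K : ℝ) (c : ℕ) (V : Finset ℕ) (A B : Finset (Sym2 ℕ)) : ℝ :=
  ∑ U ∈ V.powerset, ps K c A B U

open Classical in
/-- The part of the potential through the pair `x`. -/
noncomputable def om (K : ℝ) (c : ℕ) (V : Finset ℕ) (A B : Finset (Sym2 ℕ)) (x : Sym2 ℕ) : ℝ :=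
  ∑ U ∈ V.powerset, if In U x then ps K c A B U else 0

variable {V : Finset ℕ} {A B : Finset (Sym2 ℕ)}

lemma ps_nonneg (hK : 0 < K) (U : Finset ℕ) : 0 ≤ ps K c A B U := by
  unfold ps
  split_ifs
  · exact le_rfl
  · exact wt_nonneg hK _ _

lemma Ph_nonneg (hK : 0 < K) : 0 ≤ Ph K c V A B := sum_nonneg fun U _ => ps_nonneg hK U

lemma om_nonneg (hK : 0 < K) (x : Sym2 ℕ) : 0 ≤ om K c V A B x := by
  refine sum_nonneg fun U _ => ?_
  split_ifs
  · exact ps_nonneg hK U
  · exact le_rfl

open Classical in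
lemma ps_block (f : Sym2 ℕ) (U : Finset ℕ) :
    ps K c A (insert f B) U = if In U f then 0 else ps K c A B U := by
  unfold ps
  by_cases h : In U f <;> simp [h]

lemma Ph_block (f : Sym2 ℕ) : Ph K c V A (insert f B) + om K c V A B f = Ph K c V A B := by
  unfold Ph om
  rw [← sum_add_distrib]
  refine sum_congr rfl fun U _ => ?_
  rw [ps_block]
  split_ifs <;> simp

lemma om_block (hK : 0 < K) (f x : Sym2 ℕ) : om K c V A (insert f B) x ≤ om K c V A B x := by
  refine sum_le_sum fun U _ => ?_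
  rw [ps_block]
  split_ifs
  · exact ps_nonneg hK U
  · exact le_rfl
  · exact le_rfl

lemma ps_vertex (hK : 0 < K) {x : ℕ} {U : Finset ℕ} (h : ∀ y ∈ A, x ∉ y) (hx : x ∉ U) :
    ps K c A B (insert x U) ≤ ps K c A B U / K := by
  by_cases h1 : ∃ y ∈ B, In (insert x U) y
  · have := div_nonneg (ps_nonneg (c := c) (A := A) (B := B) hK U) hK.le
    unfold ps at this ⊢
    rwa [if_pos h1]
  · unfold ps
    rw [if_neg h1, if_neg fun ⟨y, hy, hy'⟩ => h1 ⟨y, hy, hy'.mono (subset_insert _ _)⟩]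
    exact wt_vertex hK h hx

lemma sum_vertex (hK : 0 < K) {x : ℕ} (h : ∀ y ∈ A, x ∉ y) (hx : x ∉ V) :
    ∑ U ∈ V.powerset, ps K c A B (insert x U) ≤ Ph K c V A B / K := by
  unfold Ph
  rw [sum_div]
  exact sum_le_sum fun U hU => ps_vertex hK h fun hh => hx (mem_powerset.1 hU hh)

lemma Ph_vertex (hK : 0 < K) {x : ℕ} (h : x ∉ V → ∀ y ∈ A, x ∉ y) :
    Ph K c (insert x V) A B ≤ (1 + 1 / K) * Ph K c V A B := by
  have h0 := Ph_nonneg (c := c) (V := V) (A := A) (B := B) hK
  by_cases hx : x ∈ V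
  · rw [insert_eq_of_mem hx]
    have : 0 ≤ 1 / K * Ph K c V A B := by positivity
    linarith
  · have h1 := sum_vertex (c := c) (B := B) hK (h hx) hx
    have h2 : Ph K c (insert x V) A B =
        Ph K c V A B + ∑ U ∈ V.powerset, ps K c A B (insert x U) := sum_powerset_insert hx _
    rw [h2, add_mul, one_mul, one_div_mul_eq_div]
    linarith

lemma Ph_mono (hK : 0 < K) {V' : Finset ℕ} (h : V ⊆ V') : Ph K c V A B ≤ Ph K c V' A B :=
  sum_le_sum_of_subset_of_nonneg (powerset_mono.2 h) fun U _ _ => ps_nonneg hK U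

lemma om_vertex (hK : 0 < K) {x : ℕ} {e : Sym2 ℕ} (h : ∀ y ∈ A, x ∉ y) (hx : x ∉ V)
    (he : x ∈ e) : om K c (insert x V) A B e ≤ Ph K c (insert x V) A B / K := by
  classical
  have h1 := sum_vertex (c := c) (B := B) hK h hx
  have h2 : Ph K c V A B / K ≤ Ph K c (insert x V) A B / K := by
    have := Ph_mono (c := c) (A := A) (B := B) hK (subset_insert x V)
    gcongr
  refine le_trans ?_ (h1.trans h2)
  unfold om
  rw [sum_powerset_insert hx, sum_eq_zero, zero_add]
  · refine sum_le_sum fun U _ => ?_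
    split_ifs
    · exact le_rfl
    · exact ps_nonneg hK _
  · intro U hU
    exact if_neg fun hh => hx (mem_powerset.1 hU (hh x he))

lemma Ph_edge (hK : 0 < K) {u v : ℕ} (hA : ∀ x ∈ A, ¬ x.IsDiag) (he : s(u, v) ∉ A)
    (huv : u ≠ v) :
    Ph K c V (insert s(u, v) A) B ≤ (1 + 1 / K) * Ph K c V A B + om K c V A B s(u, v) := by
  classical
  have h1 : ∀ U ∈ V.powerset, ps K c (insert s(u, v) A) B U ≤ ps K c A B U +
      (if In U s(u, v) then ps K c A B U else 0) +
      (if In U s(u, v) then ps K c A B ((U.erase u).erase v) else 0) / K := by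
    intro U _
    have n1 := ps_nonneg (c := c) (A := A) (B := B) hK U
    have n2 := div_nonneg (ps_nonneg (c := c) (A := A) (B := B) hK ((U.erase u).erase v)) hK.le
    by_cases hI : In U s(u, v)
    · rw [if_pos hI, if_pos hI]
      by_cases hB : ∃ x ∈ B, In U x
      · have : ps K c (insert s(u, v) A) B U = 0 := if_pos hB
        linarith
      · unfold ps
        rw [if_neg hB, if_neg hB, if_neg fun ⟨y, hy, hy'⟩ =>
          hB ⟨y, hy, hy'.mono ((erase_subset _ _).trans (erase_subset _ _))⟩]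
        have := wt_in (c := c) hK hA he huv (in_mk.1 hI).1 (in_mk.1 hI).2
        linarith
    · rw [if_neg hI, if_neg hI, zero_div, add_zero, add_zero]
      unfold ps
      split_ifs
      · exact le_rfl
      · exact wt_out hK hI
  have h2 : ∑ U ∈ V.powerset, (if In U s(u, v) then ps K c A B ((U.erase u).erase v) else 0) ≤
      Ph K c V A B := by
    rw [← sum_filter, ← sum_image (g := fun U : Finset ℕ => (U.erase u).erase v)]
    · refine sum_le_sum_of_subset_of_nonneg ?_ fun U _ _ => ps_nonneg hK U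
      intro W hW
      obtain ⟨U, hU, rfl⟩ := mem_image.1 hW
      exact mem_powerset.2 (((erase_subset _ _).trans (erase_subset _ _)).trans
        (mem_powerset.1 (mem_filter.1 hU).1))
    · intro U hU U' hU' h
      have e1 := in_mk.1 (mem_filter.1 (mem_coe.1 hU)).2
      have e2 := in_mk.1 (mem_filter.1 (mem_coe.1 hU')).2
      have h' : (U.erase u).erase v = (U'.erase u).erase v := h
      rw [← insert_erase e1.1, ← insert_erase (mem_erase.2 ⟨huv.symm, e1.2⟩), h',
        insert_erase (mem_erase.2 ⟨huv.symm, e2.2⟩), insert_erase e2.1]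
  have h3 := sum_le_sum h1
  rw [sum_add_distrib, sum_add_distrib, ← sum_div] at h3
  have h4 := div_le_div_of_nonneg_right h2 hK.le
  rw [add_mul, one_mul, one_div_mul_eq_div]
  unfold Ph om at *
  linarith

end Pool.Agent.Lib.MP_bf69bb_co.Slow
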