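import Pool.Agent.Lib.MP_bf69bb_co.Strat
import Pool.Agent.Lib.MP_4a944d_co.Game

set_option autoImplicit false

namespace Pool.Agent.Lib.MP_bf69bb_co

open Finset

def sz (a : ℕ) : ℕ → ℕ
  | 0 => 0
  | r + 1 => a * sz a r + 1

def tot (a : ℕ) : ℕ → ℕ
  | 0 => 0
  | r + 1 => tot a r + sz a (r + 1)

lemma sz_le_tot (a r : ℕ) : sz a r ≤ tot a r := by
  cases r with
  | zero => simp [sz, tot]
  | succ r => simp [tot]

lemma tot_le (a r : ℕ) (ha : 1 ≤ a) : tot a r + 1 ≤ (a + 1) ^ r := by
  induction r with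
  | zero => simp [tot]
  | succ r ih =>
    have h1 := sz_le_tot a r
    have h2 : tot a (r + 1) = tot a r + (a * sz a r + 1) := rfl
    have h3 : a * sz a r ≤ a * tot a r := Nat.mul_le_mul_left _ h1
    have h4 : (tot a r + 1) * (a + 1) ≤ (a + 1) ^ r * (a + 1) := Nat.mul_le_mul_right _ ih
    rw [pow_succ]
    nlinarith

structure Inv (q g t i j : ℕ) (F S : Finset E) (C D N : Finset ℕ) (v r : ℕ) : Prop where
  hij : i ≤ j
  hS : ¬ A q S
  hvD : v ∉ D
  hDN : ∀ x ∈ D, x ∉ N
  hvC : v ∈ C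
  hC : (gr F).IsClique C
  hCc : C.card + r = q
  hCD : ∀ x ∈ C, x ≠ v → ∀ d ∈ D, (gr F).Adj x d
  hCN : ∀ x ∈ C, ∀ d ∈ N, (gr F).Adj x d
  hD : ∀ d ∈ D, s(v, d) ∉ S
  hN : N.card < sz (q * g) r
  hDc : j + 1 + g * sz (q * g) r ≤ D.card + i + g * (N.card + 1)
  ht : j + 1 + g * tot (q * g) r ≤ t + i + g * (N.card + 1)

lemma Inv.own_move {q g t i j : ℕ} {F S : Finset E} {C D N : Finset ℕ} {v r : ℕ}
    (h : Inv q g (t + 1) i j F S C D N v r) (hij : i ≠ j) (x : E) :
    Inv q g t (i + 1) j (insert x F) S C D N v r := by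
  have hm : gr F ≤ gr (insert x F) := gr_mono (subset_insert _ _)
  refine { hij := lt_of_le_of_ne h.hij hij, hS := h.hS, hvD := h.hvD, hDN := h.hDN, hvC := h.hvC,
           hC := h.hC.mono hm, hCc := h.hCc, hCD := fun a ha hav d hd => hm (h.hCD a ha hav d hd),
           hCN := fun a ha d hd => hm (h.hCN a ha d hd), hD := h.hD, hN := h.hN, hDc := ?_,
           ht := ?_ }
  · have := h.hDc
    omega
  · have := h.ht
    omega

lemma Inv.opp_move {q g t i j : ℕ} {F S : Finset E} {C D N : Finset ℕ} {v r : ℕ}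
    (h : Inv q g (t + 1) i j F S C D N v r) (hij : i ≠ j) (x : E) (hA : ¬ A q (insert x S)) :
    ∃ D', Inv q g t (i + 1) j F (insert x S) C D' N v r := by
  classical
  refine ⟨D.filter (fun d => s(v, d) ≠ x), ?_⟩
  have hcard : D.card ≤ (D.filter (fun d => s(v, d) ≠ x)).card + 1 := by
    have h1 := card_filter_add_card_filter_not (s := D) (fun d => s(v, d) ≠ x)
    have h2 : (D.filter (fun d => ¬ s(v, d) ≠ x)).card ≤ 1 := by
      refine card_le_one.2 fun a ha b hb => ?_
      have ha' := not_not.1 (mem_filter.1 ha).2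
      have hb' := not_not.1 (mem_filter.1 hb).2
      exact Sym2.congr_right.1 (ha'.trans hb'.symm)
    omega
  refine { hij := lt_of_le_of_ne h.hij hij, hS := hA, hvD := fun hh => h.hvD (mem_filter.1 hh).1,
           hDN := fun a ha => h.hDN a (mem_filter.1 ha).1, hvC := h.hvC,
           hC := h.hC, hCc := h.hCc,
           hCD := fun a ha hav d hd => h.hCD a ha hav d (mem_filter.1 hd).1,
           hCN := h.hCN, hD := ?_, hN := h.hN, hDc := ?_, ht := ?_ }
  · intro d hd hh
    rcases mem_insert.1 hh with hh | hh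
    · exact (mem_filter.1 hd).2 hh
    · exact h.hD d (mem_filter.1 hd).1 hh
  · have := h.hDc
    omega
  · have := h.ht
    omega

lemma Inv.t_pos {q g t i j : ℕ} {F S : Finset E} {C D N : Finset ℕ} {v r : ℕ}
    (h : Inv q g t i j F S C D N v r) : 0 < t ∧ 0 < D.card := by
  have h1 := h.hij
  have h2 := h.ht
  have h3 := h.hDc
  have h4 : g * (N.card + 1) ≤ g * sz (q * g) r := Nat.mul_le_mul_left _ h.hN
  have h5 : g * sz (q * g) r ≤ g * tot (q * g) r := Nat.mul_le_mul_left _ (sz_le_tot _ _)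
  omega

lemma Inv.bonus {q g t i j : ℕ} {F S : Finset E} {C D N : Finset ℕ} {v r : ℕ}
    (h : Inv q g (t + 1) i j F S C D N v r) :
    ∃ x, Free F S x ∧ (A q (insert x F) ∨ (g ≤ t ∧ ∀ j', i + 1 ≤ j' → j' < i + 1 + g →
      ∃ C' D' N' v' r', Inv q g t (i + 1) j' (insert x F) S C' D' N' v' r')) := by
  classical
  obtain ⟨d, hd⟩ := card_pos.1 h.t_pos.2
  have hne : v ≠ d := fun hh => h.hvD (hh ▸ hd)
  obtain ⟨e, he, hadj⟩ : ∃ e, Free F S e ∧ (gr (insert e F)).Adj v d := by
    by_cases hF : s(v, d) ∈ F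
    · obtain ⟨e, he⟩ := exists_free F S
      exact ⟨e, he, gr_adj.2 ⟨mem_insert_of_mem hF, hne⟩⟩
    · exact ⟨s(v, d), ⟨by simpa using hne, hF, h.hD d hd⟩, gr_adj.2 ⟨mem_insert_self _ _, hne⟩⟩
  refine ⟨e, he, ?_⟩
  have hm : gr F ≤ gr (insert e F) := gr_mono (subset_insert _ _)
  have hdN := h.hDN d hd
  have hCN' : ∀ x ∈ C, ∀ a ∈ insert d N, (gr (insert e F)).Adj x a := by
    intro x hx a ha
    rcases mem_insert.1 ha with rfl | ha
    · by_cases hxv : x = v
      · exact hxv ▸ hadj
      · exact hm (h.hCD x hx hxv a hd)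
    · exact hm (h.hCN x hx a ha)
  have hij := h.hij
  have hDc := h.hDc
  have ht := h.ht
  by_cases hlt : N.card + 1 < sz (q * g) r
  · right
    have h4 : g * (N.card + 1 + 1) ≤ g * sz (q * g) r := Nat.mul_le_mul_left _ hlt
    have h5 : g * sz (q * g) r ≤ g * tot (q * g) r := Nat.mul_le_mul_left _ (sz_le_tot _ _)
    have h6 : g * (N.card + 1 + 1) = g * (N.card + 1) + g := by ring
    refine ⟨by omega, fun j' hj1 hj2 => ⟨C, D.erase d, insert d N, v, r, ?_⟩⟩
    refine { hij := hj1, hS := h.hS, hvD := fun hh => h.hvD (mem_of_mem_erase hh), hDN := ?_,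
             hvC := h.hvC, hC := h.hC.mono hm, hCc := h.hCc,
             hCD := fun x hx hxv a ha => hm (h.hCD x hx hxv a (mem_of_mem_erase ha)),
             hCN := hCN', hD := fun a ha => h.hD a (mem_of_mem_erase ha), hN := ?_, hDc := ?_,
             ht := ?_ }
    · intro x hx hh
      rcases mem_insert.1 hh with rfl | hh
      · exact ne_of_mem_erase hx rfl
      · exact h.hDN x (mem_of_mem_erase hx) hh
    · rw [card_insert_of_notMem hdN]
      exact hlt
    · rw [card_insert_of_notMem hdN, card_erase_of_mem hd]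
      have := h.t_pos.2
      omega
    · rw [card_insert_of_notMem hdN]
      omega
  · have hN := h.hN
    obtain ⟨r, rfl⟩ : ∃ r', r = r' + 1 := by
      cases r with
      | zero => simp [sz] at hN
      | succ r => exact ⟨r, rfl⟩
    have hsz : sz (q * g) (r + 1) = q * (g * sz (q * g) r) + 1 := by
      rw [sz]
      ring
    have hNc : (insert d N).card = q * (g * sz (q * g) r) + 1 := by
      rw [card_insert_of_notMem hdN]
      omega
    obtain ⟨v', hv', hbig⟩ : ∃ v' ∈ insert d N, g * sz (q * g) r <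
        ((insert d N).filter (fun x => ¬ (gr S).Adj v' x)).card := by
      by_contra hcon
      push Not at hcon
      obtain ⟨Q, -, hQ⟩ := MP_4a944d_co.turan (gr S) (g * sz (q * g) r) q (insert d N)
        (by omega) hcon
      exact h.hS fun hh => hh Q hQ
    have hv'C : v' ∉ C := fun hh => (hCN' v' hh v' hv').ne rfl
    have hC' : (gr (insert e F)).IsClique ((insert v' C : Finset ℕ) : Set ℕ) := by
      rw [coe_insert]
      exact (h.hC.mono hm).insert (fun b hb _ => (hCN' b hb v' hv').symm)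
    have hCc' : (insert v' C).card + r = q := by
      rw [card_insert_of_notMem hv'C]
      have := h.hCc
      omega
    rcases Nat.eq_zero_or_pos r with rfl | hr
    · left
      exact fun hh => hh (insert v' C) ⟨hC', by omega⟩
    · right
      have hpos : 1 ≤ sz (q * g) r := by
        obtain ⟨r, rfl⟩ : ∃ r', r = r' + 1 := ⟨r - 1, by omega⟩
        simp [sz]
      have h4 : g * 1 ≤ g * sz (q * g) r := Nat.mul_le_mul_left _ hpos
      have h5 : g * sz (q * g) r ≤ g * tot (q * g) r := Nat.mul_le_mul_left _ (sz_le_tot _ _)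
      have h6 : g * tot (q * g) (r + 1) = g * tot (q * g) r + g * (N.card + 1) := by
        rw [tot, mul_add, show sz (q * g) (r + 1) = N.card + 1 by omega]
      refine ⟨by omega, fun j' hj1 hj2 => ?_⟩
      set D' := ((insert d N).filter (fun x => ¬ (gr S).Adj v' x)).erase v' with hD'
      have hD'sub : D' ⊆ insert d N := (erase_subset _ _).trans (filter_subset _ _)
      refine ⟨insert v' C, D', ∅, v', r, ?_⟩
      refine { hij := hj1, hS := h.hS, hvD := notMem_erase _ _, hDN := fun _ _ => notMem_empty _,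
               hvC := mem_insert_self _ _, hC := hC', hCc := hCc', hCD := ?_,
               hCN := fun _ _ a ha => absurd ha (notMem_empty _), hD := ?_, hN := ?_, hDc := ?_,
               ht := ?_ }
      · intro x hx hxv a ha
        rcases mem_insert.1 hx with rfl | hx
        · exact absurd rfl hxv
        · exact hCN' x hx a (hD'sub ha)
      · intro a ha hh
        exact (mem_filter.1 (mem_of_mem_erase ha)).2 (gr_adj.2 ⟨hh, (ne_of_mem_erase ha).symm⟩)
      · rw [card_empty]
        exact hpos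
      · have := pred_card_le_card_erase
          (s := (insert d N).filter (fun x => ¬ (gr S).Adj v' x)) (a := v')
        rw [← hD'] at this
        simp only [card_empty]
        omega
      · simp only [card_empty]
        omega

/-- The tempo lemma. -/
lemma tempo_aux {q g T : ℕ} {s s' : ℕ → Bool} {P : ℕ → Prop} {c : ℕ → ℕ}
    (hP : ∀ i, P i → s i = true ∧ c (i + 1) = c i)
    (hnP : ∀ i, ¬ P i → s' (c i) = s i ∧ c (i + 1) = c i + 1)
    (hgap : ∀ i < T, ∃ j, i ≤ j ∧ j < i + g ∧ P j) (hg : 0 < g) :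
    ∀ (t i j : ℕ) (F S Y : Finset E) (C D N : Finset ℕ) (v r : ℕ), i + t ≤ T → P j → Y ⊆ F →
      ¬ W q s' false t (c i) S Y → Inv q g t i j F S C D N v r → W q s true t i F S := by
  intro t
  induction t with
  | zero => intro i j F S Y C D N v r _ _ _ _ h; exact absurd h.t_pos.1 (lt_irrefl _)
  | succ t ih =>
    intro i j F S Y C D N v r hT hj hY hsafe h
    by_cases hi : P i
    · refine ⟨fun _ => ?_, fun hh => absurd (hP i hi).1 hh⟩
      obtain ⟨x, hx, h1⟩ := h.bonus
      refine ⟨x, hx, h1.imp id fun ⟨h2, h3⟩ => ?_⟩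
      obtain ⟨j', hj1, hj2, hj3⟩ := hgap (i + 1) (by omega)
      obtain ⟨C', D', N', v', r', h4⟩ := h3 j' hj1 hj2
      refine ih _ j' _ _ Y _ _ _ _ _ (by omega) hj3 (hY.trans (subset_insert _ _)) ?_ h4
      rw [(hP i hi).2]
      exact fun hw => hsafe hw.succ
    · have hij : i ≠ j := fun hh => hi (hh ▸ hj)
      obtain ⟨hs, hc⟩ := hnP i hi
      refine ⟨fun hsi => ?_, fun hsi x hx => ?_⟩
      · have h1 : ¬ ∀ x, Free S Y x → ¬ A q (insert x Y) ∧
            W q s' false t (c i + 1) S (insert x Y) := fun hh =>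
          hsafe ⟨fun h' => by simp [hs, hsi] at h', fun _ => hh⟩
        obtain ⟨y, h1⟩ := not_forall.1 h1
        obtain ⟨hy, h1⟩ := Classical.not_imp.1 h1
        obtain ⟨x, hx, hxy⟩ : ∃ x, Free F S x ∧ insert y Y ⊆ insert x F := by
          by_cases hyF : y ∈ F
          · obtain ⟨x, hx⟩ := exists_free F S
            exact ⟨x, hx, (insert_subset hyF hY).trans (subset_insert _ _)⟩
          · exact ⟨y, ⟨hy.1, hyF, hy.2.1⟩, insert_subset_insert _ hY⟩
        refine ⟨x, hx, ?_⟩
        by_cases hA : A q (insert y Y)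
        · exact Or.inl (hA.mono hxy)
        · right
          refine ih _ j _ _ (insert y Y) _ _ _ _ _ (by omega) hj hxy ?_ (h.own_move hij x)
          rw [hc]
          exact fun hw => h1 ⟨hA, hw⟩
      · have hsi' : s' (c i) = false := by simpa [hs] using hsi
        have hx' : Free S Y x := ⟨hx.1, hx.2.2, fun hh => hx.2.1 (hY hh)⟩
        have h1 : ¬ (A q (insert x S) ∨ W q s' false t (c i + 1) (insert x S) Y) := fun hh =>
          hsafe ⟨fun _ => ⟨x, hx', hh⟩, fun h' => absurd hsi' h'⟩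
        rw [not_or] at h1
        obtain ⟨D', h2⟩ := h.opp_move hij x h1.1
        refine ⟨h1.1, ih _ j _ _ Y _ _ _ _ _ (by omega) hj hY ?_ h2⟩
        rw [hc]
        exact h1.2

lemma tempo {q g : ℕ} {s s' : ℕ → Bool} {P : ℕ → Prop} {c : ℕ → ℕ} (hq : 2 ≤ q) (hg : 0 < g)
    (hc : c 0 = 0) (hP : ∀ i, P i → s i = true ∧ c (i + 1) = c i)
    (hnP : ∀ i, ¬ P i → s' (c i) = s i ∧ c (i + 1) = c i + 1)
    (hgap : ∀ i < (q * g + 1) ^ q, ∃ j, i ≤ j ∧ j < i + g ∧ P j)
    (hsafe : ¬ W q s' false ((q * g + 1) ^ q) 0 ∅ ∅) : W q s true ((q * g + 1) ^ q) 0 ∅ ∅ := by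
  obtain ⟨j, -, hj, hPj⟩ := hgap 0 (by positivity)
  obtain ⟨r, rfl⟩ : ∃ r, q = r + 2 := ⟨q - 2, by omega⟩
  refine tempo_aux hP hnP hgap hg _ 0 j ∅ ∅ ∅ {0}
    ((range (g * sz ((r + 2) * g) (r + 1) + 1)).erase 0) ∅ 0 (r + 1) (by omega) hPj
    (Subset.refl _) (by rwa [hc]) ?_
  refine { hij := Nat.zero_le _, hS := not_A_empty hq, hvD := notMem_erase _ _,
           hDN := fun _ _ => notMem_empty _, hvC := mem_singleton_self _, hC := by simp,
           hCc := by simp; omega, hCD := fun x hx hxv => absurd (mem_singleton.1 hx) hxv,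
           hCN := fun _ _ a ha => absurd ha (notMem_empty _), hD := fun _ _ => notMem_empty _,
           hN := by simp [sz], hDc := ?_, ht := ?_ }
  · rw [card_erase_of_mem (by simp), card_range]
    simp only [card_empty]
    omega
  · have h1 := tot_le ((r + 2) * g) (r + 1) (Nat.mul_pos (by omega) hg)
    have h2 : g * tot ((r + 2) * g) (r + 1) ≤ ((r + 2) * g + 1) ^ (r + 2) := by
      rw [pow_succ _ (r + 1), mul_comm]
      exact Nat.mul_le_mul (by omega) (by nlinarith)
    simp only [card_empty]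
    omega

end Pool.Agent.Lib.MP_bf69bb_co
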