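import Pool.Agent.Lib.MP_bf69bb_co.WPlay

set_option autoImplicit false

namespace Pool.Agent.Lib.MP_bf69bb_co.Wh

open Finset

lemma sp_inj (g : ℕ) : Function.Injective (fun y : ℕ => s(y, g)) := fun _ _ h =>
  Sym2.congr_left.1 h

/-- The neighbours of `g` along edges of `B`. -/
noncomputable def nb (B : Pos) (g : ℕ) : Finset ℕ :=
  B.preimage (fun y => s(y, g)) (sp_inj g).injOn

@[simp] lemma mem_nb {B : Pos} {g y : ℕ} : y ∈ nb B g ↔ s(y, g) ∈ B := by simp [nb]

lemma nb_mono {B B' : Pos} (h : B ⊆ B') (g : ℕ) : nb B g ⊆ nb B' g := fun _ hy =>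
  mem_nb.2 (h (mem_nb.1 hy))

lemma card_sp (Y : Finset ℕ) (g : ℕ) : (Y.image (fun y => s(y, g))).card = Y.card :=
  card_image_of_injective _ (sp_inj g)

lemma nb_card_eq (B : Pos) (g : ℕ) : (nb B g).card = (B.filter (fun e => g ∈ e)).card := by
  rw [← card_sp _ g]
  congr 1
  ext e
  simp only [mem_image, mem_nb, mem_filter]
  constructor
  · rintro ⟨y, hy, rfl⟩
    exact ⟨hy, by simp⟩
  · rintro ⟨he, hg⟩
    obtain ⟨y, rfl⟩ := Sym2.mem_iff_exists.1 hg
    exact ⟨y, by rwa [Sym2.eq_swap], Sym2.eq_swap⟩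

lemma nb_le (B : Pos) (g : ℕ) : (nb B g).card ≤ B.card := by
  rw [nb_card_eq]; exact card_filter_le _ _

lemma nb_grow {U U' : Pos} (h : U ⊆ U') (g : ℕ) :
    (nb U' g).card + U.card ≤ (nb U g).card + U'.card := by
  have h1 : U'.filter (fun e => g ∈ e) ⊆ U.filter (fun e => g ∈ e) ∪ (U' \ U) := by
    intro e he
    rw [mem_filter] at he
    by_cases hu : e ∈ U
    · exact mem_union_left _ (mem_filter.2 ⟨hu, he.2⟩)
    · exact mem_union_right _ (mem_sdiff.2 ⟨he.1, hu⟩)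
  have h2 := (card_le_card h1).trans (card_union_le _ _)
  have h3 := card_sdiff_add_card_eq_card h
  rw [nb_card_eq, nb_card_eq]
  omega

lemma sum_nb (B : Pos) (Y : Finset ℕ) : ∑ y ∈ Y, (nb B y).card ≤ 2 * B.card := by
  simp only [nb_card_eq, card_filter]
  rw [sum_comm, mul_comm, ← smul_eq_mul]
  refine sum_le_card_nsmul _ _ _ fun e _ => ?_
  rw [← card_filter]
  induction e using Sym2.ind with
  | h a b =>
    refine (card_le_card (t := {a, b}) fun y hy => ?_).trans card_le_two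
    simpa using (mem_filter.1 hy).2

/-- Few vertices have large degree. -/
lemma heavy_le {U : Pos} {D0 Hc M : ℕ} (hU : U.card ≤ M) (h : 2 * M ≤ Hc * (D0 + 1))
    (Y : Finset ℕ) : (Y.filter (fun y => D0 < (nb U y).card)).card ≤ Hc := by
  have h1 := sum_nb U (Y.filter (fun y => D0 < (nb U y).card))
  have h2 : (Y.filter (fun y => D0 < (nb U y).card)).card * (D0 + 1) ≤
      ∑ y ∈ Y.filter (fun y => D0 < (nb U y).card), (nb U y).card := by
    rw [← smul_eq_mul]
    exact card_nsmul_le_sum _ _ _ fun y hy => (mem_filter.1 hy).2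
  exact Nat.le_of_mul_le_mul_right (h2.trans (h1.trans (by omega))) (by omega : 0 < D0 + 1)

lemma exists_light {U : Pos} {D0 Hc M : ℕ} (hU : U.card ≤ M) (h : 2 * M ≤ Hc * (D0 + 1))
    {Y X : Finset ℕ} (hY : X.card + Hc < Y.card) : ∃ y ∈ Y, y ∉ X ∧ (nb U y).card ≤ D0 := by
  have h1 := heavy_le hU h Y
  have h2 := card_union_le X (Y.filter (fun y => D0 < (nb U y).card))
  obtain ⟨y, hy, hy'⟩ := exists_mem_notMem_of_card_lt_card
    (s := X ∪ Y.filter (fun y => D0 < (nb U y).card)) (t := Y) (by omega)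
  rw [mem_union, mem_filter] at hy'
  exact ⟨y, hy, fun hx => hy' (Or.inl hx), not_lt.1 fun hx => hy' (Or.inr ⟨hy, hx⟩)⟩

lemma two_star (B : Pos) {g g' : ℕ} (h : g ≠ g') :
    (nb B g).card + (nb B g').card ≤ B.card + 1 := by
  rw [nb_card_eq, nb_card_eq, ← card_union_add_card_inter]
  have h1 : (B.filter (fun e => g ∈ e) ∪ B.filter (fun e => g' ∈ e)).card ≤ B.card :=
    card_le_card (union_subset (filter_subset _ _) (filter_subset _ _))
  have h2 : (B.filter (fun e => g ∈ e) ∩ B.filter (fun e => g' ∈ e)).card ≤ 1 := by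
    refine (card_le_card (t := {s(g, g')}) fun e he => ?_).trans (by simp)
    rw [mem_inter, mem_filter, mem_filter] at he
    exact mem_singleton.2 ((Sym2.mem_and_mem_iff h).1 ⟨he.1.2, he.2.2⟩)
  omega

/-- `y` is still usable by the opponent as a common neighbour of `g` and `g'`. -/
def Al (A : Pos) (g g' y : ℕ) : Prop := y ≠ g ∧ y ≠ g' ∧ s(y, g) ∉ A ∧ s(y, g') ∉ A

lemma Al.symm {A : Pos} {g g' y : ℕ} (h : Al A g g' y) : Al A g' g y :=
  ⟨h.2.1, h.1, h.2.2.2, h.2.2.1⟩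

lemma Al.mono {A A' : Pos} {g g' y : ℕ} (h : Al A' g g' y) (hA : A ⊆ A') : Al A g g' y :=
  ⟨h.1, h.2.1, fun h' => h.2.2.1 (hA h'), fun h' => h.2.2.2 (hA h')⟩

open Classical in
/-- The usable neighbours of `g` in `B` for the pair `g`, `g'`. -/
noncomputable def al (A B : Pos) (g g' : ℕ) : Finset ℕ := (nb B g).filter (Al A g g')

lemma mem_al {A B : Pos} {g g' y : ℕ} : y ∈ al A B g g' ↔ s(y, g) ∈ B ∧ Al A g g' y := by
  simp [al]

lemma al_sub (A B : Pos) (g g' : ℕ) : al A B g g' ⊆ nb B g := fun _ h => mem_nb.2 (mem_al.1 h).1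

lemma al_mono {A A' : Pos} (hA : A ⊆ A') (B : Pos) (g g' : ℕ) : al A' B g g' ⊆ al A B g g' :=
  fun _ h => mem_al.2 ⟨(mem_al.1 h).1, (mem_al.1 h).2.mono hA⟩

noncomputable def psi (A B : Pos) (g g' : ℕ) : ℕ := (al A B g g').card + (al A B g' g).card

lemma psi_symm (A B : Pos) (g g' : ℕ) : psi A B g g' = psi A B g' g := add_comm _ _

lemma psi_mono {A A' : Pos} (hA : A ⊆ A') (B : Pos) (g g' : ℕ) : psi A' B g g' ≤ psi A B g g' :=
  add_le_add (card_le_card (al_mono hA _ _ _)) (card_le_card (al_mono hA _ _ _))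

lemma psi_le (A B : Pos) (g g' : ℕ) : psi A B g g' ≤ (nb B g).card + (nb B g').card :=
  add_le_add (card_le_card (al_sub _ _ _ _)) (card_le_card (al_sub _ _ _ _))

/-- One new edge: either nothing changes, or exactly one side gains at most one vertex. -/
lemma al_insert (A B : Pos) (e : Sym2 ℕ) {g g' : ℕ} (hg : g ≠ g') :
    (al A (insert e B) g g' ⊆ al A B g g' ∧ al A (insert e B) g' g ⊆ al A B g' g) ∨
    (∃ y, Al A g g' y ∧ e = s(y, g) ∧ al A (insert e B) g g' ⊆ insert y (al A B g g') ∧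
      al A (insert e B) g' g ⊆ al A B g' g) ∨
    (∃ y, Al A g g' y ∧ e = s(y, g') ∧ al A (insert e B) g g' ⊆ al A B g g' ∧
      al A (insert e B) g' g ⊆ insert y (al A B g' g)) := by
  have key : ∀ x x' : ℕ, (¬ ∃ y, Al A x x' y ∧ e = s(y, x)) →
      al A (insert e B) x x' ⊆ al A B x x' := by
    intro x x' h y hy
    rw [mem_al, mem_insert] at hy
    rcases hy.1 with h1 | h1
    · exact absurd ⟨y, hy.2, h1.symm⟩ h
    · exact mem_al.2 ⟨h1, hy.2⟩
  have key2 : ∀ x x' y : ℕ, e = s(y, x) → al A (insert e B) x x' ⊆ insert y (al A B x x') := by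
    intro x x' y h z hz
    rw [mem_al, mem_insert] at hz
    rcases hz.1 with h1 | h1
    · rw [h] at h1
      exact mem_insert.2 (Or.inl (sp_inj x h1))
    · exact mem_insert_of_mem (mem_al.2 ⟨h1, hz.2⟩)
  by_cases h1 : ∃ y, Al A g g' y ∧ e = s(y, g)
  · obtain ⟨y, hy, he⟩ := h1
    refine Or.inr (Or.inl ⟨y, hy, he, key2 _ _ _ he, key _ _ ?_⟩)
    rintro ⟨z, hz, hz'⟩
    rw [he, Sym2.eq_iff] at hz'
    rcases hz' with h | h
    · exact hg h.2
    · exact hy.2.1 h.1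
  by_cases h2 : ∃ y, Al A g' g y ∧ e = s(y, g')
  · obtain ⟨y, hy, he⟩ := h2
    exact Or.inr (Or.inr ⟨y, hy.symm, he, key _ _ h1, key2 _ _ _ he⟩)
  · exact Or.inl ⟨key _ _ h1, key _ _ h2⟩

lemma psi_insert (A B : Pos) (e : Sym2 ℕ) {g g' : ℕ} (hg : g ≠ g') :
    psi A (insert e B) g g' ≤ psi A B g g' ∨
    (psi A (insert e B) g g' ≤ psi A B g g' + 1 ∧
      ∃ y, Al A g g' y ∧ (e = s(y, g) ∨ e = s(y, g'))) := by
  unfold psi
  rcases al_insert A B e hg with ⟨h1, h2⟩ | ⟨y, hy, he, h1, h2⟩ | ⟨y, hy, he, h1, h2⟩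
  · exact Or.inl (add_le_add (card_le_card h1) (card_le_card h2))
  · refine Or.inr ⟨?_, y, hy, Or.inl he⟩
    have := (card_le_card h1).trans (card_insert_le _ _)
    have := card_le_card h2
    omega
  · refine Or.inr ⟨?_, y, hy, Or.inr he⟩
    have := (card_le_card h2).trans (card_insert_le _ _)
    have := card_le_card h1
    omega

lemma psi_insert_le (A B : Pos) (e : Sym2 ℕ) {g g' : ℕ} (hg : g ≠ g') :
    psi A (insert e B) g g' ≤ psi A B g g' + 1 := by
  rcases psi_insert A B e hg with h | h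
  · omega
  · exact h.1

lemma close_aux {A B : Pos} {g g' y : ℕ} (h1 : y ∈ al A B g g') (h2 : y ∉ al A B g' g) :
    ∃ f : Sym2 ℕ, ¬ f.IsDiag ∧ f ∉ B ∧ psi (insert f A) B g g' + 1 ≤ psi A B g g' := by
  have h3 := mem_al.1 h1
  refine ⟨s(y, g'), by simpa using h3.2.2.1, fun h => h2 (mem_al.2 ⟨h, h3.2.symm⟩), ?_⟩
  unfold psi
  have h4 : al (insert s(y, g') A) B g g' ⊆ (al A B g g').erase y := by
    intro z hz
    refine mem_erase.2 ⟨?_, al_mono (subset_insert _ _) _ _ _ hz⟩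
    rintro rfl
    exact (mem_al.1 hz).2.2.2.2 (mem_insert_self _ _)
  have h5 := card_le_card h4
  have h6 := card_erase_add_one h1
  have h7 := card_le_card (al_mono (subset_insert s(y, g') A) B g' g)
  omega

/-- If the count is odd there is an open leaf, which can be closed. -/
lemma close_leaf {A B : Pos} {g g' N : ℕ} (h : psi A B g g' + 1 = 2 * N) :
    ∃ f : Sym2 ℕ, ¬ f.IsDiag ∧ f ∉ B ∧ psi (insert f A) B g g' + 2 ≤ 2 * N := by
  have hne : al A B g g' ≠ al A B g' g := by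
    intro h'
    unfold psi at h
    rw [h'] at h
    omega
  by_cases h1 : al A B g g' ⊆ al A B g' g
  · have h2 : ¬ al A B g' g ⊆ al A B g g' := fun h2 => hne (Subset.antisymm h1 h2)
    obtain ⟨y, hy, hy'⟩ := not_subset.1 h2
    obtain ⟨f, f1, f2, f3⟩ := close_aux hy hy'
    rw [psi_symm _ B g' g, psi_symm _ B g' g] at f3
    exact ⟨f, f1, f2, by omega⟩
  · obtain ⟨y, hy, hy'⟩ := not_subset.1 h1
    obtain ⟨f, f1, f2, f3⟩ := close_aux hy hy'
    exact ⟨f, f1, f2, by omega⟩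

end Pool.Agent.Lib.MP_bf69bb_co.Wh
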