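import Mathlib

set_option autoImplicit false

namespace Pool.Agent.Lib.MP_bf69bb_co.Wh

/-- The join of two graphs: their disjoint union together with all edges between them. -/
def join {V W : Type} (G : SimpleGraph V) (H : SimpleGraph W) : SimpleGraph (V ⊕ W) :=
  (Gᶜ.sum Hᶜ)ᶜ

/-- Step `i` of the play `e` claims an edge of the complete graph on `ℕ` not claimed before. -/
def Legal (e : ℕ → Sym2 ℕ) (i : ℕ) : Prop := ¬ (e i).IsDiag ∧ ∀ j < i, e j ≠ e i

/-- The edges claimed in the first `m` steps by player `p` (who makes the steps `i` with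
`i % 2 = p`; the first player is `0`, the second player is `1`) contain a copy of `G`. -/
def Owns {V : Type} (G : SimpleGraph V) (p : ℕ) (e : ℕ → Sym2 ℕ) (m : ℕ) : Prop :=
  G.IsContained (SimpleGraph.fromEdgeSet {x | ∃ i < m, i % 2 = p ∧ e i = x})

/-- Player `p` has a strategy that, against all legal moves of the other player, completes a copy
of `G` first, after finitely many steps. -/
def Wins {V : Type} (G : SimpleGraph V) (p : ℕ) : Prop :=
  ∃ σ : List (Sym2 ℕ) → Sym2 ℕ, ∀ e : ℕ → Sym2 ℕ,
    (∀ i, i % 2 = p → e i = σ ((List.range i).map e)) → (∀ i, i % 2 ≠ p → Legal e i) →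
      ∃ m : ℕ, (∀ i < m, Legal e i) ∧ Owns G p e m ∧ ¬ Owns G (1 - p) e m

end Pool.Agent.Lib.MP_bf69bb_co.Wh
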