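import Pool.Agent.Lib.MP_bf69bb_co.WRim

set_option autoImplicit false

namespace Pool.Agent.Lib.MP_bf69bb_co.Wh

open Finset SimpleGraph Sum

section
variable {V W : Type} {G : SimpleGraph V} {R : SimpleGraph W}

@[simp] lemma join_ll {a b : V} : (join G R).Adj (inl a) (inl b) ↔ G.Adj a b := by
  simp only [join, compl_adj, sum_adj_inl, ne_eq, inl.injEq]
  exact ⟨fun h => by tauto, fun h => ⟨h.ne, fun h' => h'.2 h⟩⟩

@[simp] lemma join_rr {a b : W} : (join G R).Adj (inr a) (inr b) ↔ R.Adj a b := by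
  simp only [join, compl_adj, sum_adj_inr, ne_eq, inr.injEq]
  exact ⟨fun h => by tauto, fun h => ⟨h.ne, fun h' => h'.2 h⟩⟩

@[simp] lemma join_lr {a : V} {b : W} : (join G R).Adj (inl a) (inr b) := by
  simp [join]

@[simp] lemma join_rl {a : V} {b : W} : (join G R).Adj (inr b) (inl a) := join_lr.symm

end

/-- The target graph. -/
abbrev TG {r : ℕ} (F : SimpleGraph (Fin r)) (n : ℕ) : SimpleGraph (Fin 2 ⊕ (Fin r ⊕ Fin n)) :=
  join (⊤ : SimpleGraph (Fin 2)) (F.sum (cycleGraph n))

variable {r : ℕ} (F : SimpleGraph (Fin r))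

lemma hub_adj {n : ℕ} (a : Fin 2) (v : Fin 2 ⊕ (Fin r ⊕ Fin n)) (h : v ≠ inl a) :
    (TG F n).Adj v (inl a) := by
  rcases v with v | v
  · simpa using h
  · simp

open Classical in
lemma deg_l {n : ℕ} (x : Fin r) : 2 ≤ (TG F n).degree (inr (inl x)) ∧
    (TG F n).degree (inr (inl x)) ≤ r + 2 := by
  rw [← card_neighborFinset_eq_degree]
  constructor
  · refine le_trans ?_ (card_le_card (s := univ.image inl) fun v hv => ?_)
    · rw [card_image_of_injective _ inl_injective]; simp
    · obtain ⟨a, -, rfl⟩ := mem_image.1 hv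
      simp
  · refine le_trans (card_le_card (t := univ.image (fun y : Fin r => inr (inl y)) ∪ univ.image inl)
      fun v hv => ?_) ((card_union_le _ _).trans (add_le_add (card_image_le.trans (by simp))
        (card_image_le.trans (by simp))))
    rcases v with v | v | v
    · simp
    · simp
    · simp at hv

open Classical in
lemma deg_r {m : ℕ} (x : Fin (m + 3)) : (TG F (m + 3)).degree (inr (inr x)) = 4 := by
  rw [← card_neighborFinset_eq_degree]
  have h1 : (TG F (m + 3)).neighborFinset (inr (inr x)) =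
      univ.disjSum ((∅ : Finset (Fin r)).disjSum ((cycleGraph (m + 3)).neighborFinset x)) := by
    ext v
    rcases v with v | v | v <;> simp
  rw [h1, card_disjSum, card_disjSum, card_neighborFinset_eq_degree, cycleGraph_degree_three_le]
  simp

open Classical in
lemma deg_hub {n : ℕ} (a : Fin 2) : (TG F n).degree (inl a) = r + n + 1 := by
  rw [← card_neighborFinset_eq_degree]
  have h1 : (TG F n).neighborFinset (inl a) = univ.erase (inl a) := by
    ext v
    simp only [mem_neighborFinset, mem_erase, mem_univ, and_true]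
    exact ⟨fun h => h.ne.symm, fun h => (hub_adj F a v h).symm⟩
  rw [h1, card_erase_of_mem (mem_univ _)]
  simp
  omega

open Classical in
lemma tgt (m : ℕ) : Tgt (TG F (m + 3)) (inl 0) (inl 1) (r + m + 3) (r + 4) r
    (2 * (r + m + 3) + (m + 3) + 1) := by
  refine ⟨by simp, hub_adj F 0, hub_adj F 1, by simp; omega, ?_, ?_, ?_⟩
  · rintro (v | v | v) h1 h2
    · exfalso
      fin_cases v
      · exact h1 rfl
      · exact h2 rfl
    · have := (deg_l F (n := m + 3) v).2
      omega
    · have := deg_r F v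
      omega
  · refine le_trans (card_le_card (t := univ.image (fun y : Fin r => inr (inl y))) fun v hv => ?_)
      (card_image_le.trans (by simp))
    obtain ⟨-, h1, h2, h3⟩ := mem_filter.1 hv
    rcases v with v | v | v
    · exfalso
      fin_cases v
      · exact h1 rfl
      · exact h2 rfl
    · simp
    · exfalso
      have h4 : (cycleGraph (m + 3)).Adj (v + 1) v := cycleGraph_adj.2 (Or.inl (by simp))
      simpa using h3 (inr (inr (v + 1))) (by simpa using h4)
  · have h1 := sum_degrees_eq_twice_card_edges (TG F (m + 3))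
    rw [Fintype.sum_sum_type, Fintype.sum_sum_type] at h1
    simp only [deg_r, deg_hub, sum_const, card_univ, Fintype.card_fin, smul_eq_mul] at h1
    have h2 : r * 2 ≤ ∑ x : Fin r, (TG F (m + 3)).degree (inr (inl x)) := by
      have := card_nsmul_le_sum (univ : Finset (Fin r))
        (fun x => (TG F (m + 3)).degree (inr (inl x))) 2 fun x _ => (deg_l F x).1
      simpa using this
    omega

lemma cyc_val {m : ℕ} {u v : Fin (m + 2)} (h : u - v = 1) :
    u.val = v.val + 1 ∨ (u.val = 0 ∧ v.val = m + 1) := by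
  have h1 : u = v + 1 := by rw [← h]; simp
  rw [h1, Fin.val_add_one]
  split_ifs with h2
  · exact Or.inr ⟨rfl, by rw [h2]; rfl⟩
  · exact Or.inl rfl

lemma done_win {m b b2 : ℕ} {S : Finset ℕ} {A : Pos} (h1 : b ≠ b2) (h2 : s(b, b2) ∈ A)
    (h3 : Com A b b2 S) (h4 : Dn r m S A) : Win (TG F (m + 2)) A := by
  obtain ⟨Q, p, q1, q2, q3, q4, q5, q6, q7⟩ := h4
  let χ : Fin r ↪o ℕ := Q.orderEmbOfFin q1
  have hχ : ∀ x, χ x ∈ Q := fun x => Q.orderEmbOfFin_mem q1 x
  let ψ : Fin r ⊕ Fin (m + 2) → ℕ := Sum.elim χ (fun i => p i)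
  have hS : ∀ w, ψ w ∈ S := by
    rintro (w | w)
    · exact q2 (hχ w)
    · exact (q4 w (by omega)).1
  have hψ : Function.Injective ψ := by
    rintro (x | x) (y | y) h
    · exact congrArg _ (χ.injective h)
    · exact absurd (show p y ∈ Q from (show χ x = p y from h) ▸ hχ x) (q4 y (by omega)).2
    · exact absurd (show p x ∈ Q from (show p x = χ y from h).symm ▸ hχ y) (q4 x (by omega)).2
    · exact congrArg _ (Fin.ext (q5 x (by omega) y (by omega) h))
  have hub : ∀ (a : Fin 2) w, ψ w ≠ ![b, b2] a ∧ s(ψ w, ![b, b2] a) ∈ A := by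
    intro a w
    have := h3 _ (hS w)
    fin_cases a
    · exact ⟨this.1, this.2.2.1⟩
    · exact ⟨this.2.1, this.2.2.2⟩
  have cy : ∀ u v : Fin (m + 2), u - v = 1 → s(p u, p v) ∈ A := by
    intro u v h
    rcases cyc_val h with h | h
    · rw [h, Sym2.eq_swap]
      exact q6 v (by omega)
    · rw [h.1, h.2]
      exact q7
  refine ⟨⟨Sum.elim ![b, b2] ψ, ?_⟩, ?_⟩
  · rintro (x | x) (y | y) h
    · fin_cases x <;> fin_cases y
      · rfl
      · exact absurd h h1
      · exact absurd h h1.symm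
      · rfl
    · exact absurd h.symm (hub x y).1
    · exact absurd h (hub y x).1
    · exact congrArg _ (hψ h)
  · rintro (x | x) (y | y) h
    · rw [join_ll, top_adj] at h
      fin_cases x <;> fin_cases y
      · exact absurd rfl h
      · exact h2
      · exact Sym2.eq_swap ▸ h2
      · exact absurd rfl h
    · exact Sym2.eq_swap ▸ (hub x y).2
    · exact (hub y x).2
    · rw [join_rr] at h
      rcases x with x | x <;> rcases y with y | y
      · exact q3 _ (hχ x) _ (hχ y) fun h' => h.ne (congrArg _ (χ.injective h'))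
      · simp at h
      · simp at h
      · rcases cycleGraph_adj.1 (sum_adj_inr.1 h) with h | h
        · exact cy x y h
        · exact Sym2.eq_swap ▸ cy y x h

theorem draw : ∃ n0 : ℕ, ∀ n, n0 ≤ n → ∀ p < 2, ¬ Wins (TG F n) p := by
  classical
  obtain ⟨P, hP⟩ : ∃ P, P = 5 ^ (r + 1) := ⟨_, rfl⟩
  have hr : r + 1 ≤ P := hP ▸ (Nat.lt_pow_self (by omega)).le
  obtain ⟨K, hK⟩ : ∃ K, K = 10000 * P := ⟨_, rfl⟩
  refine ⟨10 * K * K + 3, fun n hn p hp => ?_⟩
  obtain ⟨m, rfl⟩ : ∃ m, n = m + 3 := ⟨n - 3, by omega⟩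
  obtain ⟨t, ht⟩ : ∃ t, t = (r + m + 3) / K := ⟨_, rfl⟩
  have hK0 : 0 < K := by omega
  have t1 : K * t ≤ r + m + 3 := ht ▸ Nat.mul_div_le _ _
  have t2 : r + m + 3 < K * (t + 1) := ht ▸ Nat.lt_mul_div_succ _ hK0
  have t3 : 10 * K ≤ t := ht ▸ (Nat.le_div_iff_mul_le hK0).2 (by omega)
  obtain ⟨k, hk⟩ : ∃ k, k = 10 * K + 6 := ⟨_, rfl⟩
  obtain ⟨g, hg⟩ : ∃ g, g = 10 * K + t + 4 := ⟨_, rfl⟩
  obtain ⟨X, hX⟩ : ∃ X, X = 2 * P * (k + g) := ⟨_, rfl⟩
  have x1 : sz k g (r + 1) ≤ X ∧ tot k g (r + 1) ≤ X := by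
    have := sz_le k g (r + 1)
    rw [← hP, mul_assoc] at this
    rw [hX, mul_assoc]
    omega
  have x2 : sz k g (r + 1) = 4 * sz k g r + g := rfl
  have x3 : tot k g (r + 1) = tot k g r + sz k g (r + 1) := rfl
  have x4 : k + g ≤ X := hX ▸ Nat.le_mul_of_pos_left _ (by omega)
  have x5 : 600 * X ≤ r + m + 3 := by
    have : 2 * P * (k + g) ≤ 2 * P * (8 * t) := Nat.mul_le_mul_left _ (by omega)
    have e1 : 2 * P * (8 * t) = 16 * (P * t) := by ring
    have e2 : K * t = 10000 * (P * t) := by rw [hK]; ring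
    omega
  have hH : 2 * (5 * (r + m + 3)) ≤ (t + 1) * (10 * K + 1) := by
    have e1 : (t + 1) * (10 * K + 1) = 10 * (K * (t + 1)) + (t + 1) := by ring
    omega
  let q : Par :=
    { N := r + m + 3, D := 4 * X, D0 := 10 * K, Hc := t + 1, Δ := r + 4, r := r,
      e0 := 2 * (r + m + 3) + (m + 3) + 1, L := 2 * (r + m + 3) - 60 * X, w := 7 * X,
      r0 := m + 1 + tot k g r, M := 5 * (r + m + 3), W := 17 * X, γ := 40 * X, τ := 270 * X,
      ν := 30 * X, Done := Dn r (m + 1) }
  refine Ok.draw (q := q) (a1 := inl 0) (a2 := inl 1) ⟨tgt F m, fun S A U h1 h2 => ?_,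
    fun b b2 S A h1 h2 h3 h4 => done_win F h1 h2 h3 h4, ?_, ?_, hH, ?_, ?_, ?_, ?_, ?_, ?_, ?_, ?_,
    ?_, ?_, ?_, ?_⟩ p hp
  · have := cliq (D := 4 * X) (w := 7 * X) (k := k) (r := r) (m := m + 1) (g := g) hH (by omega)
      (by omega) (by omega) (by omega) r 0 S A U ∅ S (by simp) (empty_subset _)
      (fun x hx => by simp at hx) Subset.rfl (by simp) (by simp) (by simp only [q] at h1; omega)
      h2 (by simp) (by omega)
    rwa [show m + 1 + 1 + tot k g r = m + 1 + tot k g r + 1 by omega] at this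
  all_goals
    simp only [q]
    omega

end Pool.Agent.Lib.MP_bf69bb_co.Wh
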