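import Pool.Agent.Lib.MP_bf69bb_co.WBas

set_option autoImplicit false

namespace Pool.Agent.Lib.MP_bf69bb_co.Wh

open Finset

/-- The ledger of the guard. `A` are the edges of the drawing player, `B` those of the opponent,
`U` the paid edges of the opponent, `Hv` the guarded vertices, `C` the counted edges, `ex` the
vertices excluded from guarding, `Yn` the new vertices, `d` the hub at which denials happen. -/
structure Gd (N D b b2 : ℕ) (A B U C : Pos) (Hv ex Yn : Finset ℕ) (d d' : ℕ) : Prop where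
  sub : U ⊆ B
  cls : ∀ e ∈ B, e ∈ U ∨ (∃ g ∈ Hv, g ∈ e) ∨ ∃ y ∈ Yn, e = s(y, d)
  hv2 : Hv.card ≤ 2
  heavy : ∀ g ∈ Hv, D < (nb U g).card
  c0 : C ⊆ U
  c0m : ∀ e ∈ C, ∃ g ∈ Hv, g ∈ e
  c0c : Hv.Nonempty → 2 * N ≤ C.card + D + 5
  guard : ∀ g ∈ Hv, ∀ g' ∈ Hv, g ≠ g' → psi A B g g' + 2 ≤ 2 * N
  und : Hv = ∅ → ∀ g g', g ≠ g' → g ∉ ex → g' ∉ ex → s(g, g') ∉ A → psi A B g g' + 2 ≤ 2 * N
  exd : ∀ g ∈ Hv, g ∉ ex
  hb : s(b, b2) ∈ A
  nb2 : ¬ (b ∈ Hv ∧ b2 ∈ Hv)
  yn : ∀ y ∈ Yn, d ∈ ex ∧ y ≠ d ∧ s(y, d') ∈ A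
  dead : d' ∈ Hv → ∀ y ∈ Yn, y ∉ Hv → ∀ g ∈ Hv, s(y, g) ∈ B → s(y, g) ∈ U ∧ s(y, g) ∉ C

variable {N D b b2 : ℕ} {A B U C : Pos} {Hv ex Yn : Finset ℕ} {d d' : ℕ}

lemma Gd.mono (h : Gd N D b b2 A B U C Hv ex Yn d d') {A' : Pos} (hA : A ⊆ A') :
    Gd N D b b2 A' B U C Hv ex Yn d d' :=
  { h with
    guard := fun g hg g' hg' hne => le_trans (by have := psi_mono hA B g g'; omega)
      (h.guard g hg g' hg' hne)
    und := fun h0 g g' h1 h2 h3 h4 => le_trans (by have := psi_mono hA B g g'; omega)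
      (h.und h0 g g' h1 h2 h3 fun h5 => h4 (hA h5))
    hb := hA h.hb
    yn := fun y hy => ⟨(h.yn y hy).1, (h.yn y hy).2.1, hA (h.yn y hy).2.2⟩ }

/-- A fresh vertex joined to `d'` may be added to the new vertices. -/
lemma Gd.fresh (h : Gd N D b b2 A B U C Hv ex Yn d d') {y : ℕ} (hd : d ∈ ex) (hy : y ≠ d)
    (hA : s(y, d') ∈ A) (hB : ∀ e ∈ B, y ∉ e) :
    Gd N D b b2 A B U C Hv ex (insert y Yn) d d' :=
  { h with
    cls := fun e he => by
      rcases h.cls e he with h1 | h1 | ⟨z, hz, h1⟩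
      · exact Or.inl h1
      · exact Or.inr (Or.inl h1)
      · exact Or.inr (Or.inr ⟨z, mem_insert_of_mem hz, h1⟩)
    yn := fun z hz => by
      rcases mem_insert.1 hz with rfl | hz
      · exact ⟨hd, hy, hA⟩
      · exact h.yn z hz
    dead := fun h1 z hz h2 g hg h3 => by
      rcases mem_insert.1 hz with rfl | hz
      · exact absurd (by simp) (hB _ h3)
      · exact h.dead h1 z hz h2 g hg h3 }

/-- The usable neighbours are paid, with at most two exceptions. -/
lemma Gd.al_paid (h : Gd N D b b2 A B U C ∅ ex Yn d d') (e : Sym2 ℕ) {g : ℕ} (g' : ℕ)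
    (hg : g ∉ ex) : (al A (insert e B) g g').card ≤ (al A U g g').card + 2 := by
  classical
  have h1 : al A (insert e B) g g' ⊆ al A U g g' ∪ (insert d (nb {e} g)) := by
    intro y hy
    rw [mem_al, mem_insert] at hy
    rcases hy.1 with h1 | h1
    · exact mem_union_right _ (mem_insert_of_mem (by simpa using h1))
    · rcases h.cls _ h1 with h2 | ⟨x, hx, -⟩ | ⟨z, hz, h2⟩
      · exact mem_union_left _ (mem_al.2 ⟨h2, hy.2⟩)
      · simp at hx
      · rw [Sym2.eq_iff] at h2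
        rcases h2 with h2 | h2
        · exact absurd (h2.2 ▸ (h.yn z hz).1) hg
        · exact mem_union_right _ (mem_insert.2 (Or.inl h2.1))
  have h2 := (card_le_card h1).trans (card_union_le _ _)
  have h3 := card_insert_le d (nb {e} g)
  have h4 := nb_le {e} g
  rw [card_singleton] at h4
  omega

/-- Designation of a single very heavy vertex. -/
lemma Gd.single (h : Gd N D b b2 A B U C ∅ ex Yn d d') (hD : 2 * D + 6 ≤ 2 * N) (hbb : b ≠ b2)
    {e : Sym2 ℕ} (hd : Disjoint A B) (heA : e ∉ A) {g g' : ℕ} (hg : g ∉ ex) (hg' : g' ∉ ex)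
    (hhot : 2 * N ≤ psi A (insert e B) g g' + 1) (hl : (nb U g').card ≤ D) {U' : Pos}
    (h1 : U ⊆ U') (h2 : U' ⊆ insert e U) (h3 : e ∈ U' ∨ ∃ y ∈ Yn, e = s(y, d)) :
    Gd N D b b2 A (insert e B) U' ((al A U g g').image (fun y => s(y, g))) {g} ex Yn d d' := by
  have a1 := h.al_paid e g' hg
  have a2 := h.al_paid e g hg'
  have a3 := card_le_card (al_sub A U g' g)
  have a4 := card_le_card (al_sub A U g g')
  have a5 := card_le_card (nb_mono h1 g)
  unfold psi at hhot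
  refine ⟨h2.trans (insert_subset_insert _ h.sub), ?_, by simp, ?_, ?_, ?_, ?_, ?_, by simp, ?_,
    h.hb, ?_, h.yn, ?_⟩
  · intro f hf
    rcases mem_insert.1 hf with rfl | hf
    · rcases h3 with h3 | h3
      · exact Or.inl h3
      · exact Or.inr (Or.inr h3)
    · rcases h.cls f hf with h4 | ⟨x, hx, -⟩ | h4
      · exact Or.inl (h1 h4)
      · simp at hx
      · exact Or.inr (Or.inr h4)
  · intro x hx
    rw [mem_singleton.1 hx]
    omega
  · intro f hf
    obtain ⟨y, hy, rfl⟩ := mem_image.1 hf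
    exact h1 (mem_al.1 hy).1
  · intro f hf
    obtain ⟨y, hy, rfl⟩ := mem_image.1 hf
    exact ⟨g, by simp, by simp⟩
  · intro _
    rw [card_sp]
    omega
  · intro x hx x' hx' hne
    exact absurd ((mem_singleton.1 hx).trans (mem_singleton.1 hx').symm) hne
  · intro x hx
    rwa [mem_singleton.1 hx]
  · rintro ⟨h4, h5⟩
    exact hbb ((mem_singleton.1 h4).trans (mem_singleton.1 h5).symm)
  · intro h4 y hy _ x hx h5
    exfalso
    have h6 := (h.yn y hy).2.2
    rw [mem_singleton.1 h4, ← mem_singleton.1 hx] at h6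
    rcases mem_insert.1 h5 with h7 | h7
    · exact heA (h7 ▸ h6)
    · exact disjoint_left.1 hd h6 h7

lemma pair_of {Hv : Finset ℕ} (h2 : Hv.card ≤ 2) {g g' : ℕ} (hg : g ∈ Hv) (hg' : g' ∈ Hv)
    (hne : g ≠ g') : Hv = {g, g'} := by
  symm
  refine eq_of_subset_of_card_le (insert_subset hg (singleton_subset_iff.2 hg')) ?_
  rwa [card_pair hne]

/-- The reply to a trigger keeps the ledger. -/
lemma trig_aux {e : Sym2 ℕ} {g g' : ℕ} (hne : g ≠ g') (sub : U ⊆ B)
    (cls : ∀ e ∈ B, e ∈ U ∨ (∃ x ∈ ({g, g'} : Finset ℕ), x ∈ e) ∨ ∃ y ∈ Yn, e = s(y, d))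
    (heavy : ∀ x ∈ ({g, g'} : Finset ℕ), D < (nb U x).card) (c0 : C ⊆ U)
    (c0m : ∀ e ∈ C, ∃ x ∈ ({g, g'} : Finset ℕ), x ∈ e) (c0c : 2 * N ≤ C.card + D + 5)
    (hps : psi A B g g' + 2 ≤ 2 * N) (hhot : 2 * N ≤ psi A (insert e B) g g' + 1)
    (exd : ∀ x ∈ ({g, g'} : Finset ℕ), x ∉ ex) (hb : s(b, b2) ∈ A)
    (nb2 : ¬ (b ∈ ({g, g'} : Finset ℕ) ∧ b2 ∈ ({g, g'} : Finset ℕ)))
    (yn : ∀ y ∈ Yn, d ∈ ex ∧ y ≠ d ∧ s(y, d') ∈ A)
    (dead : d' ∈ ({g, g'} : Finset ℕ) → ∀ y ∈ Yn, y ∉ ({g, g'} : Finset ℕ) →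
      ∀ x ∈ ({g, g'} : Finset ℕ), s(y, x) ∈ B → s(y, x) ∈ U ∧ s(y, x) ∉ C) :
    ∃ f : Sym2 ℕ, ¬ f.IsDiag ∧ f ∉ insert e B ∧ (∃ x ∈ ({g, g'} : Finset ℕ), x ∈ e) ∧
      Gd N D b b2 (insert f A) (insert e B) U C {g, g'} ex Yn d d' := by
  rcases psi_insert A B e hne with h1 | ⟨h1, z, hz, hze⟩
  · omega
  obtain ⟨f, f1, f2, f3⟩ := close_leaf (A := A) (B := insert e B) (g := g) (g' := g') (N := N)
    (by omega)
  have hm : ∃ x ∈ ({g, g'} : Finset ℕ), x ∈ e := by
    rcases hze with rfl | rfl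
    · exact ⟨g, by simp, by simp⟩
    · exact ⟨g', by simp, by simp⟩
  refine ⟨f, f1, f2, hm, sub.trans (subset_insert _ _), ?_, card_le_two, heavy, c0, c0m,
    fun _ => c0c, ?_, by simp, exd, mem_insert_of_mem hb, nb2,
    fun y hy => ⟨(yn y hy).1, (yn y hy).2.1, mem_insert_of_mem (yn y hy).2.2⟩, ?_⟩
  · intro f' hf'
    rcases mem_insert.1 hf' with rfl | hf'
    · exact Or.inr (Or.inl hm)
    · exact cls f' hf'
  · intro x hx x' hx' hxx
    simp only [mem_insert, mem_singleton] at hx hx'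
    rcases hx with rfl | rfl <;> rcases hx' with rfl | rfl
    · exact absurd rfl hxx
    · exact f3
    · rw [psi_symm]; exact f3
    · exact absurd rfl hxx
  · intro h2 y hy h3 x hx h4
    rcases mem_insert.1 h4 with h5 | h5
    · exfalso
      have h6 := (yn y hy).2.2
      have h7 : y = z := by
        simp only [mem_insert, mem_singleton, not_or] at h3
        rcases hze with h8 | h8 <;> rw [h8, Sym2.eq_iff] at h5 <;> tauto
      subst h7
      simp only [mem_insert, mem_singleton] at h2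
      rcases h2 with rfl | rfl
      · exact hz.2.2.1 h6
      · exact hz.2.2.2 h6
    · exact dead h2 y hy h3 x hx h5

/-- One move of the opponent: either a trigger, answered by the guard, or not. -/
lemma Gd.step (h : Gd N D b b2 A B U C Hv ex Yn d d') (hD : 2 * D + 6 ≤ 2 * N) (hbb : b ≠ b2)
    {e : Sym2 ℕ} (hd : Disjoint A B) (heA : e ∉ A) (heB : e ∉ B) :
    ∃ Hv' C', (Hv.Nonempty → Hv' = Hv) ∧
      ((∃ f : Sym2 ℕ, ¬ f.IsDiag ∧ f ∉ insert e B ∧ (∃ g ∈ Hv', g ∈ e) ∧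
          Gd N D b b2 (insert f A) (insert e B) U C' Hv' ex Yn d d') ∨
        ∀ U', U ⊆ U' → U' ⊆ insert e U → (e ∈ U' ∨ ∃ y ∈ Yn, e = s(y, d)) →
          Gd N D b b2 A (insert e B) U' C' Hv' ex Yn d d') := by
  classical
  have keep : (∀ g ∈ Hv, ∀ g' ∈ Hv, g ≠ g' → psi A (insert e B) g g' + 2 ≤ 2 * N) →
      (Hv = ∅ → ∀ g g', g ≠ g' → g ∉ ex → g' ∉ ex → s(g, g') ∉ A →
        psi A (insert e B) g g' + 2 ≤ 2 * N) →
      ∀ U', U ⊆ U' → U' ⊆ insert e U → (e ∈ U' ∨ ∃ y ∈ Yn, e = s(y, d)) →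
          Gd N D b b2 A (insert e B) U' C Hv ex Yn d d' := by
    intro k1 k2 U' h1 h2 h3
    refine ⟨h2.trans (insert_subset_insert _ h.sub), ?_, h.hv2, ?_, h.c0.trans h1, h.c0m, h.c0c,
      k1, k2, h.exd, h.hb, h.nb2, h.yn, ?_⟩
    · intro f hf
      rcases mem_insert.1 hf with rfl | hf
      · rcases h3 with h3 | h3
        · exact Or.inl h3
        · exact Or.inr (Or.inr h3)
      · rcases h.cls f hf with h4 | h4
        · exact Or.inl (h1 h4)
        · exact Or.inr h4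
    · intro g hg
      exact (h.heavy g hg).trans_le (card_le_card (nb_mono h1 g))
    · intro h4 y hy h5 g hg h6
      rcases mem_insert.1 h6 with h7 | h7
      · rcases h3 with h3 | ⟨z, hz, h3⟩
        · exact ⟨h7 ▸ h3, fun h8 => heB (h7 ▸ h.sub (h.c0 h8))⟩
        · exfalso
          rw [h3, Sym2.eq_iff] at h7
          rcases h7 with h7 | h7
          · exact h.exd g hg (h7.2 ▸ (h.yn z hz).1)
          · exact (h.yn y hy).2.1 h7.1
      · exact ⟨h1 (h.dead h4 y hy h5 g hg h7).1, (h.dead h4 y hy h5 g hg h7).2⟩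
  rcases Hv.eq_empty_or_nonempty with h0 | h0
  · subst h0
    by_cases hk : ∀ g g', g ≠ g' → g ∉ ex → g' ∉ ex → s(g, g') ∉ A →
        psi A (insert e B) g g' + 2 ≤ 2 * N
    · exact ⟨∅, C, fun _ => rfl, Or.inr (keep (by simp) fun _ => hk)⟩
    push Not at hk
    obtain ⟨g, g', hne, hg, hg', hA, hhot⟩ := hk
    by_cases l1 : (nb U g').card ≤ D
    · exact ⟨_, _, by simp, Or.inr fun U' h1 h2 h3 =>
        h.single hD hbb hd heA hg hg' (by omega) l1 h1 h2 h3⟩
    by_cases l2 : (nb U g).card ≤ D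
    · rw [psi_symm] at hhot
      exact ⟨_, _, by simp, Or.inr fun U' h1 h2 h3 =>
        h.single hD hbb hd heA hg' hg (by omega) l2 h1 h2 h3⟩
    refine ⟨{g, g'}, (al A U g g').image (fun y => s(y, g)) ∪
      (al A U g' g).image (fun y => s(y, g')), by simp, Or.inl ?_⟩
    have hmem : ∀ f ∈ (al A U g g').image (fun y => s(y, g)) ∪
        (al A U g' g).image (fun y => s(y, g')), f ∈ U ∧
          ∃ y, Al A g g' y ∧ (f = s(y, g) ∨ f = s(y, g')) := by
      intro f hf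
      rcases mem_union.1 hf with hf | hf <;> obtain ⟨y, hy, rfl⟩ := mem_image.1 hf
      · exact ⟨(mem_al.1 hy).1, y, (mem_al.1 hy).2, Or.inl rfl⟩
      · exact ⟨(mem_al.1 hy).1, y, (mem_al.1 hy).2.symm, Or.inr rfl⟩
    refine trig_aux hne h.sub ?_ ?_ (fun f hf => (hmem f hf).1) ?_ ?_
      (h.und rfl g g' hne hg hg' hA) (by omega) ?_ h.hb ?_ h.yn ?_
    · intro f hf
      rcases h.cls f hf with h4 | ⟨x, hx, -⟩ | h4
      · exact Or.inl h4
      · simp at hx
      · exact Or.inr (Or.inr h4)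
    · intro x hx
      simp only [mem_insert, mem_singleton] at hx
      rcases hx with rfl | rfl <;> omega
    · intro f hf
      obtain ⟨-, y, -, rfl | rfl⟩ := hmem f hf
      · exact ⟨g, by simp, by simp⟩
      · exact ⟨g', by simp, by simp⟩
    · rw [card_union_of_disjoint, card_sp, card_sp]
      · have a1 := h.al_paid e g' hg
        have a2 := h.al_paid e g hg'
        unfold psi at hhot
        omega
      · rw [disjoint_left]
        intro f h1 h2
        obtain ⟨y, hy, rfl⟩ := mem_image.1 h1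
        obtain ⟨z, hz, h3⟩ := mem_image.1 h2
        rw [Sym2.eq_iff] at h3
        rcases h3 with h3 | h3
        · exact hne h3.2.symm
        · exact (mem_al.1 hz).2.2.1 h3.1
    · intro x hx
      simp only [mem_insert, mem_singleton] at hx
      rcases hx with rfl | rfl <;> assumption
    · rintro ⟨h1, h2⟩
      simp only [mem_insert, mem_singleton] at h1 h2
      have h3 := h.hb
      rcases h1 with rfl | rfl <;> rcases h2 with rfl | rfl
      · exact hbb rfl
      · exact hA h3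
      · exact hA (Sym2.eq_swap ▸ h3)
      · exact hbb rfl
    · intro h1 y hy h2 x hx h3
      refine ⟨?_, fun h4 => ?_⟩
      · rcases h.cls _ h3 with h4 | ⟨x, hx, -⟩ | ⟨z, hz, h4⟩
        · exact h4
        · simp at hx
        · exfalso
          rw [Sym2.eq_iff] at h4
          simp only [mem_insert, mem_singleton] at hx
          rcases h4 with h4 | h4
          · have h5 := (h.yn z hz).1
            rw [← h4.2] at h5
            rcases hx with rfl | rfl
            · exact hg h5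
            · exact hg' h5
          · exact (h.yn y hy).2.1 h4.1
      · obtain ⟨-, z, hz, h5⟩ := hmem _ h4
        have h6 := (h.yn y hy).2.2
        have h7 : y = z := by
          simp only [mem_insert, mem_singleton, not_or] at h2
          rcases h5 with h8 | h8 <;> rw [Sym2.eq_iff] at h8 <;> tauto
        subst h7
        simp only [mem_insert, mem_singleton] at h1
        rcases h1 with rfl | rfl
        · exact hz.2.2.1 h6
        · exact hz.2.2.2 h6
  · by_cases hk : ∀ g ∈ Hv, ∀ g' ∈ Hv, g ≠ g' → psi A (insert e B) g g' + 2 ≤ 2 * N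
    · exact ⟨Hv, C, fun _ => rfl, Or.inr (keep hk fun h1 => absurd h1 h0.ne_empty)⟩
    push Not at hk
    obtain ⟨g, hg, g', hg', hne, hhot⟩ := hk
    have hp := pair_of h.hv2 hg hg' hne
    subst hp
    exact ⟨_, C, fun _ => rfl, Or.inl (trig_aux hne h.sub h.cls h.heavy h.c0 h.c0m (h.c0c h0)
      (h.guard g hg g' hg' hne) (by omega) h.exd h.hb h.nb2 h.yn h.dead)⟩

/-- An edge avoiding the guarded vertices and `d` belongs to the opponent only if it is paid. -/
lemma Gd.free (h : Gd N D b b2 A B U C Hv ex Yn d d') {x y : ℕ} (hx : x ∉ Hv) (hy : y ∉ Hv)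
    (hd : Yn = ∅ ∨ (x ≠ d ∧ y ≠ d)) (hU : s(x, y) ∉ U) : s(x, y) ∉ B := by
  intro hB
  rcases h.cls _ hB with h1 | ⟨g, hg, h1⟩ | ⟨z, hz, h1⟩
  · exact hU h1
  · rcases Sym2.mem_iff.1 h1 with rfl | rfl
    · exact hx hg
    · exact hy hg
  · rcases hd with hd | hd
    · simp [hd] at hz
    · rw [Sym2.eq_iff] at h1
      tauto

end Pool.Agent.Lib.MP_bf69bb_co.Wh
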