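import Pool.Agent.Lib.MP_bf69bb_co.WMain

set_option autoImplicit false

namespace Pool.Agent.Lib.MP_bf69bb_co.Wh

open Finset

def Clq (A : Pos) (Q : Finset ℕ) : Prop := ∀ x ∈ Q, ∀ y ∈ Q, x ≠ y → s(x, y) ∈ A

lemma Clq.mono {A A' : Pos} {Q : Finset ℕ} (h : Clq A Q) (hA : A ⊆ A') : Clq A' Q :=
  fun x hx y hy hne => hA (h x hx y hy hne)

/-- A clique on `r` vertices and a disjoint cycle on `m + 2` vertices inside `S`. -/
def Dn (r m : ℕ) (S : Finset ℕ) (A : Pos) : Prop :=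
  ∃ (Q : Finset ℕ) (p : ℕ → ℕ), Q.card = r ∧ Q ⊆ S ∧ Clq A Q ∧ (∀ i ≤ m + 1, p i ∈ S ∧ p i ∉ Q) ∧
    (∀ i ≤ m + 1, ∀ j ≤ m + 1, p i = p j → i = j) ∧ (∀ i ≤ m, s(p i, p (i + 1)) ∈ A) ∧
    s(p 0, p (m + 1)) ∈ A

/-- A clique, a path with `l` edges and `k` extra neighbours of its first vertex. -/
structure Pa (r k l : ℕ) (S : Finset ℕ) (A : Pos) (Q Tl : Finset ℕ) (p : ℕ → ℕ) : Prop where
  qc : Q.card = r
  qs : Q ⊆ S
  ql : Clq A Q
  ts : Tl ⊆ S
  tc : Tl.card = k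
  tq : ∀ u ∈ Tl, u ∉ Q
  ta : ∀ u ∈ Tl, s(p 0, u) ∈ A
  ps : ∀ i ≤ l, p i ∈ S ∧ p i ∉ Q ∧ p i ∉ Tl
  pi : ∀ i ≤ l, ∀ j ≤ l, p i = p j → i = j
  pa : ∀ i < l, s(p i, p (i + 1)) ∈ A

lemma ext_inj {p : ℕ → ℕ} {l y : ℕ} (h : ∀ i ≤ l, ∀ j ≤ l, p i = p j → i = j)
    (hy : ∀ i ≤ l, p i ≠ y) : ∀ i ≤ l + 1, ∀ j ≤ l + 1,
      Function.update p (l + 1) y i = Function.update p (l + 1) y j → i = j := by
  intro i hi j hj hij
  by_cases h1 : i = l + 1 <;> by_cases h2 : j = l + 1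
  · omega
  · rw [h1, Function.update_self, Function.update_of_ne h2] at hij
    exact absurd hij.symm (hy j (by omega))
  · rw [h2, Function.update_self, Function.update_of_ne h1] at hij
    exact absurd hij (hy i (by omega))
  · rw [Function.update_of_ne h1, Function.update_of_ne h2] at hij
    exact h i (by omega) j (by omega) hij

lemma ext_adj {p : ℕ → ℕ} {l y : ℕ} {A A' : Pos} (h : ∀ i < l, s(p i, p (i + 1)) ∈ A)
    (hA : A ⊆ A') : ∀ i ≤ l, s(Function.update p (l + 1) y i, Function.update p (l + 1) y (i + 1)) ∈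
      insert s(p l, y) A' := by
  intro i hi
  rw [Function.update_of_ne (by omega)]
  by_cases h1 : i = l
  · rw [h1, Function.update_self]
    exact mem_insert_self _ _
  · rw [Function.update_of_ne (by omega)]
    exact mem_insert_of_mem (hA (h i (by omega)))

variable {D w M D0 Hc k r m : ℕ}

lemma path (hH : 2 * M ≤ Hc * (D0 + 1)) (h1 : D0 + 3 ≤ D) (h2 : D0 + 6 ≤ k) (h3 : k + D + Hc < w)
    (t : ℕ) : ∀ (l c : ℕ) (S : Finset ℕ) (A U : Pos) (Q Tl : Finset ℕ) (p : ℕ → ℕ), l + t = m →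
      Pa r k l S A Q Tl p → r + l + 1 ≤ c → (nb U (p l)).card + 3 ≤ D →
      (t = 0 → (nb U (p l)).card ≤ D0) → Rk D w M (Dn r m) (t + 1) c S A U := by
  induction t with
  | zero =>
    intro l c S A U Q Tl p e1 h e2 e3 e4 S' A' U' Hv k1 k2 k3 k4 k5 k6 k7 k8
    obtain rfl : l = m := by omega
    have b1 := nb_grow k3 (p l)
    have b2 := e4 rfl
    have b3 := card_union_le Hv (nb U' (p l))
    have b4 := h.tc
    obtain ⟨u, hu, hu'⟩ := exists_mem_notMem_of_card_lt_card (s := Hv ∪ nb U' (p l)) (t := Tl)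
      (by omega)
    rw [mem_union, mem_nb, not_or] at hu'
    have hne : ∀ i ≤ l, p i ≠ u := fun i hi h' => (h.ps i hi).2.2 (h' ▸ hu)
    refine ⟨p l, k1 (h.ps l le_rfl).1, u, k1 (h.ts hu), hne l le_rfl,
      fun h' => by have := k7 _ h'; omega, hu'.1, Sym2.eq_swap ▸ hu'.2, Q,
      Function.update p (l + 1) u, h.qc, h.qs.trans k1, h.ql.mono (k2.trans (subset_insert _ _)),
      fun i hi => ?_, ext_inj h.pi hne, ext_adj h.pa k2, ?_⟩
    · by_cases h' : i = l + 1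
      · rw [h', Function.update_self]
        exact ⟨k1 (h.ts hu), h.tq u hu⟩
      · rw [Function.update_of_ne h']
        exact ⟨k1 (h.ps i (by omega)).1, (h.ps i (by omega)).2.1⟩
    · rw [Function.update_self, Function.update_of_ne (by omega)]
      exact mem_insert_of_mem (k2 (h.ta u hu))
  | succ t ih =>
    intro l c S A U Q Tl p e1 h e2 e3 _ S' A' U' Hv k1 k2 k3 k4 k5 k6 k7 k8
    have b1 := nb_grow k3 (p l)
    have b2 : ((Q ∪ Tl) ∪ (((range (l + 1)).image p) ∪ nb U' (p l))).card ≤ _ :=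
      (card_union_le _ _).trans (add_le_add (card_union_le _ _) ((card_union_le _ _).trans
        (add_le_add card_image_le le_rfl)))
    rw [h.qc, h.tc, card_range] at b2
    obtain ⟨y, y1, y2, y3⟩ := exists_light k5 hH (Y := S')
      (X := (Q ∪ Tl) ∪ (((range (l + 1)).image p) ∪ nb U' (p l))) (by omega)
    simp only [mem_union, mem_nb, not_or, mem_image, mem_range, not_exists, not_and] at y2
    have hne : ∀ i ≤ l, p i ≠ y := fun i hi => y2.2.1 i (by omega)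
    refine ⟨p l, k1 (h.ps l le_rfl).1, y, y1, hne l le_rfl, fun h' => by have := k7 _ h'; omega,
      fun h' => by have := k7 _ h'; omega, Sym2.eq_swap ▸ y2.2.2,
      ih (l + 1) (c + 1) S' _ U' Q Tl (Function.update p (l + 1) y) (by omega)
        ⟨h.qc, h.qs.trans k1, h.ql.mono (k2.trans (subset_insert _ _)), h.ts.trans k1, h.tc, h.tq,
          fun u hu => ?_, fun i hi => ?_, ext_inj h.pi hne,
          fun i hi => ext_adj h.pa k2 i (by omega)⟩ (by omega) ?_ ?_⟩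
    · rw [Function.update_of_ne (by omega)]
      exact mem_insert_of_mem (k2 (h.ta u hu))
    · by_cases h' : i = l + 1
      · rw [h', Function.update_self]
        exact ⟨y1, y2.1.1, y2.1.2⟩
      · rw [Function.update_of_ne h']
        exact ⟨k1 (h.ps i (by omega)).1, (h.ps i (by omega)).2⟩
    · rw [Function.update_self]; omega
    · rw [Function.update_self]; exact fun _ => y3

lemma star {Done : Finset ℕ → Pos → Prop} {r' v : ℕ} {C : Finset ℕ} (n : ℕ) :
    ∀ (c a : ℕ) (S : Finset ℕ) (A U : Pos) (Lf : Finset ℕ), v ∈ S → C ⊆ S → Lf ⊆ C →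
      (∀ y ∈ Lf, y ≠ v ∧ s(v, y) ∈ A) → (nb U v).card ≤ a → a + 3 * n ≤ D →
      Lf.card + a + 4 * n + 3 ≤ C.card → U.card ≤ M →
      (∀ (S' : Finset ℕ) (A' U' : Pos) (Lf' : Finset ℕ), S ⊆ S' → A ⊆ A' → Lf' ⊆ C →
        Lf'.card = Lf.card + n → (∀ y ∈ Lf', y ≠ v ∧ s(v, y) ∈ A') → (nb U' v).card ≤ a + 3 * n →
        U'.card ≤ M → Rk D w M Done r' (c + n) S' A' U') →
      Rk D w M Done (r' + n) c S A U := by
  induction n with
  | zero =>
    intro c a S A U Lf _ _ e3 e4 e5 _ _ e8 e9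
    exact e9 S A U Lf Subset.rfl Subset.rfl e3 rfl e4 e5 e8
  | succ n ih =>
    intro c a S A U Lf e1 e2 e3 e4 e5 e6 e7 _ e9 S' A' U' Hv k1 k2 k3 k4 k5 k6 k7 k8
    have b1 := nb_grow k3 v
    have b2 : (insert v (Lf ∪ (Hv ∪ nb U' v))).card ≤ _ := (card_insert_le _ _).trans
      (Nat.succ_le_succ ((card_union_le _ _).trans (add_le_add le_rfl (card_union_le _ _))))
    obtain ⟨y, y1, y2⟩ := exists_mem_notMem_of_card_lt_card
      (s := insert v (Lf ∪ (Hv ∪ nb U' v))) (t := C) (by omega)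
    simp only [mem_insert, mem_union, mem_nb, not_or] at y2
    have b3 := card_insert_of_notMem y2.2.1
    refine ⟨v, k1 e1, y, k1 (e2 y1), fun h' => y2.1 h'.symm, fun h' => by have := k7 _ h'; omega,
      y2.2.2.1, Sym2.eq_swap ▸ y2.2.2.2, ih (c + 1) (a + 3) S' _ U' (insert y Lf) (k1 e1)
        (e2.trans k1) (insert_subset y1 e3) (fun z hz => ?_) (by omega) (by omega) (by omega) k5
        fun S2 A2 U2 Lf2 j1 j2 j3 j4 j5 j6 j7 => ?_⟩
    · rcases mem_insert.1 hz with rfl | hz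
      · exact ⟨y2.1, mem_insert_self _ _⟩
      · exact ⟨(e4 z hz).1, mem_insert_of_mem (k2 (e4 z hz).2)⟩
    · have := e9 S2 A2 U2 Lf2 (k1.trans j1) (k2.trans ((subset_insert _ _).trans j2)) j3 (by omega)
        j5 (by omega) j7
      rwa [show c + (n + 1) = c + 1 + n by omega] at this

/-- Sizes of the successive stars. -/
def sz (k g : ℕ) : ℕ → ℕ
  | 0 => k
  | i + 1 => 4 * sz k g i + g

/-- The total number of star moves. -/
def tot (k g : ℕ) : ℕ → ℕ
  | 0 => k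
  | i + 1 => tot k g i + sz k g (i + 1)

lemma cliq (hH : 2 * M ≤ Hc * (D0 + 1)) (h2 : D0 + 6 ≤ k) (h3 : k + D + Hc < w) (hm : 1 ≤ m)
    {g : ℕ} (hg : D0 + Hc + 3 ≤ g) (i : ℕ) :
    ∀ (c : ℕ) (S : Finset ℕ) (A U : Pos) (Q C : Finset ℕ), Q.card + i = r → Q ⊆ S → Clq A Q →
      C ⊆ S → (∀ y ∈ C, y ∉ Q) → (∀ x ∈ Q, ∀ y ∈ C, s(x, y) ∈ A) → sz k g (i + 1) ≤ C.card →
      U.card ≤ M → Q.card ≤ c → D0 + 3 * sz k g i + 3 ≤ D →
      Rk D w M (Dn r m) (m + 1 + tot k g i) c S A U := by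
  induction i with
  | zero =>
    intro c S A U Q C e1 e2 e3 e4 e5 e6 e7 e8 e9 e10
    simp only [sz] at e7 e10
    obtain ⟨v, v1, -, v3⟩ := exists_light e8 hH (Y := C) (X := ∅) (by simp; omega)
    refine star (C := C) (v := v) k c D0 S A U ∅ (e4 v1) e4 (empty_subset _) (by simp) v3 (by omega)
      (by simp; omega) e8 fun S' A' U' Lf j1 j2 j3 j4 j5 j6 j7 => ?_
    exact path hH (by omega) h2 h3 m 0 (c + k) S' A' U' Q Lf (fun _ => v) (by omega)
      ⟨by omega, e2.trans j1, e3.mono j2, j3.trans (e4.trans j1), by simpa using j4,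
        fun u hu => e5 u (j3 hu), fun u hu => (j5 u hu).2,
        fun _ _ => ⟨j1 (e4 v1), e5 v v1, fun h' => (j5 v h').1 rfl⟩, by omega, by omega⟩
      (by omega) (by omega) (by omega)
  | succ i ih =>
    intro c S A U Q C e1 e2 e3 e4 e5 e6 e7 e8 e9 e10
    have s1 : sz k g (i + 1 + 1) = 4 * sz k g (i + 1) + g := rfl
    have s2 : sz k g (i + 1) = 4 * sz k g i + g := rfl
    obtain ⟨v, v1, -, v3⟩ := exists_light e8 hH (Y := C) (X := ∅) (by simp; omega)
    rw [show m + 1 + tot k g (i + 1) = m + 1 + tot k g i + sz k g (i + 1) by simp only [tot]; omega]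
    refine star (C := C) (v := v) _ c D0 S A U ∅ (e4 v1) e4 (empty_subset _) (by simp) v3 (by omega)
      (by simp; omega) e8 fun S' A' U' Lf j1 j2 j3 j4 j5 j6 j7 => ?_
    have b1 := card_insert_of_notMem (e5 v v1)
    refine ih _ S' A' U' (insert v Q) Lf (by omega) (insert_subset (j1 (e4 v1)) (e2.trans j1)) ?_
      (j3.trans (e4.trans j1)) ?_ ?_ (by simp at j4; omega) j7 (by omega) (by omega)
    · intro x hx y hy hne
      rcases mem_insert.1 hx with hx' | hx' <;> rcases mem_insert.1 hy with hy' | hy'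
      · exact absurd (hx'.trans hy'.symm) hne
      · exact hx' ▸ Sym2.eq_swap ▸ j2 (e6 y hy' v v1)
      · exact hy' ▸ j2 (e6 x hx' v v1)
      · exact j2 (e3 x hx' y hy' hne)
    · intro y hy h'
      rcases mem_insert.1 h' with rfl | h'
      · exact (j5 y hy).1 rfl
      · exact e5 y (j3 hy) h'
    · intro x hx y hy
      rcases mem_insert.1 hx with rfl | hx
      · exact (j5 y hy).2
      · exact j2 (e6 x hx y (j3 hy))

lemma sz_le (k g i : ℕ) : sz k g i + g ≤ 5 ^ i * (k + g) ∧ tot k g i + g ≤ 2 * 5 ^ i * (k + g) := by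
  induction i with
  | zero => simp only [sz, tot]; omega
  | succ i ih =>
    have h1 : 1 ≤ 5 ^ i := Nat.one_le_pow _ _ (by omega)
    have h2 : k + g ≤ 5 ^ i * (k + g) := Nat.le_mul_of_pos_left _ h1
    simp only [sz, tot, pow_succ]
    have e1 : 5 ^ i * 5 * (k + g) = 5 * (5 ^ i * (k + g)) := by ring
    have e2 : 2 * (5 ^ i * 5) * (k + g) = 10 * (5 ^ i * (k + g)) := by ring
    have e3 : 2 * 5 ^ i * (k + g) = 2 * (5 ^ i * (k + g)) := by ring
    omega

end Pool.Agent.Lib.MP_bf69bb_co.Wh
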