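import Pool.Agent.Lib.MP_bf69bb_co.WGd

set_option autoImplicit false

namespace Pool.Agent.Lib.MP_bf69bb_co.Wh

open Finset

/-- The ledger right after a move of the opponent, which is counted as paid. -/
structure Pt (N D : ℕ) (A B U C : Pos) (Hv ex Yn : Finset ℕ) (d d' : ℕ) : Prop where
  dis : Disjoint A B
  cls : ∀ e ∈ B, e ∈ U ∨ (∃ g ∈ Hv, g ∈ e) ∨ ∃ y ∈ Yn, e = s(y, d)
  hv2 : Hv.card ≤ 2
  c0 : C ⊆ U
  c0m : ∀ e ∈ C, ∃ g ∈ Hv, g ∈ e
  c0c : Hv.Nonempty → 2 * N ≤ C.card + D + 5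
  guard : ∀ g ∈ Hv, ∀ g' ∈ Hv, g ≠ g' → psi A B g g' + 1 ≤ 2 * N
  und : Hv = ∅ → ∀ g g', g ≠ g' → g ∉ ex → g' ∉ ex → s(g, g') ∉ A → psi A B g g' + 1 ≤ 2 * N
  exd : ∀ g ∈ Hv, g ∉ ex
  dead : d' ∈ Hv → ∀ y ∈ Yn, y ∉ Hv → ∀ g ∈ Hv, s(y, g) ∈ B → s(y, g) ∈ U ∧ s(y, g) ∉ C

lemma Gd.post {N D b b2 : ℕ} {A B U C : Pos} {Hv ex Yn : Finset ℕ} {d d' : ℕ}
    (h : Gd N D b b2 A B U C Hv ex Yn d d') {e : Sym2 ℕ} (hd : Disjoint A B) (heA : e ∉ A)
    (heB : e ∉ B) : Pt N D A (insert e B) (insert e U) C Hv ex Yn d d' := by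
  refine ⟨disjoint_insert_right.2 ⟨heA, hd⟩, ?_, h.hv2, h.c0.trans (subset_insert _ _), h.c0m,
    h.c0c, ?_, ?_, h.exd, ?_⟩
  · intro f hf
    rcases mem_insert.1 hf with rfl | hf
    · exact Or.inl (mem_insert_self _ _)
    · rcases h.cls f hf with h1 | h1
      · exact Or.inl (mem_insert_of_mem h1)
      · exact Or.inr h1
  · intro g hg g' hg' hne
    have := h.guard g hg g' hg' hne
    have := psi_insert_le A B e hne
    omega
  · intro h0 g g' hne h1 h2 h3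
    have := h.und h0 g g' hne h1 h2 h3
    have := psi_insert_le A B e hne
    omega
  · intro h1 y hy h2 g hg h3
    rcases mem_insert.1 h3 with h4 | h4
    · exact ⟨h4 ▸ mem_insert_self _ _, fun h5 => heB (h4 ▸ h.sub (h.c0 h5))⟩
    · exact ⟨mem_insert_of_mem (h.dead h1 y hy h2 g hg h4).1, (h.dead h1 y hy h2 g hg h4).2⟩

lemma count {E U Z K : Pos} (h1 : ∀ e ∈ E, e ∉ U → e ∈ Z) (h2 : K ⊆ U)
    (h3 : ∀ e ∈ E, e ∈ K → e ∈ Z) : E.card + K.card ≤ U.card + Z.card := by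
  have a1 : (E \ Z) ∪ K ⊆ U := union_subset (fun e he => by
    rw [mem_sdiff] at he
    by_contra h
    exact he.2 (h1 e he.1 h)) h2
  have a2 : Disjoint (E \ Z) K := disjoint_left.2 fun e he hk => by
    rw [mem_sdiff] at he
    exact he.2 (h3 e he.1 hk)
  have a3 := card_le_card a1
  rw [card_union_of_disjoint a2] at a3
  have a4 := le_card_sdiff Z E
  omega

variable {V : Type} [Fintype V] [DecidableEq V]

/-- The properties of the target graph used in the counting. -/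
structure Tgt (H : SimpleGraph V) [DecidableRel H.Adj] (a1 a2 : V) (N Δ r e0 : ℕ) : Prop where
  ne : a1 ≠ a2
  u1 : ∀ v, v ≠ a1 → H.Adj v a1
  u2 : ∀ v, v ≠ a2 → H.Adj v a2
  card : Fintype.card V = N + 2
  deg : ∀ v, v ≠ a1 → v ≠ a2 → H.degree v ≤ Δ
  iso : (univ.filter (fun v => v ≠ a1 ∧ v ≠ a2 ∧ ∀ u, H.Adj u v → u = a1 ∨ u = a2)).card ≤ r
  ec : e0 ≤ H.edgeFinset.card

variable {H : SimpleGraph V} [DecidableRel H.Adj] {a1 a2 : V} {N Δ r e0 : ℕ}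

lemma Tgt.symm (h : Tgt H a1 a2 N Δ r e0) : Tgt H a2 a1 N Δ r e0 :=
  ⟨h.ne.symm, h.u2, h.u1, h.card, fun v h1 h2 => h.deg v h2 h1, by
    refine le_trans (card_le_card fun v hv => ?_) h.iso
    simp only [mem_filter, mem_univ, true_and] at hv ⊢
    exact ⟨hv.2.1, hv.1, fun u hu => (hv.2.2 u hu).symm⟩, h.ec⟩

/-- The edges of the copy `φ`. -/
def E (H : SimpleGraph V) [DecidableRel H.Adj] (φ : V ↪ ℕ) : Pos :=
  H.edgeFinset.image (Sym2.map φ)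

lemma mem_E {φ : V ↪ ℕ} {e : Sym2 ℕ} : e ∈ E H φ ↔ ∃ u v, H.Adj u v ∧ e = s(φ u, φ v) := by
  unfold E
  rw [mem_image]
  constructor
  · rintro ⟨x, hx, rfl⟩
    induction x using Sym2.ind with
    | h u v => exact ⟨u, v, by simpa using hx, by simp⟩
  · rintro ⟨u, v, h, rfl⟩
    exact ⟨s(u, v), by simpa using h, by simp⟩

lemma adj_E (φ : V ↪ ℕ) {u v : V} (h : H.Adj u v) : s(φ u, φ v) ∈ E H φ := mem_E.2 ⟨u, v, h, rfl⟩

lemma win_E {A : Pos} (h : Win H A) : ∃ φ : V ↪ ℕ, E H φ ⊆ A := by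
  obtain ⟨φ, hφ⟩ := h
  refine ⟨φ, fun e he => ?_⟩
  obtain ⟨u, v, h, rfl⟩ := mem_E.1 he
  exact hφ u v h

lemma Tgt.card_E (h : Tgt H a1 a2 N Δ r e0) (φ : V ↪ ℕ) : e0 ≤ (E H φ).card := by
  unfold E
  rw [card_image_of_injective _ (Sym2.map.injective φ.injective)]
  exact h.ec

lemma edge_at {φ : V ↪ ℕ} {e : Sym2 ℕ} (he : e ∈ E H φ) {x : ℕ} (hx : x ∈ e) :
    ∃ a w, φ a = x ∧ H.Adj w a ∧ e = s(φ w, φ a) := by
  obtain ⟨u, v, h, rfl⟩ := mem_E.1 he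
  rcases Sym2.mem_iff.1 hx with rfl | rfl
  · exact ⟨u, v, rfl, h.symm, Sym2.eq_swap⟩
  · exact ⟨v, u, rfl, h, rfl⟩

lemma edge_at' {φ : V ↪ ℕ} {e : Sym2 ℕ} (he : e ∈ E H φ) {a : V} (hx : φ a ∈ e) :
    ∃ w, H.Adj w a ∧ e = s(φ w, φ a) := by
  obtain ⟨a', w, h1, h2, h3⟩ := edge_at he hx
  obtain rfl := φ.injective h1
  exact ⟨w, h2, h3⟩

lemma star_deg (φ : V ↪ ℕ) (a : V) : ((E H φ).filter (fun e => φ a ∈ e)).card ≤ H.degree a := by
  refine le_trans (card_le_card (t := (H.neighborFinset a).image (fun w => s(φ w, φ a)))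
    fun e he => ?_) card_image_le
  rw [mem_filter] at he
  obtain ⟨w, h1, h2⟩ := edge_at' he.1 he.2
  exact mem_image.2 ⟨w, by simpa using h1.symm, h2.symm⟩

lemma Tgt.star_any (h : Tgt H a1 a2 N Δ r e0) (φ : V ↪ ℕ) (a : V) :
    ((E H φ).filter (fun e => φ a ∈ e)).card ≤ N + 1 := by
  have h1 := star_deg (H := H) φ a
  have h2 := H.degree_lt_card_verts a
  have h3 := h.card
  omega

lemma Tgt.star_rim (h : Tgt H a1 a2 N Δ r e0) (φ : V ↪ ℕ) {x : ℕ} (h1 : x ≠ φ a1)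
    (h2 : x ≠ φ a2) : ((E H φ).filter (fun e => x ∈ e)).card ≤ Δ := by
  by_cases hx : ∃ a, φ a = x
  · obtain ⟨a, rfl⟩ := hx
    exact (star_deg φ a).trans (h.deg a (fun h' => h1 (h' ▸ rfl)) (fun h' => h2 (h' ▸ rfl)))
  · rw [card_eq_zero.2]
    · omega
    · refine filter_eq_empty_iff.2 fun e he hxe => hx ?_
      obtain ⟨a, -, h3, -⟩ := edge_at he hxe
      exact ⟨a, h3⟩

lemma Tgt.stars_rim (h : Tgt H a1 a2 N Δ r e0) (φ : V ↪ ℕ) {X : Finset ℕ} (h1 : φ a1 ∉ X)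
    (h2 : φ a2 ∉ X) : ((E H φ).filter (fun e => ∃ x ∈ X, x ∈ e)).card ≤ X.card * Δ := by
  refine le_trans (card_le_card (t := X.biUnion (fun x => (E H φ).filter (fun e => x ∈ e)))
    fun e he => ?_) (card_biUnion_le_card_mul _ _ _ fun x hx => ?_)
  · obtain ⟨he, x, hx, hxe⟩ := mem_filter.1 he
    exact mem_biUnion.2 ⟨x, hx, mem_filter.2 ⟨he, hxe⟩⟩
  · exact h.star_rim φ (fun h' => h1 (h' ▸ hx)) (fun h' => h2 (h' ▸ hx))

lemma Tgt.stars' (h : Tgt H a1 a2 N Δ r e0) (φ : V ↪ ℕ) {X : Finset ℕ} (hX : X.card ≤ 3)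
    (h2 : φ a2 ∉ X) : ((E H φ).filter (fun e => ∃ x ∈ X, x ∈ e)).card ≤ N + 1 + 3 * Δ := by
  have b1 := h.star_any φ a1
  have b2 := h.stars_rim φ (X := X.erase (φ a1)) (notMem_erase _ _)
    (fun h' => h2 (mem_of_mem_erase h'))
  have b3 : (X.erase (φ a1)).card * Δ ≤ 3 * Δ :=
    Nat.mul_le_mul_right _ (card_erase_le.trans hX)
  refine le_trans (card_le_card fun e he => ?_) ((card_union_le _ _).trans (add_le_add b1
    (b2.trans b3)))
  obtain ⟨he, x, hx, hxe⟩ := mem_filter.1 he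
  by_cases h' : x = φ a1
  · exact mem_union_left _ (mem_filter.2 ⟨he, h' ▸ hxe⟩)
  · exact mem_union_right _ (mem_filter.2 ⟨he, x, mem_erase.2 ⟨h', hx⟩, hxe⟩)

lemma Tgt.stars (h : Tgt H a1 a2 N Δ r e0) (φ : V ↪ ℕ) {X : Finset ℕ} (hX : X.card ≤ 3)
    (h2 : ¬ (φ a1 ∈ X ∧ φ a2 ∈ X)) :
    ((E H φ).filter (fun e => ∃ x ∈ X, x ∈ e)).card ≤ N + 1 + 3 * Δ := by
  by_cases h3 : φ a2 ∈ X
  · exact h.symm.stars' φ hX fun h4 => h2 ⟨h4, h3⟩
  · exact h.stars' φ hX h3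

/-- The vertices other than the two hubs. -/
def rim (a1 a2 : V) : Finset V := univ.filter (fun v => v ≠ a1 ∧ v ≠ a2)

lemma mem_rim {v : V} : v ∈ rim a1 a2 ↔ v ≠ a1 ∧ v ≠ a2 := by simp [rim]

lemma Tgt.card_rim (h : Tgt H a1 a2 N Δ r e0) : (rim a1 a2).card = N := by
  have h1 : rim a1 a2 = univ \ {a1, a2} := by
    ext v
    simp [mem_rim]
  rw [h1, card_univ_sdiff, card_pair h.ne, h.card]
  omega

lemma Tgt.al_full (h : Tgt H a1 a2 N Δ r e0) {φ : V ↪ ℕ} {A B : Pos} (hd : Disjoint A B)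
    (hE : E H φ ⊆ B) : N ≤ (al A B (φ a1) (φ a2)).card := by
  rw [← h.card_rim, ← card_map φ]
  refine card_le_card fun y hy => ?_
  obtain ⟨v, hv, rfl⟩ := mem_map.1 hy
  rw [mem_rim] at hv
  have b1 := hE (adj_E φ (h.u1 v hv.1))
  have b2 := hE (adj_E φ (h.u2 v hv.2))
  exact mem_al.2 ⟨b1, fun h' => hv.1 (φ.injective h'), fun h' => hv.2 (φ.injective h'),
    fun h' => disjoint_left.1 hd h' b1, fun h' => disjoint_left.1 hd h' b2⟩

lemma Tgt.psi_full (h : Tgt H a1 a2 N Δ r e0) {φ : V ↪ ℕ} {A B : Pos} (hd : Disjoint A B)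
    (hE : E H φ ⊆ B) : 2 * N ≤ psi A B (φ a1) (φ a2) := by
  have := h.al_full hd hE
  have := h.symm.al_full hd hE
  unfold psi
  omega

lemma Tgt.hub_free (h : Tgt H a1 a2 N Δ r e0) {φ : V ↪ ℕ} {A B : Pos} (hd : Disjoint A B)
    (hE : E H φ ⊆ B) : s(φ a1, φ a2) ∉ A := fun h' =>
  disjoint_left.1 hd h' (hE (adj_E φ (h.u2 a1 h.ne)))

/-- A vertex joined to a hub by the drawing player is not in the copy. -/
lemma Tgt.out (h : Tgt H a1 a2 N Δ r e0) {φ : V ↪ ℕ} {A B : Pos} (hd : Disjoint A B)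
    (hE : E H φ ⊆ B) {y : ℕ} (h1 : y ≠ φ a2) (h2 : s(y, φ a2) ∈ A) (v : V) : φ v ≠ y := by
  rintro rfl
  exact disjoint_left.1 hd h2 (hE (adj_E φ (h.u2 v fun h' => h1 (h' ▸ rfl))))

variable {D : ℕ} {A B U C : Pos} {Hv ex Yn : Finset ℕ} {d d' : ℕ} {φ : V ↪ ℕ}

lemma Tgt.safe_gen (h : Tgt H a1 a2 N Δ r e0) (p : Pt N D A B U C Hv ex Yn d d')
    (hE : E H φ ⊆ B) (h0 : Hv.Nonempty) {X : Finset ℕ} (hX : X.card ≤ 3) (hH : Hv ⊆ X)
    (hc : ∀ e ∈ B, e ∈ U ∨ ∃ x ∈ X, x ∈ e) (h2 : ¬ (φ a1 ∈ X ∧ φ a2 ∈ X)) :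
    e0 + N ≤ U.card + D + 6 + 3 * Δ := by
  have b1 := count (E := E H φ) (U := U) (Z := (E H φ).filter (fun e => ∃ x ∈ X, x ∈ e)) (K := C)
    (fun e he hu => mem_filter.2 ⟨he, (hc e (hE he)).resolve_left hu⟩) p.c0
    (fun e he hk => by
      obtain ⟨g, hg, hge⟩ := p.c0m e hk
      exact mem_filter.2 ⟨he, g, hH hg, hge⟩)
  have b2 := h.stars φ hX h2
  have b3 := h.card_E φ
  have b4 := p.c0c h0
  omega

/-- Safety before the first denial. -/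
lemma Tgt.safe0 (h : Tgt H a1 a2 N Δ r e0) (p : Pt N D A B U C Hv ex ∅ d d')
    (hu : Hv = ∅ → ∀ g g', g ≠ g' → s(g, g') ∉ A → psi A B g g' + 1 ≤ 2 * N)
    (hU : U.card + D + 7 + 3 * Δ ≤ e0 + N) : ¬ Win H B := by
  intro hw
  obtain ⟨φ, hE⟩ := win_E hw
  have hne : φ a1 ≠ φ a2 := fun h' => h.ne (φ.injective h')
  have b1 := h.psi_full p.dis hE
  rcases Hv.eq_empty_or_nonempty with h0 | h0
  · have := hu h0 _ _ hne (h.hub_free p.dis hE)
    omega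
  by_cases h2 : φ a1 ∈ Hv ∧ φ a2 ∈ Hv
  · have := p.guard _ h2.1 _ h2.2 hne
    omega
  · have := h.safe_gen p hE h0 (p.hv2.trans (by omega)) Subset.rfl (fun e he => by
      rcases p.cls e he with h3 | h3 | ⟨y, hy, -⟩
      · exact Or.inl h3
      · exact Or.inr h3
      · simp at hy) h2
    omega

/-- A copy with hub `d` uses few new vertices. -/
lemma Tgt.newcount (h : Tgt H a1 a2 N Δ r e0) (p : Pt N D A B U C Hv ex Yn d d')
    (hE : E H φ ⊆ B) (hd : φ a2 = d) {U2 : Pos} {R : ℕ} (hR : (U \ U2).card ≤ R)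
    (hY : ∀ y ∈ Yn, ∀ e ∈ U2, y ∉ e) :
    ((rim a1 a2).filter (fun v => φ v ∈ Yn)).card ≤ r + 2 * (R + 2 * Δ) := by
  set X := (Hv.erase (φ a1)).erase (φ a2) with hX
  set Q := (U \ U2) ∪ (E H φ).filter (fun e => ∃ x ∈ X, x ∈ e) with hQ
  have b1 := h.stars_rim φ (X := X) (by simp [hX]) (by simp [hX])
  have b2 : X.card * Δ ≤ 2 * Δ :=
    Nat.mul_le_mul_right _ (card_erase_le.trans (card_erase_le.trans p.hv2))
  have b3 : Q.card ≤ R + 2 * Δ := (card_union_le _ _).trans (by omega)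
  set Y := univ.filter (fun v => 1 ≤ (nb Q (φ v)).card) with hYd
  have b4 : Y.card ≤ 2 * Q.card := by
    refine le_trans ?_ (sum_nb Q (Y.map φ))
    rw [sum_map, card_eq_sum_ones]
    exact sum_le_sum fun v hv => (mem_filter.1 hv).2
  refine le_trans (card_le_card (t := univ.filter (fun v => v ≠ a1 ∧ v ≠ a2 ∧
    ∀ u, H.Adj u v → u = a1 ∨ u = a2) ∪ Y) fun v hv => ?_) ((card_union_le _ _).trans
      (add_le_add h.iso (by omega)))
  rw [mem_filter, mem_rim] at hv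
  by_cases hi : ∀ u, H.Adj u v → u = a1 ∨ u = a2
  · exact mem_union_left _ (mem_filter.2 ⟨mem_univ _, hv.1.1, hv.1.2, hi⟩)
  push Not at hi
  obtain ⟨u, h1, h2, h3⟩ := hi
  refine mem_union_right _ (mem_filter.2 ⟨mem_univ _, card_pos.2 ⟨φ u, mem_nb.2 ?_⟩⟩)
  have he := adj_E φ h1
  rcases p.cls _ (hE he) with h4 | ⟨g, hg, h4⟩ | ⟨y, -, h4⟩
  · exact mem_union_left _ (mem_sdiff.2 ⟨h4, fun h5 => hY _ hv.2 _ h5 (by simp)⟩)
  · refine mem_union_right _ (mem_filter.2 ⟨he, g, ?_, h4⟩)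
    rw [hX, mem_erase, mem_erase]
    rcases Sym2.mem_iff.1 h4 with rfl | rfl
    · exact ⟨fun h' => h3 (φ.injective h'), fun h' => h2 (φ.injective h'), hg⟩
    · exact ⟨fun h' => hv.1.2 (φ.injective h'), fun h' => hv.1.1 (φ.injective h'), hg⟩
  · exfalso
    rw [← hd, Sym2.eq_iff] at h4
    rcases h4 with h4 | h4
    · exact hv.1.2 (φ.injective h4.2)
    · exact h3 (φ.injective h4.1)

/-- A denial edge of a copy with hub `d` is the hub edge or the spoke of a new vertex. -/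
lemma den_mem (hd : φ a2 = d) {y : ℕ} (hy : y ∈ Yn) (he : s(y, d) ∈ E H φ) :
    s(y, d) = s(φ a1, φ a2) ∨ ∃ w ∈ rim a1 a2, φ w = y := by
  obtain ⟨w, h1, h2⟩ := edge_at' he (a := a2) (by simp [hd])
  rw [hd] at h2
  have h3 : y = φ w := sp_inj d h2
  by_cases h4 : w = a1
  · left; rw [h3, h4, hd]
  · exact Or.inr ⟨w, mem_rim.2 ⟨h4, h1.ne⟩, h3.symm⟩

lemma Tgt.safe_dead (h : Tgt H a1 a2 N Δ r e0) (p : Pt N D A B U C Hv ex Yn d d')
    (hE : E H φ ⊆ B) (hd : φ a2 = d) (h1 : φ a1 ∈ Hv) (h2 : d' ∈ Hv) (h3 : d' ≠ d)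
    (h4 : s(d', d) ∈ A) : e0 + N ≤ U.card + D + 6 := by
  have ho := h.out p.dis hE (y := d') (hd ▸ h3) (hd ▸ h4)
  have hp := pair_of p.hv2 h1 h2 (ho a1)
  set Z := insert s(φ a1, φ a2) ((rim a1 a2).image
    (fun v => if φ v ∈ Yn then s(φ v, d) else s(φ v, φ a1))) with hZ
  have key : ∀ e ∈ E H φ, (e ∉ U ∨ e ∈ C) → e ∈ Z := by
    intro e he hor
    by_cases hm : ∃ g ∈ Hv, g ∈ e
    · obtain ⟨g, hg, hge⟩ := hm
      have hg1 : g = φ a1 := by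
        obtain ⟨a, -, h5, -⟩ := edge_at he hge
        rw [hp, mem_insert, mem_singleton] at hg
        rcases hg with hg | hg
        · exact hg
        · exact absurd (h5.trans hg) (ho a)
      subst hg1
      obtain ⟨w, h5, rfl⟩ := edge_at' he hge
      by_cases h6 : w = a2
      · rw [h6, Sym2.eq_swap]; exact mem_insert_self _ _
      refine mem_insert_of_mem (mem_image.2 ⟨w, mem_rim.2 ⟨h5.ne, h6⟩, ?_⟩)
      rw [if_neg]
      intro h7
      have h8 := p.dead h2 _ h7 (by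
        rw [hp, mem_insert, mem_singleton, not_or]
        exact ⟨fun h' => h5.ne (φ.injective h'), ho w⟩) _ h1 (hE he)
      tauto
    · have hu : e ∉ U := hor.elim id fun hc => absurd (p.c0m e hc) hm
      obtain ⟨y, hy, rfl⟩ := ((p.cls e (hE he)).resolve_left hu).resolve_left hm
      rcases den_mem (a1 := a1) hd hy he with h5 | ⟨w, hw, rfl⟩
      · rw [h5]; exact mem_insert_self _ _
      · exact mem_insert_of_mem (mem_image.2 ⟨w, hw, if_pos hy⟩)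
  have b1 := count (fun e he hu => key e he (Or.inl hu)) p.c0 (fun e he hc => key e he (Or.inr hc))
  have b2 : Z.card ≤ N + 1 := (card_insert_le _ _).trans
    (Nat.succ_le_succ (card_image_le.trans h.card_rim.le))
  have b3 := h.card_E φ
  have b4 := p.c0c ⟨_, h1⟩
  omega

/-- Counting for a copy with hub `d` and further wasted edges `K`. -/
lemma Tgt.safe_waste (h : Tgt H a1 a2 N Δ r e0) (p : Pt N D A B U C Hv ex Yn d d')
    (hE : E H φ ⊆ B) (hd : φ a2 = d) {U2 K : Pos} {R : ℕ} (hR : (U \ U2).card ≤ R)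
    (hY : ∀ y ∈ Yn, ∀ e ∈ U2, y ∉ e) (hK : K ⊆ U) (hK' : ∀ e ∈ E H φ, e ∈ K → ∃ g ∈ Hv, g ∈ e) :
    e0 + K.card ≤ U.card + ((E H φ).filter (fun e => ∃ x ∈ Hv, x ∈ e)).card + 1 + r +
      2 * (R + 2 * Δ) := by
  set Z := (E H φ).filter (fun e => ∃ x ∈ Hv, x ∈ e) ∪ insert s(φ a1, φ a2)
    (((rim a1 a2).filter (fun v => φ v ∈ Yn)).image (fun v => s(φ v, d))) with hZ
  have b1 := count (E := E H φ) (U := U) (Z := Z) (K := K) (fun e he hu => by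
      rcases (p.cls e (hE he)).resolve_left hu with h1 | ⟨y, hy, rfl⟩
      · exact mem_union_left _ (mem_filter.2 ⟨he, h1⟩)
      · refine mem_union_right _ ?_
        rcases den_mem (a1 := a1) hd hy he with h5 | ⟨w, hw, rfl⟩
        · rw [h5]; exact mem_insert_self _ _
        · exact mem_insert_of_mem (mem_image.2 ⟨w, mem_filter.2 ⟨hw, hy⟩, rfl⟩)) hK
    (fun e he hk => mem_union_left _ (mem_filter.2 ⟨he, hK' e he hk⟩))
  have b2 := h.newcount p hE hd hR hY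
  have b3 : Z.card ≤ _ := (card_union_le _ _).trans (add_le_add le_rfl ((card_insert_le _ _).trans
    (Nat.succ_le_succ (card_image_le.trans b2))))
  have b4 := h.card_E φ
  omega

/-- If almost all paid edges lie in a copy `Eb` avoiding `Lv`, no copy with hub `d ∈ Lv` is
complete. -/
lemma Tgt.safe_tight (h : Tgt H a1 a2 N Δ r e0) (p : Pt N D A B U C ∅ ex Yn d d')
    (hE : E H φ ⊆ B) (hd : φ a2 = d) {U2 Eb : Pos} {T Lv : Finset ℕ}
    (hY : ∀ y ∈ Yn, ∀ e ∈ U2, y ∉ e) (hT : T ⊆ Lv) (hL : d ∈ Lv)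
    (hb : ∀ e ∈ Eb, ∀ y ∈ Lv, y ∉ e) :
    N ≤ (U \ U2).card + ((U2 \ T.image (fun y => s(y, d))) \ Eb).card := by
  rw [← h.card_rim]
  refine le_trans (card_le_card_of_injOn
    (fun v => if φ v ∈ T ∪ Yn then s(φ v, φ a1) else s(φ v, φ a2)) ?_ ?_) (card_union_le _ _)
  · intro v hv
    rw [mem_coe, mem_rim] at hv
    have n2 : φ v ≠ d := fun h' => hv.2 (φ.injective (h'.trans hd.symm))
    have n1 : φ a1 ≠ d := fun h' => h.ne (φ.injective (h'.trans hd.symm))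
    simp only [mem_coe]
    split_ifs with h1
    · have hu : s(φ v, φ a1) ∈ U := by
        rcases p.cls _ (hE (adj_E φ (h.u1 v hv.1))) with h2 | ⟨g, hg, -⟩ | ⟨y, -, h2⟩
        · exact h2
        · simp at hg
        · rw [Sym2.eq_iff] at h2
          tauto
      by_cases h2 : s(φ v, φ a1) ∈ U2
      · refine mem_union_right _ (mem_sdiff.2 ⟨mem_sdiff.2 ⟨h2, fun h3 => ?_⟩, fun h3 => ?_⟩)
        · obtain ⟨y, -, h4⟩ := mem_image.1 h3
          rw [Sym2.eq_iff] at h4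
          tauto
        · rcases mem_union.1 h1 with h4 | h4
          · exact hb _ h3 _ (hT h4) (by simp)
          · exact hY _ h4 _ h2 (by simp)
      · exact mem_union_left _ (mem_sdiff.2 ⟨hu, h2⟩)
    · rw [mem_union, not_or] at h1
      have hu : s(φ v, φ a2) ∈ U := by
        rcases p.cls _ (hE (adj_E φ (h.u2 v hv.2))) with h2 | ⟨g, hg, -⟩ | ⟨y, hy, h2⟩
        · exact h2
        · simp at hg
        · rw [hd] at h2
          exact absurd (sp_inj d h2 ▸ hy) h1.2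
      by_cases h2 : s(φ v, φ a2) ∈ U2
      · refine mem_union_right _ (mem_sdiff.2 ⟨mem_sdiff.2 ⟨h2, fun h3 => ?_⟩, fun h3 => ?_⟩)
        · obtain ⟨y, hy, h4⟩ := mem_image.1 h3
          rw [hd] at h4
          exact h1.1 (sp_inj d h4 ▸ hy)
        · exact hb _ h3 _ hL (by simp [hd])
      · exact mem_union_left _ (mem_sdiff.2 ⟨hu, h2⟩)
  · intro v hv w hw hvw
    rw [mem_coe, mem_rim] at hv hw
    have := h.ne
    simp only at hvw
    split_ifs at hvw <;> simp only [Sym2.eq_iff, φ.apply_eq_iff_eq] at hvw <;> tauto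

end Pool.Agent.Lib.MP_bf69bb_co.Wh
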