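import Pool.Agent.Lib.MP_bf69bb_co.WSafe

set_option autoImplicit false

namespace Pool.Agent.Lib.MP_bf69bb_co.Wh

open Finset

variable {V : Type} [Fintype V] [DecidableEq V]

/-- The reason for the choice of the denial hub `d`. -/
def Cs (H : SimpleGraph V) [DecidableRel H.Adj] (a1 a2 : V) (τ b b2 d : ℕ) (Lv T Hv : Finset ℕ)
    (U2 : Pos) : Prop :=
  (d = b2 ∧ b ∈ Hv) ∨
  (d = b ∧ (Hv.Nonempty ∨ ∀ φ : V ↪ ℕ, (φ a1 = b ∨ φ a2 = b) → (∀ v, φ v ∉ Lv) →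
    τ ≤ ((U2 \ T.image (fun y => s(y, b2))) \ E H φ).card)) ∨
  (d = b2 ∧ ∃ φ : V ↪ ℕ, (φ a1 = b ∨ φ a2 = b) ∧ (∀ v, φ v ∉ Lv) ∧
    ((U2 \ T.image (fun y => s(y, b2))) \ E H φ).card < τ)

variable {H : SimpleGraph V} [DecidableRel H.Adj] {a1 a2 : V} {N Δ r e0 : ℕ}
  {τ b b2 d d' : ℕ} {Lv T Hv Yn : Finset ℕ} {U2 : Pos}

lemma Cs.symm (h : Cs H a1 a2 τ b b2 d Lv T Hv U2) : Cs H a2 a1 τ b b2 d Lv T Hv U2 := by
  rcases h with h | ⟨h, h1 | h1⟩ | ⟨h, φ, h1, h2⟩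
  · exact Or.inl h
  · exact Or.inr (Or.inl ⟨h, Or.inl h1⟩)
  · exact Or.inr (Or.inl ⟨h, Or.inr fun φ h2 => h1 φ h2.symm⟩)
  · exact Or.inr (Or.inr ⟨h, φ, h1.symm, h2⟩)

lemma Cs.next (h : Cs H a1 a2 τ b b2 d Lv T Hv U2) {Hv' : Finset ℕ}
    (h' : Hv.Nonempty → Hv' = Hv) : Cs H a1 a2 τ b b2 d Lv T Hv' U2 := by
  rcases h with h | ⟨h, h1 | h1⟩ | h
  · exact Or.inl ⟨h.1, (h' ⟨_, h.2⟩).symm ▸ h.2⟩
  · exact Or.inr (Or.inl ⟨h, Or.inl ((h' h1).symm ▸ h1)⟩)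
  · exact Or.inr (Or.inl ⟨h, Or.inr h1⟩)
  · exact Or.inr (Or.inr h)

/-- The leaves of the first hub. -/
def Lvs (A : Pos) (b b2 : ℕ) (Lv : Finset ℕ) : Prop := b2 ∈ Lv ∧ ∀ y ∈ Lv, y ≠ b ∧ s(y, b) ∈ A

lemma Lvs.mono {A A' : Pos} (h : Lvs A b b2 Lv) (hA : A ⊆ A') : Lvs A' b b2 Lv :=
  ⟨h.1, fun y hy => ⟨(h.2 y hy).1, hA (h.2 y hy).2⟩⟩

lemma E_avoid {φ : V ↪ ℕ} (h : ∀ v, φ v ∉ Lv) : ∀ e ∈ E H φ, ∀ y ∈ Lv, y ∉ e := by
  intro e he y hy hye
  obtain ⟨a, -, h1, -⟩ := edge_at he hye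
  exact h a (h1 ▸ hy)

variable {D W R : ℕ} {A B U C : Pos}

lemma Tgt.safe_hub (h : Tgt H a1 a2 N Δ r e0) (p : Pt N D A B U C Hv {d} Yn d d') {φ : V ↪ ℕ}
    (hE : E H φ ⊆ B) (hd : φ a2 = d) (hdd : (d = b ∧ d' = b2) ∨ (d = b2 ∧ d' = b))
    (hL : Lvs A b b2 Lv) (hT : T ⊆ Lv) (hT2 : ∀ y ∈ T, s(y, b2) ∈ U2) (hU2 : U2 ⊆ U)
    (hY : ∀ y ∈ Yn, ∀ e ∈ U2, y ∉ e) (hc : Cs H a1 a2 τ b b2 d Lv T Hv U2)
    (k1 : U.card + D + 7 + 3 * Δ ≤ e0 + N) (k2 : U.card ≤ e0 + T.card + W)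
    (k3 : U.card ≤ U2.card + R) (n1 : W + 1 + r + 2 * (R + 2 * Δ) < τ)
    (n2 : D + 9 + W + 7 * Δ + r + 2 * R + τ ≤ N) : False := by
  have hbb : b2 ≠ b := (hL.2 _ hL.1).1
  have hbA : s(b2, b) ∈ A := (hL.2 _ hL.1).2
  have hdH : d ∉ Hv := fun h' => p.exd d h' (mem_singleton_self _)
  have hR : (U \ U2).card ≤ R := by
    have := card_sdiff_add_card_eq_card hU2
    omega
  have hBk : T.image (fun y => s(y, b2)) ⊆ U2 := fun e he => by
    obtain ⟨y, hy, rfl⟩ := mem_image.1 he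
    exact hT2 y hy
  have hout : d = b → ∀ v, φ v ∉ Lv := fun hb v hv =>
    h.out p.dis hE (y := φ v) (by rw [hd, hb]; exact (hL.2 _ hv).1)
      (by rw [hd, hb]; exact (hL.2 _ hv).2) v rfl
  rcases Hv.eq_empty_or_nonempty with h0 | h0
  · subst h0
    rcases hc with ⟨-, hc⟩ | ⟨hb, hc | hc⟩ | ⟨hb, ψ, -, c2, c3⟩
    · simp at hc
    · simp at hc
    · have b1 := hc φ (Or.inr (hd.trans hb)) (hout hb)
      have b2' := h.safe_waste p hE hd hR hY (K := T.image (fun y => s(y, b2)) ∪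
        ((U2 \ T.image (fun y => s(y, b2))) \ E H φ))
        (union_subset (hBk.trans hU2) (sdiff_subset.trans (sdiff_subset.trans hU2)))
        (fun e he hk => by
          exfalso
          rcases mem_union.1 hk with hk | hk
          · obtain ⟨y, hy, rfl⟩ := mem_image.1 hk
            exact E_avoid (hout hb) _ he _ hL.1 (by simp)
          · exact (mem_sdiff.1 hk).2 he)
      rw [card_union_of_disjoint (disjoint_left.2 fun e h1 h2 =>
        (mem_sdiff.1 (mem_sdiff.1 h2).1).2 h1), card_sp] at b2'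
      simp only [notMem_empty, false_and, exists_false, filter_false, card_empty] at b2'
      omega
    · subst hb
      have := h.safe_tight p hE hd hY hT hL.1 (E_avoid (H := H) c2)
      omega
  by_cases h1 : φ a1 ∈ Hv
  swap
  · have := h.safe_gen p hE h0 (X := insert d Hv) ((card_insert_le _ _).trans
      (Nat.succ_le_succ p.hv2)) (subset_insert _ _) (fun e he => by
        rcases p.cls e he with h3 | ⟨g, hg, h3⟩ | ⟨y, hy, rfl⟩
        · exact Or.inl h3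
        · exact Or.inr ⟨g, mem_insert_of_mem hg, h3⟩
        · exact Or.inr ⟨d, mem_insert_self _ _, by simp⟩) (fun h2 => by
        rcases mem_insert.1 h2.1 with h3 | h3
        · exact h.ne (φ.injective (h3.trans hd.symm))
        · exact h1 h3)
    omega
  by_cases h2 : d' ∈ Hv
  · have := h.safe_dead p hE hd h1 h2 (by rcases hdd with h3 | h3 <;> omega)
      (by
        rcases hdd with ⟨rfl, rfl⟩ | ⟨rfl, rfl⟩
        · exact hbA
        · exact Sym2.eq_swap ▸ hbA)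
    omega
  have b4 := p.c0c h0
  rcases hc with ⟨hb, hc⟩ | ⟨hb, -⟩ | ⟨hb, ψ, c1, c2, c3⟩
  · exact h2 (by rcases hdd with h3 | h3 <;> [omega; exact h3.2 ▸ hc])
  · have h3 : b2 ∉ Hv := by rcases hdd with h3 | h3 <;> [exact h3.2 ▸ h2; omega]
    have b2' := h.safe_waste p hE hd hR hY (K := C ∪ (T \ Hv).image (fun y => s(y, b2)))
      (union_subset p.c0 (((image_subset_image sdiff_subset).trans hBk).trans hU2))
      (fun e he hk => by
        rcases mem_union.1 hk with hk | hk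
        · exact p.c0m e hk
        · obtain ⟨y, hy, rfl⟩ := mem_image.1 hk
          exact absurd (by simp) (E_avoid (hout hb) _ he _ hL.1))
    rw [card_union_of_disjoint (disjoint_left.2 fun e h4 h5 => by
      obtain ⟨y, hy, rfl⟩ := mem_image.1 h5
      obtain ⟨g, hg, h6⟩ := p.c0m _ h4
      rcases Sym2.mem_iff.1 h6 with rfl | rfl
      · exact (mem_sdiff.1 hy).2 hg
      · exact h3 hg), card_sp] at b2'
    have b3 := h.stars' φ (p.hv2.trans (by omega)) (hd ▸ hdH)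
    have b5 := le_card_sdiff Hv T
    have b6 := p.hv2
    omega
  · have h3 : b ∉ Hv := by rcases hdd with h3 | h3 <;> [omega; exact h3.2 ▸ h2]
    have b3 := h.stars ψ (p.hv2.trans (by omega)) (fun h4 => by
      rcases c1 with c1 | c1
      · exact h3 (c1 ▸ h4.1)
      · exact h3 (c1 ▸ h4.2))
    have b5 : C ⊆ ((U \ U2) ∪ ((U2 \ T.image (fun y => s(y, b2))) \ E H ψ)) ∪
        (Hv.image (fun y => s(y, b2)) ∪ (E H ψ).filter (fun e => ∃ x ∈ Hv, x ∈ e)) := by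
      intro e he
      by_cases e1 : e ∈ U2
      swap
      · exact mem_union_left _ (mem_union_left _ (mem_sdiff.2 ⟨p.c0 he, e1⟩))
      by_cases e2 : e ∈ E H ψ
      · exact mem_union_right _ (mem_union_right _ (mem_filter.2 ⟨e2, p.c0m e he⟩))
      by_cases e3 : e ∈ T.image (fun y => s(y, b2))
      · obtain ⟨y, hy, rfl⟩ := mem_image.1 e3
        obtain ⟨g, hg, h6⟩ := p.c0m _ he
        rcases Sym2.mem_iff.1 h6 with rfl | rfl
        · exact mem_union_right _ (mem_union_left _ (mem_image.2 ⟨g, hg, rfl⟩))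
        · exact absurd hg (hb ▸ hdH)
      · exact mem_union_left _ (mem_union_right _ (mem_sdiff.2 ⟨mem_sdiff.2 ⟨e1, e3⟩, e2⟩))
    have b6 := (card_le_card b5).trans ((card_union_le _ _).trans
      (add_le_add (card_union_le _ _) (card_union_le _ _)))
    rw [card_sp] at b6
    have b7 := p.hv2
    omega

/-- Safety after the first denial. -/
lemma Tgt.safe4 (h : Tgt H a1 a2 N Δ r e0) (p : Pt N D A B U C Hv {d} Yn d d')
    (hdd : (d = b ∧ d' = b2) ∨ (d = b2 ∧ d' = b))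
    (hL : Lvs A b b2 Lv) (hT : T ⊆ Lv) (hT2 : ∀ y ∈ T, s(y, b2) ∈ U2) (hU2 : U2 ⊆ U)
    (hY : ∀ y ∈ Yn, ∀ e ∈ U2, y ∉ e) (hc : Cs H a1 a2 τ b b2 d Lv T Hv U2)
    (k1 : U.card + D + 7 + 3 * Δ ≤ e0 + N) (k2 : U.card ≤ e0 + T.card + W)
    (k3 : U.card ≤ U2.card + R) (n1 : W + 1 + r + 2 * (R + 2 * Δ) < τ)
    (n2 : D + 9 + W + 7 * Δ + r + 2 * R + τ ≤ N) : ¬ Win H B := by
  intro hw
  obtain ⟨φ, hE⟩ := win_E hw
  by_cases d2 : φ a2 = d
  · exact h.safe_hub p hE d2 hdd hL hT hT2 hU2 hY hc k1 k2 k3 n1 n2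
  by_cases d1 : φ a1 = d
  · exact h.symm.safe_hub p hE d1 hdd hL hT hT2 hU2 hY hc.symm k1 k2 k3 n1 n2
  have hne : φ a1 ≠ φ a2 := fun h' => h.ne (φ.injective h')
  have b1 := h.psi_full p.dis hE
  rcases Hv.eq_empty_or_nonempty with h0 | h0
  · have := p.und h0 _ _ hne (by simpa using d1) (by simpa using d2) (h.hub_free p.dis hE)
    omega
  by_cases h2 : φ a1 ∈ Hv ∧ φ a2 ∈ Hv
  · have := p.guard _ h2.1 _ h2.2 hne
    omega
  · have := h.safe_gen p hE h0 (X := insert d Hv) ((card_insert_le _ _).trans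
      (Nat.succ_le_succ p.hv2)) (subset_insert _ _) (fun e he => by
        rcases p.cls e he with h3 | ⟨g, hg, h3⟩ | ⟨y, hy, rfl⟩
        · exact Or.inl h3
        · exact Or.inr ⟨g, mem_insert_of_mem hg, h3⟩
        · exact Or.inr ⟨d, mem_insert_self _ _, by simp⟩) (fun h3 =>
        h2 ⟨(mem_insert.1 h3.1).resolve_left d1, (mem_insert.1 h3.2).resolve_left d2⟩)
    omega

end Pool.Agent.Lib.MP_bf69bb_co.Wh
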