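import Pool.Agent.Lib.MP_bf69bb_co.XRim
import Pool.Agent.Lib.MP_bf69bb_co.WFin

set_option autoImplicit false

namespace Pool.Agent.Lib.MP_bf69bb_co.Wh.Gen

open Finset SimpleGraph Sum

section
variable {W : Type} (R : SimpleGraph W)

/-- Two adjacent hubs joined to the rim `R`. -/
abbrev Hub : SimpleGraph (Fin 2 ⊕ W) := join (⊤ : SimpleGraph (Fin 2)) R

lemma hub_adj (a : Fin 2) (v : Fin 2 ⊕ W) (h : v ≠ inl a) : (Hub R).Adj v (inl a) := by
  rcases v with v | v
  · simpa using h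
  · simp

lemma emb_win {b b2 : ℕ} {S : Finset ℕ} {A : Pos} (h1 : b ≠ b2) (h2 : s(b, b2) ∈ A)
    (h3 : Com A b b2 S) (h4 : Emb R S A) : Win (Hub R) A := by
  obtain ⟨ψ, hψ, hS, hA⟩ := h4
  have hub : ∀ (a : Fin 2) w, ψ w ≠ ![b, b2] a ∧ s(ψ w, ![b, b2] a) ∈ A := by
    intro a w
    have := h3 _ (hS w)
    fin_cases a
    · exact ⟨this.1, this.2.2.1⟩
    · exact ⟨this.2.1, this.2.2.2⟩
  refine ⟨⟨Sum.elim ![b, b2] ψ, ?_⟩, ?_⟩
  · rintro (x | x) (y | y) h
    · fin_cases x <;> fin_cases y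
      · rfl
      · exact absurd h h1
      · exact absurd h h1.symm
      · rfl
    · exact absurd h.symm (hub x y).1
    · exact absurd h (hub y x).1
    · exact congrArg _ (hψ h)
  · rintro (x | x) (y | y) h
    · rw [join_ll, top_adj] at h
      fin_cases x <;> fin_cases y
      · exact absurd rfl h
      · exact h2
      · exact Sym2.eq_swap ▸ h2
      · exact absurd rfl h
    · exact Sym2.eq_swap ▸ (hub x y).2
    · exact (hub y x).2
    · exact hA x y (join_rr.1 h)

lemma cov_hub [Nonempty W] {k : ℕ} (h : Cov R k) : Cov (Hub R) (k + 2) := by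
  classical
  have key : ∀ K : Finset W, R.IsNClique k K →
      (Hub R).IsNClique (k + 2) ((univ : Finset (Fin 2)).disjSum K) := by
    intro K hK
    refine ⟨?_, by rw [card_disjSum, hK.2]; simp [add_comm]⟩
    rintro (x | x) hx (y | y) hy hne
    · simpa using hne
    · simp
    · simp
    · exact join_rr.2 (hK.1 (by simpa using hx) (by simpa using hy) fun h' => hne (congrArg _ h'))
  rintro (x | x) (y | y) hxy
  · obtain ⟨z⟩ := ‹Nonempty W›
    obtain ⟨K, h1, -⟩ := h z z (Or.inl rfl)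
    exact ⟨_, key K h1, by simp, by simp⟩
  · obtain ⟨K, h1, h2, -⟩ := h y y (Or.inl rfl)
    exact ⟨_, key K h1, by simp, by simpa using h2⟩
  · obtain ⟨K, h1, h2, -⟩ := h x x (Or.inl rfl)
    exact ⟨_, key K h1, by simpa using h2, by simp⟩
  · obtain ⟨K, h1, h2, h3⟩ := h x y (hxy.imp (fun h' => by simpa using h') join_rr.1)
    exact ⟨_, key K h1, by simpa using h2, by simpa using h3⟩

variable [Fintype W] [DecidableEq W]

open Classical in
lemma deg_rim (w : W) : (Hub R).degree (inr w) = dg R w + 2 := by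
  rw [← card_neighborFinset_eq_degree]
  have h1 : (Hub R).neighborFinset (inr w) = univ.disjSum (univ.filter (R.Adj w)) := by
    ext v
    rcases v with v | v <;> simp
  rw [h1, card_disjSum, add_comm]
  simp [dg]

open Classical in
lemma deg_hub (a : Fin 2) : (Hub R).degree (inl a) = Fintype.card W + 1 := by
  rw [← card_neighborFinset_eq_degree]
  have h1 : (Hub R).neighborFinset (inl a) = univ.erase (inl a) := by
    ext v
    simp only [mem_neighborFinset, mem_erase, mem_univ, and_true]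
    exact ⟨fun h => h.ne.symm, fun h => (hub_adj R a v h).symm⟩
  rw [h1, card_erase_of_mem (mem_univ _)]
  simp
  omega

open Classical in
lemma tgt_hub {N Δ e : ℕ} (hN : Fintype.card W = N) (hΔ : ∀ w, dg R w ≤ Δ)
    (hi : ∀ w, ∃ u, R.Adj u w) (he : ∑ w, dg R w = 2 * e) :
    Tgt (Hub R) (inl 0) (inl 1) N (Δ + 2) 0 (2 * N + e + 1) := by
  refine ⟨by simp, hub_adj R 0, hub_adj R 1, by simp; omega, ?_, ?_, ?_⟩
  · rintro (v | v) h1 h2
    · exfalso
      fin_cases v
      · exact h1 rfl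
      · exact h2 rfl
    · have := hΔ v
      rw [deg_rim]
      omega
  · rw [Nat.le_zero, card_eq_zero, filter_eq_empty_iff]
    rintro (v | v) - ⟨h1, h2, h3⟩
    · fin_cases v
      · exact h1 rfl
      · exact h2 rfl
    · obtain ⟨u, hu⟩ := hi v
      simpa using h3 (inr u) (join_rr.2 hu)
  · have h1 := sum_degrees_eq_twice_card_edges (Hub R)
    rw [Fintype.sum_sum_type] at h1
    simp only [deg_rim, deg_hub, sum_const, card_univ, Fintype.card_fin, smul_eq_mul,
      sum_add_distrib, he, hN] at h1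
    omega

end

lemma sizes {s t g : ℕ} (hs : 1 ≤ s) (ht : 1 ≤ t) (hg : g ≤ t) (l : ℕ) (hl : 8 * l ≤ s) :
    t ≤ nv s t l ∧ nv s t l ≤ az s t g l ∧ s * az s t g l ≤ (s + 8 * l) * nv s t l ∧
      s * mv s t g l ≤ s * ne s t l + 8 * l ^ 2 * nv s t l ∧ mv s t g l ≤ l * az s t g l ∧
      ne s t l ≤ l * nv s t l ∧ nv s t l ≤ (2 * s) ^ l * t := by
  induction l with
  | zero => simp [nv, az, mv, ne]
  | succ l ih =>
    obtain ⟨h1, h2, h3, h4, h5, h6, h7⟩ := ih (by omega)
    simp only [nv, az, mv, ne]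
    generalize nv s t l = n at *
    generalize az s t g l = a at *
    generalize mv s t g l = m at *
    generalize ne s t l = e at *
    have h8 : a ≤ 2 * n := Nat.le_of_mul_le_mul_left (h3.trans (by nlinarith)) hs
    have h9 : s * (a + 1) + 3 * a + g ≤ s * (n + 1) + (8 * l + 7) * n := by nlinarith
    have h10 : s * (m + a) ≤ s * (n + e) + (8 * l ^ 2 + 8 * l) * n := by nlinarith
    refine ⟨by nlinarith, by nlinarith, (Nat.mul_le_mul_left s h9).trans (by nlinarith),
      (Nat.mul_le_mul_left s h10).trans (by nlinarith), ?_, ?_, ?_⟩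
    · have := Nat.mul_le_mul_left s h5
      nlinarith
    · have := Nat.mul_le_mul_left s h6
      nlinarith
    · have := Nat.mul_le_mul_left (2 * s) h7
      rw [pow_succ]
      nlinarith

theorem draw_tree (l : ℕ) (hl : 1 ≤ l) : ∃ s t, 0 < s ∧ 0 < t ∧
    ∀ p < 2, ¬ Wins (Hub (TG s t (l + 1))) p := by
  classical
  obtain ⟨c1, hc1⟩ : ∃ c, c = 8 * l ^ 2 + 8 * l + 20 := ⟨_, rfl⟩
  obtain ⟨s, hs⟩ : ∃ s, s = (23 + 52 * (l + 3)) * c1 := ⟨_, rfl⟩
  have s1 : c1 ≤ s := hs ▸ Nat.le_mul_of_pos_left _ (by omega)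
  obtain ⟨D0, hD0⟩ : ∃ c, c = 6 * ((l + 5) * (2 * s) ^ (l + 1)) := ⟨_, rfl⟩
  obtain ⟨t, ht⟩ : ∃ c, c = 3 * (D0 + 3) := ⟨_, rfl⟩
  obtain ⟨g, hg⟩ : ∃ c, c = D0 + (D0 + 3) + 3 := ⟨_, rfl⟩
  refine ⟨s, t, by omega, by omega, fun p hp => ?_⟩
  obtain ⟨z1, z2, z3, z4, z5, z6, -⟩ := sizes (s := s) (t := t) (g := g) (by omega) (by omega)
    (by omega) l (by omega)
  obtain ⟨-, -, -, -, -, y6, y7⟩ := sizes (s := s) (t := t) (g := g) (by omega) (by omega)
    (by omega) (l + 1) (by omega)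
  have hm : 1 ≤ mv s t g l := by
    obtain ⟨l', rfl⟩ : ∃ l', l = l' + 1 := ⟨l - 1, by omega⟩
    obtain ⟨x1, x2, -⟩ := sizes (s := s) (t := t) (g := g) (by omega) (by omega) (by omega) l'
      (by omega)
    exact Nat.mul_pos (by omega) (by omega)
  have hT := tgt_hub (TG s t (l + 1)) (card_TV (l + 1)) (dg_le l) (fun w => by
    obtain ⟨x⟩ := TV_ne (s := s) (t := t) (by omega) (by omega) l
    obtain ⟨i, _ | w⟩ := w
    · exact ⟨(i, some x), rfl, trivial⟩
    · exact ⟨(i, none), rfl, trivial⟩) (sum_dg (l + 1))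
  have hN : nv s t (l + 1) = s * (nv s t l + 1) := rfl
  have hE : ne s t (l + 1) = s * (nv s t l + ne s t l) := rfl
  have hB := fun D M nd Done hH h => bld_TG (D := D) (M := M) (D0 := D0) (Hc := D0 + 3) (g := g)
    (nd := nd) (Done := Done) (s := s) (t := t) hH (by omega) l h
  generalize nv s t (l + 1) = N at *
  generalize ne s t (l + 1) = E at *
  generalize nv s t l = n at *
  generalize az s t g l = a at *
  generalize mv s t g l = m at *
  generalize ne s t l = e at *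
  obtain ⟨X, hX⟩ : ∃ X, X = c1 * (n + 1) := ⟨_, rfl⟩
  obtain ⟨R, hR⟩ : ∃ R, R = (l + 3) * (13 * X) := ⟨_, rfl⟩
  have w1 : N = 23 * X + 4 * R := by rw [hN, hs, hR, hX]; ring
  have w2 : a ≤ 2 * n := Nat.le_of_mul_le_mul_left (z3.trans (by nlinarith)) (by omega : 0 < s)
  have w3 : 20 * n + 20 ≤ X := by rw [hX, hc1]; nlinarith
  have w4 : s * (a + 1) + 4 * a + g ≤ N + X := by rw [hX, hc1, hN]; nlinarith
  have w5 : s * (m + a) ≤ E + X := by rw [hX, hc1, hE]; nlinarith
  have w6 : 3 * N + E + 1 ≤ (l + 5) * N := by nlinarith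
  have hH : 2 * ((l + 5) * N) ≤ (D0 + 3) * (D0 + 1) := by
    have := Nat.mul_le_mul_left (2 * (l + 5)) y7
    rw [ht] at this
    have e1 : 2 * (l + 5) * ((2 * s) ^ (l + 1) * (3 * (D0 + 3))) = (D0 + 3) * D0 := by
      rw [hD0]; ring
    nlinarith
  obtain ⟨r0, hr0⟩ : ∃ r0, r0 + 1 = s * (m + a) :=
    ⟨s * (m + a) - 1, Nat.sub_add_cancel (Nat.mul_pos (by omega) (by omega))⟩
  have hb : 0 < m + a := by omega
  let q : Par :=
    { N := N, D := D0 + 3 * a, D0 := D0, Hc := D0 + 3, Δ := n + 2, r := 0, e0 := 2 * N + E + 1,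
      L := 2 * N - 20 * X, cap := s * (a + 1) + 4 * a + g, r0 := r0, M := (l + 5) * N,
      W := 4 * X, γ := 13 * X, τ := 2 * R + 10 * X, ν := 10 * X, R := R,
      nd := fun r => (r0 - r) * (a + 1) / (m + a) + 4 * a + g,
      Done := fun S A => Emb (TG s t (l + 1)) S A }
  refine Ok.draw (q := q) (a1 := inl 0) (a2 := inl 1) ⟨hT, fun S A U => ?_,
    fun b b2 S A h1 h2 h3 h4 => emb_win _ h1 h2 h3 h4, fun r => ?_, fun r => ?_,
    fun r h1 z h2 h3 => ?_, ?_, ?_, hH, ?_, ?_, ?_, ?_, ?_, ?_, ?_, ?_, ?_, ?_, ?_, ?_⟩ p hp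
  · simp only [q]
    rw [hr0]
    refine (hB _ _ _ _ hH (by omega)).top (s := s) (g := g) hH (by omega) le_rfl (by omega)
      (fun i j r h1 h2 => ?_) s 0 ∅ S A U (by omega) (by simp) fun S' A' _ _ h => by
        rw [sdiff_empty] at h
        exact h
    have h3 : r0 - r = i * (m + a) := by
      rw [← h1] at hr0
      have : (i + j + 1) * (m + a) = i * (m + a) + (j + 1) * (m + a) := by ring
      omega
    rw [h3, mul_right_comm, Nat.mul_div_cancel _ hb]
  · simp only [q]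
    have h1 : (r0 - r) * (a + 1) ≤ (r0 - (r + 1)) * (a + 1) + (m + a) := by
      have := Nat.mul_le_mul_right (a + 1) (show r0 - r ≤ r0 - (r + 1) + 1 by omega)
      rw [add_mul, one_mul] at this
      omega
    have h2 := Nat.div_le_div_right (c := m + a) h1
    rw [Nat.add_div_right _ hb] at h2
    omega
  · simp only [q]
    have h1 : (r0 - r) * (a + 1) / (m + a) ≤ s * (a + 1) := Nat.div_le_of_le_mul (by
      have := Nat.mul_le_mul_right (a + 1) (show r0 - r ≤ s * (m + a) by omega)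
      nlinarith)
    omega
  · simp only [q] at h1 h2 h3 ⊢
    have h4 := Nat.div_mul_le_self ((r0 - r) * (a + 1)) (m + a)
    generalize (r0 - r) * (a + 1) / (m + a) = y at *
    obtain ⟨x, rfl⟩ : ∃ x, r0 = r + x := ⟨r0 - r, by omega⟩
    rw [Nat.add_sub_cancel_left] at h4
    have h5 : y + z = s * (a + 1) + 1 := by omega
    have h6 : (r + 1) * (a + 1) ≤ z * (m + a) := by
      have e1 : (r + x + 1) * (a + 1) = s * (a + 1) * (m + a) := by rw [hr0]; ring
      have e2 : (y + z) * (m + a) = (s * (a + 1) + 1) * (m + a) := by rw [h5]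
      nlinarith
    have h7 : z * (m + a) ≤ (l + 1) * z * (a + 1) := by
      have := Nat.mul_le_mul_left z (show m + a ≤ (l + 1) * (a + 1) by nlinarith)
      nlinarith
    have h8 := Nat.le_of_mul_le_mul_right (h6.trans h7) (by omega)
    have h9 := Nat.mul_le_mul_left (l + 3) h2
    nlinarith
  all_goals
    simp only [q, Nat.sub_self, zero_mul, Nat.zero_div]
    omega

theorem exists_cover (k : ℕ) (hk : 2 ≤ k) : ∃ (V : Type) (_ : Finite V) (_ : Nonempty V)
    (G : SimpleGraph V), (∀ x y, (x = y ∨ G.Adj x y) →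
      ∃ K : Finset V, G.IsNClique k K ∧ x ∈ K ∧ y ∈ K) ∧ ¬ Wins G 0 ∧ ¬ Wins G 1 := by
  classical
  obtain ⟨s, t, hs, ht, h⟩ := draw_tree k (by omega)
  have := TV_ne hs ht (k + 1)
  refine ⟨_, inferInstance, inferInstance, Hub (TG s t (k + 1)), fun x y hxy => ?_, h 0 (by omega),
    h 1 (by omega)⟩
  obtain ⟨K, h1, h2, h3⟩ := cov_hub _ (cov_TG hs ht (k + 1)) x y hxy
  obtain ⟨K', k1, k2, k3⟩ := exists_subsuperset_card_eq (s := {x, y}) (t := K) (n := k)
    (insert_subset h2 (singleton_subset_iff.2 h3)) (card_le_two.trans hk) (by rw [h1.2]; omega)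
  exact ⟨K', ⟨h1.1.subset k2, k3⟩, k1 (by simp), k1 (by simp)⟩

end Pool.Agent.Lib.MP_bf69bb_co.Wh.Gen
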