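import Pool.Agent.Lib.MP_bf69bb_co.WMain

set_option autoImplicit false

namespace Pool.Agent.Lib.MP_bf69bb_co.Wh.Gen

open Finset

/-- After at most `j` further paid moves, and once the board `S` has `c` vertices, there is a move
inside `S` that leads to `P`. -/
def Nx (D M : ℕ) (P : Finset ℕ → Pos → Pos → Prop) (j c : ℕ) (S : Finset ℕ) (A U : Pos) : Prop :=
  ∀ (S' : Finset ℕ) (A' U' : Pos) (Hv : Finset ℕ), S ⊆ S' → A ⊆ A' → U ⊆ U' →
    U'.card ≤ U.card + j → U'.card ≤ M → Hv.card ≤ 2 → (∀ x ∈ Hv, D < (nb U' x).card) →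
    c ≤ S'.card → ∃ x ∈ S', ∃ y ∈ S', x ≠ y ∧ x ∉ Hv ∧ y ∉ Hv ∧ s(x, y) ∉ U' ∧
      P S' (insert s(x, y) A') U'

/-- The rim can be finished in `r` moves; the board needs `nd r` vertices when `r + 1` moves
remain. -/
def Rk (D M : ℕ) (nd : ℕ → ℕ) (Done : Finset ℕ → Pos → Prop) : ℕ → Finset ℕ → Pos → Pos → Prop
  | 0 => fun S A _ => Done S A
  | r + 1 => Nx D M (Rk D M nd Done r) 3 (nd r)

lemma Nx.mono {D M : ℕ} {P : Finset ℕ → Pos → Pos → Prop} {j j1 c : ℕ} {S S1 : Finset ℕ}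
    {A U A1 U1 : Pos} (h : Nx D M P j c S A U) (h1 : S ⊆ S1) (h2 : A ⊆ A1) (h3 : U ⊆ U1)
    (h4 : U1.card + j1 ≤ U.card + j) : Nx D M P j1 c S1 A1 U1 :=
  fun S' A' U' Hv k1 k2 k3 k4 => h S' A' U' Hv (h1.trans k1) (h2.trans k2) (h3.trans k3) (by omega)

/-- All parameters. -/
structure Par where
  (N D D0 Hc Δ r e0 L cap r0 M W γ τ ν R : ℕ)
  nd : ℕ → ℕ
  Done : Finset ℕ → Pos → Prop

variable {V : Type} [Fintype V] [DecidableEq V]

structure Ok (q : Par) (H : SimpleGraph V) [DecidableRel H.Adj] (a1 a2 : V) : Prop where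
  tgt : Tgt H a1 a2 q.N q.Δ q.r q.e0
  rim : ∀ S A U, Rk q.D q.M q.nd q.Done (q.r0 + 1) S A U
  done : ∀ b b2 S A, b ≠ b2 → s(b, b2) ∈ A → Com A b b2 S → q.Done S A → Win H A
  nd1 : ∀ r, q.nd r ≤ q.nd (r + 1) + 1
  nd2 : ∀ r, q.nd r ≤ q.cap
  nd3 : ∀ r ≤ q.r0, ∀ z ≤ q.γ, q.nd r + z = q.cap + 1 → r + 1 + 2 * z ≤ q.R
  hD : 2 * q.D + 6 ≤ 2 * q.N
  hM : q.e0 + q.N ≤ q.M
  hH : 2 * q.M ≤ q.Hc * (q.D0 + 1)
  hL : q.L + 2 * q.ν = 2 * q.N
  he : 2 * q.N ≤ q.e0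
  a1 : q.cap + q.D0 + 3 ≤ q.N + q.ν
  a2 : 2 * q.Hc + q.D0 + 6 ≤ 2 * q.ν
  a3 : q.Hc + 6 ≤ q.L
  a4 : q.L + q.r0 + q.cap + q.D + 3 * q.Δ + 9 ≤ q.e0 + q.N
  a5 : q.r0 + 2 * q.cap + 6 ≤ q.e0 + q.W
  a6 : q.W + q.D0 + q.ν + q.D + 3 * q.Δ + 7 ≤ 2 * q.ν
  a7 : q.cap + q.ν + q.D0 + 2 ≤ q.N + q.γ
  a8 : q.nd q.r0 + q.ν + q.D0 + 2 ≤ q.N
  n1 : q.W + 1 + q.r + 2 * (q.R + 2 * q.Δ) < q.τ
  n2 : q.D + 9 + q.W + 7 * q.Δ + q.r + 2 * q.R + q.τ ≤ q.N

variable (q : Par) (H : SimpleGraph V) [DecidableRel H.Adj] (a1 a2 : V)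

/-- The number of paid rounds still needed in a normal state. -/
def Par.rho (r : ℕ) (S : Finset ℕ) : ℕ := r + 1 + 2 * (q.cap - S.card)

abbrev Par.nx (r j : ℕ) (S : Finset ℕ) (A U : Pos) : Prop :=
  Nx q.D q.M (Rk q.D q.M q.nd q.Done r) j (q.nd r) S A U

/-- The fixed data of the last phase. -/
structure St (b b2 d d' K : ℕ) (Lv T : Finset ℕ) (U2 : Pos) : Prop where
  dd : (d = b ∧ d' = b2) ∨ (d = b2 ∧ d' = b)
  tl : T ⊆ Lv
  t2 : ∀ y ∈ T, s(y, b2) ∈ U2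
  k1 : K + q.D + 7 + 3 * q.Δ ≤ q.e0 + q.N
  k2 : K ≤ q.e0 + T.card + q.W
  k3 : K ≤ U2.card + q.R

def Mode (d d' K r : ℕ) (S Yn : Finset ℕ) (A B U : Pos) : Prop :=
  (U.card + q.rho r S ≤ K ∧ q.nd r ≤ S.card ∧ q.nx r 1 S A U) ∨
  (U.card + q.rho r S ≤ K ∧ q.nd r = S.card + 1 ∧ q.nx r 3 S A U) ∨
  (U.card + q.rho r S ≤ K + 1 ∧ q.nd r = S.card + 1 ∧ q.nx r 2 S A U ∧
    ∃ y ∈ Yn, y ∉ S ∧ y ≠ d' ∧ s(y, d) ∉ B ∧ (nb U y).card ≤ q.D)

def P4 (A B : Pos) : Prop :=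
  ∃ b b2 d d' K r Lv T S Hv Yn U C U2, St q b b2 d d' K Lv T U2 ∧
    Gd q.N q.D b b2 A B U C Hv {d} Yn d d' ∧ Lvs A b b2 Lv ∧ Com A b b2 S ∧ U2 ⊆ U ∧
    (∀ y ∈ Yn, ∀ e ∈ U2, y ∉ e) ∧ Cs H a1 a2 q.τ b b2 d Lv T Hv U2 ∧ r ≤ q.r0 ∧
    Mode q d d' K r S Yn A B U

/-- The data of the third phase. -/
def C3 (A B : Pos) (b b2 K r : ℕ) (Lv T S Hv : Finset ℕ) (U C : Pos) : Prop :=
  Gd q.N q.D b b2 A B U C Hv ∅ ∅ b2 b ∧ Lvs A b b2 Lv ∧ Com A b b2 S ∧ T ⊆ Lv ∧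
    (∀ y ∈ T, s(y, b2) ∈ U) ∧ r ≤ q.r0 ∧ U.card + q.rho r S ≤ K ∧
    K + q.D + 7 + 3 * q.Δ ≤ q.e0 + q.N ∧ (K ≤ q.e0 + T.card + q.W ∨ q.cap ≤ S.card) ∧
    q.cap ≤ S.card + q.γ

def P3 (A B : Pos) : Prop :=
  ∃ b b2 K r Lv T S Hv U C, C3 q A B b b2 K r Lv T S Hv U C ∧ q.nd r ≤ S.card ∧
    q.nx r 1 S A U

/-- The leaves still open in the second phase. -/
def Opn (U : Pos) (b2 : ℕ) (Lv S : Finset ℕ) : Finset ℕ :=
  Lv.filter (fun y => y ≠ b2 ∧ y ∉ S ∧ s(y, b2) ∉ U)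

/-- The data of the second phase. -/
def C2 (A B : Pos) (b b2 : ℕ) (Lv S Hv : Finset ℕ) (U C : Pos) : Prop :=
  Gd q.N q.D b b2 A B U C Hv {b2} ∅ b2 b ∧ Lvs A b b2 Lv ∧ Lv.card = q.L ∧ Com A b b2 S ∧
    U.card ≤ q.L + 1 + S.card ∧ (nb U b2).card ≤ q.D0 + S.card ∧ S.card ≤ q.cap ∧
    (Hv = ∅ → ∀ g, g ≠ b2 → s(g, b2) ∉ A →
      psi A B g b2 + (q.cap - S.card) + 2 ≤ 2 * q.N ∨
      (al A B g b2 ∪ Opn U b2 Lv S).card + (al A B b2 g).card + 2 ≤ 2 * q.N)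

def P2 (A B : Pos) : Prop :=
  ∃ b b2 Lv S Hv U C, C2 q A B b b2 Lv S Hv U C ∧ S.card < q.cap ∧ 4 ≤ (Opn U b2 Lv S).card

def P1 (A B : Pos) : Prop :=
  ∃ Lv : Finset ℕ, (∀ y ∈ Lv, y ≠ 0 ∧ s(y, 0) ∈ A) ∧ B.card ≤ Lv.card ∧ Lv.card ≤ q.L

def Inv (A B : Pos) : Prop :=
  Win H A ∨ P1 q A B ∨ P2 q A B ∨ P3 q A B ∨ P4 q H a1 a2 A B

variable {q H a1 a2}

lemma Mode.mono {d d' K r : ℕ} {S Yn : Finset ℕ} {A B U A' B' : Pos}
    (h : Mode q d d' K r S Yn A B U) (hA : A ⊆ A')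
    (hB : ∀ y, (nb U y).card ≤ q.D → s(y, d) ∉ B → s(y, d) ∉ B') :
    Mode q d d' K r S Yn A' B' U := by
  rcases h with ⟨h1, h2, h3⟩ | ⟨h1, h2, h3⟩ | ⟨h1, h2, h3, y, y1, y2, y3, y4, y5⟩
  · exact Or.inl ⟨h1, h2, h3.mono Subset.rfl hA Subset.rfl le_rfl⟩
  · exact Or.inr (Or.inl ⟨h1, h2, h3.mono Subset.rfl hA Subset.rfl le_rfl⟩)
  · exact Or.inr (Or.inr ⟨h1, h2, h3.mono Subset.rfl hA Subset.rfl le_rfl, y, y1, y2, y3,
      hB y y5 y4, y5⟩)

lemma C2.mono {A B A' : Pos} {b b2 : ℕ} {Lv S Hv : Finset ℕ} {U C : Pos}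
    (h : C2 q A B b b2 Lv S Hv U C) (hA : A ⊆ A') : C2 q A' B b b2 Lv S Hv U C := by
  obtain ⟨h1, h2, h3, h4, h5, h6, h7, h8⟩ := h
  refine ⟨h1.mono hA, h2.mono hA, h3, h4.mono hA, h5, h6, h7, fun k1 g k2 k3 => ?_⟩
  rcases h8 k1 g k2 (fun k4 => k3 (hA k4)) with k | k
  · have := psi_mono hA B g b2
    exact Or.inl (by omega)
  · have b1 := card_le_card (union_subset_union (al_mono hA B g b2) (Subset.refl (Opn U b2 Lv S)))
    have b2 := card_le_card (al_mono hA B b2 g)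
    exact Or.inr (by omega)

lemma Inv.mono {A A' B : Pos} (h : Inv q H a1 a2 A B) (hA : A ⊆ A') : Inv q H a1 a2 A' B := by
  rcases h with h | ⟨Lv, h1, h2⟩ | ⟨b, b2, Lv, S, Hv, U, C, h1, h2⟩ |
    ⟨b, b2, K, r, Lv, T, S, Hv, U, C, ⟨h1, h2, h3, h4⟩, h5, h6⟩ |
    ⟨b, b2, d, d', K, r, Lv, T, S, Hv, Yn, U, C, U2, h1, h2, h3, h4, h5, h6, h7, h8, h9⟩
  · exact Or.inl (h.mono hA)
  · exact Or.inr (Or.inl ⟨Lv, fun y hy => ⟨(h1 y hy).1, hA (h1 y hy).2⟩, h2⟩)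
  · exact Or.inr (Or.inr (Or.inl ⟨b, b2, Lv, S, Hv, U, C, h1.mono hA, h2⟩))
  · exact Or.inr (Or.inr (Or.inr (Or.inl ⟨b, b2, K, r, Lv, T, S, Hv, U, C,
      ⟨h1.mono hA, h2.mono hA, h3.mono hA, h4⟩, h5, h6.mono Subset.rfl hA Subset.rfl le_rfl⟩)))
  · exact Or.inr (Or.inr (Or.inr (Or.inr ⟨b, b2, d, d', K, r, Lv, T, S, Hv, Yn, U, C, U2, h1,
      h2.mono hA, h3.mono hA, h4.mono hA, h5, h6, h7, h8, h9.mono hA fun _ _ h => h⟩)))

/-- A move on the rim after a paid move. -/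
lemma rim_move {A B U C : Pos} {b b2 d d' r : ℕ} {S Hv ex Yn : Finset ℕ} {e : Sym2 ℕ}
    (hG : Gd q.N q.D b b2 A B (insert e U) C Hv ex Yn d d') (hd : d ∉ S)
    (hM : (insert e U).card ≤ q.M) (hc : q.nd r ≤ S.card) (hn : q.nx r 1 S A U) :
    ∃ f : Sym2 ℕ, ¬ f.IsDiag ∧ f ∉ B ∧
      Rk q.D q.M q.nd q.Done r S (insert f A) (insert e U) := by
  obtain ⟨x, hx, y, hy, h1, h2, h3, h4, h5⟩ := hn S A (insert e U) Hv Subset.rfl Subset.rfl
    (subset_insert _ _) (card_insert_le _ _) hM hG.hv2 hG.heavy hc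
  exact ⟨s(x, y), by simpa using h1, hG.free h2 h3
    (Or.inr ⟨fun h => hd (h ▸ hx), fun h => hd (h ▸ hy)⟩) h4, h5⟩

/-- A fresh first spoke. -/
lemma fresh_move {A B U C U2 : Pos} {b b2 d d' : ℕ} {S Hv Yn : Finset ℕ}
    (hG : Gd q.N q.D b b2 A B U C Hv {d} Yn d d') (h2 : U2 ⊆ U)
    (hY : ∀ y ∈ Yn, ∀ e ∈ U2, y ∉ e) :
    ∃ y, y ≠ d' ∧ s(y, d') ∉ B ∧
      Gd q.N q.D b b2 (insert s(y, d') A) B U C Hv {d} (insert y Yn) d d' ∧
      (∀ z ∈ insert y Yn, ∀ e ∈ U2, z ∉ e) ∧ y ∉ S ∧ s(y, d) ∉ B ∧ (nb U y).card ≤ q.D := by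
  obtain ⟨y, h3, h4⟩ := exists_fresh B (insert d (insert d' S))
  simp only [mem_insert, not_or] at h3
  refine ⟨y, h3.2.1, fun h => h4 _ h (by simp), (hG.mono (subset_insert _ _)).fresh
    (mem_singleton_self _) h3.1 (mem_insert_self _ _) h4, ?_, h3.2.2, fun h => h4 _ h (by simp), ?_⟩
  · intro z hz e he
    rcases mem_insert.1 hz with rfl | hz
    · exact h4 e (hG.sub (h2 he))
    · exact hY z hz e he
  · rw [card_eq_zero.2]
    · omega
    · exact eq_empty_of_forall_notMem fun z hz => h4 _ (hG.sub (mem_nb.1 hz)) (by simp)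

lemma P4.step (ok : Ok q H a1 a2) {A B : Pos} {e : Sym2 ℕ} (h : P4 q H a1 a2 A B)
    (hd : Disjoint A B) (heA : e ∉ A) (heB : e ∉ B) :
    ¬ Win H (insert e B) ∧
      ∃ f : Sym2 ℕ, ¬ f.IsDiag ∧ f ∉ insert e B ∧ Inv q H a1 a2 (insert f A) (insert e B) := by
  obtain ⟨b, b2, d, d', K, r, Lv, T, S, Hv, Yn, U, C, U2, h1, h2, h3, h4, h5, h6, h7, h8, h9⟩ := h
  have hbb : b ≠ b2 := (h3.2 _ h3.1).1.symm
  have hi := card_insert_le e U
  have hnd := ok.nd2 r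
  have hK : (insert e U).card ≤ K := by
    rcases h9 with ⟨m1, -⟩ | ⟨m1, -⟩ | ⟨m1, m2, -⟩ <;> unfold Par.rho at m1 <;> omega
  have k1 := h1.k1
  have k2 := h1.k2
  have k3 := h1.k3
  have hM := ok.hM
  have hdS : d ∉ S := fun h => by
    have := h4 d h
    rcases h1.dd with h | h <;> omega
  refine ⟨ok.tgt.safe4 (h2.post hd heA heB) h1.dd h3 h1.tl h1.t2 (h5.trans (subset_insert _ _)) h6
    h7 (by omega) (by omega) (by omega) ok.n1 ok.n2, ?_⟩
  obtain ⟨Hv', C', g1, ⟨f, f1, f2, ⟨g, hg, hge⟩, f4⟩ | g2⟩ := h2.step ok.hD hbb hd heA heB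
  · refine ⟨f, f1, f2, Or.inr (Or.inr (Or.inr (Or.inr ⟨b, b2, d, d', K, r, Lv, T, S, Hv', Yn, U,
      C', U2, h1, f4, h3.mono (subset_insert _ _), h4.mono (subset_insert _ _), h5, h6, h7.next g1,
      h8, h9.mono (subset_insert _ _) fun y y1 y2 y3 => ?_⟩)))⟩
    rcases mem_insert.1 y3 with y4 | y4
    · rw [← y4] at hge
      rcases Sym2.mem_iff.1 hge with rfl | rfl
      · exact absurd (f4.heavy g hg) (not_lt.2 y1)
      · exact f4.exd g hg (mem_singleton_self _)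
    · exact y2 y4
  have gp := g2 (insert e U) (subset_insert _ _) Subset.rfl (Or.inl (mem_insert_self _ _))
  have h5' := h5.trans (subset_insert e U)
  rcases h9 with ⟨m1, m2, m3⟩ | ⟨m1, m2, m3⟩ | ⟨m1, m2, m3, y, y1, y2, y3, y4, y5⟩
  · obtain ⟨f, f1, f2, f3⟩ := rim_move gp hdS (by omega) m2 m3
    refine ⟨f, f1, f2, ?_⟩
    cases r with
    | zero => exact Or.inl (ok.done b b2 S _ hbb (mem_insert_of_mem h2.hb)
        (h4.mono (subset_insert _ _)) f3)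
    | succ r =>
      refine Or.inr (Or.inr (Or.inr (Or.inr ⟨b, b2, d, d', K, r, Lv, T, S, Hv', Yn, _, C',
        U2, h1, gp.mono (subset_insert _ _), h3.mono (subset_insert _ _),
        h4.mono (subset_insert _ _), h5', h6, h7.next g1, by omega, ?_⟩)))
      unfold Par.rho at m1
      by_cases hc : q.nd r ≤ S.card
      · exact Or.inl ⟨by unfold Par.rho; omega, hc,
          Nx.mono f3 Subset.rfl Subset.rfl Subset.rfl (by omega)⟩
      · exact Or.inr (Or.inl ⟨by unfold Par.rho; omega, by have := ok.nd1 r; omega, f3⟩)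
  · obtain ⟨y, y1, y2, y3, y4, y5, y6, y7⟩ := fresh_move (S := S) gp h5' h6
    refine ⟨s(y, d'), by simpa using y1, y2, Or.inr (Or.inr (Or.inr (Or.inr ⟨b, b2, d, d', K, r,
      Lv, T, S, Hv', _, _, C', U2, h1, y3, h3.mono (subset_insert _ _),
      h4.mono (subset_insert _ _), h5', y4, h7.next g1, h8, Or.inr (Or.inr ⟨by omega, m2,
        m3.mono Subset.rfl (subset_insert _ _) (subset_insert _ _) (by omega), y,
        mem_insert_self _ _, y5, y1, y6, y7⟩)⟩)))⟩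
  · by_cases he : e = s(y, d)
    · have gd := g2 U Subset.rfl (subset_insert _ _) (Or.inr ⟨y, y1, he⟩)
      obtain ⟨z, z1, z2, z3, z4, z5, z6, z7⟩ := fresh_move (S := S) gd h5 h6
      exact ⟨s(z, d'), by simpa using z1, z2, Or.inr (Or.inr (Or.inr (Or.inr ⟨b, b2, d, d', K, r,
        Lv, T, S, Hv', _, _, C', U2, h1, z3, h3.mono (subset_insert _ _),
        h4.mono (subset_insert _ _), h5, z4, h7.next g1, h8, Or.inr (Or.inr ⟨m1, m2,
          m3.mono Subset.rfl (subset_insert _ _) Subset.rfl le_rfl, z,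
          mem_insert_self _ _, z5, z1, z6, z7⟩)⟩)))⟩
    · have y6 := h2.yn y y1
      refine ⟨s(y, d), by simpa using y6.2.1, fun h => (mem_insert.1 h).elim
        (fun h' => he h'.symm) y4, Or.inr (Or.inr (Or.inr (Or.inr ⟨b, b2, d, d', K, r,
        Lv, T, insert y S, Hv', Yn, _, C', U2, h1, gp.mono (subset_insert _ _),
        h3.mono (subset_insert _ _), ?_, h5', h6, h7.next g1, h8, Or.inl ⟨?_, ?_,
          m3.mono (subset_insert _ _) (subset_insert _ _) (subset_insert _ _) (by omega)⟩⟩)))⟩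
      · intro z hz
        rcases mem_insert.1 hz with rfl | hz
        · rcases h1.dd with ⟨rfl, rfl⟩ | ⟨rfl, rfl⟩
          · exact ⟨y6.2.1, y3, mem_insert_self _ _, mem_insert_of_mem y6.2.2⟩
          · exact ⟨y3, y6.2.1, mem_insert_of_mem y6.2.2, mem_insert_self _ _⟩
        · exact h4.mono (subset_insert _ _) z hz
      · unfold Par.rho at m1 ⊢
        rw [card_insert_of_notMem y2]
        omega
      · rw [card_insert_of_notMem y2]
        omega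

/-- The start of the last phase: the choice of the denial hub. -/
lemma C3.toP4 (ok : Ok q H a1 a2) {A B : Pos} {b b2 K r : ℕ} {Lv T S Hv : Finset ℕ} {U C : Pos}
    (h : C3 q A B b b2 K r Lv T S Hv U C) (hc : q.nd r = S.card + 1) (hn : q.nx r 3 S A U) :
    P4 q H a1 a2 A B := by
  obtain ⟨h1, h2, h3, h4, h5, h6, h7, h8, h9, h10⟩ := h
  have := ok.nd2 r
  have := ok.nd3 r h6 (q.cap - S.card) (by omega) (by omega)
  have key : ∀ d d', ((d = b ∧ d' = b2) ∨ (d = b2 ∧ d' = b)) → d ∉ Hv →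
      Cs H a1 a2 q.τ b b2 d Lv T Hv U → P4 q H a1 a2 A B := by
    intro d d' k1 k2 k3
    refine ⟨b, b2, d, d', U.card + q.rho r S, r, Lv, T, S, Hv, ∅, U, C, U,
      ⟨k1, h4, h5, by omega, by omega, by unfold Par.rho; omega⟩, ?_, h2, h3, Subset.rfl, by simp,
      k3, h6, Or.inr (Or.inl ⟨le_rfl, hc, hn⟩)⟩
    exact { h1 with
      cls := fun e he => by simpa using h1.cls e he
      und := fun k g g' k4 _ _ => h1.und k g g' k4 (by simp) (by simp)
      exd := fun g hg k => k2 (mem_singleton.1 k ▸ hg)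
      yn := by simp
      dead := by simp }
  by_cases hb : b ∈ Hv
  · exact key b2 b (Or.inr ⟨rfl, rfl⟩) (fun k => h1.nb2 ⟨hb, k⟩) (Or.inl ⟨rfl, hb⟩)
  rcases Hv.eq_empty_or_nonempty with h0 | h0
  swap
  · exact key b b2 (Or.inl ⟨rfl, rfl⟩) hb (Or.inr (Or.inl ⟨rfl, Or.inl h0⟩))
  by_cases ht : ∃ φ : V ↪ ℕ, (φ a1 = b ∨ φ a2 = b) ∧ (∀ v, φ v ∉ Lv) ∧
      ((U \ T.image (fun y => s(y, b2))) \ E H φ).card < q.τ
  · exact key b2 b (Or.inr ⟨rfl, rfl⟩) (by simp [h0]) (Or.inr (Or.inr ⟨rfl, ht⟩))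
  · push Not at ht
    exact key b b2 (Or.inl ⟨rfl, rfl⟩) hb (Or.inr (Or.inl ⟨rfl, Or.inr ht⟩))

lemma P3.step (ok : Ok q H a1 a2) {A B : Pos} {e : Sym2 ℕ} (h : P3 q A B)
    (hd : Disjoint A B) (heA : e ∉ A) (heB : e ∉ B) :
    ¬ Win H (insert e B) ∧
      ∃ f : Sym2 ℕ, ¬ f.IsDiag ∧ f ∉ insert e B ∧ Inv q H a1 a2 (insert f A) (insert e B) := by
  obtain ⟨b, b2, K, r, Lv, T, S, Hv, U, C, ⟨h1, h2, h3, h4, h5, h6, h7, h8, h9, h10⟩, m2, m3⟩ := h
  have hbb : b ≠ b2 := (h2.2 _ h2.1).1.symm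
  have hi := card_insert_le e U
  have hM := ok.hM
  have hp := h1.post hd heA heB
  unfold Par.rho at h7
  refine ⟨ok.tgt.safe0 hp (fun k g g' k1 => hp.und k g g' k1 (by simp) (by simp)) (by omega), ?_⟩
  obtain ⟨Hv', C', g1, ⟨f, f1, f2, -, f4⟩ | g2⟩ := h1.step ok.hD hbb hd heA heB
  · exact ⟨f, f1, f2, Or.inr (Or.inr (Or.inr (Or.inl ⟨b, b2, K, r, Lv, T, S, Hv', U, C',
      ⟨f4, h2.mono (subset_insert _ _), h3.mono (subset_insert _ _), h4, h5, h6, h7, h8, h9, h10⟩,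
      m2, m3.mono Subset.rfl (subset_insert _ _) Subset.rfl le_rfl⟩)))⟩
  have gp := g2 (insert e U) (subset_insert _ _) Subset.rfl (Or.inl (mem_insert_self _ _))
  obtain ⟨f, f1, f2, f3⟩ := rim_move gp (fun h => (h3 b2 h).2.1 rfl) (by omega) m2 m3
  refine ⟨f, f1, f2, ?_⟩
  cases r with
  | zero => exact Or.inl (ok.done b b2 S _ hbb (mem_insert_of_mem h1.hb)
      (h3.mono (subset_insert _ _)) f3)
  | succ r =>
    have hC : C3 q (insert f A) (insert e B) b b2 K r Lv T S Hv' (insert e U) C' :=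
      ⟨gp.mono (subset_insert _ _), h2.mono (subset_insert _ _), h3.mono (subset_insert _ _), h4,
        fun y hy => mem_insert_of_mem (h5 y hy), by omega, by unfold Par.rho; omega, h8, h9, h10⟩
    by_cases hc : q.nd r ≤ S.card
    · exact Or.inr (Or.inr (Or.inr (Or.inl ⟨b, b2, K, r, Lv, T, S, Hv', _, C', hC, hc,
        Nx.mono f3 Subset.rfl Subset.rfl Subset.rfl (by omega)⟩)))
    · exact Or.inr (Or.inr (Or.inr (Or.inr (hC.toP4 ok (by have := ok.nd1 r; omega) f3))))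

lemma C2.und {A B : Pos} {b b2 : ℕ} {Lv S Hv : Finset ℕ} {U C : Pos}
    (h : C2 q A B b b2 Lv S Hv U C) (h0 : Hv = ∅) (g g' : ℕ) (hne : g ≠ g') (hA : s(g, g') ∉ A) :
    psi A B g g' + 2 ≤ 2 * q.N := by
  obtain ⟨h1, h2, h3, h4, h5, h6, h7, h8⟩ := h
  have key : ∀ g, g ≠ b2 → s(g, b2) ∉ A → psi A B g b2 + 2 ≤ 2 * q.N := by
    intro g k1 k2
    rcases h8 h0 g k1 k2 with k | k
    · omega
    · have := card_le_card (subset_union_left (s₁ := al A B g b2) (s₂ := Opn U b2 Lv S))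
      unfold psi
      omega
  by_cases k1 : g' = b2
  · subst k1
    exact key g hne hA
  by_cases k2 : g = b2
  · subst k2
    rw [psi_symm]
    exact key g' k1 (Sym2.eq_swap ▸ hA)
  · exact h1.und h0 g g' hne (by simpa using k2) (by simpa using k1) hA

/-- The end of the second phase. -/
lemma C2.inv (ok : Ok q H a1 a2) {A B : Pos} {b b2 : ℕ} {Lv S Hv : Finset ℕ} {U C : Pos}
    (h : C2 q A B b b2 Lv S Hv U C) : Inv q H a1 a2 A B := by
  by_cases hk : S.card < q.cap ∧ 4 ≤ (Opn U b2 Lv S).card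
  · exact Or.inr (Or.inr (Or.inl ⟨b, b2, Lv, S, Hv, U, C, h, hk⟩))
  have hu := h.und
  obtain ⟨h1, h2, h3, h4, h5, h6, h7, h8⟩ := h
  set T := Lv.filter (fun y => s(y, b2) ∈ U) with hT
  have t1 : T.card ≤ (nb U b2).card := card_le_card fun y hy => mem_nb.2 (mem_filter.1 hy).2
  have t2 : Lv.card ≤ (S.card + T.card + (Opn U b2 Lv S).card) + 1 := by
    refine le_trans (card_le_card (t := insert b2 ((S ∪ T) ∪ Opn U b2 Lv S)) fun y hy => ?_)
      ((card_insert_le _ _).trans (Nat.succ_le_succ ((card_union_le _ _).trans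
        (add_le_add (card_union_le _ _) le_rfl))))
    simp only [mem_insert, mem_union, hT, Opn, mem_filter]
    tauto
  have := ok.hL
  have := ok.hM
  have := ok.he
  have := ok.a1
  have := ok.a4
  have := ok.a5
  have := ok.a6
  have := ok.a7
  have := ok.a8
  have hw : q.nd q.r0 ≤ S.card := by
    have := ok.nd2 q.r0
    omega
  have hG : Gd q.N q.D b b2 A B U C Hv ∅ ∅ b2 b :=
    { h1 with
      und := fun k g g' k4 _ _ => hu k g g' k4
      exd := by simp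
      yn := by simp }
  refine Or.inr (Or.inr (Or.inr (Or.inl ⟨b, b2, U.card + q.rho q.r0 S, q.r0, Lv, T, S, Hv, U, C,
    ⟨hG, h2, h4, filter_subset _ _, fun y hy => (mem_filter.1 hy).2, le_rfl, le_rfl, ?_, ?_, by omega⟩,
    hw, Nx.mono (ok.rim S A U) Subset.rfl Subset.rfl Subset.rfl (by omega)⟩)))
  · unfold Par.rho
    omega
  · unfold Par.rho
    omega

lemma P2.step (ok : Ok q H a1 a2) {A B : Pos} {e : Sym2 ℕ} (h : P2 q A B)
    (hd : Disjoint A B) (heA : e ∉ A) (heB : e ∉ B) :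
    ¬ Win H (insert e B) ∧
      ∃ f : Sym2 ℕ, ¬ f.IsDiag ∧ f ∉ insert e B ∧ Inv q H a1 a2 (insert f A) (insert e B) := by
  obtain ⟨b, b2, Lv, S, Hv, U, C, hC, m1, m2⟩ := h
  have hu := hC.und
  obtain ⟨h1, h2, h3, h4, h5, h6, h7, h8⟩ := hC
  have hbb : b ≠ b2 := (h2.2 _ h2.1).1.symm
  have hi := card_insert_le e U
  have hp := h1.post hd heA heB
  have := ok.a4
  refine ⟨ok.tgt.safe0 hp (fun k g g' k1 k2 => by
    have := hu k g g' k1 k2
    have := psi_insert_le A B e k1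
    omega) (by omega), ?_⟩
  obtain ⟨Hv', C', g1, ⟨f, f1, f2, ⟨g, hg, -⟩, f4⟩ | g2⟩ := h1.step ok.hD hbb hd heA heB
  · exact ⟨f, f1, f2, C2.inv ok ⟨f4, h2.mono (subset_insert _ _), h3,
      h4.mono (subset_insert _ _), h5, h6, h7, fun k => by simp [k] at hg⟩⟩
  have gp := g2 (insert e U) (subset_insert _ _) Subset.rfl (Or.inl (mem_insert_self _ _))
  have o1 := nb_le {e} b2
  rw [card_singleton] at o1
  have o2 := card_union_le Hv' (nb {e} b2)
  have o3 := gp.hv2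
  obtain ⟨y, hy, hy'⟩ := exists_mem_notMem_of_card_lt_card (s := Hv' ∪ nb {e} b2)
    (t := Opn U b2 Lv S) (by omega)
  have hy2 := hy
  simp only [Opn, mem_filter] at hy2
  simp only [mem_union, mem_nb, mem_singleton, not_or] at hy'
  have hb2 : b2 ∉ Hv' := fun k => gp.exd b2 k (mem_singleton_self _)
  have hf : s(y, b2) ∉ insert e B := gp.free hy'.1 hb2 (Or.inl rfl)
    fun k => (mem_insert.1 k).elim hy'.2 hy2.2.2.2
  have o4 := nb_grow (subset_insert e U) b2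
  have o5 := card_insert_of_notMem hy2.2.2.1
  refine ⟨s(y, b2), by simpa using hy2.2.1, hf, C2.inv ok (S := insert y S) (Hv := Hv') (C := C')
    ⟨gp.mono (subset_insert _ _), h2.mono (subset_insert _ _), h3, ?_, by omega, by omega,
      by omega, ?_⟩⟩
  · intro z hz
    rcases mem_insert.1 hz with rfl | hz
    · exact ⟨(h2.2 z hy2.1).1, hy2.2.1, mem_insert_of_mem (h2.2 z hy2.1).2, mem_insert_self _ _⟩
    · exact h4.mono (subset_insert _ _) z hz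
  · intro k g k1 k2
    have k0 : Hv = ∅ := by
      rcases Hv.eq_empty_or_nonempty with k0 | k0
      · exact k0
      · exact (g1 k0).symm.trans k
    rcases h8 k0 g k1 (fun k3 => k2 (mem_insert_of_mem k3)) with k3 | k3
    · have := psi_insert_le A B e k1
      have := psi_mono (subset_insert s(y, b2) A) (insert e B) g b2
      exact Or.inl (by omega)
    · right
      have u1 : al (insert s(y, b2) A) (insert e B) g b2 ∪ Opn (insert e U) b2 Lv (insert y S) ⊆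
          (al A (insert e B) g b2 ∪ Opn U b2 Lv S).erase y := by
        intro z hz
        rcases mem_union.1 hz with hz | hz
        · refine mem_erase.2 ⟨?_, mem_union_left _ (al_mono (subset_insert _ _) _ _ _ hz)⟩
          rintro rfl
          exact (mem_al.1 hz).2.2.2.2 (mem_insert_self _ _)
        · simp only [Opn, mem_filter, mem_insert, not_or] at hz
          exact mem_erase.2 ⟨hz.2.2.1.1, mem_union_right _ (mem_filter.2
            ⟨hz.1, hz.2.1, hz.2.2.1.2, hz.2.2.2.2⟩)⟩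
      have u2 := card_le_card u1
      have u3 := card_erase_add_one (mem_union_right (al A (insert e B) g b2) hy)
      have u4 := card_le_card (al_mono (subset_insert s(y, b2) A) (insert e B) b2 g)
      rcases al_insert A B e k1 with ⟨w1, w2⟩ | ⟨z, -, -, w1, w2⟩ | ⟨z, -, -, w1, w2⟩
      · have := card_le_card (union_subset_union w1 (Subset.refl (Opn U b2 Lv S)))
        have := card_le_card w2
        omega
      · have w3 := card_le_card (union_subset_union w1 (Subset.refl (Opn U b2 Lv S)))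
        rw [insert_union] at w3
        have := card_insert_le z (al A B g b2 ∪ Opn U b2 Lv S)
        have := card_le_card w2
        omega
      · have := card_le_card (union_subset_union w1 (Subset.refl (Opn U b2 Lv S)))
        have := (card_le_card w2).trans (card_insert_le _ _)
        omega

lemma P1.step (ok : Ok q H a1 a2) {A B : Pos} {e : Sym2 ℕ} (h : P1 q A B) :
    ¬ Win H (insert e B) ∧
      ∃ f : Sym2 ℕ, ¬ f.IsDiag ∧ f ∉ insert e B ∧ Inv q H a1 a2 (insert f A) (insert e B) := by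
  obtain ⟨Lv, h1, h2, h3⟩ := h
  have hi := card_insert_le e B
  have := ok.hL
  have := ok.hM
  have := ok.he
  have := ok.a1
  have := ok.a2
  have := ok.a3
  set B' := insert e B with hB'
  refine ⟨fun hw => ?_, ?_⟩
  · obtain ⟨φ, hE⟩ := win_E hw
    have := card_le_card hE
    have := ok.tgt.card_E φ
    omega
  by_cases hk : Lv.card < q.L
  · obtain ⟨y, y1, y2⟩ := exists_fresh B' (insert 0 Lv)
    simp only [mem_insert, not_or] at y1
    refine ⟨s(y, 0), by simpa using y1.1, fun k => y2 _ k (by simp), Or.inr (Or.inl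
      ⟨insert y Lv, fun z hz => ?_, ?_, ?_⟩)⟩
    · rcases mem_insert.1 hz with rfl | hz
      · exact ⟨y1.1, mem_insert_self _ _⟩
      · exact ⟨(h1 z hz).1, mem_insert_of_mem (h1 z hz).2⟩
    · rw [card_insert_of_notMem y1.2]; omega
    · rw [card_insert_of_notMem y1.2]; omega
  obtain ⟨gs, hgs⟩ : ∃ gs, ∀ g, g ≠ gs → (nb B' g).card + q.ν ≤ q.N + 1 := by
    by_cases k : ∃ gs, q.N + 1 < (nb B' gs).card + q.ν
    · obtain ⟨gs, k⟩ := k
      refine ⟨gs, fun g hg => ?_⟩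
      have := two_star B' hg
      omega
    · push Not at k
      exact ⟨0, fun g _ => k g⟩
  have key : ∀ b2 ∈ Lv, (nb B' b2).card ≤ q.D0 → ∀ A', A ⊆ A' →
      (s(gs, b2) ∈ A' ∨ (Lv \ nb B' gs).card ≤ q.Hc + 1) → Inv q H a1 a2 A' B' := by
    intro b2 k1 k2 A' hA k3
    refine C2.inv ok (b := 0) (b2 := b2) (Lv := Lv) (S := ∅) (Hv := ∅) (U := B') (C := ∅)
      ⟨⟨Subset.rfl, fun e he => Or.inl he, by simp, by simp, by simp, by simp, by simp, by simp,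
        fun _ g g' k4 _ _ _ => ?_, by simp, Sym2.eq_swap ▸ hA (h1 b2 k1).2, by simp, by simp,
        by simp⟩, ⟨k1, fun y hy => ⟨(h1 y hy).1, hA (h1 y hy).2⟩⟩, by omega,
        fun y hy => by simp at hy, by simp; omega, by simpa using k2, by simp,
        fun _ g k4 k5 => ?_⟩
    · have := psi_le A' B' g g'
      have := two_star B' k4
      omega
    · by_cases k6 : g = gs
      · subst k6
        right
        have k7 := k3.resolve_left k5
        have u1 : al A' B' g b2 ∪ Opn B' b2 Lv ∅ ⊆ nb B' g ∪ (Lv \ nb B' g) := by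
          rw [union_sdiff_self_eq_union]
          exact union_subset_union (al_sub _ _ _ _) (filter_subset _ _)
        have := (card_le_card u1).trans (card_union_le _ _)
        have := card_le_card (al_sub A' B' b2 g)
        have := nb_le B' g
        omega
      · left
        have := psi_le A' B' g b2
        have := hgs g k6
        simp only [card_empty]
        omega
  by_cases hc : (Lv \ nb B' gs).card ≤ q.Hc + 1
  · obtain ⟨y, y1, -, y3⟩ := exists_light (U := B') (M := q.M) (by omega) ok.hH (Y := Lv) (X := ∅)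
      (by simp; omega)
    obtain ⟨f, f1, f2⟩ := exists_new B'
    exact ⟨f, f1, f2, key y y1 y3 _ (subset_insert _ _) (Or.inr hc)⟩
  · obtain ⟨y, y1, y2, y3⟩ := exists_light (U := B') (M := q.M) (by omega) ok.hH
      (Y := Lv \ nb B' gs) (X := {gs}) (by simp only [card_singleton]; omega)
    rw [mem_sdiff, mem_nb] at y1
    exact ⟨s(y, gs), by simpa using y2, y1.2, key y y1.1 y3 _ (subset_insert _ _)
      (Or.inl (Sym2.eq_swap ▸ mem_insert_self _ _))⟩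

theorem Ok.draw (ok : Ok q H a1 a2) (p : ℕ) (hp : p < 2) : ¬ Wins H p := by
  refine not_wins H (fun hw => ?_) (Inv q H a1 a2) (Or.inr (Or.inl ⟨∅, by simp, by simp, by simp⟩))
    (fun A A' B h hA => h.mono hA) (fun A B e h hd he heA heB => ?_) p hp
  · obtain ⟨φ, hφ⟩ := hw
    simpa using hφ a1 a2 (ok.tgt.u2 a1 ok.tgt.ne)
  · rcases h with h | h | h | h | h
    · obtain ⟨f, f1, f2⟩ := exists_new (insert e B)
      exact ⟨Or.inl h, f, f1, f2, Or.inl (h.mono (subset_insert _ _))⟩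
    · exact ⟨Or.inr (h.step ok).1, (h.step ok).2⟩
    · exact ⟨Or.inr (h.step ok hd heA heB).1, (h.step ok hd heA heB).2⟩
    · exact ⟨Or.inr (h.step ok hd heA heB).1, (h.step ok hd heA heB).2⟩
    · exact ⟨Or.inr (h.step ok hd heA heB).1, (h.step ok hd heA heB).2⟩

end Pool.Agent.Lib.MP_bf69bb_co.Wh.Gen
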