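import Mathlib

set_option autoImplicit false

namespace Pool.Agent.Lib.MP_bf69bb_co.Wh.Gen

open Finset

/-- Vertices of the nested star graph. -/
def TV (s t : ℕ) : ℕ → Type
  | 0 => Fin t
  | l + 1 => Fin s × Option (TV s t l)

variable {s t : ℕ}

instance TV.fin : ∀ l, Fintype (TV s t l)
  | 0 => inferInstanceAs (Fintype (Fin t))
  | l + 1 => letI := TV.fin l; inferInstanceAs (Fintype (Fin s × Option (TV s t l)))

instance TV.dec : ∀ l, DecidableEq (TV s t l)
  | 0 => inferInstanceAs (DecidableEq (Fin t))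
  | l + 1 => letI := TV.dec l; inferInstanceAs (DecidableEq (Fin s × Option (TV s t l)))

/-- The cone over a graph. -/
def cone {W : Type} (G : SimpleGraph W) : SimpleGraph (Option W) where
  Adj
    | none, none => False
    | none, some _ => True
    | some _, none => True
    | some x, some y => G.Adj x y
  symm := ⟨by rintro (_ | x) (_ | y) h <;> first | exact h | exact G.adj_symm h⟩
  loopless := ⟨by rintro (_ | x) h <;> first | exact h | exact G.irrefl h⟩

/-- Disjoint copies of a graph. -/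
def copies (s : ℕ) {W : Type} (G : SimpleGraph W) : SimpleGraph (Fin s × W) where
  Adj x y := x.1 = y.1 ∧ G.Adj x.2 y.2
  symm := ⟨fun _ _ h => ⟨h.1.symm, h.2.symm⟩⟩
  loopless := ⟨fun _ h => G.irrefl h.2⟩

/-- The nested star graph. -/
def TG (s t : ℕ) : ∀ l, SimpleGraph (TV s t l)
  | 0 => ⊥
  | l + 1 => copies s (cone (TG s t l))

/-- Number of vertices. -/
def nv (s t : ℕ) : ℕ → ℕ
  | 0 => t
  | l + 1 => s * (nv s t l + 1)

/-- Number of edges. -/
def ne (s t : ℕ) : ℕ → ℕ
  | 0 => 0
  | l + 1 => s * (nv s t l + ne s t l)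

lemma card_TV : ∀ l, Fintype.card (TV s t l) = nv s t l
  | 0 => Fintype.card_fin t
  | l + 1 => by
    have : Fintype.card (TV s t (l + 1)) = Fintype.card (Fin s × Option (TV s t l)) := rfl
    rw [this, Fintype.card_prod, Fintype.card_option, card_TV l, Fintype.card_fin, nv]

open Classical in
/-- The degree. -/
noncomputable def dg {W : Type} [Fintype W] (G : SimpleGraph W) (v : W) : ℕ :=
  (univ.filter (G.Adj v)).card

section
variable {W : Type} [Fintype W] (G : SimpleGraph W)

lemma dg_copies (x : Fin s × W) : dg (copies s G) x = dg G x.2 := by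
  classical
  unfold dg
  symm
  refine card_bij (fun y _ => (x.1, y)) (fun y hy => ?_) (fun _ _ _ _ h => (Prod.ext_iff.1 h).2)
    fun y hy => ?_
  · simpa [copies] using hy
  · simp only [mem_filter, mem_univ, true_and, copies] at hy
    exact ⟨y.2, by simpa using hy.2, Prod.ext hy.1 rfl⟩

lemma dg_none : dg (cone G) none = Fintype.card W := by
  classical
  unfold dg
  symm
  refine card_bij (fun y _ => some y) (fun y hy => by simp [cone]) (fun _ _ _ _ h => by simpa using h)
    fun y hy => ?_
  rcases y with _ | y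
  · simp [cone] at hy
  · exact ⟨y, mem_univ _, rfl⟩

lemma dg_some (x : W) : dg (cone G) (some x) = dg G x + 1 := by
  classical
  unfold dg
  have h : univ.filter ((cone G).Adj (some x)) =
      insert none ((univ.filter (G.Adj x)).image some) := by
    ext y
    rcases y with _ | y <;> simp [cone]
  rw [show (univ.filter ((cone G).Adj (some x))).card = _ from by convert congrArg card h,
    card_insert_of_notMem (by simp), card_image_of_injective _ (Option.some_injective _)]

lemma dg_lt (v : W) : dg G v < Fintype.card W := by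
  classical
  unfold dg
  exact card_lt_card (filter_ssubset.2 ⟨v, mem_univ _, G.irrefl⟩)

end

lemma sum_dg : ∀ l, ∑ v, dg (TG s t l) v = 2 * ne s t l
  | 0 => by simp [dg, TG, ne]
  | l + 1 => by
    have h : ∑ v, dg (TG s t (l + 1)) v =
        ∑ v : Fin s × Option (TV s t l), dg (copies s (cone (TG s t l))) v := rfl
    rw [h, Fintype.sum_prod_type]
    simp only [dg_copies, Fintype.sum_option, dg_none, dg_some, sum_add_distrib, sum_dg l, card_TV,
      sum_const, card_univ, Fintype.card_fin, smul_eq_mul, ne]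
    ring

lemma dg_le (l : ℕ) (v : TV s t (l + 1)) : dg (TG s t (l + 1)) v ≤ nv s t l := by
  have h : dg (TG s t (l + 1)) v = dg (cone (TG s t l)) v.2 := dg_copies _ v
  have h2 := dg_lt (cone (TG s t l)) v.2
  rw [Fintype.card_option, card_TV] at h2
  omega

lemma TV_ne (hs : 0 < s) (_ht : 0 < t) : ∀ l, Nonempty (TV s t l)
  | 0 => ⟨⟨0, _ht⟩⟩
  | _ + 1 => ⟨(⟨0, hs⟩, none)⟩

/-- Every vertex and every edge lies in a clique of size `k`. -/
def Cov {W : Type} (G : SimpleGraph W) (k : ℕ) : Prop :=
  ∀ x y, (x = y ∨ G.Adj x y) → ∃ K : Finset W, G.IsNClique k K ∧ x ∈ K ∧ y ∈ K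

lemma Cov.cone {W : Type} [Nonempty W] {G : SimpleGraph W} {k : ℕ} (h : Cov G k) :
    Cov (cone G) (k + 1) := by
  classical
  have key : ∀ K : Finset W, G.IsNClique k K →
      (Gen.cone G).IsNClique (k + 1) (insert none (K.image some)) := by
    intro K hK
    refine ⟨?_, by rw [card_insert_of_notMem (by simp),
      card_image_of_injective _ (Option.some_injective _), hK.2]⟩
    rintro (_ | x) hx (_ | y) hy hne
    · exact absurd rfl hne
    · trivial
    · trivial
    · exact hK.1 (by simpa using hx) (by simpa using hy) fun h' => hne (congrArg _ h')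
  rintro (_ | x) (_ | y) hxy
  · obtain ⟨x⟩ := ‹Nonempty W›
    obtain ⟨K, h1, -⟩ := h x x (Or.inl rfl)
    exact ⟨_, key K h1, by simp, by simp⟩
  · obtain ⟨K, h1, h2, -⟩ := h y y (Or.inl rfl)
    exact ⟨_, key K h1, by simp, by simpa using h2⟩
  · obtain ⟨K, h1, h2, -⟩ := h x x (Or.inl rfl)
    exact ⟨_, key K h1, by simpa using h2, by simp⟩
  · obtain ⟨K, h1, h2, h3⟩ := h x y (hxy.imp (fun h' => by simpa using h') id)
    exact ⟨_, key K h1, by simpa using h2, by simpa using h3⟩

lemma Cov.copies {W : Type} {G : SimpleGraph W} {k : ℕ} (h : Cov G k) : Cov (copies s G) k := by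
  classical
  rintro ⟨i, x⟩ ⟨j, y⟩ hxy
  have h1 : i = j ∧ (x = y ∨ G.Adj x y) := by
    rcases hxy with h1 | h1
    · exact ⟨(Prod.ext_iff.1 h1).1, Or.inl (Prod.ext_iff.1 h1).2⟩
    · exact ⟨h1.1, Or.inr h1.2⟩
  obtain ⟨rfl, h2⟩ := h1
  obtain ⟨K, k1, k2, k3⟩ := h x y h2
  refine ⟨K.image (fun z => (i, z)), ⟨?_, ?_⟩, mem_image_of_mem _ k2, mem_image_of_mem _ k3⟩
  · intro a ha b hb hne
    obtain ⟨a, ha', rfl⟩ := mem_image.1 ha
    obtain ⟨b, hb', rfl⟩ := mem_image.1 hb
    exact ⟨rfl, k1.1 ha' hb' fun h' => hne (by rw [h'])⟩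
  · rw [card_image_of_injective _ fun a b h' => (Prod.ext_iff.1 h').2, k1.2]

lemma cov_TG (hs : 0 < s) (ht : 0 < t) : ∀ l, Cov (TG s t l) (l + 1)
  | 0 => by
    intro x y h
    obtain rfl : x = y := h.resolve_right (by simp [TG])
    exact ⟨{x}, by simp, by simp, by simp⟩
  | l + 1 => by
    have := TV_ne hs ht l
    exact (cov_TG hs ht l).cone.copies

end Pool.Agent.Lib.MP_bf69bb_co.Wh.Gen
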