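import Pool.Agent.Lib.MP_bf69bb_co.XMain
import Pool.Agent.Lib.MP_bf69bb_co.XTree

set_option autoImplicit false

namespace Pool.Agent.Lib.MP_bf69bb_co.Wh.Gen

open Finset

/-- A copy of `G` with vertices in `C` and edges in `A`. -/
def Emb {W : Type} (G : SimpleGraph W) (C : Finset ℕ) (A : Pos) : Prop :=
  ∃ ψ : W → ℕ, Function.Injective ψ ∧ (∀ x, ψ x ∈ C) ∧ ∀ x y, G.Adj x y → s(ψ x, ψ y) ∈ A

variable {W : Type} {G : SimpleGraph W}

lemma Emb.mono {C C' : Finset ℕ} {A A' : Pos} (h : Emb G C A) (hC : C ⊆ C') (hA : A ⊆ A') :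
    Emb G C' A' := by
  obtain ⟨ψ, h1, h2, h3⟩ := h
  exact ⟨ψ, h1, fun x => hC (h2 x), fun x y h => hA (h3 x y h)⟩

lemma emb_zero (C : Finset ℕ) (A : Pos) : Emb (copies 0 G) C A :=
  ⟨fun x => x.1.elim0, fun x => x.1.elim0, fun x => x.1.elim0, fun x => x.1.elim0⟩

lemma emb_cone {v : ℕ} {Lf : Finset ℕ} {A : Pos} (h1 : v ∉ Lf) (h2 : ∀ y ∈ Lf, s(v, y) ∈ A)
    (h : Emb G Lf A) : Emb (cone G) (insert v Lf) A := by
  obtain ⟨ψ, k1, k2, k3⟩ := h
  refine ⟨fun x => x.elim v ψ, ?_, ?_, ?_⟩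
  · rintro (_ | x) (_ | y) h
    · rfl
    · exact absurd (show v ∈ Lf from (show v = ψ y from h).symm ▸ k2 y) h1
    · exact absurd (show v ∈ Lf from (show ψ x = v from h) ▸ k2 x) h1
    · exact congrArg _ (k1 h)
  · rintro (_ | x)
    · exact mem_insert_self _ _
    · exact mem_insert_of_mem (k2 x)
  · rintro (_ | x) (_ | y) h
    · exact h.elim
    · exact h2 _ (k2 y)
    · exact Sym2.eq_swap ▸ h2 _ (k2 x)
    · exact k3 x y h

lemma emb_cons {j : ℕ} {C X : Finset ℕ} {A : Pos} (hX : X ⊆ C) (h0 : Emb G X A)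
    (h : Emb (copies j G) (C \ X) A) : Emb (copies (j + 1) G) C A := by
  obtain ⟨ψ, k1, k2, k3⟩ := h0
  obtain ⟨χ, m1, m2, m3⟩ := h
  refine ⟨fun x => Fin.cases (ψ x.2) (fun i => χ (i, x.2)) x.1, ?_, ?_, ?_⟩
  · rintro ⟨i, x⟩ ⟨i', y⟩ h
    induction i using Fin.cases <;> induction i' using Fin.cases <;>
      simp only [Fin.cases_zero, Fin.cases_succ] at h
    · rw [k1 h]
    · exact absurd (h ▸ k2 x) (mem_sdiff.1 (m2 _)).2
    · exact absurd (h.symm ▸ k2 y) (mem_sdiff.1 (m2 _)).2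
    · obtain ⟨h1, h2⟩ := Prod.mk.inj (m1 h)
      rw [h1, h2]
  · rintro ⟨i, x⟩
    induction i using Fin.cases
    · exact hX (k2 x)
    · exact (mem_sdiff.1 (m2 _)).1
  · rintro ⟨i, x⟩ ⟨i', y⟩ ⟨h1, h2⟩
    obtain rfl : i = i' := h1
    induction i using Fin.cases
    · exact k3 x y h2
    · exact m3 _ _ ⟨rfl, h2⟩

variable {D M D0 Hc g : ℕ} {nd : ℕ → ℕ} {Done : Finset ℕ → Pos → Prop}

lemma star {r' v : ℕ} {C : Finset ℕ} (n : ℕ) :
    ∀ (a : ℕ) (S : Finset ℕ) (A U : Pos) (Lf : Finset ℕ), v ∈ S → C ⊆ S → Lf ⊆ C →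
      (∀ y ∈ Lf, y ≠ v ∧ s(v, y) ∈ A) → (nb U v).card ≤ a → a + 3 * n ≤ D →
      Lf.card + a + 4 * n + 3 ≤ C.card → U.card ≤ M →
      (∀ (S' : Finset ℕ) (A' U' : Pos) (Lf' : Finset ℕ), S ⊆ S' → A ⊆ A' → Lf' ⊆ C →
        Lf'.card = Lf.card + n → (∀ y ∈ Lf', y ≠ v ∧ s(v, y) ∈ A') →
        U'.card ≤ M → Rk D M nd Done r' S' A' U') →
      Rk D M nd Done (r' + n) S A U := by
  induction n with
  | zero =>
    intro a S A U Lf _ _ e3 e4 _ _ _ e8 e9
    exact e9 S A U Lf Subset.rfl Subset.rfl e3 rfl e4 e8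
  | succ n ih =>
    intro a S A U Lf e1 e2 e3 e4 e5 e6 e7 _ e9 S' A' U' Hv k1 k2 k3 k4 k5 k6 k7 _
    have b1 := nb_grow k3 v
    have b2 : (insert v (Lf ∪ (Hv ∪ nb U' v))).card ≤ _ := (card_insert_le _ _).trans
      (Nat.succ_le_succ ((card_union_le _ _).trans (add_le_add le_rfl (card_union_le _ _))))
    obtain ⟨y, y1, y2⟩ := exists_mem_notMem_of_card_lt_card
      (s := insert v (Lf ∪ (Hv ∪ nb U' v))) (t := C) (by omega)
    simp only [mem_insert, mem_union, mem_nb, not_or] at y2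
    have b3 := card_insert_of_notMem y2.2.1
    refine ⟨v, k1 e1, y, k1 (e2 y1), fun h' => y2.1 h'.symm, fun h' => by have := k7 _ h'; omega,
      y2.2.2.1, Sym2.eq_swap ▸ y2.2.2.2, ih (a + 3) S' _ U' (insert y Lf) (k1 e1)
        (e2.trans k1) (insert_subset y1 e3) (fun z hz => ?_) (by omega) (by omega) (by omega) k5
        fun S2 A2 U2 Lf2 j1 j2 j3 j4 j5 j7 =>
          e9 S2 A2 U2 Lf2 (k1.trans j1) (k2.trans ((subset_insert _ _).trans j2)) j3 (by omega)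
            j5 j7⟩
    rcases mem_insert.1 hz with rfl | hz
    · exact ⟨y2.1, mem_insert_self _ _⟩
    · exact ⟨(e4 z hz).1, mem_insert_of_mem (k2 (e4 z hz).2)⟩

/-- `G` can be built in `m` moves inside any set of `a` vertices. -/
def Bld (D M : ℕ) (nd : ℕ → ℕ) (Done : Finset ℕ → Pos → Prop) (G : SimpleGraph W) (a m : ℕ) :
    Prop :=
  ∀ (r' : ℕ) (C S : Finset ℕ) (A U : Pos), C ⊆ S → a ≤ C.card → U.card ≤ M →
    (∀ (S' : Finset ℕ) (A' U' : Pos), S ⊆ S' → A ⊆ A' → U'.card ≤ M → Emb G C A' →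
      Rk D M nd Done r' S' A' U') → Rk D M nd Done (r' + m) S A U

lemma Bld.block {a m : ℕ} (h : Bld D M nd Done G a m) (hH : 2 * M ≤ Hc * (D0 + 1))
    (hg : D0 + Hc + 3 ≤ g) (hD : D0 + 3 * a ≤ D) (r' : ℕ) (C S : Finset ℕ) (A U : Pos)
    (h1 : C ⊆ S) (h2 : 4 * a + g ≤ C.card) (h3 : U.card ≤ M)
    (h4 : ∀ (S' X : Finset ℕ) (A' U' : Pos), S ⊆ S' → A ⊆ A' → U'.card ≤ M → X ⊆ C →
      X.card ≤ a + 1 → Emb (cone G) X A' → Rk D M nd Done r' S' A' U') :
    Rk D M nd Done (r' + (m + a)) S A U := by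
  obtain ⟨v, v1, -, v3⟩ := exists_light h3 hH (Y := C) (X := ∅) (by simp; omega)
  rw [← add_assoc]
  refine star (C := C) (v := v) a D0 S A U ∅ (h1 v1) h1 (empty_subset _) (by simp) v3 hD
    (by simp; omega) h3 fun S' A' U' Lf j1 j2 j3 j4 j5 j6 => ?_
  simp only [card_empty, zero_add] at j4
  refine h r' Lf S' A' U' (j3.trans (h1.trans j1)) j4.ge j6 fun S2 A2 U2 i1 i2 i3 i4 => ?_
  exact h4 S2 (insert v Lf) A2 U2 (j1.trans i1) (j2.trans i2) i3 (insert_subset v1 j3)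
    ((card_insert_le _ _).trans (by omega))
    (emb_cone (fun h' => (j5 v h').1 rfl) (fun y hy => i2 (j5 y hy).2) i4)

lemma Bld.blocks {a m : ℕ} (h : Bld D M nd Done G a m) (hH : 2 * M ≤ Hc * (D0 + 1))
    (hg : D0 + Hc + 3 ≤ g) (hD : D0 + 3 * a ≤ D) (j : ℕ) :
    Bld D M nd Done (copies j (cone G)) (j * (a + 1) + 3 * a + g) (j * (m + a)) := by
  induction j with
  | zero =>
    intro r' C S A U _ _ h3 h4
    simpa using h4 S A U Subset.rfl Subset.rfl h3 (emb_zero _ _)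
  | succ j ih =>
    intro r' C S A U h1 h2 h3 h4
    rw [add_mul j, one_mul] at h2
    rw [add_mul j, one_mul, ← add_assoc]
    refine h.block hH hg hD _ C S A U h1 (by omega) h3 fun S' X A' U' j1 j2 j3 j4 j5 j6 => ?_
    have := le_card_sdiff X C
    exact ih r' (C \ X) S' A' U' (sdiff_subset.trans (h1.trans j1)) (by omega) j3
      fun S2 A2 U2 i1 i2 i3 i4 => h4 S2 A2 U2 (j1.trans i1) (j2.trans i2) i3
        (emb_cons j4 (j6.mono Subset.rfl i2) i4)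

/-- The top level, where the board grows during the construction. -/
lemma Bld.top {a m s : ℕ} (h : Bld D M nd Done G a m) (hH : 2 * M ≤ Hc * (D0 + 1))
    (hg : D0 + Hc + 3 ≤ g) (hD : D0 + 3 * a ≤ D) (ha : 1 ≤ a)
    (hn : ∀ i j r, i + j + 1 = s → r + 1 = (j + 1) * (m + a) → i * (a + 1) + 4 * a + g ≤ nd r)
    (j : ℕ) : ∀ (i : ℕ) (Us S : Finset ℕ) (A U : Pos), i + j = s → Us.card ≤ i * (a + 1) →
      (∀ (S' : Finset ℕ) (A' : Pos), S ⊆ S' → A ⊆ A' → Emb (copies j (cone G)) (S' \ Us) A' →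
        Done S' A') → Rk D M nd Done (j * (m + a)) S A U := by
  induction j with
  | zero =>
    intro i Us S A U _ _ h3
    rw [zero_mul]
    exact h3 S A Subset.rfl Subset.rfl (emb_zero _ _)
  | succ j ih =>
    intro i Us S A U h1 h2 h3
    obtain ⟨r, hr⟩ : ∃ r, r + 1 = (j + 1) * (m + a) :=
      ⟨(j + 1) * (m + a) - 1, Nat.sub_add_cancel (Nat.mul_pos (by omega) (by omega))⟩
    have h4 := hn i j r (by omega) hr
    rw [← hr]
    intro S' A' U' Hv k1 k2 k3 k4 k5 k6 k7 k8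
    have key : Rk D M nd Done (r + 1) S' A' U' := by
      rw [hr, add_mul j, one_mul]
      have := le_card_sdiff Us S'
      refine h.block hH hg hD _ (S' \ Us) S' A' U' sdiff_subset (by omega) k5
        fun S2 X A2 U2 j1 j2 _ j4 j5 j6 => ih (i + 1) (Us ∪ X) S2 A2 U2 (by omega)
          ((card_union_le _ _).trans (by rw [add_mul i, one_mul]; omega))
          fun S3 A3 i1 i2 i3 => h3 S3 A3 (k1.trans (j1.trans i1)) (k2.trans (j2.trans i2))
            (emb_cons (j4.trans (sdiff_subset_sdiff (j1.trans i1) Subset.rfl))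
              (j6.mono Subset.rfl i2) ?_)
      exact i3.mono (fun z hz => by simp only [mem_sdiff, mem_union] at hz ⊢; tauto) Subset.rfl
    exact key S' A' U' Hv Subset.rfl Subset.rfl Subset.rfl (by omega) k5 k6 k7 k8

/-- Board size and number of moves for the nested stars. -/
def az (s t g : ℕ) : ℕ → ℕ
  | 0 => t
  | l + 1 => s * (az s t g l + 1) + 3 * az s t g l + g

def mv (s t g : ℕ) : ℕ → ℕ
  | 0 => 0
  | l + 1 => s * (mv s t g l + az s t g l)

lemma bld_TG {s t : ℕ} (hH : 2 * M ≤ Hc * (D0 + 1)) (hg : D0 + Hc + 3 ≤ g) :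
    ∀ l, D0 + az s t g l ≤ D → Bld D M nd Done (TG s t l) (az s t g l) (mv s t g l)
  | 0, _ => by
    intro r' C S A U _ h2 h3 h4
    refine h4 S A U Subset.rfl Subset.rfl h3 ?_
    obtain ⟨X, h5, h6⟩ := exists_subset_card_eq h2
    exact ⟨X.orderEmbOfFin h6, (X.orderEmbOfFin h6).injective,
      fun x => h5 (X.orderEmbOfFin_mem h6 x), fun x y h => h.elim⟩
  | l + 1, h => by
    simp only [az] at h
    exact (bld_TG hH hg l (by omega)).blocks hH hg (by omega) s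

end Pool.Agent.Lib.MP_bf69bb_co.Wh.Gen
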